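import Pool.Agent.Lib.MP_68c55c_lc.Rad
import Pool.Agent.Shared.BakerGap

/-!
Admissible parameters of a perfect 2-code: elementary consequences and the effective bound.
-/

set_option autoImplicit false

namespace Pool.Agent.Lib.MP_68c55c_lc

open Finset

/-- The arithmetic conditions on `q`, the root difference `s` and the smaller root `x`. -/
structure Adm (q s x : ℕ) : Prop where
  hq : 2 ≤ q
  hs : 2 ≤ s
  hx : 1 ≤ x
  eq : 4 * x + 2 * s + q = q * s ^ 2 + 6
  dvd : q - 1 ∣ s ^ 2 - 1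
  rad : ∀ p : ℕ, p.Prime → p ∣ x * (x + s) * s → p ∣ 2 * q

theorem exists_adm {q n : ℕ} (C : Finset (Fin n → Fin q))
    (hC : ∀ x : Fin n → Fin q, ∃! c : Fin n → Fin q, c ∈ C ∧ hammingDist x c ≤ 2)
    (h2 : 2 ≤ C.card) : ∃ s x, Adm q s x := by
  have hq : 2 ≤ q := by
    by_contra hq
    have : Subsingleton (Fin q) := Fin.subsingleton_iff_le_one.2 (by omega)
    have := Finset.card_le_one_of_subsingleton C
    omega
  obtain ⟨s, x, hs, hx, e1, e2, e3, e4, e5⟩ := params_rad C hC hq h2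
  refine ⟨s, x, hq, hs, hx, e1, ?_, fun p hp hd => ?_⟩
  · have h1 : ((q - 1 : ℕ) : ℤ) ∣ (q : ℤ) ^ 2 * ((s ^ 2 - 1 : ℕ) : ℤ) := by
      rw [Nat.cast_sub (by omega), Nat.cast_sub (Nat.one_le_pow _ _ (by omega))]
      push_cast
      rw [← e2]
      exact ⟨4 * ((n : ℤ) - 2), by ring⟩
    have h2 : q - 1 ∣ q ^ 2 * (s ^ 2 - 1) := by exact_mod_cast h1
    have h3 : Nat.Coprime (q - 1) q := by
      obtain ⟨m, rfl⟩ : ∃ m, q = m + 1 := ⟨q - 1, by omega⟩
      simp
    exact (h3.pow_right 2).dvd_of_dvd_mul_left h2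
  · have h1 : ∀ m, m ∣ 2 * q ^ n → p ∣ m → p ∣ 2 * q := by
      intro m hm hpm
      rcases (Nat.Prime.dvd_mul hp).1 (hpm.trans hm) with h | h
      · exact h.mul_right _
      · exact (hp.dvd_of_dvd_pow h).mul_left _
    rcases (Nat.Prime.dvd_mul hp).1 hd with h | h
    · exact h1 _ e3 h
    · rcases (Nat.Prime.dvd_mul hp).1 (h.trans e4) with h | h
      · exact h1 _ e3 (h.mul_right _)
      · exact (hp.dvd_of_dvd_pow (h.trans e5)).mul_left _

namespace Adm

variable {q s x : ℕ} (h : Adm q s x)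
include h

theorem q_le : q ≤ s ^ 2 := by
  have h1 : 2 ^ 2 ≤ s ^ 2 := Nat.pow_le_pow_left h.hs 2
  have := Nat.le_of_dvd (by omega) h.dvd
  omega

theorem sq_le : s ^ 2 ≤ 4 * x := by
  have h1 := h.eq
  have h2 := h.hs
  obtain ⟨m, rfl⟩ := Nat.exists_eq_add_of_le h.hq
  have : m * 1 ≤ m * s ^ 2 := Nat.mul_le_mul_left _ (Nat.one_le_pow _ _ (by omega))
  nlinarith

theorem le_four : x + s ≤ s ^ 4 := by
  have h1 := h.eq
  have h2 := h.hs
  have h3 : q * s ^ 2 ≤ s ^ 2 * s ^ 2 := Nat.mul_le_mul_right _ h.q_le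
  have h4 : 2 * s ≤ s ^ 2 := by nlinarith
  have h5 : 4 * s ^ 2 ≤ s ^ 2 * s ^ 2 := Nat.mul_le_mul_right _ (by nlinarith)
  have h6 : s ^ 4 = s ^ 2 * s ^ 2 := by ring
  omega

theorem not_two {p : ℕ} (hp : p.Prime) (h5 : 5 ≤ p) (h1 : p ∣ x) (h2 : p ∣ s) : False := by
  have h3 : p ∣ 2 * q := h.rad p hp (h2.mul_left _)
  have h4 : p ∣ q := ((Nat.Prime.dvd_mul hp).1 h3).resolve_left fun h => by
    have := Nat.le_of_dvd (by norm_num) h; omega
  have h6 : p ∣ q * s ^ 2 + 6 := h.eq ▸ dvd_add (dvd_add (h1.mul_left _) (h2.mul_left _)) h4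
  have h7 : p ∣ 2 * 3 := (Nat.dvd_add_right (h4.mul_right _)).1 h6
  rcases (Nat.Prime.dvd_mul hp).1 h7 with h | h <;>
  · have := Nat.le_of_dvd (by norm_num) h; omega

end Adm

theorem two_pow_card_le {m : ℕ} (hm : m ≠ 0) : 2 ^ m.primeFactors.card ≤ m :=
  (pow_card_le_prod _ _ 2 fun _ hp => (Nat.prime_of_mem_primeFactors hp).two_le).trans
    (Nat.le_of_dvd (Nat.pos_of_ne_zero hm) (Nat.prod_primeFactors_dvd m))

theorem eq_prod {v : ℕ} (hv : v ≠ 0) {S : Finset ℕ} (hS : v.primeFactors ⊆ S) :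
    v = ∏ p ∈ S, p ^ v.factorization p := by
  conv_lhs => rw [← Nat.prod_factorization_pow_eq_self hv]
  exact Finsupp.prod_of_support_subset _ hS _ (by simp)

theorem factorization_le_log {v : ℕ} (hv : v ≠ 0) (p : ℕ) : v.factorization p ≤ Nat.log 2 v := by
  by_cases hp : p.Prime
  · exact Nat.le_log_of_pow_le (by norm_num) ((Nat.pow_le_pow_left hp.two_le _).trans
      (Nat.le_of_dvd (Nat.pos_of_ne_zero hv) (Nat.ordProj_dvd v p)))
  · simp [Nat.factorization_eq_zero_of_not_prime _ hp]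

theorem Adm.log_le {q s x D : ℕ} (h : Adm q s x) (hD : 8 ≤ D) (hq : 2 * q ≤ 2 ^ D) :
    Nat.log 2 s ≤ 2 ^ (2 ^ 20 * D ^ 2) + 7 := by
  obtain ⟨N, hN⟩ : ∃ N, N = 2 ^ (2 ^ 20 * D ^ 2) := ⟨_, rfl⟩
  rw [← hN]
  by_contra hc
  obtain ⟨T, hT⟩ : ∃ T, Nat.log 2 s = T + 3 := ⟨Nat.log 2 s - 3, by omega⟩
  have hT4 : 4 ≤ T := by omega
  have hs0 : s ≠ 0 := by have := h.hs; omega
  have hx0 : x ≠ 0 := by have := h.hx; omega
  have hq0 : 2 * q ≠ 0 := by have := h.hq; omega
  have hs1 : 2 ^ (T + 3) ≤ s := hT ▸ Nat.pow_log_le_self 2 hs0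
  have hs2 : s < 2 ^ (T + 4) := by
    have := Nat.lt_pow_succ_log_self (b := 2) (by norm_num) s
    rwa [hT] at this
  let S := (2 * q).primeFactors
  have hlog : ∀ v : ℕ, v ≠ 0 → v ∣ x * (x + s) * s →
      Real.log v = ∑ p : S, (v.factorization p : ℝ) * Real.log (p : ℕ) := by
    intro v hv hd
    have h1 : v.primeFactors ⊆ S := fun p hp => Nat.mem_primeFactors.2
      ⟨Nat.prime_of_mem_primeFactors hp, h.rad p (Nat.prime_of_mem_primeFactors hp)
        ((Nat.dvd_of_mem_primeFactors hp).trans hd), hq0⟩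
    conv_lhs => rw [eq_prod hv h1]
    push_cast
    rw [Real.log_prod fun p hp => by
      have := (Nat.prime_of_mem_primeFactors hp).pos; positivity]
    simp only [Real.log_pow]
    exact (Finset.sum_coe_sort S fun p => (v.factorization p : ℝ) * Real.log p).symm
  have hΛ : ∑ p : S, ((((x + s).factorization p : ℤ) - x.factorization p : ℤ) : ℝ) *
      Real.log (p : ℕ) = Real.log ((x + s : ℕ) : ℝ) - Real.log x := by
    rw [hlog _ (by omega) ((Dvd.intro_left _ rfl).mul_right _),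
      hlog _ hx0 ((Dvd.intro _ rfl).mul_right _), ← sum_sub_distrib]
    refine sum_congr rfl fun p _ => ?_
    push_cast
    ring
  have hx' : (0 : ℝ) < x := by positivity
  have hs' : (0 : ℝ) < s := by positivity
  have hpos : 0 < Real.log ((x + s : ℕ) : ℝ) - Real.log x :=
    sub_pos.2 (Real.log_lt_log hx' (by push_cast; linarith))
  have hv : ∀ v : ℕ, v ≠ 0 → v ≤ x + s → ∀ p, v.factorization p ≤ D * T := by
    intro v hv hle p
    refine (factorization_le_log hv p).trans ?_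
    have h1 : v < 2 ^ (4 * (T + 4)) := by
      rw [mul_comm, pow_mul]
      exact (hle.trans h.le_four).trans_lt (Nat.pow_lt_pow_left hs2 (by norm_num))
    have h2 := Nat.log_lt_of_lt_pow hv h1
    have h3 : 8 * T ≤ D * T := Nat.mul_le_mul_right _ hD
    omega
  have := Pool.Agent.Shared.TwoLogsProd.baker_gap (fun p : S => (p : ℕ)) (D := D) (T := T)
    (by
      rw [Fintype.card_coe]
      exact (Nat.pow_le_pow_iff_right (by norm_num)).1 ((two_pow_card_le hq0).trans hq))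
    (by omega) (fun p => (Nat.prime_of_mem_primeFactors p.2).one_le)
    (fun p => (Nat.le_of_mem_primeFactors p.2).trans hq)
    (fun p => ((x + s).factorization p : ℤ) - x.factorization p)
    (fun p => by
      have h1 := hv (x + s) (by omega) le_rfl p
      have h2 := hv x hx0 (by omega) p
      rw [← Nat.cast_mul, abs_le]
      omega)
    (by rw [hΛ]; exact hpos.ne')
    (by
      rw [hΛ, abs_of_pos hpos, ← Real.log_div (by positivity) hx'.ne']
      have h1 := Real.log_le_sub_one_of_pos (x := ((x + s : ℕ) : ℝ) / x) (by positivity)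
      have h2 : ((x + s : ℕ) : ℝ) / x - 1 = s / x := by push_cast; field_simp; ring
      have h3 : (s : ℝ) ^ 2 ≤ 4 * x := by exact_mod_cast h.sq_le
      have h4 : (2 : ℝ) ^ T * 8 ≤ s := by
        rw [pow_add] at hs1
        exact_mod_cast hs1
      have h5 : (2 : ℝ) ^ T * (s / x) < 1 := by
        rw [← mul_div_assoc, div_lt_one hx']
        nlinarith
      exact lt_of_le_of_lt (by rw [← h2]; gcongr) h5)
  rw [← hN] at this
  omega

end Pool.Agent.Lib.MP_68c55c_lc
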