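import Pool.Agent.Lib.MP_68c55c_lc.Adm

/-!
A gap principle for admissible parameters.
-/

set_option autoImplicit false

namespace Pool.Agent.Lib.MP_68c55c_lc

open Finset

/-- The rounded exponent vector. -/
def cell (τ v p : ℕ) : ℕ := v.factorization p * Nat.log 2 p / τ

theorem sum_cell {S : Finset ℕ} (hS : ∀ p ∈ S, p.Prime) {v W : ℕ} (τ : ℕ) (hv : v ≠ 0)
    (hvS : v.primeFactors ⊆ S) (hW : v ≤ 2 ^ W) : τ * ∑ p ∈ S, cell τ v p ≤ W := by
  have h1 : 2 ^ (∑ p ∈ S, v.factorization p * Nat.log 2 p) ≤ 2 ^ W := by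
    refine le_trans ?_ hW
    conv_rhs => rw [eq_prod hv hvS]
    rw [← prod_pow_eq_pow_sum]
    refine prod_le_prod' fun p hp => ?_
    rw [mul_comm, pow_mul]
    exact Nat.pow_le_pow_left (Nat.pow_log_le_self 2 (hS p hp).ne_zero) _
  refine le_trans ?_ ((Nat.pow_le_pow_iff_right (by norm_num)).1 h1)
  rw [mul_sum]
  exact sum_le_sum fun p _ => Nat.mul_div_le _ _

theorem cell_ratio {S : Finset ℕ} (hS : ∀ p ∈ S, p.Prime) {v v' τ : ℕ} (hτ : 1 ≤ τ) (hv : v ≠ 0)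
    (hv' : v' ≠ 0) (hvS : v.primeFactors ⊆ S) (hvS' : v'.primeFactors ⊆ S)
    (h : ∀ p ∈ S, cell τ v p = cell τ v' p) :
    ∃ a b : ℕ, a ≠ 0 ∧ b ≠ 0 ∧ a ≤ 2 ^ (2 * (τ - 1) * S.card) ∧ b ≤ 2 ^ (2 * (τ - 1) * S.card) ∧
      a.primeFactors ⊆ S ∧ b.primeFactors ⊆ S ∧ v * b = v' * a := by
  have key : ∀ v v' : ℕ, (∀ p ∈ S, cell τ v p = cell τ v' p) →
      ∏ p ∈ S, p ^ (v.factorization p - v'.factorization p) ≠ 0 ∧
      ∏ p ∈ S, p ^ (v.factorization p - v'.factorization p) ≤ 2 ^ (2 * (τ - 1) * S.card) ∧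
      (∏ p ∈ S, p ^ (v.factorization p - v'.factorization p)).primeFactors ⊆ S := by
    intro v v' h
    refine ⟨prod_ne_zero_iff.2 fun p hp => pow_ne_zero _ (hS p hp).ne_zero, ?_, fun r hr => ?_⟩
    · rw [pow_mul]
      refine prod_le_pow_card _ _ _ fun p hp => ?_
      have h1 : 1 ≤ Nat.log 2 p := Nat.le_log_of_pow_le (by norm_num) (hS p hp).two_le
      have h2 : p < 2 ^ (Nat.log 2 p + 1) := Nat.lt_pow_succ_log_self (by norm_num) p
      have h3 : p ≤ 2 ^ (2 * Nat.log 2 p) :=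
        h2.le.trans (Nat.pow_le_pow_right (by norm_num) (by omega))
      refine (Nat.pow_le_pow_left h3 _).trans ?_
      rw [← pow_mul]
      refine Nat.pow_le_pow_right (by norm_num) ?_
      have h4 := h p hp
      unfold cell at h4
      have h5 := Nat.lt_mul_div_succ (v.factorization p * Nat.log 2 p) hτ
      have h6 := Nat.mul_div_le (v'.factorization p * Nat.log 2 p) τ
      rw [h4, mul_add] at h5
      rw [mul_assoc, mul_comm (Nat.log 2 p), Nat.sub_mul]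
      omega
    · have hr1 := Nat.prime_of_mem_primeFactors hr
      obtain ⟨p, hp, hd⟩ := (Prime.dvd_finsetProd_iff hr1.prime _).1
        (Nat.dvd_of_mem_primeFactors hr)
      rwa [(Nat.prime_dvd_prime_iff_eq hr1 (hS p hp)).1 (hr1.dvd_of_dvd_pow hd)]
  obtain ⟨a1, a2, a3⟩ := key v v' h
  obtain ⟨b1, b2, b3⟩ := key v' v fun p hp => (h p hp).symm
  refine ⟨_, _, a1, b1, a2, b2, a3, b3, ?_⟩
  have e := eq_prod hv hvS
  have e' := eq_prod hv' hvS'
  generalize v.factorization = f at *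
  generalize v'.factorization = f' at *
  rw [e, e', ← prod_mul_distrib, ← prod_mul_distrib]
  refine prod_congr rfl fun p _ => ?_
  rw [← pow_add, ← pow_add]
  congr 1
  omega

theorem liou1 {q s y ρ q' s' y' ρ' a b c d H : ℤ} (e : 4 * y = q * s ^ 2 + ρ)
    (e' : 4 * y' = q' * s' ^ 2 + ρ') (hρ : |ρ| ≤ 3 * s) (hρ' : |ρ'| ≤ 3 * s')
    (ha0 : 0 ≤ a) (hb0 : 0 ≤ b) (hc0 : 0 ≤ c) (hd0 : 0 ≤ d)
    (ha : a ≤ H) (hb : b ≤ H) (hc : c ≤ H) (hd : d ≤ H) (h1 : y * b = y' * a)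
    (h2 : s * d = s' * c) (hs : 8 * H ^ 3 < s) (hs' : 8 * H ^ 3 < s') :
    b * c ^ 2 * q = a * d ^ 2 * q' := by
  have hH : 0 ≤ H := ha0.trans ha
  have hH3 : 0 ≤ H ^ 3 := by positivity
  have hs0 : 0 < s := by linarith
  have hs0' : 0 < s' := by linarith
  have k : (b * c ^ 2 * q - a * d ^ 2 * q') * (s ^ 2 * s' ^ 2) =
      a * d ^ 2 * s ^ 2 * ρ' - b * c ^ 2 * s' ^ 2 * ρ := by
    linear_combination (-b * c ^ 2 * s' ^ 2) * e + (a * d ^ 2 * s ^ 2) * e' +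
      4 * c ^ 2 * s' ^ 2 * h1 - 4 * a * y' * (s * d + s' * c) * h2
  have k1 := (congrArg abs k).le.trans (abs_sub _ _)
  rw [abs_mul, abs_mul _ ρ, abs_mul _ ρ', abs_of_nonneg (by positivity : 0 ≤ s ^ 2 * s' ^ 2),
    abs_of_nonneg (by positivity : 0 ≤ a * d ^ 2 * s ^ 2),
    abs_of_nonneg (by positivity : 0 ≤ b * c ^ 2 * s' ^ 2)] at k1
  have k2 : a * d ^ 2 * s ^ 2 * |ρ'| ≤ H * H ^ 2 * s ^ 2 * (3 * s') := by gcongr
  have k3 : b * c ^ 2 * s' ^ 2 * |ρ| ≤ H * H ^ 2 * s' ^ 2 * (3 * s) := by gcongr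
  have k4 : 8 * H ^ 3 * (s ^ 2 * s') ≤ s' * (s ^ 2 * s') := by gcongr
  have k5 : 8 * H ^ 3 * (s' ^ 2 * s) ≤ s * (s' ^ 2 * s) := by gcongr
  have k6 : 0 < s ^ 2 * s' ^ 2 := by positivity
  have k7 : |b * c ^ 2 * q - a * d ^ 2 * q'| * (s ^ 2 * s' ^ 2) < 1 * (s ^ 2 * s' ^ 2) := by
    nlinarith
  exact sub_eq_zero.1 (Int.abs_lt_one_iff.1 (lt_of_mul_lt_mul_right k7 k6.le))

theorem liou2 {s x s' x' a b c d H : ℤ} (e : s ^ 2 ≤ 4 * x) (e' : s' ^ 2 ≤ 4 * x')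
    (ha0 : 0 < a) (hb0 : 0 < b) (hc0 : 0 < c) (hd0 : 0 < d)
    (ha : a ≤ H) (hb : b ≤ H) (hc : c ≤ H) (hd : d ≤ H) (h1 : x * b = x' * a)
    (h2 : (x + s) * d = (x' + s') * c) (hs : 8 * H ^ 3 < s) (hs' : 8 * H ^ 3 < s') :
    s * b = s' * a := by
  have hH : 1 ≤ H := ha0.trans_le ha
  have hH3 : H ^ 2 ≤ H ^ 3 := pow_le_pow_right₀ hH (by norm_num)
  have hH2 : 0 < H ^ 2 := by positivity
  have hs0 : 0 < s := by linarith
  have hs0' : 0 < s' := by linarith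
  have hx : 0 < x := by nlinarith
  have hx' : 0 < x' := by nlinarith
  have k : (d * a - c * b) * (x * x') = b * c * (x * s') - a * d * (s * x') := by
    linear_combination (a * x') * h2 - c * (x' + s') * h1
  have k1 := (congrArg abs k).le.trans (abs_sub _ _)
  rw [abs_mul, abs_of_pos (by positivity : 0 < x * x'),
    abs_of_pos (by positivity : 0 < b * c * (x * s')),
    abs_of_pos (by positivity : 0 < a * d * (s * x'))] at k1
  have k2 : b * c * (x * s') ≤ H * H * (x * s') := by gcongr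
  have k3 : a * d * (s * x') ≤ H * H * (s * x') := by gcongr
  have k4 : 8 * H ^ 2 * s < 4 * x := by nlinarith
  have k5 : 8 * H ^ 2 * s' < 4 * x' := by nlinarith
  have k6 : 8 * H ^ 2 * s * x' < 4 * x * x' := by gcongr
  have k7 : 8 * H ^ 2 * s' * x < 4 * x' * x := by gcongr
  have k8 : |d * a - c * b| * (x * x') < 1 * (x * x') := by nlinarith
  have k9 := Int.abs_lt_one_iff.1 (lt_of_mul_lt_mul_right k8 (by positivity))
  have k10 : a * (d * (s * b - s' * a)) = 0 := by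
    linear_combination (a * b) * h2 - (a * s' + b * x) * k9 - b * c * h1
  have := (mul_eq_zero.1 ((mul_eq_zero.1 k10).resolve_left ha0.ne')).resolve_left hd0.ne'
  linarith

end Pool.Agent.Lib.MP_68c55c_lc
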