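import Pool.Agent.Lib.MP_68c55c_lc.Cells

/-!
Counting alphabet sizes with admissible parameters.
-/

set_option autoImplicit false

namespace Pool.Agent.Lib.MP_68c55c_lc

open Finset

/-- Two of the three numbers `x`, `x + s`, `s`. -/
def pr (j : Fin 3) (s x : ℕ) : ℕ × ℕ := ![(x, x + s), (x, s), (x + s, s)] j

theorem eq_of_units {S : Finset ℕ} {q q' A B : ℕ} (hq : q ≠ 0) (hq' : q' ≠ 0) (hA : A ≠ 0)
    (hB : B ≠ 0) (hAS : A.primeFactors ⊆ S) (hBS : B.primeFactors ⊆ S) (h : A * q = B * q')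
    (hf : ∀ p ∈ S, q.factorization p = q'.factorization p) : q = q' := by
  refine Nat.eq_of_factorization_eq hq hq' fun p => ?_
  by_cases hp : p ∈ S
  · exact hf p hp
  · have h1 := congrArg (fun m => m.factorization p) h
    simp only [Nat.factorization_mul hA hq, Nat.factorization_mul hB hq', Finsupp.add_apply] at h1
    rwa [(Finsupp.notMem_support_iff (f := A.factorization)).1 (fun h => hp (hAS h)),
      (Finsupp.notMem_support_iff (f := B.factorization)).1 (fun h => hp (hBS h)), zero_add,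
      zero_add] at h1

theorem Adm.pr_ne {q s x : ℕ} (h : Adm q s x) (j : Fin 3) :
    (pr j s x).1 ≠ 0 ∧ (pr j s x).2 ≠ 0 ∧ (pr j s x).1 ≤ s ^ 4 ∧ (pr j s x).2 ≤ s ^ 4 := by
  have h1 := h.hs
  have h2 := h.hx
  have h3 := h.le_four
  fin_cases j <;> simp [pr] <;> omega

theorem same_cell {q s x q' s' x' D i τ : ℕ} {j : Fin 3} {S : Finset ℕ} (h : Adm q s x)
    (h' : Adm q' s' x') (hS : ∀ p ∈ S, p.Prime) (hSD : S.card ≤ D) (hD : 8 ≤ D) (hq : q ≤ 2 ^ D)
    (hq' : q' ≤ 2 ^ D) (hi : 2 ^ 2 ^ i ≤ s) (hi' : 2 ^ 2 ^ i ≤ s')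
    (hτ : τ = max 1 (2 ^ i / (12 * D)))
    (u1 : (pr j s x).1.primeFactors ⊆ S) (u2 : (pr j s x).2.primeFactors ⊆ S)
    (u1' : (pr j s' x').1.primeFactors ⊆ S) (u2' : (pr j s' x').2.primeFactors ⊆ S)
    (c1 : ∀ p ∈ S, cell τ (pr j s x).1 p = cell τ (pr j s' x').1 p)
    (c2 : ∀ p ∈ S, cell τ (pr j s x).2 p = cell τ (pr j s' x').2 p)
    (hf : ∀ p ∈ S, q.factorization p = q'.factorization p) : q = q' := by
  have hτ1 : 1 ≤ τ := hτ ▸ le_max_left _ _
  obtain ⟨a, b, ha0, hb0, ha, hb, haS, hbS, e1⟩ :=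
    cell_ratio hS hτ1 (h.pr_ne j).1 (h'.pr_ne j).1 u1 u1' c1
  obtain ⟨c, d, hc0, hd0, hc, hd, hcS, hdS, e2⟩ :=
    cell_ratio hS hτ1 (h.pr_ne j).2.1 (h'.pr_ne j).2.1 u2 u2' c2
  rcases eq_or_lt_of_le hτ1 with h1 | h1
  · rw [← h1] at ha hb hc hd
    simp only [Nat.sub_self, mul_zero, zero_mul, pow_zero] at ha hb hc hd
    rw [show a = 1 by omega, show b = 1 by omega] at e1
    rw [show c = 1 by omega, show d = 1 by omega] at e2
    have h2 : s = s' ∧ x = x' := by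
      fin_cases j <;> simp [pr] at e1 e2 <;> omega
    obtain ⟨rfl, rfl⟩ := h2
    have h3 := h.eq
    have h4 := h'.eq
    have h5 : 2 ^ 2 ≤ s ^ 2 := Nat.pow_le_pow_left h.hs 2
    obtain ⟨m, hm⟩ : ∃ m, s ^ 2 = m + 1 := ⟨s ^ 2 - 1, by omega⟩
    rw [hm, mul_add] at h3 h4
    exact Nat.eq_of_mul_eq_mul_right (m := m) (by omega) (by omega)
  · have h2 : τ = 2 ^ i / (12 * D) := by omega
    have h3 : 12 * D * τ ≤ 2 ^ i := h2 ▸ Nat.mul_div_le _ _
    obtain ⟨H, hH⟩ : ∃ H, H = 2 ^ (2 * (τ - 1) * S.card) := ⟨_, rfl⟩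
    rw [← hH] at ha hb hc hd
    have h4 : D ≤ D * τ := Nat.le_mul_of_pos_right _ hτ1
    have h5 : 8 * H ^ 3 < 2 ^ 2 ^ i := by
      rw [hH, ← pow_mul, show 8 = 2 ^ 3 by norm_num, ← pow_add]
      refine Nat.pow_lt_pow_right (by norm_num) ?_
      have : (τ - 1) * S.card ≤ τ * D := Nat.mul_le_mul (by omega) hSD
      nlinarith
    have h6 : 2 ^ D ≤ 2 ^ 2 ^ i := Nat.pow_le_pow_right (by norm_num) (by nlinarith)
    have h7 : 2 ^ 8 ≤ 2 ^ D := Nat.pow_le_pow_right (by norm_num) hD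
    have k : ∀ {a b c d : ℕ} (t : ℕ), t ≤ 1 → a ≠ 0 → b ≠ 0 → c ≠ 0 → d ≠ 0 →
        a ≤ H → b ≤ H → c ≤ H → d ≤ H → a.primeFactors ⊆ S → b.primeFactors ⊆ S →
        c.primeFactors ⊆ S → d.primeFactors ⊆ S → (x + t * s) * b = (x' + t * s') * a →
        s * d = s' * c → q = q' := by
      intro a b c d t ht ha0 hb0 hc0 hd0 ha hb hc hd haS hbS hcS hdS e1 e2
      have g : ∀ {q s x : ℕ}, Adm q s x → q ≤ s → 6 ≤ s →
          ∃ ρ : ℤ, 4 * ((x + t * s : ℕ) : ℤ) = q * s ^ 2 + ρ ∧ |ρ| ≤ 3 * s := by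
        intro q s x h h1 h2
        have e : 4 * (x : ℤ) + 2 * s + q = q * s ^ 2 + 6 := by exact_mod_cast h.eq
        refine ⟨4 * t * s + 6 - 2 * s - q, by push_cast; linarith, ?_⟩
        rw [abs_le]
        interval_cases t <;> push_cast <;> omega
      obtain ⟨ρ, g1, g2⟩ := g h (by omega) (by omega)
      obtain ⟨ρ', g1', g2'⟩ := g h' (by omega) (by omega)
      have := liou1 (a := a) (b := b) (c := c) (d := d) (H := H) g1 g1' g2 g2'
        (by positivity) (by positivity) (by positivity) (by positivity)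
        (by exact_mod_cast ha) (by exact_mod_cast hb) (by exact_mod_cast hc) (by exact_mod_cast hd)
        (by exact_mod_cast e1) (by exact_mod_cast e2) (by exact_mod_cast h5.trans_le hi)
        (by exact_mod_cast h5.trans_le hi')
      have h8 : b * c ^ 2 * q = a * d ^ 2 * q' := by exact_mod_cast this
      refine eq_of_units (by have := h.hq; omega) (by have := h'.hq; omega) (by positivity)
        (by positivity) ?_ ?_ h8 hf
      · rw [Nat.primeFactors_mul hb0 (by positivity), Nat.primeFactors_pow _ (by norm_num)]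
        exact union_subset hbS hcS
      · rw [Nat.primeFactors_mul ha0 (by positivity), Nat.primeFactors_pow _ (by norm_num)]
        exact union_subset haS hdS
    fin_cases j
    · simp only [pr, Fin.zero_eta, Matrix.cons_val_zero] at e1 e2
      have := liou2 (s := s) (x := x) (s' := s') (x' := x') (a := a) (b := b) (c := c) (d := d)
        (H := H) (by exact_mod_cast h.sq_le) (by exact_mod_cast h'.sq_le)
        (by positivity) (by positivity) (by positivity) (by positivity)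
        (by exact_mod_cast ha) (by exact_mod_cast hb) (by exact_mod_cast hc) (by exact_mod_cast hd)
        (by exact_mod_cast e1) (by exact_mod_cast e2) (by exact_mod_cast h5.trans_le hi)
        (by exact_mod_cast h5.trans_le hi')
      exact k 0 (by norm_num) ha0 hb0 ha0 hb0 ha hb ha hb haS hbS haS hbS (by simpa using e1)
        (by exact_mod_cast this)
    · exact k 0 (by norm_num) ha0 hb0 hc0 hd0 ha hb hc hd haS hbS hcS hdS
        (by simpa [pr] using e1) (by simpa [pr] using e2)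
    · exact k 1 (by norm_num) ha0 hb0 hc0 hd0 ha hb hc hd haS hbS hcS hdS
        (by simpa [pr] using e1) (by simpa [pr] using e2)

/-- Exponent vectors of bounded total size. -/
def box (S : Finset ℕ) (M : ℕ) : Finset (S → ℕ) :=
  (Fintype.piFinset fun _ => range (M + 1)).filter fun k => ∑ p, k p ≤ M

theorem mem_box {S : Finset ℕ} {M : ℕ} (f : ℕ → ℕ) (h : ∑ p ∈ S, f p ≤ M) :
    (fun p : S => f p) ∈ box S M := by
  rw [← sum_coe_sort] at h
  refine mem_filter.2 ⟨Fintype.mem_piFinset.2 fun p => mem_range.2 ?_, h⟩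
  have := single_le_sum (f := fun p : S => f p) (fun _ _ => Nat.zero_le _) (mem_univ p)
  omega

theorem card_box (S : Finset ℕ) (M : ℕ) {δ : ℝ} (hδ : 0 < δ) :
    ((box S M).card : ℝ) ≤ Real.exp (δ * M) * (1 - Real.exp (-δ))⁻¹ ^ S.card := by
  have hz0 := Real.exp_pos (-δ)
  have hz1 : Real.exp (-δ) < 1 := Real.exp_lt_one_iff.2 (by linarith)
  set z := Real.exp (-δ) with hz
  have h1 : ((box S M).card : ℝ) * z ^ M ≤ ∑ k ∈ box S M, ∏ p, z ^ k p := by
    rw [← nsmul_eq_mul]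
    refine card_nsmul_le_sum _ _ _ fun k hk => ?_
    rw [prod_pow_eq_pow_sum]
    exact pow_le_pow_of_le_one hz0.le hz1.le (mem_filter.1 hk).2
  have h2 : ∑ k ∈ box S M, ∏ p, z ^ k p ≤
      ∑ k ∈ Fintype.piFinset fun _ : S => range (M + 1), ∏ p, z ^ k p :=
    sum_le_sum_of_subset_of_nonneg (filter_subset _ _) fun _ _ _ => by positivity
  rw [← prod_univ_sum (fun _ : S => range (M + 1)) (fun _ j => z ^ j), prod_const, card_univ,
    Fintype.card_coe] at h2
  have h3 : ∑ j ∈ range (M + 1), z ^ j ≤ (1 - z)⁻¹ := by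
    rw [← tsum_geometric_of_lt_one hz0.le hz1]
    exact (summable_geometric_of_lt_one hz0.le hz1).sum_le_tsum _ fun _ _ => by positivity
  have h4 : ((box S M).card : ℝ) * z ^ M ≤ (1 - z)⁻¹ ^ S.card :=
    h1.trans (h2.trans (by gcongr))
  have h5 : Real.exp (δ * M) * z ^ M = 1 := by
    rw [hz, ← Real.exp_nat_mul, ← Real.exp_add]
    simp [mul_comm]
  calc _ = Real.exp (δ * M) * ((box S M).card * z ^ M) := by
        rw [mul_left_comm, h5, mul_one]
    _ ≤ _ := by gcongr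

theorem fiber_card {D i : ℕ} {j : Fin 3} {S : Finset ℕ} (hS : ∀ p ∈ S, p.Prime)
    (hSD : S.card ≤ D) (hD : 8 ≤ D) (F : Finset ℕ)
    (hF : ∀ q ∈ F, q ≤ 2 ^ D ∧ ∃ s x, Adm q s x ∧ Nat.log 2 (Nat.log 2 s) = i ∧
      (pr j s x).1.primeFactors ⊆ S ∧ (pr j s x).2.primeFactors ⊆ S) :
    F.card ≤ (box S (192 * D)).card ^ 3 := by
  classical
  choose! hq s x hA hi u1 u2 using hF
  obtain ⟨τ, hτ⟩ : ∃ τ, τ = max 1 (2 ^ i / (12 * D)) := ⟨_, rfl⟩
  have hτ1 : 1 ≤ τ := hτ ▸ le_max_left _ _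
  have hτ2 : 2 ^ i ≤ 24 * D * τ := by
    have h1 := Nat.lt_mul_div_succ (2 ^ i) (by omega : 0 < 12 * D)
    have h2 : 2 ^ i / (12 * D) + 1 ≤ 2 * τ := by omega
    have h3 := Nat.mul_le_mul_left (12 * D) h2
    nlinarith
  have hs : ∀ q ∈ F, 2 ^ 2 ^ i ≤ s q ∧ s q ^ 4 ≤ 2 ^ (8 * 2 ^ i) := by
    intro q hq
    have h1 := (hA q hq).hs
    have h2 : 1 ≤ Nat.log 2 (s q) := Nat.le_log_of_pow_le (by norm_num) h1
    have h3 := Nat.pow_log_le_self 2 (x := Nat.log 2 (s q)) (by omega)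
    have h4 := Nat.lt_pow_succ_log_self (b := 2) (by norm_num) (Nat.log 2 (s q))
    rw [hi q hq] at h3 h4
    refine ⟨(Nat.pow_le_pow_right (by norm_num) h3).trans (Nat.pow_log_le_self 2 (by omega)), ?_⟩
    have h5 := Nat.lt_pow_succ_log_self (b := 2) (by norm_num) (s q)
    refine (Nat.pow_le_pow_left h5.le 4).trans ?_
    rw [← pow_mul]
    refine Nat.pow_le_pow_right (by norm_num) ?_
    rw [pow_succ] at h4
    omega
  have hc : ∀ q ∈ F, ∀ v, v ≠ 0 → v.primeFactors ⊆ S → v ≤ s q ^ 4 →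
      (fun p : S => cell τ v p) ∈ box S (192 * D) := by
    intro q hq v h0 h1 h2
    refine mem_box (cell τ v) ?_
    have h3 := sum_cell hS τ h0 h1 (h2.trans (hs q hq).2)
    refine Nat.le_of_mul_le_mul_left (h3.trans ?_) hτ1
    nlinarith
  rw [pow_three, ← card_product, ← card_product]
  refine card_le_card_of_injOn (fun q => (fun p : S => cell τ (pr j (s q) (x q)).1 p,
    fun p : S => cell τ (pr j (s q) (x q)).2 p, fun p : S => q.factorization p)) ?_ ?_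
  · intro q hqF
    have h1 := (hA q hqF).pr_ne j
    refine mem_coe.2 (mem_product.2 ⟨hc q hqF _ h1.1 (u1 q hqF) h1.2.2.1,
      mem_product.2 ⟨hc q hqF _ h1.2.1 (u2 q hqF) h1.2.2.2,
        mem_box (fun p => q.factorization p) ?_⟩⟩)
    have hq0 : q ≠ 0 := by have := (hA q hqF).hq; omega
    have h2 : 2 ^ (∑ p ∈ S, q.factorization p) ≤ 2 ^ D := by
      refine le_trans ?_ (hq q hqF)
      rw [← prod_pow_eq_pow_sum]
      refine (prod_le_prod' fun p hp => Nat.pow_le_pow_left (hS p hp).two_le _).trans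
        (Nat.le_of_dvd (Nat.pos_of_ne_zero hq0) ?_)
      conv_rhs => rw [eq_prod hq0 (subset_union_right (s₁ := S))]
      exact prod_dvd_prod_of_subset _ _ _ subset_union_left
    have := (Nat.pow_le_pow_iff_right (by norm_num)).1 h2
    omega
  · intro q hqF q' hqF' he
    simp only [Prod.mk.injEq] at he
    exact same_cell (hA q hqF) (hA q' hqF') hS hSD hD (hq q hqF) (hq q' hqF') (hs q hqF).1
      (hs q' hqF').1 hτ (u1 q hqF) (u2 q hqF) (u1 q' hqF') (u2 q' hqF')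
      (fun p hp => congrFun he.1 ⟨p, hp⟩) (fun p hp => congrFun he.2.1 ⟨p, hp⟩)
      (fun p hp => congrFun he.2.2 ⟨p, hp⟩)

theorem exists_type {q s x : ℕ} (h : Adm q s x) : ∃ (j : Fin 3) (r : ℕ), 1 ≤ r ∧ r ^ 3 ≤ q ^ 2 ∧
    (pr j s x).1.primeFactors ⊆ (6 * r).primeFactors ∧
    (pr j s x).2.primeFactors ⊆ (6 * r).primeFactors := by
  classical
  let P : ℕ → Finset ℕ := fun v => v.primeFactors.filter (5 ≤ ·)
  let R : ℕ → ℕ := fun v => ∏ p ∈ P v, p
  have hR : ∀ v, 1 ≤ R v := fun v =>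
    prod_pos fun p hp => (Nat.prime_of_mem_primeFactors (mem_filter.1 hp).1).pos
  have hsub : ∀ v r, r ≠ 0 → R v ∣ r → v.primeFactors ⊆ (6 * r).primeFactors := by
    intro v r hr hd p hp
    have hp1 := Nat.prime_of_mem_primeFactors hp
    refine Nat.mem_primeFactors.2 ⟨hp1, ?_, by positivity⟩
    by_cases h5 : 5 ≤ p
    · exact ((dvd_prod_of_mem _ (mem_filter.2 ⟨hp, h5⟩)).trans hd).mul_left _
    · refine Dvd.dvd.mul_right ?_ _
      have := hp1.two_le
      have h4 : p ≠ 4 := by rintro rfl; norm_num at hp1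
      have : p = 2 ∨ p = 3 := by omega
      rcases this with rfl | rfl <;> norm_num
  have hmem : ∀ v p, p ∈ P v → p.Prime ∧ 5 ≤ p ∧ p ∣ v := fun v p hp =>
    ⟨Nat.prime_of_mem_primeFactors (mem_filter.1 hp).1, (mem_filter.1 hp).2,
      Nat.dvd_of_mem_primeFactors (mem_filter.1 hp).1⟩
  have d1 : Disjoint (P x) (P (x + s)) := disjoint_left.2 fun p h1 h2 =>
    h.not_two (hmem _ _ h1).1 (hmem _ _ h1).2.1 (hmem _ _ h1).2.2
      ((Nat.dvd_add_right (hmem _ _ h1).2.2).1 (hmem _ _ h2).2.2)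
  have d2 : Disjoint (P x ∪ P (x + s)) (P s) := disjoint_left.2 fun p h1 h2 => by
    refine h.not_two (hmem _ _ h2).1 (hmem _ _ h2).2.1 ?_ (hmem _ _ h2).2.2
    rcases mem_union.1 h1 with h1 | h1
    · exact (hmem _ _ h1).2.2
    · exact (Nat.dvd_add_left (hmem _ _ h2).2.2).1 (hmem _ _ h1).2.2
  have hq0 : q ≠ 0 := by have := h.hq; omega
  have hle : R x * R (x + s) * R s ≤ q := by
    simp only [R]
    rw [← prod_union d1, ← prod_union d2]
    refine Nat.le_of_dvd (Nat.pos_of_ne_zero hq0)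
      ((prod_dvd_prod_of_subset _ _ _ fun p hp => ?_).trans (Nat.prod_primeFactors_dvd q))
    have h1 : p.Prime ∧ 5 ≤ p ∧ p ∣ x * (x + s) * s := by
      rcases mem_union.1 hp with h1 | h1
      · rcases mem_union.1 h1 with h1 | h1
        · exact ⟨(hmem _ _ h1).1, (hmem _ _ h1).2.1, ((hmem _ _ h1).2.2.mul_right _).mul_right _⟩
        · exact ⟨(hmem _ _ h1).1, (hmem _ _ h1).2.1, ((hmem _ _ h1).2.2.mul_left _).mul_right _⟩
      · exact ⟨(hmem _ _ h1).1, (hmem _ _ h1).2.1, (hmem _ _ h1).2.2.mul_left _⟩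
    refine Nat.mem_primeFactors.2 ⟨h1.1, ?_, hq0⟩
    refine ((Nat.Prime.dvd_mul h1.1).1 (h.rad p h1.1 h1.2.2)).resolve_left fun h2 => ?_
    have := Nat.le_of_dvd (by norm_num) h2
    omega
  have key : ∀ j : Fin 3, (R (pr j s x).1 * R (pr j s x).2) ^ 3 ≤ q ^ 2 →
      ∃ (j : Fin 3) (r : ℕ), 1 ≤ r ∧ r ^ 3 ≤ q ^ 2 ∧
        (pr j s x).1.primeFactors ⊆ (6 * r).primeFactors ∧
        (pr j s x).2.primeFactors ⊆ (6 * r).primeFactors := fun j hj =>
    have h0 := Nat.mul_pos (hR (pr j s x).1) (hR (pr j s x).2)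
    ⟨j, _, h0, hj, hsub _ _ h0.ne' (Dvd.intro _ rfl), hsub _ _ h0.ne' (Dvd.intro_left _ rfl)⟩
  by_contra hcon
  have k0 : q ^ 2 < (R x * R (x + s)) ^ 3 := not_le.1 fun h => hcon (key 0 h)
  have k1 : q ^ 2 < (R x * R s) ^ 3 := not_le.1 fun h => hcon (key 1 h)
  have k2 : q ^ 2 < (R (x + s) * R s) ^ 3 := not_le.1 fun h => hcon (key 2 h)
  have k3 := Nat.mul_lt_mul'' (Nat.mul_lt_mul'' k0 k1) k2
  have k4 := Nat.pow_le_pow_left hle 6
  refine absurd k3 (not_lt.2 (le_trans (le_of_eq ?_) (k4.trans (le_of_eq ?_)))) <;> ring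

theorem pow_card_le {c δ : ℝ} (hc : 1 ≤ c) (hδ : 0 < δ) : ∃ C : ℝ, ∀ m : ℕ, m ≠ 0 →
    c ^ m.primeFactors.card ≤ C * Real.exp (δ * Real.log m) := by
  obtain ⟨N, hN⟩ := exists_nat_ge (Real.exp (Real.log c / δ))
  refine ⟨c ^ N, fun m hm => ?_⟩
  have h1 : c ^ m.primeFactors.card ≤ ∏ p ∈ m.primeFactors,
      ((if p < N then c else 1) * Real.exp (δ * Real.log p)) := by
    rw [← prod_const]
    refine prod_le_prod (fun _ _ => by linarith) fun p hp => ?_
    have hp1 : (1 : ℝ) ≤ p := by exact_mod_cast (Nat.prime_of_mem_primeFactors hp).one_le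
    split_ifs with h
    · exact le_mul_of_one_le_right (by linarith)
        (Real.one_le_exp (mul_nonneg hδ.le (Real.log_nonneg hp1)))
    · have h2 : (N : ℝ) ≤ p := by exact_mod_cast not_lt.1 h
      have h3 := (Real.le_log_iff_exp_le (by linarith)).2 (hN.trans h2)
      rw [div_le_iff₀ hδ] at h3
      rw [one_mul, ← Real.exp_log (by linarith : 0 < c), Real.exp_le_exp]
      linarith
  refine h1.trans ?_
  rw [prod_mul_distrib, prod_ite, prod_const_one, mul_one, prod_const, ← Real.exp_sum, ← mul_sum,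
    ← Real.log_prod fun p hp => by have := (Nat.prime_of_mem_primeFactors hp).pos; positivity]
  have h2 : (m.primeFactors.filter (· < N)).card ≤ N := by
    conv_rhs => rw [← card_range N]
    exact card_le_card fun p hp => mem_range.2 (mem_filter.1 hp).2
  have h3 : ∏ p ∈ m.primeFactors, (p : ℝ) ≤ m := by
    rw [← Nat.cast_prod]
    exact_mod_cast Nat.le_of_dvd (Nat.pos_of_ne_zero hm) (Nat.prod_primeFactors_dvd m)
  have h4 : 0 < ∏ p ∈ m.primeFactors, (p : ℝ) :=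
    prod_pos fun p hp => by have := (Nat.prime_of_mem_primeFactors hp).pos; positivity
  gcongr

theorem count_aux {δ : ℝ} (hδ : 0 < δ) : ∃ C : ℝ, ∀ D R : ℕ, 8 ≤ D → 6 * R ≤ 2 ^ D →
    ∀ F : Finset ℕ, (∀ q ∈ F, 2 * q ≤ 2 ^ D ∧ (∀ r, r ^ 3 ≤ q ^ 2 → r ≤ R) ∧ ∃ s x, Adm q s x) →
    (F.card : ℝ) ≤ C * R * Real.exp (580 * δ * D) := by
  classical
  have hz1 : Real.exp (-δ) < 1 := Real.exp_lt_one_iff.2 (by linarith)
  have hz0 := Real.exp_pos (-δ)
  obtain ⟨C1, hC1⟩ := pow_card_le (c := (1 - Real.exp (-δ))⁻¹)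
    ((one_le_inv₀ (by linarith)).2 (by linarith)) hδ
  have hC0 : 0 ≤ C1 := by
    have := hC1 1 one_ne_zero
    simp at this
    linarith
  refine ⟨3 * (2 ^ 22 / δ ^ 2) * C1 ^ 3, fun D R hD hR F hF => ?_⟩
  obtain ⟨N, hN⟩ : ∃ N, N = 2 ^ 21 * D ^ 2 := ⟨_, rfl⟩
  let I : Finset (Fin 3 × ℕ × ℕ) := univ ×ˢ Icc 1 R ×ˢ range N
  let G : Fin 3 × ℕ × ℕ → Finset ℕ := fun t => F.filter fun q =>
    ∃ s x, Adm q s x ∧ Nat.log 2 (Nat.log 2 s) = t.2.2 ∧
      (pr t.1 s x).1.primeFactors ⊆ (6 * t.2.1).primeFactors ∧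
      (pr t.1 s x).2.primeFactors ⊆ (6 * t.2.1).primeFactors
  have h1 : F ⊆ I.biUnion G := by
    intro q hq
    obtain ⟨a1, a2, s, x, h⟩ := hF q hq
    obtain ⟨j, r, b1, b2, b3, b4⟩ := exists_type h
    refine mem_biUnion.2 ⟨(j, r, Nat.log 2 (Nat.log 2 s)), ?_,
      mem_filter.2 ⟨hq, s, x, h, rfl, b3, b4⟩⟩
    refine mem_product.2 ⟨mem_univ _, mem_product.2 ⟨mem_Icc.2 ⟨b1, a2 r b2⟩, mem_range.2 ?_⟩⟩
    have c1 := h.log_le hD a1
    have c2 : 1 ≤ Nat.log 2 s := Nat.le_log_of_pow_le (by norm_num) h.hs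
    refine Nat.log_lt_of_lt_pow (b := 2) (Nat.one_le_iff_ne_zero.1 c2) ?_
    have c3 : 1 ≤ D ^ 2 := Nat.one_le_pow _ _ (by omega)
    have c4 : N = 2 ^ 20 * D ^ 2 + 2 ^ 20 * D ^ 2 := by rw [hN]; ring
    have c5 : 2 ^ 4 ≤ 2 ^ (2 ^ 20 * D ^ 2) := Nat.pow_le_pow_right (by norm_num) (by omega)
    rw [c4, pow_add]
    generalize 2 ^ (2 ^ 20 * D ^ 2) = M at *
    nlinarith
  have h2 : ∀ t ∈ I, ((G t).card : ℝ) ≤ (C1 * Real.exp (193 * δ * D)) ^ 3 := by
    intro t ht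
    have a1 := mem_Icc.1 (mem_product.1 (mem_product.1 ht).2).1
    have a2 : 6 * t.2.1 ≠ 0 := by omega
    have a3 : 6 * t.2.1 ≤ 2 ^ D := by omega
    have a4 := fiber_card (D := D) (i := t.2.2) (j := t.1) (S := (6 * t.2.1).primeFactors)
      (fun p hp => Nat.prime_of_mem_primeFactors hp)
      ((Nat.pow_le_pow_iff_right (by norm_num)).1 ((two_pow_card_le a2).trans a3)) hD (G t)
      fun q hq => ⟨by have := (hF q (mem_filter.1 hq).1).1; omega, (mem_filter.1 hq).2⟩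
    have a5 : ((G t).card : ℝ) ≤ ((box (6 * t.2.1).primeFactors (192 * D)).card : ℝ) ^ 3 := by
      exact_mod_cast a4
    refine a5.trans (pow_le_pow_left₀ (by positivity) ((card_box _ _ hδ).trans ?_) 3)
    have a6 : Real.log ((6 * t.2.1 : ℕ) : ℝ) ≤ D := by
      have b1 : ((6 * t.2.1 : ℕ) : ℝ) ≤ 2 ^ D := by exact_mod_cast a3
      refine (Real.log_le_log (by positivity) b1).trans ?_
      rw [Real.log_pow]
      have := Real.log_two_lt_d9
      exact mul_le_of_le_one_right (by positivity) (by linarith)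
    calc _ ≤ Real.exp (δ * (192 * D : ℕ)) * (C1 * Real.exp (δ * D)) := by
          gcongr
          exact (hC1 _ a2).trans (by gcongr)
      _ = _ := by
          rw [mul_left_comm, ← Real.exp_add]
          congr 2
          push_cast
          ring
  have h3 : (F.card : ℝ) ≤ ∑ t ∈ I, ((G t).card : ℝ) := by
    exact_mod_cast (card_le_card h1).trans card_biUnion_le
  have h4 := h3.trans (sum_le_card_nsmul _ _ _ h2)
  have h5 : (I.card : ℝ) = 3 * R * (2 ^ 21 * (D : ℝ) ^ 2) := by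
    simp [I, hN]
    ring
  have h6 : (D : ℝ) ^ 2 ≤ 2 / δ ^ 2 * Real.exp (δ * D) := by
    have := Real.pow_div_factorial_le_exp (x := δ * D) (by positivity) 2
    rw [div_le_iff₀ (by positivity), mul_pow] at this
    rw [div_mul_eq_mul_div, le_div_iff₀ (by positivity)]
    norm_num [Nat.factorial] at this
    linarith
  rw [nsmul_eq_mul, h5] at h4
  calc _ ≤ 3 * R * (2 ^ 21 * (2 / δ ^ 2 * Real.exp (δ * D))) *
        (C1 * Real.exp (193 * δ * D)) ^ 3 := h4.trans (by gcongr)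
    _ = 3 * (2 ^ 22 / δ ^ 2) * C1 ^ 3 * R * (Real.exp (δ * D) * Real.exp (193 * δ * D) ^ 3) := by
        ring
    _ = _ := by
        rw [← Real.exp_nat_mul, ← Real.exp_add]
        congr 2
        push_cast
        ring

theorem count_adm {ε : ℝ} (hε : 0 < ε) : ∃ C : ℝ, ∀ X : ℕ, 1 ≤ X →
    ∀ F : Finset ℕ, (∀ q ∈ F, q ≤ X ∧ ∃ s x, Adm q s x) →
    (F.card : ℝ) ≤ C * (X : ℝ) ^ (2 / 3 + ε) := by
  obtain ⟨C, hC⟩ := count_aux (δ := ε / 1160) (by positivity)
  refine ⟨max C 0 * Real.exp (4 * ε), fun X hX F hF => ?_⟩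
  have hX' : (1 : ℝ) ≤ X := by exact_mod_cast hX
  have h1 : X < 2 ^ (Nat.log 2 X + 1) := Nat.lt_pow_succ_log_self (by norm_num) X
  have h2 : (⌊(X : ℝ) ^ (2 / 3 : ℝ)⌋₊ : ℝ) ≤ (X : ℝ) ^ (2 / 3 : ℝ) := Nat.floor_le (by positivity)
  have h3 : ⌊(X : ℝ) ^ (2 / 3 : ℝ)⌋₊ ≤ X := by
    have := h2.trans (Real.rpow_le_self_of_one_le hX' (by norm_num))
    exact_mod_cast this
  have h4 : 2 ^ (Nat.log 2 X + 8) = 2 ^ (Nat.log 2 X + 1) * 128 := by ring
  refine (hC (Nat.log 2 X + 8) ⌊(X : ℝ) ^ (2 / 3 : ℝ)⌋₊ (by omega) (by omega) F fun q hq =>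
    ⟨by have := (hF q hq).1; omega, fun r hr => Nat.le_floor ?_, (hF q hq).2⟩).trans ?_
  · have h5 : (r : ℝ) ^ 3 ≤ (X : ℝ) ^ 2 := by
      exact_mod_cast hr.trans (Nat.pow_le_pow_left (hF q hq).1 2)
    refine le_of_pow_le_pow_left₀ (n := 3) (by norm_num) (by positivity) (h5.trans (le_of_eq ?_))
    rw [← Real.rpow_natCast ((X : ℝ) ^ (2 / 3 : ℝ)), ← Real.rpow_mul (by positivity)]
    norm_num
  · have h5 : (Nat.log 2 X : ℝ) ≤ 2 * Real.log X := by
      have b1 : (2 : ℝ) ^ Nat.log 2 X ≤ X := by exact_mod_cast Nat.pow_log_le_self 2 (by omega)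
      have b2 := Real.log_le_log (by positivity) b1
      rw [Real.log_pow] at b2
      have := Real.log_two_gt_d9
      have : (0 : ℝ) ≤ Nat.log 2 X := by positivity
      nlinarith
    have h6 : Real.exp (580 * (ε / 1160) * (Nat.log 2 X + 8 : ℕ)) ≤
        Real.exp (4 * ε) * (X : ℝ) ^ ε := by
      rw [Real.rpow_def_of_pos (by linarith), ← Real.exp_add, Real.exp_le_exp]
      push_cast
      nlinarith
    rw [Real.rpow_add (by linarith)]
    calc _ ≤ max C 0 * (X : ℝ) ^ (2 / 3 : ℝ) * (Real.exp (4 * ε) * (X : ℝ) ^ ε) := by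
          gcongr
          exact le_max_left _ _
      _ = _ := by ring

end Pool.Agent.Lib.MP_68c55c_lc
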