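import Mathlib

/-!
The `q`-adic digit arguments and the finite checks.
-/

set_option autoImplicit false

namespace Pool.Agent.Lib.MP_68c55c_lc

open Finset

/-- Check a Boolean function on `[lo, lo + 2^d)`. -/
def allBin (f : ℕ → Bool) : ℕ → ℕ → Bool
  | 0, lo => f lo
  | d + 1, lo => allBin f d lo && allBin f d (lo + 2 ^ d)

lemma allBin_spec (f : ℕ → Bool) : ∀ d lo, allBin f d lo = true →
    ∀ x, lo ≤ x → x < lo + 2 ^ d → f x = true := by
  intro d
  induction d with
  | zero =>
    intro lo h x h1 h2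
    have : x = lo := by omega
    rw [this]; exact h
  | succ d ih =>
    intro lo h x h1 h2
    rw [allBin, Bool.and_eq_true] at h
    by_cases hx : x < lo + 2 ^ d
    · exact ih lo h.1 x h1 hx
    · exact ih _ h.2 x (by omega) (by rw [pow_succ] at h2; omega)

/-- Newton iteration for the integer square root. -/
def newton (x : ℕ) : ℕ → ℕ → ℕ
  | 0, g => g
  | f + 1, g => if (g + x / g) / 2 < g then newton x f ((g + x / g) / 2) else g

/-- A certificate that `x` is not a square. -/
def nonSq (x : ℕ) : Bool :=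
  decide (newton x 400 x * newton x 400 x < x) &&
    decide (x < (newton x 400 x + 1) * (newton x 400 x + 1))

lemma nonSq_spec {x s : ℕ} (h : nonSq x = true) (hs : s ^ 2 = x) : False := by
  rw [nonSq, Bool.and_eq_true, decide_eq_true_eq, decide_eq_true_eq] at h
  obtain ⟨h1, h2⟩ := h
  generalize newton x 400 x = r at h1 h2
  subst hs
  have h3 : r < s := by nlinarith
  have h4 : s < r + 1 := by nlinarith
  omega

/-- Large Schroeder numbers. -/
def sch (j : ℕ) : ℕ := [2, 6, 22, 90, 394, 1806, 8558, 41586].getD j 0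

/-- Truncated series. -/
def rho (q N : ℕ) : ℕ := ∑ j ∈ range N, sch j * q ^ j

/-- The truncated series of length eight. -/
def rho8 (q : ℕ) : ℕ :=
  2 + q * (6 + q * (22 + q * (90 + q * (394 + q * (1806 + q * (8558 + q * 41586))))))

lemma rho_eight (q : ℕ) : rho q 8 = rho8 q := by
  simp [rho, sum_range_succ, sch, rho8]; ring

/-- The product of the two roots. -/
def ff (q K : ℕ) : ℕ := q ^ 2 * K ^ 2 + (3 * q - 1) * K + 2

lemma ff_cast {q : ℕ} (hq : 1 ≤ q) (K : ℕ) :
    (ff q K : ℤ) = (q : ℤ) ^ 2 * K ^ 2 + (3 * q - 1) * K + 2 := by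
  unfold ff
  have : 1 ≤ 3 * q := by omega
  push_cast [this]
  ring

lemma dvd_ff_rho8 (q : ℤ) : q ^ 8 ∣ q ^ 2 * (2 + q * (6 + q * (22 + q * (90 + q * (394 + q *
    (1806 + q * (8558 + q * 41586))))))) ^ 2 + (3 * q - 1) * (2 + q * (6 + q * (22 + q * (90 + q *
    (394 + q * (1806 + q * (8558 + q * 41586))))))) + 2 :=
  ⟨206098 + 419424 * q + 1355900 * q ^ 2 + 4793352 * q ^ 3 + 17490820 * q ^ 4 +
    63681264 * q ^ 5 + 223447996 * q ^ 6 + 711785976 * q ^ 7 + 1729395396 * q ^ 8, by ring⟩

lemma rho_modEq (q N M : ℕ) (h : N ≤ M) : rho q M ≡ rho q N [MOD q ^ N] := by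
  induction M, h using Nat.le_induction with
  | base => rfl
  | succ M h ih =>
    rw [rho, sum_range_succ]
    have : sch M * q ^ M ≡ 0 [MOD q ^ N] :=
      (Nat.modEq_zero_iff_dvd).2 ((pow_dvd_pow q h).mul_left _)
    exact ih.add this

lemma rho_modEq_one (q N : ℕ) (hq : 1 ≤ q) : rho q N ≡ rho 1 N [MOD q - 1] := by
  have h1 : q ≡ 1 [MOD q - 1] := ((Nat.modEq_iff_dvd' hq).2 dvd_rfl).symm
  induction N with
  | zero => rfl
  | succ N ih =>
    rw [rho, rho, sum_range_succ, sum_range_succ]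
    exact ih.add ((h1.pow N).mul_left _)

lemma rho_le (q N : ℕ) (hq : 1 ≤ q) : q * rho q N ≤ rho 1 N * q ^ N := by
  rw [rho, rho, mul_sum, sum_mul]
  refine sum_le_sum fun j hj => ?_
  have : q ^ (j + 1) ≤ q ^ N := Nat.pow_le_pow_right hq (mem_range.1 hj)
  rw [one_pow, mul_one, mul_left_comm, ← pow_succ']
  exact Nat.mul_le_mul_left _ this

/-- A divisor of `q ^ 8` dividing the product of the roots determines `K`. -/
lemma modEq_rho8 {q K G : ℕ} (hq : 1 ≤ q) (h1 : G ∣ q ^ 8) (h2 : G ∣ ff q K) :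
    K ≡ rho q 8 [MOD G] := by
  rw [rho_eight, Nat.modEq_iff_dvd]
  have h3 : (G : ℤ) ∣ (q : ℤ) ^ 8 := by exact_mod_cast h1
  have h4 : (G : ℤ) ∣ (ff q K : ℤ) := by exact_mod_cast h2
  rw [ff_cast hq] at h4
  have h5 := h3.trans (dvd_ff_rho8 q)
  have h6 : ((rho8 q : ℕ) : ℤ) = 2 + q * (6 + q * (22 + q * (90 + q * (394 + q *
    (1806 + q * (8558 + q * 41586)))))) := by simp [rho8]
  rw [← h6] at h5
  have h7 := dvd_sub h5 h4
  have h8 : (q : ℤ) ^ 2 * (rho8 q : ℤ) ^ 2 + (3 * q - 1) * (rho8 q : ℤ) + 2 -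
      ((q : ℤ) ^ 2 * K ^ 2 + (3 * q - 1) * K + 2) =
      ((rho8 q : ℤ) - K) * (q * (q * (rho8 q + K) + 3) - 1) := by ring
  rw [h8] at h7
  have hc : IsCoprime (q : ℤ) (q * (q * (rho8 q + K) + 3) - 1) :=
    ⟨q * (rho8 q + K) + 3, -1, by ring⟩
  exact ((hc.pow_left (m := 8)).of_isCoprime_of_dvd_left h3).dvd_of_dvd_mul_right h7

/-- One candidate is excluded. -/
def okK (M q K : ℕ) : Bool :=
  decide (q ^ (M + 1) ≤ K) || decide (Nat.gcd (ff q K) (q ^ (M + 1)) ≤ K) || nonSq (4 * K + 1)

/-- Both candidates are excluded. -/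
def chk (M B q : ℕ) : Bool :=
  decide (q < 10) || decide (B < q) ||
    (okK M q (rho8 q % q ^ M + (q - 1 - rho8 q % q ^ M % (q - 1)) % (q - 1) * q ^ M) &&
      okK M q (rho8 q % q ^ M +
        ((q - 1 - rho8 q % q ^ M % (q - 1)) % (q - 1) + (q - 1)) * q ^ M))

lemma chk0 : allBin (chk 0 3) 2 0 = true := by decide +kernel
lemma chk1 : allBin (chk 1 9) 4 0 = true := by decide +kernel
lemma chk2 : allBin (chk 2 31) 5 0 = true := by decide +kernel
lemma chk3 : allBin (chk 3 121) 7 0 = true := by decide +kernel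
lemma chk4 : allBin (chk 4 515) 10 0 = true := by decide +kernel
lemma chk5 : allBin (chk 5 2321) 12 0 = true := by decide +kernel
lemma chk6 : allBin (chk 6 10879) 14 0 = true := by decide +kernel
lemma chk7 : allBin (chk 7 52465) 16 0 = true := by decide +kernel

lemma chk_all (M q : ℕ) (hM : M ≤ 7) (hq : q ≤ rho 1 (M + 1) + 1) :
    chk M (rho 1 (M + 1) + 1) q = true := by
  interval_cases M
  · exact allBin_spec _ _ _ chk0 q (by omega) (by simp [rho, sch] at hq; omega)
  · exact allBin_spec _ _ _ chk1 q (by omega) (by simp [rho, sum_range_succ, sch] at hq; omega)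
  · exact allBin_spec _ _ _ chk2 q (by omega) (by simp [rho, sum_range_succ, sch] at hq; omega)
  · exact allBin_spec _ _ _ chk3 q (by omega) (by simp [rho, sum_range_succ, sch] at hq; omega)
  · exact allBin_spec _ _ _ chk4 q (by omega) (by simp [rho, sum_range_succ, sch] at hq; omega)
  · exact allBin_spec _ _ _ chk5 q (by omega) (by simp [rho, sum_range_succ, sch] at hq; omega)
  · exact allBin_spec _ _ _ chk6 q (by omega) (by simp [rho, sum_range_succ, sch] at hq; omega)
  · exact allBin_spec _ _ _ chk7 q (by omega) (by simp [rho, sum_range_succ, sch] at hq; omega)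

theorem digits_odd {q K M s : ℕ} (hq : 10 ≤ q) (hM : M ≤ 7) (h1 : q ^ M ≤ K)
    (h2 : K < q ^ (M + 1)) (h3 : q - 1 ∣ K) (hs : s ^ 2 = 4 * K + 1) (h4 : q ^ M ∣ ff q K)
    (h5 : K < Nat.gcd (ff q K) (q ^ (M + 1))) : False := by
  have hq1 : 1 ≤ q := by omega
  have hP : 0 < q ^ M := by positivity
  have hPq : q ^ M ≡ 1 [MOD q - 1] := by
    have h1 : q ≡ 1 [MOD q - 1] := ((Nat.modEq_iff_dvd' hq1).2 dvd_rfl).symm
    simpa using h1.pow M
  have hA : K ≡ rho q 8 [MOD q ^ M] := modEq_rho8 hq1 (pow_dvd_pow q (by omega)) h4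
  have hK : K = rho q 8 % q ^ M + K / q ^ M * q ^ M := by
    rw [← hA, mul_comm, Nat.mod_add_div]
  have hi : K / q ^ M < q := by
    rw [Nat.div_lt_iff_lt_mul hP, ← pow_succ']; exact h2
  have hi1 : 1 ≤ K / q ^ M := (Nat.le_div_iff_mul_le hP).2 (by simpa using h1)
  generalize K / q ^ M = i at hK hi hi1
  have h6 : q - 1 ∣ rho q 8 % q ^ M + i := by
    rw [← Nat.modEq_zero_iff_dvd] at h3 ⊢
    refine Nat.ModEq.trans ?_ h3
    rw [hK]
    refine Nat.ModEq.add_left _ ?_
    simpa using (hPq.mul_left i).symm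
  by_cases hB : q ≤ rho 1 (M + 1) + 1
  · have hc := chk_all M q hM hB
    rw [chk, Bool.or_eq_true, Bool.or_eq_true, decide_eq_true_eq, decide_eq_true_eq,
      Bool.and_eq_true, ← rho_eight] at hc
    have hok : okK M q K = true := by
      rcases hc with (hc | hc) | hc
      · omega
      · omega
      · generalize rho q 8 % q ^ M = A at hK h6 hc
        have hr : A % (q - 1) < q - 1 := Nat.mod_lt _ (by omega)
        have h7 : q - 1 ∣ A % (q - 1) + i := by
          rw [← Nat.modEq_zero_iff_dvd] at h6 ⊢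
          exact ((Nat.mod_modEq A (q - 1)).add_right i).trans h6
        obtain ⟨c, hc'⟩ := h7
        have hc1 : c = 1 := by
          rcases c with _ | _ | c
          · omega
          · rfl
          · exfalso
            have : (q - 1) * (c + 1 + 1) = (q - 1) * c + 2 * (q - 1) := by ring
            omega
        subst hc1
        by_cases h0 : A % (q - 1) = 0
        · have : i = (q - 1 - A % (q - 1)) % (q - 1) + (q - 1) := by
            rw [h0, Nat.sub_zero, Nat.mod_self]; omega
          rw [hK, this]; exact hc.2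
        · have : i = (q - 1 - A % (q - 1)) % (q - 1) := by
            rw [Nat.mod_eq_of_lt (a := q - 1 - A % (q - 1)) (by omega)]; omega
          rw [hK, this]; exact hc.1
    rw [okK, Bool.or_eq_true, Bool.or_eq_true, decide_eq_true_eq, decide_eq_true_eq] at hok
    rcases hok with (hok | hok) | hok
    · omega
    · omega
    · exact nonSq_spec hok hs
  · have hS : rho 1 (M + 1) = rho 1 M + sch M := by rw [rho, sum_range_succ, one_pow, mul_one]; rfl
    have hlt : rho q M < q ^ M := by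
      have := rho_le q M hq1
      have h7 : rho 1 M * q ^ M < q * q ^ M := Nat.mul_lt_mul_of_pos_right (by omega) hP
      exact Nat.lt_of_mul_lt_mul_left (this.trans_lt h7)
    have hA' : rho q 8 % q ^ M = rho q M := by
      rw [rho_modEq q M 8 (by omega), Nat.mod_eq_of_lt hlt]
    rw [hA'] at hK h6
    have hG : K ≡ rho q (M + 1) [MOD Nat.gcd (ff q K) (q ^ (M + 1))] :=
      (modEq_rho8 hq1 ((Nat.gcd_dvd_right _ _).trans (pow_dvd_pow q (by omega)))
        (Nat.gcd_dvd_left _ _)).trans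
        ((rho_modEq q (M + 1) 8 (by omega)).of_dvd (Nat.gcd_dvd_right _ _))
    have hR : rho q (M + 1) = rho q M + sch M * q ^ M := by rw [rho, sum_range_succ]; rfl
    have hle : i ≤ sch M := by
      by_contra hcon
      have h7 : (sch M + 1) * q ^ M ≤ i * q ^ M := Nat.mul_le_mul_right _ (by omega)
      have h8 : rho q (M + 1) < K := by rw [add_mul] at h7; omega
      have h9 := Nat.le_of_dvd (by omega) ((Nat.modEq_iff_dvd' h8.le).1 hG.symm)
      omega
    have h7 : q - 1 ∣ rho 1 M + i := by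
      rw [← Nat.modEq_zero_iff_dvd] at h6 ⊢
      exact ((rho_modEq_one q M hq1).symm.add_right i).trans h6
    have := Nat.le_of_dvd (by omega) h7
    omega

end Pool.Agent.Lib.MP_68c55c_lc
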