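import Pool.Agent.Lib.MP_68c55c_lc.Jac

/-!
Perfect 2-codes: the case where one Lloyd root is a power of two.
-/

set_option autoImplicit false

namespace Pool.Agent.Lib.MP_68c55c_lc.Ev3

open jacobiSym PowTwo

lemma rec2 (u : ℕ) (v : ℤ) (hu : u % 2 = 1) (hv : v % 4 = 1) :
    jacobiSym u v.natAbs = jacobiSym v u := by
  have ou : Odd u := Nat.odd_iff.2 hu
  rcases Int.natAbs_eq v with h | h
  · rw [← quadratic_reciprocity_one_mod_four (a := v.natAbs) (by omega) ou, ← h]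
  · have h3 : v.natAbs % 4 = 3 := by omega
    have hn : jacobiSym v u = ZMod.χ₄ u * jacobiSym v.natAbs u := by
      conv_lhs => rw [h]
      exact jacobiSym.neg _ ou
    have : u % 4 = 1 ∨ u % 4 = 3 := by omega
    rcases this with h4 | h4
    · rw [hn, ZMod.χ₄_nat_one_mod_four h4, one_mul,
        quadratic_reciprocity_one_mod_four h4 (Nat.odd_iff.2 (by omega))]
    · rw [hn, ZMod.χ₄_nat_three_mod_four h4, quadratic_reciprocity_three_mod_four h4 h3]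
      ring

lemma two_neg (n : ℕ) (h : n % 8 = 3 ∨ n % 8 = 5) : jacobiSym 2 n = -1 := by
  have := mod_right' 2 (b := n) (Nat.odd_iff.2 (by omega))
  rcases h with h | h <;> simp only [Nat.cast_ofNat, show 4 * 2 = 8 by rfl, h] at this <;>
    rw [this] <;> norm_num

lemma two_pos (n : ℕ) (h : n % 8 = 1 ∨ n % 8 = 7) : jacobiSym 2 n = 1 := by
  have := mod_right' 2 (b := n) (Nat.odd_iff.2 (by omega))
  rcases h with h | h <;> simp only [Nat.cast_ofNat, show 4 * 2 = 8 by rfl, h] at this <;>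
    rw [this] <;> norm_num

lemma six_one (n k : ℕ) (h : n % 8 = 1 ∨ n % 8 = 7) (hj : jacobiSym (2 ^ k) n = jacobiSym 6 n) :
    n % 24 = 1 ∨ n % 24 = 23 := by
  rw [pow_left, two_pos n h, one_pow] at hj
  have h6 := mod_right' 6 (b := n) (Nat.odd_iff.2 (by omega))
  simp only [Nat.cast_ofNat, show 4 * 6 = 24 by rfl] at h6
  rw [h6] at hj
  have : n % 24 = 1 ∨ n % 24 = 23 ∨ n % 24 = 7 ∨ n % 24 = 9 ∨ n % 24 = 15 ∨ n % 24 = 17 := by
    omega
  rcases this with h | h | h | h | h | h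
  exacts [Or.inl h, Or.inr h, by rw [h] at hj; norm_num at hj, by rw [h] at hj; norm_num at hj,
    by rw [h] at hj; norm_num at hj, by rw [h] at hj; norm_num at hj]

lemma jc8 (a b A : ℤ) (hA : A % 2 = 1) (h : A ∣ 8 * (a - b)) :
    jacobiSym a A.natAbs = jacobiSym b A.natAbs := by
  have c2 : IsCoprime A 2 := ⟨1, -(A / 2), by omega⟩
  have c8 : IsCoprime A 8 := by simpa using c2.pow_right (n := 3)
  exact mod_left' (Int.modEq_iff_dvd.2 (Int.natAbs_dvd.2 (c8.dvd_of_dvd_mul_left h))).symm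

/-- One root is `2 ^ (h + j)`, the other `2 ^ h * R`, the signed gap is `2 ^ h * τ`. -/
lemma core {q R h j : ℕ} {τ : ℤ} (hj : 4 ≤ j) (hτ : τ % 2 = 1) (hR : (R : ℤ) = 2 ^ j + τ)
    (e : (4 * 2 ^ (h + j) : ℤ) = q * ((2 ^ h * τ) ^ 2 - 1) + 6 - 2 * (2 ^ h * τ))
    (h3 : ¬ 3 ∣ q) (pR : ∀ l : ℕ, l.Prime → l ∣ R → l ∣ q)
    (pτ : ∀ l : ℕ, l.Prime → l ∣ τ.natAbs → l ∣ q) :
    (R % 8 = 3 ∨ R % 8 = 5) ∧ q % 16 ≠ 2 ∧ q % 16 ≠ 14 := by
  obtain ⟨j, rfl⟩ := Nat.exists_eq_add_of_le hj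
  obtain ⟨w, hw⟩ : ∃ w : ℤ, w = 2 ^ j := ⟨_, rfl⟩
  have hR' : (R : ℤ) = 16 * w + τ := by rw [hR, hw]; ring
  have oR : R % 2 = 1 := by omega
  have R0 : R ≠ 0 := by omega
  have R3 : ¬ 3 ∣ R := fun h => h3 (pR 3 Nat.prime_three h)
  have τ3 : ¬ 3 ∣ τ.natAbs := fun h => h3 (pτ 3 Nat.prime_three h)
  have w3 : ¬ (3 : ℤ) ∣ w := fun h => by
    have := Int.prime_three.dvd_of_dvd_pow (hw ▸ h); omega
  have fR : ∀ l : ℕ, l.Prime → l ∣ R → (l : ℤ) ∣ 2 ^ h * τ + 3 := fun l hl hd => by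
    obtain ⟨c, hc⟩ := pR l hl hd
    have c2 : IsCoprime (l : ℤ) 2 := Nat.isCoprime_iff_coprime.2 (hl.coprime_iff_not_dvd.2 fun h2 => by
      obtain rfl := (Nat.prime_dvd_prime_iff_eq hl Nat.prime_two).1 h2
      omega)
    obtain ⟨d, hd⟩ := hd
    have hc' : (q : ℤ) = l * c := by exact_mod_cast hc
    have hd' : (R : ℤ) = l * d := by exact_mod_cast hd
    refine c2.dvd_of_dvd_mul_left ⟨4 * 2 ^ h * d - c * ((2 ^ h * τ) ^ 2 - 1), ?_⟩
    linear_combination -e - 4 * 2 ^ h * hR + 4 * 2 ^ h * hd' - ((2 ^ h * τ) ^ 2 - 1) * hc'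
  have h8 : R % 8 = 3 ∨ R % 8 = 5 := by
    by_contra hn
    have j1 := six_one R (h + (4 + j) + 1) (by omega) (jc _ _ _ R0 fun l hl hd => by
      obtain ⟨c, hc⟩ := fR l hl hd
      obtain ⟨d, hd⟩ := hd
      have hd' : (R : ℤ) = l * d := by exact_mod_cast hd
      exact ⟨2 * 2 ^ h * d - 2 * c, by
        linear_combination -2 * hc - 2 * 2 ^ h * hR + 2 * 2 ^ h * hd'⟩)
    have j2 := six_one τ.natAbs (h + (4 + j) + 2) (by omega) (jc _ _ _ (by omega) fun l hl hd => by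
      obtain ⟨c, hc⟩ := pτ l hl hd
      obtain ⟨d, hd⟩ := Int.natCast_dvd.2 hd
      have hc' : (q : ℤ) = l * c := by exact_mod_cast hc
      exact ⟨c * ((2 ^ h * τ) ^ 2 - 1) - 2 * 2 ^ h * d, by
        linear_combination e + ((2 ^ h * τ) ^ 2 - 1) * hc' - 2 * 2 ^ h * hd⟩)
    omega
  refine ⟨h8, ?_⟩
  obtain ⟨t, ht⟩ : ∃ t : ℤ, τ = 8 * t + 3 ∨ τ = 8 * t + 5 := ⟨τ / 8, by omega⟩
  have hX : (2 : ℤ) ^ (h + (4 + j)) = 16 * (2 ^ h * w) := by rw [hw]; ring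
  rcases h with _ | _ | _ | h
  · by_contra hn
    obtain ⟨u, hu⟩ : ∃ u : ℤ, q = 4 * u + 2 := ⟨q / 4, by omega⟩
    rw [hX] at e
    simp only [pow_zero, one_mul] at e fR
    obtain ⟨A, hA, A8⟩ : ∃ A : ℤ, τ = 2 * A + 1 ∧ A % 8 = 5 := by
      refine ⟨τ / 2, by omega, ?_⟩
      rcases ht with rfl | rfl
      · have : 64 * w = 16 * (1 - t) + 32 * (u + 3 * t + 6 * u * t + 4 * t * t + 8 * u * t * t) := by
          rw [hu] at e; linear_combination e
        omega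
      · have : 64 * w = 44 + 16 * (6 * u + 9 * t + 20 * u * t + 8 * t * t + 16 * u * t * t) := by
          rw [hu] at e; linear_combination e
        omega
    have j1 : jacobiSym R A.natAbs = -1 := by
      rw [jc8 R 2 A (by omega) ⟨4 * (q * (τ + 1) + 2), by
        rw [hR']; linear_combination 2 * e + 2 * (q * (τ + 1) + 2) * hA⟩]
      exact two_neg _ (by omega)
    rw [rec2 R A oR (by omega), jc A (-2) R R0 fun l hl hd => by
      have c2 : IsCoprime (l : ℤ) 2 :=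
        Nat.isCoprime_iff_coprime.2 (hl.coprime_iff_not_dvd.2 fun h2 => by
          obtain rfl := (Nat.prime_dvd_prime_iff_eq hl Nat.prime_two).1 h2
          omega)
      refine c2.dvd_of_dvd_mul_left ?_
      rw [show 2 * (A - -2) = τ + 3 by rw [hA]; ring]
      exact fR l hl hd, mod_right _ (Nat.odd_iff.2 oR)] at j1
    simp only [show 4 * (-2 : ℤ).natAbs = 8 by rfl, show R % 8 = 3 by omega] at j1
    norm_num at j1
  · rw [hX] at e
    simp only [zero_add, pow_one] at e fR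
    rcases ht with rfl | rfl
    · exfalso
      have j1 : jacobiSym R (2 * (8 * t + 3) - 1).natAbs = 1 := by
        rw [jc8 R 1 _ (by omega) ⟨q * (2 * (8 * t + 3) + 1) + 2, by
          rw [hR']; linear_combination e⟩, one_left]
      rw [rec2 R _ oR (by omega), jc _ (-4) R R0 fun l hl hd => by
        rw [show 2 * (8 * t + 3) - 1 - -4 = 2 * (8 * t + 3) + 3 by ring]
        exact fR l hl hd, mod_right _ (Nat.odd_iff.2 oR)] at j1
      have : R % 16 = 3 ∨ R % 16 = 11 := by omega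
      rcases this with h | h <;>
        simp only [show 4 * (-4 : ℤ).natAbs = 16 by rfl, h] at j1 <;> norm_num at j1
    · have : 128 * w = 99 * q - 14 + 32 * (10 * q * t + 8 * q * t * t - t) := by
        linear_combination e
      omega
  · exfalso
    have j1 : jacobiSym (2 ^ (0 + 1 + 1 + (4 + j))) (2 ^ (0 + 1 + 1) * τ - 1).natAbs = 1 := by
      rw [jc8 _ 1 _ (by omega) ⟨2 * (q * (2 ^ (0 + 1 + 1) * τ + 1) - 2), by
        linear_combination 2 * e⟩, one_left]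
    have j2 : jacobiSym (2 ^ (0 + 1 + 1 + (4 + j))) (2 ^ (0 + 1 + 1) * τ + 1).natAbs = -1 := by
      rw [jc8 _ 2 _ (by omega) ⟨2 * (q * (2 ^ (0 + 1 + 1) * τ - 1) - 2), by
        linear_combination 2 * e⟩]
      exact two_neg _ (by omega)
    rw [pow_left, two_neg _ (by omega)] at j1 j2
    omega
  · rw [hX] at e
    obtain ⟨v, hv⟩ : ∃ v : ℤ, v = 2 ^ h := ⟨_, rfl⟩
    have : (q : ℤ) = 6 + 16 * (4 * q * v * v * τ * τ - v * τ - 32 * v * w) := by
      rw [hv]; linear_combination e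
    omega

lemma pow24 {r : ℕ} (hr : r.Prime) (h5 : 5 ≤ r) (m : ℕ) : r ^ m % 24 = 1 ∨ r ^ m % 24 = r % 24 := by
  have h2 : r % 2 = 1 := by
    rcases hr.eq_two_or_odd with h | h <;> omega
  have h3 : ¬ 3 ∣ r := fun h => by
    have := (Nat.prime_dvd_prime_iff_eq Nat.prime_three hr).1 h; omega
  have hs : r * r % 24 = 1 := by
    have : r % 24 = 1 ∨ r % 24 = 5 ∨ r % 24 = 7 ∨ r % 24 = 11 ∨ r % 24 = 13 ∨ r % 24 = 17 ∨
      r % 24 = 19 ∨ r % 24 = 23 := by omega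
    rcases this with h | h | h | h | h | h | h | h <;> simp [Nat.mul_mod, h]
  induction m with
  | zero => simp
  | succ m ih =>
    rcases ih with h | h
    · right; rw [pow_succ, Nat.mul_mod, h]; simp
    · left; rw [pow_succ, Nat.mul_mod, h, ← Nat.mul_mod, hs]

/-- Signed form: the root `X` has no odd prime, `p` is the prime of the gap. -/
lemma signed {q X Y p r : ℕ} {σ : ℤ} (hp : p.Prime) (hr : r.Prime) (p5 : 5 ≤ p) (r5 : 5 ≤ r)
    (hq : ∀ l : ℕ, l.Prime → l ∣ q → l = 2 ∨ l = p ∨ l = r) (q70 : 70 ≤ q) (hs : 2 ≤ σ.natAbs)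
    (hY : (Y : ℤ) = X + σ) (e : (4 * X : ℤ) = q * (σ ^ 2 - 1) + 6 - 2 * σ)
    (pX : ∀ l : ℕ, l.Prime → l ∣ X → l = 2) (pY : ∀ l : ℕ, l.Prime → l ∣ Y → l = 2 ∨ l = r ∧ l ∣ q)
    (pσ : ∀ l : ℕ, l.Prime → l ∣ σ.natAbs → l ∣ q) :
    (p % 8 = 3 ∨ p % 8 = 5) ∧ (r % 8 = 3 ∨ r % 8 = 5) ∧ (p * r % 12 = 5 ∨ p * r % 12 = 7) ∧
      q % 16 ≠ 2 ∧ q % 16 ≠ 14 := by
  have big : 16 * σ.natAbs ≤ X := by
    have h1 : (σ.natAbs : ℤ) ^ 2 = σ ^ 2 := by simp
    have h2 : (2 : ℤ) ≤ σ.natAbs := by exact_mod_cast hs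
    have h3 : σ ≤ σ.natAbs := Int.le_natAbs
    have h4 : (70 : ℤ) ≤ q := by exact_mod_cast q70
    have : (16 * σ.natAbs : ℤ) ≤ X := by
      rw [← h1] at e
      nlinarith [mul_le_mul_of_nonneg_right h4 (by nlinarith : (0 : ℤ) ≤ (σ.natAbs : ℤ) ^ 2 - 1)]
    exact_mod_cast this
  obtain ⟨k, hk⟩ : ∃ k, X = 2 ^ k :=
    ⟨_, Nat.eq_prime_pow_of_unique_prime_dvd (by omega) fun hd h => pX _ hd h⟩
  obtain ⟨h, T, oT, hT⟩ := Nat.exists_eq_pow_mul_and_not_dvd (n := σ.natAbs) (by omega) 2 (by omega)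
  obtain ⟨τ, hτ, aτ⟩ : ∃ τ : ℤ, σ = 2 ^ h * τ ∧ τ.natAbs = T := by
    rcases Int.natAbs_eq σ with h1 | h1
    · exact ⟨T, by rw [h1, hT]; push_cast; ring, by simp⟩
    · exact ⟨-T, by rw [h1, hT]; push_cast; ring, by simp⟩
  have hk4 : h + 4 ≤ k := by
    have T0 : 1 ≤ T := by omega
    refine (Nat.pow_le_pow_iff_right (by omega : 1 < 2)).1 ?_
    rw [← hk, pow_add]
    nlinarith [Nat.mul_le_mul_left (2 ^ h) T0]
  obtain ⟨j, rfl⟩ := Nat.exists_eq_add_of_le (show h ≤ k by omega)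
  have hX : (X : ℤ) = 2 ^ (h + j) := by exact_mod_cast hk
  have hY2 : (Y : ℤ) = 2 ^ h * (2 ^ j + τ) := by rw [hY, hX, hτ]; ring
  have Y0 : (0 : ℤ) < Y := by omega
  obtain ⟨R, hR⟩ : ∃ R : ℕ, (R : ℤ) = 2 ^ j + τ :=
    ⟨_, Int.toNat_of_nonneg ((mul_pos_iff_of_pos_left (by positivity)).1 (hY2 ▸ Y0)).le⟩
  have RY : R ∣ Y := Int.natCast_dvd_natCast.1 ⟨2 ^ h, by rw [hY2, hR]; ring⟩
  obtain ⟨j, rfl⟩ := Nat.exists_eq_add_of_le (show 4 ≤ j by omega)
  obtain ⟨w, hw⟩ : ∃ w : ℤ, w = 2 ^ j := ⟨_, rfl⟩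
  have hR' : (R : ℤ) = 16 * w + τ := by rw [hR, hw]; ring
  have w3 : ¬ (3 : ℤ) ∣ w := fun h => by
    have := Int.prime_three.dvd_of_dvd_pow (hw ▸ h); omega
  have q3 : ¬ 3 ∣ q := fun h => by have := hq 3 Nat.prime_three h; omega
  have pR : ∀ l : ℕ, l.Prime → l ∣ R → l = r ∧ l ∣ q := fun l hl hd =>
    (pY l hl (hd.trans RY)).resolve_left (by rintro rfl; omega)
  have Tσ : T ∣ σ.natAbs := hT ▸ Dvd.intro_left _ rfl
  obtain ⟨c1, c2⟩ := core (q := q) (R := R) (h := h) (j := 4 + j) (τ := τ) (by omega) (by omega) hR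
    (by rw [← hX, ← hτ]; exact e) q3 (fun l hl hd => (pR l hl hd).2)
    fun l hl hd => pσ l hl ((aτ ▸ hd).trans Tσ)
  obtain ⟨m, hm⟩ : ∃ m, R = r ^ m :=
    ⟨_, Nat.eq_prime_pow_of_unique_prime_dvd (by omega) fun hd h => (pR _ hd h).1⟩
  have rR : r ∣ R := by
    rcases m with _ | m
    · simp at hm; omega
    · exact hm ▸ dvd_pow_self r m.succ_ne_zero
  obtain ⟨f, hf⟩ : ∃ f, T = p ^ f :=
    ⟨_, Nat.eq_prime_pow_of_unique_prime_dvd (by omega) fun {l} hl hd => by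
      rcases hq l hl (pσ l hl (hd.trans Tσ)) with rfl | rfl | rfl
      · exact absurd hd oT
      · rfl
      · exfalso
        have h1 : (l : ℤ) ∣ 2 ^ (4 + j) := by
          have h2 : (l : ℤ) ∣ τ := Int.natCast_dvd.2 (aτ ▸ hd)
          exact (dvd_add_left h2).1 (hR ▸ Int.natCast_dvd_natCast.2 rR)
        have h3 : l ∣ 2 ^ (4 + j) := by exact_mod_cast h1
        have := Nat.le_of_dvd (by omega) (hl.dvd_of_dvd_pow h3)
        omega⟩
  have a1 := pow24 hr r5 m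
  have a2 := pow24 hp p5 f
  rw [← hm] at a1
  rw [← hf] at a2
  have p3 : ¬ 3 ∣ p := fun h => by
    have := (Nat.prime_dvd_prime_iff_eq Nat.prime_three hp).1 h; omega
  have r3 : ¬ 3 ∣ r := fun h => by
    have := (Nat.prime_dvd_prime_iff_eq Nat.prime_three hr).1 h; omega
  have b1 : R % 24 = r % 24 := by omega
  have b2 : T % 24 = p % 24 := by omega
  refine ⟨by omega, by omega, ?_, c2⟩
  have d1 : r % 12 = 1 ∨ r % 12 = 5 ∨ r % 12 = 7 ∨ r % 12 = 11 := by clear * - b1 c1 r3; omega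
  have d2 : τ = T ∨ τ = -T := by omega
  have d3 : p % 12 = 1 ∨ p % 12 = 5 ∨ p % 12 = 7 ∨ p % 12 = 11 := by clear * - b2 oT p3; omega
  clear * - d1 d2 d3 b1 b2 hR' w3
  rcases d1 with h1 | h1 | h1 | h1 <;> rcases d3 with h2 | h2 | h2 | h2 <;>
    first
    | (simp [Nat.mul_mod, h1, h2]; done)
    | (exfalso; omega)

/-- Alphabet sizes with primes among `2, p, r`, where `p` divides no root. -/
lemma three {q s x n p r : ℕ} (hp : p.Prime) (hr : r.Prime) (p5 : 5 ≤ p) (r5 : 5 ≤ r)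
    (hq : ∀ l : ℕ, l.Prime → l ∣ q → l = 2 ∨ l = p ∨ l = r) (q70 : 70 ≤ q) (hs : 2 ≤ s)
    (e1 : 4 * x + 2 * s + q = q * s ^ 2 + 6) (e3 : x * (x + s) ∣ 2 * q ^ n)
    (rad : ∀ l : ℕ, l.Prime → l ∣ s → l ∣ q) (ps : ¬ p ∣ x * (x + s)) :
    (p % 8 = 3 ∨ p % 8 = 5) ∧ (r % 8 = 3 ∨ r % 8 = 5) ∧ (p * r % 12 = 5 ∨ p * r % 12 = 7) ∧
      q % 16 ≠ 2 ∧ q % 16 ≠ 14 := by
  have e1' : (4 * x + 2 * s + q : ℤ) = q * s ^ 2 + 6 := by exact_mod_cast e1
  have no : ∀ l : ℕ, l.Prime → 5 ≤ l → l ∣ s → ¬ l ∣ x := fun l hl l5 h1 h2 => by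
    have h3 : l ∣ q * s ^ 2 + 6 :=
      e1 ▸ dvd_add (dvd_add (h2.mul_left 4) (h1.mul_left 2)) (rad l hl h1)
    have h4 : l ∣ 2 * 3 := (Nat.dvd_add_right ((rad l hl h1).mul_right _)).1 h3
    rcases hl.dvd_mul.1 h4 with h | h <;> have := Nat.le_of_dvd (by omega) h <;> omega
  have pxy : ∀ l : ℕ, l.Prime → l ∣ x * (x + s) → l = 2 ∨ l = r ∧ l ∣ q := fun l hl hd => by
    rcases hl.dvd_mul.1 (hd.trans e3) with h | h
    · exact Or.inl ((Nat.prime_dvd_prime_iff_eq hl Nat.prime_two).1 h)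
    have h1 := hl.dvd_of_dvd_pow h
    rcases hq l hl h1 with h2 | rfl | h2
    · exact Or.inl h2
    · exact absurd hd ps
    · exact Or.inr ⟨h2, h1⟩
  by_cases rx : r ∣ x
  · refine signed (X := x + s) (Y := x) (σ := -s) hp hr p5 r5 hq q70 (by simpa) (by push_cast; ring)
      (by push_cast; linear_combination e1') (fun l hl hd => ?_)
      (fun l hl hd => pxy l hl (hd.mul_right _)) (by simpa using rad)
    refine (pxy l hl (hd.mul_left _)).resolve_right ?_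
    rintro ⟨rfl, -⟩
    exact no l hl r5 ((Nat.dvd_add_right rx).1 hd) rx
  · refine signed (X := x) (Y := x + s) (σ := s) hp hr p5 r5 hq q70 (by simpa) (by push_cast; ring)
      (by linear_combination e1') (fun l hl hd => ?_)
      (fun l hl hd => pxy l hl (hd.mul_left _)) (by simpa using rad)
    refine (pxy l hl (hd.mul_right _)).resolve_right ?_
    rintro ⟨rfl, -⟩
    exact rx hd

/-- Even alphabet sizes with exactly two odd primes, both at least five. -/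
theorem main (q n p r : ℕ) (hp : p.Prime) (hr : r.Prime) (p5 : 5 ≤ p) (pr : p < r)
    (hq : q.primeFactors = {2, p, r}) (C : Finset (Fin n → Fin q))
    (hC : ∀ x : Fin n → Fin q, ∃! c : Fin n → Fin q, c ∈ C ∧ hammingDist x c ≤ 2)
    (h2 : 2 ≤ C.card) :
    (p % 8 = 3 ∨ p % 8 = 5) ∧ (r % 8 = 3 ∨ r % 8 = 5) ∧ (p * r % 12 = 5 ∨ p * r % 12 = 7) ∧
      q % 16 ≠ 2 ∧ q % 16 ≠ 14 := by
  have m : ∀ l : ℕ, l = 2 ∨ l = p ∨ l = r ↔ l.Prime ∧ l ∣ q ∧ q ≠ 0 := fun l => by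
    rw [← Nat.mem_primeFactors, hq]; simp
  obtain ⟨-, q2, q0⟩ := (m 2).1 (Or.inl rfl)
  have qp := ((m p).1 (Or.inr (Or.inl rfl))).2.1
  have qr := ((m r).1 (Or.inr (Or.inr rfl))).2.1
  have hq' : ∀ l : ℕ, l.Prime → l ∣ q → l = 2 ∨ l = p ∨ l = r := fun l hl hd =>
    (m l).2 ⟨hl, hd, q0⟩
  have r7 : 7 ≤ r := by
    have : r ≠ 6 := by rintro rfl; norm_num at hr
    omega
  have q70 : 70 ≤ q := by
    have c1 : Nat.Coprime 2 p := (Nat.coprime_primes Nat.prime_two hp).2 (by omega)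
    have c2 : Nat.Coprime 2 r := (Nat.coprime_primes Nat.prime_two hr).2 (by omega)
    have c3 : Nat.Coprime p r := (Nat.coprime_primes hp hr).2 (by omega)
    have := Nat.le_of_dvd (Nat.pos_of_ne_zero q0)
      ((c2.mul_left c3).mul_dvd_of_dvd_of_dvd (c1.mul_dvd_of_dvd_of_dvd q2 qp) qr)
    nlinarith
  obtain ⟨s, x, hs, -, e1, e2, e3, e4, e5⟩ := params_rad C hC (by omega) h2
  have rad : ∀ l : ℕ, l.Prime → l ∣ s → l ∣ q := fun l hl hd => by
    rcases hl.dvd_mul.1 (hd.trans e4) with h | h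
    · rcases hl.dvd_mul.1 ((h.mul_right _).trans e3) with h' | h'
      · exact h'.trans q2
      · exact hl.dvd_of_dvd_pow h'
    · exact hl.dvd_of_dvd_pow (h.trans e5)
  by_cases h1 : p ∣ x * (x + s)
  swap
  · exact three hp hr p5 (by omega) hq' q70 hs e1 e3 rad h1
  by_cases h3 : r ∣ x * (x + s)
  swap
  · obtain ⟨a, b, c, d⟩ := three hr hp (by omega) p5 (fun l hl hd => by
      rcases hq' l hl hd with h | h | h <;> simp [h]) q70 hs e1 e3 rad h3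
    exact ⟨b, a, by rwa [mul_comm], d⟩
  exfalso
  have q3 : ¬ 3 ∣ q := fun h => by have := hq' 3 Nat.prime_three h; omega
  obtain ⟨u, rfl⟩ := q2
  have npp : ¬ IsPrimePow (2 * u) := fun h => by
    have := isPrimePow_iff_card_primeFactors_eq_one.1 h
    rw [hq, Finset.card_eq_one] at this
    obtain ⟨z, hz⟩ := this
    have a1 : 2 ∈ ({z} : Finset ℕ) := hz ▸ by simp
    have a2 : p ∈ ({z} : Finset ℕ) := hz ▸ by simp
    simp at a1 a2
    omega
  rcases Jac.arith (V := 2 * u ^ 2 * (x * (x + s))) npp (by omega) hs e1 e2 e3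
    (fun l hl hd => (rad l hl hd).mul_left 2) (by ring) (fun l hl l5 hd => by
      rcases hq' l hl hd with h | h | h
      · omega
      · exact h ▸ h1
      · exact h ▸ h3) with h | ⟨k, -, k1, hk, -⟩
  · omega
  · have := dvd_of_one_le_padicValNat (hk ▸ k1)
    rcases Nat.prime_three.dvd_mul.1 this with h | h <;> omega

end Pool.Agent.Lib.MP_68c55c_lc.Ev3
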