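import Pool.Agent.Lib.MP_68c55c_lc.Digits

/-!
The case where the difference of the two roots is even.
-/

set_option autoImplicit false

namespace Pool.Agent.Lib.MP_68c55c_lc

/-- The truncated root. -/
def sig (m : ℕ) : ℕ := 3 + m * (8 + m * (48 + m * (352 + m * 2880)))

lemma dvd_sig (m : ℤ) : m ^ 5 ∣ m * (3 + m * (8 + m * (48 + m * (352 + m * 2880)))) ^ 2 -
    (3 + m * (8 + m * (48 + m * (352 + m * 2880)))) - m + 3 :=
  ⟨25216 + 79872 * m + 400384 * m ^ 2 + 2027520 * m ^ 3 + 8294400 * m ^ 4, by ring⟩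

lemma pm_cases {m s L : ℕ} (hL : L ≤ 5) (hs0 : 0 < s) (hs : s < m ^ L) {η : ℤ}
    (hη : η = 1 ∨ η = -1) (h : (m : ℤ) ^ L ∣ m * s ^ 2 + η * s - m + 3) :
    s = sig m % m ^ L ∨ s = m ^ L - sig m % m ^ L := by
  have h1 := (pow_dvd_pow (m : ℤ) hL).trans (dvd_sig m)
  have h2 : ((sig m : ℕ) : ℤ) = 3 + m * (8 + m * (48 + m * (352 + m * 2880))) := by simp [sig]
  rw [← h2] at h1
  have h3 := dvd_sub h1 h
  have hη2 : η ^ 2 = 1 := by rcases hη with h | h <;> simp [h]
  have h4 : (m : ℤ) * (sig m : ℤ) ^ 2 - sig m - m + 3 - (m * s ^ 2 + η * s - m + 3) =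
      ((sig m : ℤ) + η * s) * (m * (sig m - η * s) - 1) := by
    linear_combination ((m : ℤ) * s ^ 2) * hη2
  rw [h4] at h3
  have hc : IsCoprime (m : ℤ) (m * (sig m - η * s) - 1) := ⟨sig m - η * s, -1, by ring⟩
  have h5 : (m : ℤ) ^ L ∣ (sig m : ℤ) + η * s := (hc.pow_left (m := L)).dvd_of_dvd_mul_right h3
  have hP : 0 < m ^ L := by omega
  rcases hη with rfl | rfl
  · right
    have h6 : m ^ L ∣ sig m + s := by
      have : ((m ^ L : ℕ) : ℤ) ∣ ((sig m + s : ℕ) : ℤ) := by push_cast; simpa using h5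
      exact_mod_cast this
    have h7 : m ^ L ∣ sig m % m ^ L + s := by
      rw [← Nat.modEq_zero_iff_dvd] at h6 ⊢
      exact ((Nat.mod_modEq _ _).add_right s).trans h6
    have h8 := Nat.mod_lt (sig m) hP
    generalize sig m % m ^ L = r at h7 h8 ⊢
    obtain ⟨c, hc'⟩ := h7
    rcases c with _ | _ | c
    · omega
    · omega
    · exfalso
      have : m ^ L * (c + 1 + 1) = m ^ L * c + 2 * m ^ L := by ring
      omega
  · left
    have h6 : s ≡ sig m [MOD m ^ L] := by
      rw [Nat.modEq_iff_dvd]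
      push_cast
      have : (sig m : ℤ) - s = sig m + -1 * s := by ring
      rw [this]; exact h5
    rw [← h6, Nat.mod_eq_of_lt hs]

/-- The size condition at precision `L`. -/
def sizeE (L m s : ℕ) : Prop :=
  if L = 1 then 3 * s ^ 2 < 2 * m ^ 2 ∧ ¬ (m = 11 ∧ s = 8)
  else if L = 2 then s ^ 2 < m ^ 3 else s < m ^ (L - 1)

instance (L m s : ℕ) : Decidable (sizeE L m s) := by unfold sizeE; infer_instance

/-- One candidate is excluded. -/
def okE (L m s : ℕ) : Bool :=
  decide (s % 2 = 1) || decide ((s ^ 2 - 1) % (2 * m - 1) ≠ 0) || decide (¬ sizeE L m s)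

/-- Both candidates are excluded. -/
def chkE (L m : ℕ) : Bool :=
  okE L m (sig m % m ^ L) && okE L m (m ^ L - sig m % m ^ L)

/-- All precisions. -/
def chkE' (m : ℕ) : Bool :=
  decide (m < 5) || decide (m % 2 = 0) ||
    (chkE 1 m && chkE 2 m && chkE 3 m && chkE 4 m && chkE 5 m)

lemma chkE_all : allBin chkE' 12 0 = true := by decide +kernel

theorem digits_even {m s L : ℕ} (hm : 5 ≤ m) (hmo : m % 2 = 1) (hL1 : 1 ≤ L) (hL : L ≤ 5)
    (hs0 : 2 ≤ s) (hse : s % 2 = 0) (hd : 2 * m - 1 ∣ s ^ 2 - 1) (hsz : sizeE L m s) {η : ℤ}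
    (hη : η = 1 ∨ η = -1) (h : (m : ℤ) ^ L ∣ m * s ^ 2 + η * s - m + 3) : False := by
  have hs : s < m ^ L := by
    unfold sizeE at hsz
    split_ifs at hsz with h1 h2
    · rw [h1, pow_one]; nlinarith [hsz.1]
    · rw [h2]
      have : m ^ 3 ≤ (m ^ 2) ^ 2 := by
        rw [← pow_mul]; exact Nat.pow_le_pow_right (by omega) (by norm_num)
      exact lt_of_pow_lt_pow_left₀ 2 (Nat.zero_le _) (hsz.trans_le this)
    · exact hsz.trans_le (Nat.pow_le_pow_right (by omega) (by omega))
  have hc := pm_cases hL (by omega) hs hη h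
  by_cases hB : m < 4096
  · have h1 := allBin_spec _ _ _ chkE_all m (by omega) (by omega)
    simp only [chkE', Bool.or_eq_true, decide_eq_true_eq, Bool.and_eq_true] at h1
    have h2 : chkE L m = true := by
      rcases h1 with (h1 | h1) | h1
      · omega
      · omega
      · interval_cases L
        · exact h1.1.1.1.1
        · exact h1.1.1.1.2
        · exact h1.1.1.2
        · exact h1.1.2
        · exact h1.2
    rw [chkE, Bool.and_eq_true] at h2
    have h3 : okE L m s = true := by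
      rcases hc with hc | hc
      · rw [hc]; exact h2.1
      · rw [hc]; exact h2.2
    simp only [okE, Bool.or_eq_true, decide_eq_true_eq] at h3
    rcases h3 with (h3 | h3) | h3
    · omega
    · exact h3 (Nat.mod_eq_zero_of_dvd hd)
    · exact h3 hsz
  · push Not at hB
    unfold sizeE at hsz
    interval_cases L
    · have e : sig m % m ^ 1 = 3 := by
        rw [pow_one, sig, Nat.add_mul_mod_self_left, Nat.mod_eq_of_lt (by omega)]
      rw [e, pow_one] at hc
      simp only [if_true] at hsz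
      rcases hc with hc | hc
      · omega
      · obtain ⟨k, rfl⟩ : ∃ k, m = k + 3 := ⟨m - 3, by omega⟩
        have : s = k := by omega
        subst this
        nlinarith [hsz.1]
    · have e : sig m % m ^ 2 = 3 + 8 * m := by
        have : sig m = 3 + 8 * m + m ^ 2 * (48 + m * (352 + m * 2880)) := by unfold sig; ring
        rw [this, Nat.add_mul_mod_self_left, Nat.mod_eq_of_lt (by nlinarith)]
      rw [e] at hc
      norm_num at hsz
      rcases hc with hc | hc
      · omega
      · have h1 : 4096 * m ≤ m ^ 2 := by nlinarith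
        have h2 : m ^ 2 ≤ 2 * s := by omega
        have h3 : (m ^ 2) ^ 2 ≤ (2 * s) ^ 2 := Nat.pow_le_pow_left h2 2
        have h4 : 4 * m ^ 3 ≤ m * m ^ 3 := Nat.mul_le_mul_right _ (by omega)
        nlinarith
    · have h1 : 4096 * m ≤ m ^ 2 := by nlinarith
      have h2 : 4096 * m ^ 2 ≤ m ^ 3 := by
        rw [pow_succ' m 2]; exact Nat.mul_le_mul_right _ hB
      have e : sig m % m ^ 3 = 3 + 8 * m + 48 * m ^ 2 := by
        have : sig m = 3 + 8 * m + 48 * m ^ 2 + m ^ 3 * (352 + m * 2880) := by unfold sig; ring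
        rw [this, Nat.add_mul_mod_self_left, Nat.mod_eq_of_lt (by omega)]
      rw [e] at hc
      norm_num at hsz
      omega
    · have h1 : 4096 * m ≤ m ^ 2 := by nlinarith
      have h2 : 4096 * m ^ 2 ≤ m ^ 3 := by
        rw [pow_succ' m 2]; exact Nat.mul_le_mul_right _ hB
      have h3 : 4096 * m ^ 3 ≤ m ^ 4 := by
        rw [pow_succ' m 3]; exact Nat.mul_le_mul_right _ hB
      have e : sig m % m ^ 4 = 3 + 8 * m + 48 * m ^ 2 + 352 * m ^ 3 := by
        have : sig m = 3 + 8 * m + 48 * m ^ 2 + 352 * m ^ 3 + m ^ 4 * 2880 := by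
          unfold sig; ring
        rw [this, Nat.add_mul_mod_self_left, Nat.mod_eq_of_lt (by omega)]
      rw [e] at hc
      norm_num at hsz
      omega
    · have h1 : 4096 * m ≤ m ^ 2 := by nlinarith
      have h2 : 4096 * m ^ 2 ≤ m ^ 3 := by
        rw [pow_succ' m 2]; exact Nat.mul_le_mul_right _ hB
      have h3 : 4096 * m ^ 3 ≤ m ^ 4 := by
        rw [pow_succ' m 3]; exact Nat.mul_le_mul_right _ hB
      have h4 : 4096 * m ^ 4 ≤ m ^ 5 := by
        rw [pow_succ' m 4]; exact Nat.mul_le_mul_right _ hB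
      have e : sig m % m ^ 5 = 3 + 8 * m + 48 * m ^ 2 + 352 * m ^ 3 + 2880 * m ^ 4 := by
        have : sig m = 3 + 8 * m + 48 * m ^ 2 + 352 * m ^ 3 + 2880 * m ^ 4 := by
          unfold sig; ring
        rw [this, Nat.mod_eq_of_lt (by omega)]
      rw [e] at hc
      norm_num at hsz
      omega

end Pool.Agent.Lib.MP_68c55c_lc
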