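import Mathlib

/-!
Two Liouville steps on a four-cycle of admissible parameters.
-/

set_option autoImplicit false

namespace Pool.Agent.Lib.MP_68c55c_lc.Four

lemma amul {x y A B : ℝ} (hx : |x| ≤ A) (hy : |y| ≤ B) : |x * y| ≤ A * B := by
  rw [abs_mul]
  exact mul_le_mul hx hy (abs_nonneg _) ((abs_nonneg _).trans hx)

lemma eta {q s z e : ℝ} (he : |e| = 1) (hq : 1 ≤ q) (hs : 8 ≤ s)
    (h : 4 * z = q * s ^ 2 - q + 6 + 2 * e * s) :
    ∃ η θ : ℝ, 4 * z = q * s ^ 2 * (1 + η) ∧ η = 2 * e * (1 / (q * s)) + θ ∧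
      ∀ ρ : ℝ, 1 / s ≤ ρ → |η| ≤ 3 * ρ ∧ |θ| ≤ 6 * ρ ^ 2 := by
  have hq0 : 0 < q := by linarith
  have hs0 : 0 < s := by linarith
  refine ⟨2 * e * (1 / (q * s)) + (6 - q) / q * (1 / s) ^ 2, (6 - q) / q * (1 / s) ^ 2, ?_, rfl,
    fun ρ hρ => ?_⟩
  · rw [h]; field_simp; ring
  · have h0 : 0 < 1 / s := by positivity
    have h1 : |(6 - q) / q| ≤ 6 := by
      rw [abs_div, abs_of_pos hq0, div_le_iff₀ hq0, abs_le]
      constructor <;> linarith
    have h2 : |(6 - q) / q * (1 / s) ^ 2| ≤ 6 * (1 / s) ^ 2 :=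
      amul h1 (le_of_eq (abs_of_pos (by positivity)))
    have h3 : 1 / (q * s) ≤ 1 / s := by
      gcongr
      nlinarith
    have h4 : |2 * e * (1 / (q * s))| ≤ 2 * (1 / s) := by
      refine amul (le_of_eq ?_) ((le_of_eq (abs_of_pos (by positivity))).trans h3)
      rw [abs_mul, he]; norm_num
    have h5 : 1 / s ≤ 1 / 8 := by gcongr
    have h6 : (1 / s) ^ 2 ≤ ρ ^ 2 := by gcongr
    refine ⟨(abs_add_le _ _).trans ?_, by linarith⟩
    nlinarith

theorem four_cycle {q11 q12 q21 q22 s11 s12 s21 s22 z11 z12 z21 z22 a1 b1 a2 b2 c1 d1 c2 d2 e H : ℤ}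
    (he : e ^ 2 = 1)
    (E11 : 4 * z11 = q11 * s11 ^ 2 - q11 + 6 + 2 * e * s11)
    (E12 : 4 * z12 = q12 * s12 ^ 2 - q12 + 6 + 2 * e * s12)
    (E21 : 4 * z21 = q21 * s21 ^ 2 - q21 + 6 + 2 * e * s21)
    (E22 : 4 * z22 = q22 * s22 ^ 2 - q22 + 6 + 2 * e * s22)
    (r1 : z11 * b1 = z12 * a1) (r2 : z21 * b2 = z22 * a2)
    (k1 : s11 * d1 = s21 * c1) (k2 : s12 * d2 = s22 * c2)
    (hq11 : 1 ≤ q11 ∧ q11 ≤ H) (hq12 : 1 ≤ q12 ∧ q12 ≤ H) (hq21 : 1 ≤ q21 ∧ q21 ≤ H)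
    (hq22 : 1 ≤ q22 ∧ q22 ≤ H) (ha1 : 1 ≤ a1 ∧ a1 ≤ H) (hb1 : 1 ≤ b1 ∧ b1 ≤ H)
    (ha2 : 1 ≤ a2 ∧ a2 ≤ H) (hb2 : 1 ≤ b2 ∧ b2 ≤ H) (hc1 : 1 ≤ c1 ∧ c1 ≤ H)
    (hd1 : 1 ≤ d1 ∧ d1 ≤ H) (hc2 : 1 ≤ c2 ∧ c2 ≤ H) (hd2 : 1 ≤ d2 ∧ d2 ≤ H)
    (h11 : 2 ^ 10 * H ^ 20 < s11) (h12 : 2 ^ 10 * H ^ 20 < s12) (h21 : 2 ^ 10 * H ^ 20 < s21)
    (h22 : 2 ^ 10 * H ^ 20 < s22) :
    d1 * q21 = c1 * q11 ∨ ∃ u v : ℤ, u ≠ 0 ∧ v ≠ 0 ∧ a1 * q12 * v ^ 2 = b1 * q11 * u ^ 2 := by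
  by_cases hU : d1 * q21 = c1 * q11
  · exact Or.inl hU
  right
  have key : a1 * q12 * ((d2 * q22 - c2 * q12) * (q11 * d1 * q21)) ^ 2 =
      b1 * q11 * ((d1 * q21 - c1 * q11) * (q12 * d2 * q22)) ^ 2 := by
    have int0 : ∀ A B : ℤ, |(A : ℝ) - B| < 1 → A = B := by
      intro A B h
      have : |A - B| < 1 := by exact_mod_cast h
      exact sub_eq_zero.1 (Int.abs_lt_one_iff.1 this)
    have he' : |(e : ℝ)| = 1 := by
      have : (e : ℝ) ^ 2 = 1 := by exact_mod_cast he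
      rw [← sq_eq_sq₀ (abs_nonneg _) zero_le_one, sq_abs, this]; norm_num
    have cb : ∀ {x : ℤ}, 1 ≤ x ∧ x ≤ H → (1 : ℝ) ≤ x ∧ (x : ℝ) ≤ H := fun h =>
      ⟨by exact_mod_cast h.1, by exact_mod_cast h.2⟩
    have cs : ∀ {x : ℤ}, 2 ^ 10 * H ^ 20 < x → (2 : ℝ) ^ 10 * (H : ℝ) ^ 20 < x := fun h => by
      exact_mod_cast h
    have cE : ∀ {z q s : ℤ}, 4 * z = q * s ^ 2 - q + 6 + 2 * e * s →
        4 * (z : ℝ) = q * s ^ 2 - q + 6 + 2 * e * s := fun h => by exact_mod_cast h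
    have cm : ∀ {x y u v : ℤ}, x * y = u * v → (x : ℝ) * y = u * v := fun h => by
      exact_mod_cast h
    have iN := int0 (a1 * b2 * q12 * q21 * d1 ^ 2 * c2 ^ 2) (b1 * a2 * q11 * q22 * c1 ^ 2 * d2 ^ 2)
    refine int0 _ _ ?_
    replace iN := fun h => congrArg (Int.cast : ℤ → ℝ) (iN h)
    push_cast at iN ⊢
    replace E11 := cE E11
    replace E12 := cE E12
    replace E21 := cE E21
    replace E22 := cE E22
    replace r1 := cm r1
    replace r2 := cm r2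
    replace k1 := cm k1
    replace k2 := cm k2
    obtain ⟨q11a, q11b⟩ := cb hq11
    obtain ⟨q12a, q12b⟩ := cb hq12
    obtain ⟨q21a, q21b⟩ := cb hq21
    obtain ⟨q22a, q22b⟩ := cb hq22
    obtain ⟨a1a, a1b⟩ := cb ha1
    obtain ⟨b1a, b1b⟩ := cb hb1
    obtain ⟨a2a, a2b⟩ := cb ha2
    obtain ⟨b2a, b2b⟩ := cb hb2
    obtain ⟨c1a, c1b⟩ := cb hc1
    obtain ⟨d1a, d1b⟩ := cb hd1
    obtain ⟨c2a, c2b⟩ := cb hc2
    obtain ⟨d2a, d2b⟩ := cb hd2
    replace h11 := cs h11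
    replace h12 := cs h12
    replace h21 := cs h21
    replace h22 := cs h22
    clear hU hq11 hq12 hq21 hq22 ha1 hb1 ha2 hb2 hc1 hd1 hc2 hd2 cb cs cE cm int0 he
    generalize (q11 : ℝ) = q11, (q12 : ℝ) = q12, (q21 : ℝ) = q21, (q22 : ℝ) = q22,
      (s11 : ℝ) = s11, (s12 : ℝ) = s12, (s21 : ℝ) = s21, (s22 : ℝ) = s22, (z11 : ℝ) = z11,
      (z12 : ℝ) = z12, (z21 : ℝ) = z21, (z22 : ℝ) = z22, (a1 : ℝ) = a1, (b1 : ℝ) = b1,
      (a2 : ℝ) = a2, (b2 : ℝ) = b2, (c1 : ℝ) = c1, (d1 : ℝ) = d1, (c2 : ℝ) = c2, (d2 : ℝ) = d2,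
      (e : ℝ) = e, (H : ℝ) = H at *
    have hH : 1 ≤ H := q11a.trans q11b
    have hH0 : 0 < H := by linarith only [hH]
    have hp : ∀ i j : ℕ, i ≤ j → H ^ i ≤ H ^ j := fun i j h => pow_le_pow_right₀ hH h
    have h20 : 1 ≤ H ^ 20 := one_le_pow₀ hH
    obtain ⟨η11, θ11, X11, Y11, B11⟩ := eta he' q11a (by linarith only [h11, h20]) E11
    obtain ⟨η12, θ12, X12, Y12, B12⟩ := eta he' q12a (by linarith only [h12, h20]) E12
    obtain ⟨η21, θ21, X21, Y21, B21⟩ := eta he' q21a (by linarith only [h21, h20]) E21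
    obtain ⟨η22, θ22, X22, Y22, B22⟩ := eta he' q22a (by linarith only [h22, h20]) E22
    have s11p : 0 < s11 := by linarith only [h11, h20]
    have s12p : 0 < s12 := by linarith only [h12, h20]
    have s21p : 0 < s21 := by linarith only [h21, h20]
    have s22p : 0 < s22 := by linarith only [h22, h20]
    have q11p : 0 < q11 := zero_lt_one.trans_le q11a
    have q12p : 0 < q12 := zero_lt_one.trans_le q12a
    have q21p : 0 < q21 := zero_lt_one.trans_le q21a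
    have q22p : 0 < q22 := zero_lt_one.trans_le q22a
    have a1p : 0 < a1 := zero_lt_one.trans_le a1a
    have b1p : 0 < b1 := zero_lt_one.trans_le b1a
    have a2p : 0 < a2 := zero_lt_one.trans_le a2a
    have b2p : 0 < b2 := zero_lt_one.trans_le b2a
    have c1p : 0 < c1 := zero_lt_one.trans_le c1a
    have d1p : 0 < d1 := zero_lt_one.trans_le d1a
    have c2p : 0 < c2 := zero_lt_one.trans_le c2a
    have d2p : 0 < d2 := zero_lt_one.trans_le d2a
    obtain ⟨ε, hε, hε0⟩ : ∃ ε : ℝ, ε * (2 ^ 10 * H ^ 20) = 1 ∧ 0 < ε :=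
      ⟨1 / (2 ^ 10 * H ^ 20), by field_simp, by positivity⟩
    have hεs : ∀ s : ℝ, 2 ^ 10 * H ^ 20 < s → 1 / s ≤ ε := by
      intro s hs
      rw [div_le_iff₀ (by linarith only [hs, h20]), ← hε]
      exact mul_le_mul_of_nonneg_left hs.le hε0.le
    have hε1 : ε ≤ 1 / 1024 := by
      have := mul_le_mul_of_nonneg_left h20 hε0.le
      linarith only [this, hε]
    have e11 := (B11 ε (hεs _ h11)).1
    have e12 := (B12 ε (hεs _ h12)).1
    have e21 := (B21 ε (hεs _ h21)).1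
    have e22 := (B22 ε (hεs _ h22)).1
    have R1 : b1 * q11 * s11 ^ 2 * (1 + η11) = a1 * q12 * s12 ^ 2 * (1 + η12) := by
      linear_combination 4 * r1 - b1 * X11 + a1 * X12
    have R2 : b2 * q21 * s21 ^ 2 * (1 + η21) = a2 * q22 * s22 ^ 2 * (1 + η22) := by
      linear_combination 4 * r2 - b2 * X21 + a2 * X22
    have K1 : s11 ^ 2 * d1 ^ 2 = s21 ^ 2 * c1 ^ 2 := by rw [← mul_pow, k1, mul_pow]
    have K2 : s12 ^ 2 * d2 ^ 2 = s22 ^ 2 * c2 ^ 2 := by rw [← mul_pow, k2, mul_pow]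
    have hN : a1 * b2 * q12 * q21 * d1 ^ 2 * c2 ^ 2 * ((1 + η12) * (1 + η21)) =
        b1 * a2 * q11 * q22 * c1 ^ 2 * d2 ^ 2 * ((1 + η11) * (1 + η22)) := by
      refine mul_left_cancel₀ (a := s11 ^ 2 * s12 ^ 2) (by positivity) ?_
      linear_combination (-(b2 * q21 * (1 + η21) * c2 ^ 2 * s11 ^ 2 * d1 ^ 2)) * R1 +
        (b1 * q11 * s11 ^ 2 * (1 + η11) * (b2 * q21 * (1 + η21) * c2 ^ 2)) * K1 +
        (b1 * q11 * s11 ^ 2 * (1 + η11) * c1 ^ 2 * c2 ^ 2) * R2 -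
        (b1 * q11 * s11 ^ 2 * (1 + η11) * c1 ^ 2 * a2 * q22 * (1 + η22)) * K2
    have n1 : a1 * b2 * q12 * q21 * d1 ^ 2 * c2 ^ 2 ≤ H ^ 20 :=
      le_trans (by gcongr : _ ≤ H * H * H * H * H ^ 2 * H ^ 2)
        ((le_of_eq (by ring)).trans (hp 8 20 (by norm_num)))
    have n2 : b1 * a2 * q11 * q22 * c1 ^ 2 * d2 ^ 2 ≤ H ^ 20 :=
      le_trans (by gcongr : _ ≤ H * H * H * H * H ^ 2 * H ^ 2)
        ((le_of_eq (by ring)).trans (hp 8 20 (by norm_num)))
    have n1p : 0 < a1 * b2 * q12 * q21 * d1 ^ 2 * c2 ^ 2 := by positivity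
    have n2p : 0 < b1 * a2 * q11 * q22 * c1 ^ 2 * d2 ^ 2 := by positivity
    generalize a1 * b2 * q12 * q21 * d1 ^ 2 * c2 ^ 2 = N1 at iN hN n1 n1p
    generalize b1 * a2 * q11 * q22 * c1 ^ 2 * d2 ^ 2 = N2 at iN hN n2 n2p
    have two : ∀ x y : ℝ, |x| ≤ 3 * ε → |y| ≤ 3 * ε → |x + y + x * y| ≤ 9 * ε := by
      intro x y hx hy
      have h1 := amul hx hy
      have h2 := abs_add_three x y (x * y)
      have h3 := mul_le_mul_of_nonneg_left hε1 hε0.le
      linarith only [h1, h2, h3, hx, hy, hε0]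
    have hNN : N1 = N2 := by
      refine iN ?_
      have h1 : N1 - N2 = N2 * (η11 + η22 + η11 * η22) - N1 * (η12 + η21 + η12 * η21) := by
        linear_combination hN
      have h2 := amul ((abs_of_pos n2p).le.trans n2) (two _ _ e11 e22)
      have h3 := amul ((abs_of_pos n1p).le.trans n1) (two _ _ e12 e21)
      rw [h1]
      refine (abs_sub _ _).trans_lt ?_
      linarith only [h2, h3, hε]
    subst hNN
    have hX := mul_left_cancel₀ n1p.ne' hN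
    clear hN iN n1 n2 n1p n2p two K1 K2 R2
    obtain ⟨κ, hκ⟩ : ∃ κ : ℝ, s11 = κ * s12 := ⟨s11 / s12, by field_simp⟩
    have κp : 0 < κ := by
      rw [hκ] at s11p
      exact (mul_pos_iff_of_pos_right s12p).1 s11p
    have R3 : b1 * q11 * κ ^ 2 * (1 + η11) = a1 * q12 * (1 + η12) := by
      refine mul_left_cancel₀ (a := s12 ^ 2) (by positivity) ?_
      rw [hκ] at R1
      linear_combination R1
    have m1 : a1 * q12 ≤ H ^ 2 := by rw [sq]; gcongr
    have m2 : b1 * q11 ≤ H ^ 2 := by rw [sq]; gcongr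
    have m3 : 1 ≤ b1 * q11 := one_le_mul_of_one_le_of_one_le b1a q11a
    have m4 : b1 * q11 * κ ^ 2 ≤ 4 * H ^ 2 := by
      have h1 := (abs_le.1 e11).1
      have h2 := (abs_le.1 e12).2
      have h3 : b1 * q11 * κ ^ 2 * (1 / 2) ≤ b1 * q11 * κ ^ 2 * (1 + η11) :=
        mul_le_mul_of_nonneg_left (by linarith only [h1, hε1]) (by positivity)
      have h4 : a1 * q12 * (1 + η12) ≤ a1 * q12 * 2 :=
        mul_le_mul_of_nonneg_left (by linarith only [h2, hε1]) (by positivity)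
      linarith only [h3, h4, R3, m1]
    have κb : κ ≤ 2 * H := by
      refine le_of_sq_le_sq ?_ (by positivity)
      have : 1 * κ ^ 2 ≤ b1 * q11 * κ ^ 2 := mul_le_mul_of_nonneg_right m3 (by positivity)
      linarith only [this, m4]
    obtain ⟨ρ, hρ⟩ : ∃ ρ : ℝ, ρ * s11 = 2 * H ^ 2 := ⟨2 * H ^ 2 / s11, by field_simp⟩
    have hρs : ∀ s : ℝ, 0 < s → s11 ≤ 2 * H ^ 2 * s → 1 / s ≤ ρ := by
      intro s hs h
      rw [div_le_iff₀ hs]
      refine le_of_mul_le_mul_right (a := s11) ?_ s11p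
      calc 1 * s11 ≤ 2 * H ^ 2 * s := by linarith only [h]
        _ = ρ * s * s11 := by rw [← hρ]; ring
    have h2H : H ≤ H ^ 2 := by simpa using hp 1 2 (by norm_num)
    have t1 : s11 ≤ 2 * H * s12 := by rw [hκ]; gcongr
    have t2 : s11 ≤ s21 * H := by
      calc s11 = s11 * 1 := by ring
        _ ≤ s11 * d1 := by gcongr
        _ = _ := k1
        _ ≤ _ := by gcongr
    have t3 : s12 ≤ s22 * H := by
      calc s12 = s12 * 1 := by ring
        _ ≤ s12 * d2 := by gcongr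
        _ = _ := k2
        _ ≤ _ := by gcongr
    obtain ⟨f11, g11⟩ := B11 ρ (hρs _ s11p
      (le_mul_of_one_le_left s11p.le (by linarith only [h2H, hH])))
    obtain ⟨f12, g12⟩ := B12 ρ (hρs _ s12p (t1.trans (by gcongr)))
    obtain ⟨f21, g21⟩ := B21 ρ (hρs _ s21p (t2.trans (by
      rw [mul_comm]
      exact mul_le_mul_of_nonneg_right (by linarith only [h2H, hH]) s21p.le)))
    obtain ⟨f22, g22⟩ := B22 ρ (hρs _ s22p (by
      calc s11 ≤ 2 * H * s12 := t1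
        _ ≤ 2 * H * (s22 * H) := by gcongr
        _ = _ := by ring))
    obtain ⟨T, hT⟩ : ∃ T : ℝ,
        T = 1 / (q11 * s11) - 1 / (q21 * s21) - 1 / (q12 * s12) + 1 / (q22 * s22) := ⟨_, rfl⟩
    have hT1 : |T| ≤ 21 * ρ ^ 2 := by
      have h1 : 2 * e * T = η12 * η21 - η11 * η22 - θ11 - θ22 + θ12 + θ21 := by
        rw [hT]
        linear_combination -hX - Y11 - Y22 + Y12 + Y21
      have h2 : |2 * e * T| = 2 * |T| := by rw [abs_mul, abs_mul, he']; norm_num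
      have h3 := abs_le.1 (amul f12 f21)
      have h4 := abs_le.1 (amul f11 f22)
      have h5 := abs_le.1 g11
      have h6 := abs_le.1 g12
      have h7 := abs_le.1 g21
      have h8 := abs_le.1 g22
      have h9 : |2 * e * T| ≤ 42 * ρ ^ 2 := by
        rw [h1, abs_le]
        constructor <;> linarith only [h3.1, h3.2, h4.1, h4.2, h5.1, h5.2, h6.1, h6.2, h7.1, h7.2,
          h8.1, h8.2]
      linarith only [h9, h2]
    have huv : (d1 * q21 - c1 * q11) * (q12 * d2 * q22) -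
        (d2 * q22 - c2 * q12) * (q11 * d1 * q21) * κ =
        q11 * d1 * q21 * (q12 * d2 * q22) * s11 * T := by
      have h1 : s21 = s11 * d1 / c1 := by rw [k1]; field_simp
      have h2 : s22 = s12 * d2 / c2 := by rw [k2]; field_simp
      rw [hT, h1, h2, hκ]
      field_simp
      ring
    have p1 : q11 * d1 * q21 ≤ H ^ 3 := le_trans (by gcongr : _ ≤ H * H * H) (le_of_eq (by ring))
    have p2 : q12 * d2 * q22 ≤ H ^ 3 := le_trans (by gcongr : _ ≤ H * H * H) (le_of_eq (by ring))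
    have dif : ∀ x y u v : ℝ, 0 < x → 0 < y → 0 < u → 0 < v → x ≤ H → y ≤ H → u ≤ H → v ≤ H →
        |x * y - u * v| ≤ H ^ 2 := by
      intro x y u v hx hy hu hv hx' hy' hu' hv'
      have h1 : x * y ≤ H * H := by gcongr
      have h2 : u * v ≤ H * H := by gcongr
      have h3 := mul_pos hx hy
      have h4 := mul_pos hu hv
      rw [abs_le]
      constructor <;> linarith only [h1, h2, h3, h4]
    have ub := amul (dif d1 q21 c1 q11 d1p q21p c1p q11p d1b q21b c1b q11b)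
      ((abs_of_pos (by positivity)).le.trans p2)
    have vb := amul (dif d2 q22 c2 q12 d2p q22p c2p q12p d2b q22b c2b q12b)
      ((abs_of_pos (by positivity)).le.trans p1)
    have hρε : ρ ≤ 2 * H ^ 2 * ε := by
      have h1 := hεs _ h11
      rw [div_le_iff₀ s11p] at h1
      refine le_of_mul_le_mul_right (a := s11) ?_ s11p
      rw [hρ, mul_assoc (2 * H ^ 2)]
      exact le_mul_of_one_le_right (by positivity) h1
    have ρp : 0 ≤ ρ := by
      have := (abs_nonneg _).trans f11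
      linarith only [this]
    have w1 : |q11 * d1 * q21 * (q12 * d2 * q22) * s11 * T| ≤ 84 * H ^ 10 * ε := by
      have h1 : q11 * d1 * q21 * (q12 * d2 * q22) * s11 ≤ H ^ 3 * H ^ 3 * s11 := by gcongr
      refine (amul ((abs_of_pos (by positivity)).le.trans h1) hT1).trans ?_
      calc H ^ 3 * H ^ 3 * s11 * (21 * ρ ^ 2) = 21 * H ^ 6 * (ρ * s11) * ρ := by ring
        _ ≤ 21 * H ^ 6 * (2 * H ^ 2) * (2 * H ^ 2 * ε) := by rw [hρ]; gcongr
        _ = _ := by ring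
    rw [← huv] at w1
    generalize (d1 * q21 - c1 * q11) * (q12 * d2 * q22) = u at ub w1 ⊢
    generalize (d2 * q22 - c2 * q12) * (q11 * d1 * q21) = v at vb w1 ⊢
    have w2 : |u + v * κ| ≤ 3 * H ^ 6 := by
      have h1 := amul vb ((abs_of_pos κp).le.trans κb)
      have h2 := hp 5 6 (by norm_num)
      refine (abs_add_le _ _).trans ?_
      linarith only [h1, h2, ub]
    have w3 : |a1 * q12 - b1 * q11 * κ ^ 2| ≤ 15 * H ^ 2 * ε := by
      have h1 : a1 * q12 - b1 * q11 * κ ^ 2 = b1 * q11 * κ ^ 2 * η11 - a1 * q12 * η12 := by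
        linear_combination -R3
      have h2 := amul ((abs_of_pos (by positivity)).le.trans m4) e11
      have h3 := amul ((abs_of_pos (by positivity)).le.trans m1) e12
      rw [h1]
      refine (abs_sub _ _).trans ?_
      linarith only [h2, h3, mul_pos (pow_pos hH0 2) hε0]
    have h1 : a1 * q12 * v ^ 2 - b1 * q11 * u ^ 2 =
        v * v * (a1 * q12 - b1 * q11 * κ ^ 2) - b1 * q11 * ((u - v * κ) * (u + v * κ)) := by ring
    have h2 := amul (amul vb vb) w3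
    have h3 := amul ((abs_of_pos (by positivity)).le.trans m2) (amul w1 w2)
    have h4 : H ^ 12 * ε ≤ H ^ 20 * ε := mul_le_mul_of_nonneg_right (hp 12 20 (by norm_num)) hε0.le
    have h5 : H ^ 18 * ε ≤ H ^ 20 * ε := mul_le_mul_of_nonneg_right (hp 18 20 (by norm_num)) hε0.le
    rw [h1]
    refine (abs_sub _ _).trans_lt ?_
    linarith only [h2, h3, h4, h5, hε]
  have hu : (d1 * q21 - c1 * q11) * (q12 * d2 * q22) ≠ 0 :=
    mul_ne_zero (sub_ne_zero.2 hU) (mul_ne_zero (mul_ne_zero (by omega) (by omega)) (by omega))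
  refine ⟨_, _, hu, fun h0 => ?_, key⟩
  rw [h0] at key
  refine mul_ne_zero (mul_ne_zero (a := b1) (b := q11) (by omega) (by omega)) (pow_ne_zero 2 hu) ?_
  rw [← key]; ring

end Pool.Agent.Lib.MP_68c55c_lc.Four
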