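import Mathlib

/-!
The four-cycle lemma for admissible parameters.
-/

set_option autoImplicit false

namespace Pool.Agent.Lib.MP_68c55c_lc.Half

lemma core {μ μ' γ γ' r ε δ1 δ2 δ3 δ4 H η : ℝ} (hε : |ε| = 1) (hH : 1 ≤ H) (hη : η ≤ 1)
    (m0 : 0 ≤ μ) (m1 : μ ≤ H) (n0 : 0 ≤ μ') (n1 : μ' ≤ H) (g0 : 0 ≤ γ) (g1 : γ ≤ H ^ 2)
    (k0 : 0 ≤ γ') (k1 : γ' ≤ H ^ 2) (hr : 0 ≤ r)
    (d1 : |δ1| ≤ η) (d2 : |δ2| ≤ η) (d3 : |δ3| ≤ η) (d4 : |δ4| ≤ η)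
    (h : ε + γ * (μ * r - δ1 - ε) + δ3 = μ' * (ε + γ' * (r - δ2 - ε) + δ4)) :
    |(γ * μ) ^ 2 - (γ' * μ') ^ 2| * r ≤ 12 * H ^ 6 ∧
      (γ * μ = γ' * μ' → |(μ' * (1 - γ')) ^ 2 - (1 - γ) ^ 2| ≤ 8 * H ^ 6 * η) := by
  have η0 : 0 ≤ η := (abs_nonneg _).trans d1
  have H0 : 0 ≤ H := by linarith
  have H2 : 1 ≤ H ^ 2 := one_le_pow₀ hH
  have H23 : H ^ 2 ≤ H ^ 3 := pow_le_pow_right₀ hH (by norm_num)
  have H13 : H ≤ H ^ 3 := le_self_pow₀ hH (by norm_num)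
  have a1 : |1 - γ| ≤ H ^ 3 := abs_le.2 ⟨by linarith, by linarith⟩
  have a2 : |μ' * (1 - γ')| ≤ H ^ 3 := by
    have : |1 - γ'| ≤ H ^ 2 := abs_le.2 ⟨by linarith, by linarith⟩
    rw [abs_mul, abs_of_nonneg n0, pow_succ' H 2]
    gcongr
  have a3 : γ * μ ≤ H ^ 3 := by rw [pow_succ H 2]; gcongr
  have a4 : γ' * μ' ≤ H ^ 3 := by rw [pow_succ H 2]; gcongr
  have b : ∀ {u δ : ℝ}, 0 ≤ u → u ≤ H ^ 3 → |δ| ≤ η → |u * δ| ≤ H ^ 3 * η := fun h0 h1 h2 => by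
    rw [abs_mul, abs_of_nonneg h0]; gcongr
  have e1 : |γ * δ1 - 1 * δ3 - γ' * μ' * δ2 + μ' * δ4| ≤ 4 * (H ^ 3 * η) := by
    have b1 := abs_le.1 (b g0 (by linarith) d1)
    have b2 := abs_le.1 (b zero_le_one (by linarith) d3)
    have b3 := abs_le.1 (b (by positivity) a4 d2)
    have b4 := abs_le.1 (b n0 (by linarith) d4)
    exact abs_le.2 ⟨by linarith, by linarith⟩
  have e2 : (γ * μ - γ' * μ') * r = ε * (μ' * (1 - γ') - (1 - γ)) +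
      (γ * δ1 - 1 * δ3 - γ' * μ' * δ2 + μ' * δ4) := by linear_combination h
  have a5 : |μ' * (1 - γ') - (1 - γ)| ≤ 2 * H ^ 3 := (abs_sub _ _).trans (by linarith)
  have a6 : |μ' * (1 - γ') + (1 - γ)| ≤ 2 * H ^ 3 := (abs_add_le _ _).trans (by linarith)
  have H3 : 0 ≤ H ^ 3 := by positivity
  constructor
  · have c1 : |γ * μ - γ' * μ'| * r ≤ 6 * H ^ 3 := by
      rw [← abs_of_nonneg hr, ← abs_mul, e2]
      refine (abs_add_le _ _).trans ?_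
      rw [abs_mul, hε]
      nlinarith
    have c2 : |γ * μ + γ' * μ'| ≤ 2 * H ^ 3 := by
      rw [abs_of_nonneg (by positivity)]; linarith
    rw [sq_sub_sq, abs_mul, mul_assoc]
    calc _ ≤ (2 * H ^ 3) * (6 * H ^ 3) := by gcongr
      _ = _ := by ring
  · intro h0
    rw [h0, sub_self, zero_mul] at e2
    have c1 : |μ' * (1 - γ') - (1 - γ)| ≤ 4 * (H ^ 3 * η) := by
      have := congrArg abs (eq_neg_of_add_eq_zero_left e2.symm)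
      rw [abs_neg, abs_mul, hε, one_mul] at this
      exact this ▸ e1
    rw [sq_sub_sq, abs_mul]
    calc _ ≤ (2 * H ^ 3) * (4 * (H ^ 3 * η)) := by gcongr
      _ = _ := by ring

lemma int_zero {n : ℤ} {x N : ℝ} (h : (n : ℝ) = N * x) (hN : 0 ≤ N) (h1 : N * |x| < 1) :
    n = 0 := by
  rw [← abs_of_nonneg hN, ← abs_mul, ← h] at h1
  exact Int.abs_lt_one_iff.1 (by exact_mod_cast h1)

lemma root {q s z ε H W : ℝ} (hε : |ε| = 1) (e : 4 * z = q * s ^ 2 + 2 * ε * s + 6 - q)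
    (q1 : 1 ≤ q) (qH : q ≤ H) (hW : W ≤ s) (hW2 : 200 * H ^ 2 ≤ W) :
    ∃ r : ℝ, W / 2 ≤ r ∧ r ^ 2 = 4 * q * z ∧ |r - (q * s + ε)| ≤ 16 * H ^ 2 / W := by
  have e2 : ε ^ 2 = 1 := by rw [← sq_abs, hε]; norm_num
  obtain ⟨l1, l2⟩ := abs_le.1 hε.le
  have H1 : 1 ≤ H := q1.trans qH
  have H2 : 1 ≤ H ^ 2 := one_le_pow₀ H1
  have q2 : q ^ 2 ≤ H ^ 2 := by gcongr
  have W0 : 0 < W := by linarith
  have m1 : W - 1 ≤ q * s + ε := by nlinarith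
  have e3 : 4 * q * z = (q * s + ε) ^ 2 - (q ^ 2 - 6 * q + 1) := by
    linear_combination q * e - e2
  have D1 : |q ^ 2 - 6 * q + 1| ≤ 8 * H ^ 2 := abs_le.2 ⟨by nlinarith, by nlinarith⟩
  obtain ⟨D2, D3⟩ := abs_le.1 D1
  generalize q * s + ε = m at *
  have p0 : (W / 2) ^ 2 ≤ 4 * q * z := by nlinarith
  refine ⟨√(4 * q * z), Real.le_sqrt_of_sq_le p0, Real.sq_sqrt (le_trans (by positivity) p0), ?_⟩
  have r0 := Real.le_sqrt_of_sq_le p0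
  have r1 := Real.sq_sqrt (le_trans (by positivity) p0)
  generalize √(4 * q * z) = r at *
  have r2 : |r - m| * (r + m) = |q ^ 2 - 6 * q + 1| := by
    rw [← abs_of_nonneg (show 0 ≤ r + m by linarith), ← abs_mul, ← abs_neg]
    congr 1
    linear_combination -e3 - r1
  rw [le_div_iff₀ W0]
  nlinarith [abs_nonneg (r - m)]

lemma c4 {q1 q2 q3 q4 s1 s2 s3 s4 z1 z2 z3 z4 a b a' b' c d c' d' H : ℕ} {ε : ℤ} (hε : |ε| = 1)
    (e1 : 4 * (z1 : ℤ) = q1 * s1 ^ 2 + 2 * ε * s1 + 6 - q1)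
    (e2 : 4 * (z2 : ℤ) = q2 * s2 ^ 2 + 2 * ε * s2 + 6 - q2)
    (e3 : 4 * (z3 : ℤ) = q3 * s3 ^ 2 + 2 * ε * s3 + 6 - q3)
    (e4 : 4 * (z4 : ℤ) = q4 * s4 ^ 2 + 2 * ε * s4 + 6 - q4)
    (hb : ∀ v ∈ [q1, q2, q3, q4, a, b, a', b', c, d, c', d'], 1 ≤ v ∧ v ≤ H)
    (hs : ∀ v ∈ [s1, s2, s3, s4], 200 * H ^ 18 ≤ v)
    (r1 : z1 * b = z2 * a) (r2 : z3 * b' = z4 * a') (c1 : s1 * d = s3 * c)
    (c2 : s2 * d' = s4 * c') :
    q4 * d' = q2 * c' ∨ ∃ U V : ℕ, V ≠ 0 ∧ a' * q3 * V ^ 2 = b' * q4 * U ^ 2 := by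
  have hb' : ∀ v ∈ [q1, q2, q3, q4, a, b, a', b', c, d, c', d'], (1 : ℝ) ≤ (v : ℕ) ∧
      ((v : ℕ) : ℝ) ≤ H := fun v hv => by exact_mod_cast hb v hv
  have hs' : ∀ v ∈ [s1, s2, s3, s4], 200 * (H : ℝ) ^ 18 ≤ (v : ℕ) := fun v hv => by
    exact_mod_cast hs v hv
  simp only [List.mem_cons, List.not_mem_nil, or_false, forall_eq_or_imp, forall_eq] at hb' hs'
  obtain ⟨⟨x1, y1⟩, ⟨x2, y2⟩, ⟨x3, y3⟩, ⟨x4, y4⟩, ⟨x5, y5⟩, ⟨x6, y6⟩, ⟨x7, y7⟩, ⟨x8, y8⟩, ⟨x9, y9⟩,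
    ⟨x10, y10⟩, ⟨x11, y11⟩, x12, y12⟩ := hb'
  obtain ⟨w1, w2, w3, w4⟩ := hs'
  have hε' : |(ε : ℝ)| = 1 := by exact_mod_cast hε
  have H1 : (1 : ℝ) ≤ H := x1.trans y1
  have hW : 200 * (H : ℝ) ^ 2 ≤ 200 * H ^ 18 := by gcongr <;> first | exact H1 | norm_num
  obtain ⟨ρ1, l1, t1, u1⟩ := root (z := z1) hε' (by exact_mod_cast e1) x1 y1 w1 hW
  obtain ⟨ρ2, l2, t2, u2⟩ := root (z := z2) hε' (by exact_mod_cast e2) x2 y2 w2 hW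
  obtain ⟨ρ3, l3, t3, u3⟩ := root (z := z3) hε' (by exact_mod_cast e3) x3 y3 w3 hW
  obtain ⟨ρ4, l4, t4, u4⟩ := root (z := z4) hε' (by exact_mod_cast e4) x4 y4 w4 hW
  have H18 : (0 : ℝ) < 200 * H ^ 18 := by positivity
  have p1 : 0 < ρ1 := by linarith
  have p2 : 0 < ρ2 := by linarith
  have p3 : 0 < ρ3 := by linarith
  have p4 : 0 < ρ4 := by linarith
  have r1' : (z1 : ℝ) * b = z2 * a := by exact_mod_cast r1
  have r2' : (z3 : ℝ) * b' = z4 * a' := by exact_mod_cast r2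
  have c1' : (s1 : ℝ) * d = s3 * c := by exact_mod_cast c1
  have c2' : (s2 : ℝ) * d' = s4 * c' := by exact_mod_cast c2
  have dv : ∀ {u v u' v' : ℝ}, u ≤ H → v ≤ H → 1 ≤ u → 1 ≤ v → 1 ≤ u' → 1 ≤ v' →
      u * v / (u' * v') ≤ H ^ 2 := fun h1 h2 h3 h4 h5 h6 =>
    (div_le_self (by positivity) (one_le_mul_of_one_le_of_one_le h5 h6)).trans
      (by rw [sq]; gcongr)
  have m1 : (ρ1 / ρ2) ^ 2 = a * q1 / (b * q2) := by
    rw [div_pow, div_eq_div_iff (by positivity) (by positivity), t1, t2]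
    linear_combination 4 * q1 * q2 * r1'
  have m2 : (ρ3 / ρ4) ^ 2 = a' * q3 / (b' * q4) := by
    rw [div_pow, div_eq_div_iff (by positivity) (by positivity), t3, t4]
    linear_combination 4 * q3 * q4 * r2'
  have η1 : 16 * (H : ℝ) ^ 2 / (200 * H ^ 18) ≤ 1 := by rw [div_le_one H18]; nlinarith
  have g1 : (q3 * d / (q1 * c) : ℝ) * (q1 * s1) = q3 * s3 := by
    field_simp; linear_combination c1'
  have g2 : (q4 * d' / (q2 * c') : ℝ) * (q2 * s2) = q4 * s4 := by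
    field_simp; linear_combination c2'
  obtain ⟨k1, k2⟩ := core (μ := ρ1 / ρ2) (μ' := ρ3 / ρ4) (γ := q3 * d / (q1 * c))
    (γ' := q4 * d' / (q2 * c')) (r := ρ2) hε' H1 η1 (by positivity)
    (le_of_pow_le_pow_left₀ two_ne_zero (by positivity) (m1 ▸ dv y5 y1 x5 x1 x6 x2))
    (by positivity)
    (le_of_pow_le_pow_left₀ two_ne_zero (by positivity) (m2 ▸ dv y7 y3 x7 x3 x8 x4))
    (by positivity) (dv y3 y10 x3 x10 x1 x9) (by positivity) (dv y4 y12 x4 x12 x2 x11) p2.le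
    u1 u2 u3 u4 (by
      linear_combination (q3 * d / (q1 * c) : ℝ) * div_mul_cancel₀ ρ1 p2.ne' + g1 -
        ρ3 / ρ4 * g2 - div_mul_cancel₀ ρ3 p4.ne')
  have f1 : ((((q3 : ℤ) * d) ^ 2 * (a * q1) * ((q2 * c') ^ 2 * (b' * q4)) -
      (q4 * d') ^ 2 * (a' * q3) * ((q1 * c) ^ 2 * (b * q2)) : ℤ) : ℝ) =
      ((q1 * c) ^ 2 * (b * q2) * ((q2 * c') ^ 2 * (b' * q4))) *
        ((q3 * d / (q1 * c) * (ρ1 / ρ2)) ^ 2 - (q4 * d' / (q2 * c') * (ρ3 / ρ4)) ^ 2) := by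
    rw [mul_pow (_ / _ : ℝ), mul_pow (_ / _ : ℝ), m1, m2]
    push_cast
    field_simp
  have f2 := int_zero f1 (by positivity) (by
    refine lt_of_mul_lt_mul_right ?_ p2.le
    calc _ ≤ ((H * H) ^ 2 * (H * H) * ((H * H) ^ 2 * (H * H)) : ℝ) * (12 * H ^ 6) := by
          rw [mul_assoc _ |_|]; gcongr
      _ = 12 * H ^ 18 := by ring
      _ < _ := by linarith)
  rw [f2, Int.cast_zero, eq_comm, mul_eq_zero] at f1
  have k3 := k2 (by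
    refine (pow_left_inj₀ (by positivity) (by positivity) two_ne_zero).1 ?_
    exact sub_eq_zero.1 (f1.resolve_left (by positivity)))
  have f3 : ((((a' : ℤ) * q3) * ((q2 * c' - q4 * d') * (q1 * c)) ^ 2 -
      (b' * q4) * ((q2 * c') * (q1 * c - q3 * d)) ^ 2 : ℤ) : ℝ) =
      ((b' * q4) * ((q2 * c') ^ 2 * (q1 * c) ^ 2)) *
        ((ρ3 / ρ4 * (1 - q4 * d' / (q2 * c'))) ^ 2 - (1 - q3 * d / (q1 * c)) ^ 2) := by
    rw [mul_pow (_ / _ : ℝ), m2]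
    push_cast
    field_simp
  have f4 := int_zero f3 (by positivity) (by
    calc _ ≤ ((H * H) * ((H * H) ^ 2 * (H * H) ^ 2) : ℝ) *
          (8 * H ^ 6 * (16 * H ^ 2 / (200 * H ^ 18))) := by gcongr
      _ = 128 / 200 := by field_simp; norm_num
      _ < _ := by norm_num)
  by_cases h0 : q4 * d' = q2 * c'
  · exact Or.inl h0
  refine Or.inr ⟨((q2 * c' : ℤ) * (q1 * c - q3 * d)).natAbs,
    (((q2 : ℤ) * c' - q4 * d') * (q1 * c)).natAbs, Int.natAbs_ne_zero.2 (mul_ne_zero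
      (sub_ne_zero.2 fun h => h0 (by exact_mod_cast h.symm)) ?_), ?_⟩
  · have : (0 : ℝ) < q1 * c := by positivity
    exact_mod_cast this.ne'
  · zify
    rw [sq_abs, sq_abs]
    exact sub_eq_zero.1 f4

end Pool.Agent.Lib.MP_68c55c_lc.Half
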