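import Pool.Agent.Lib.MP_68c55c_lc.Count

/-!
Vertices, the Kovari-Sos-Turan count and the three radicals.
-/

set_option autoImplicit false

namespace Pool.Agent.Lib.MP_68c55c_lc.Half

open Finset

/-- The number with prescribed exponents on `S`. -/
def enc (S : Finset ℕ) (f : ℕ → ℕ) : ℕ := ∏ p ∈ S, p ^ f p

/-- Numbers supported on `S` with at most `M` prime factors. -/
def units (S : Finset ℕ) (M : ℕ) : Finset ℕ := (box S M).image fun k => ∏ p : S, (p : ℕ) ^ k p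

lemma enc_mem {S : Finset ℕ} {M : ℕ} {f : ℕ → ℕ} (h : ∑ p ∈ S, f p ≤ M) :
    enc S f ∈ units S M :=
  mem_image.2 ⟨_, mem_box f h, prod_coe_sort S fun p => p ^ f p⟩

lemma enc_fact {S : Finset ℕ} (hS : ∀ p ∈ S, p.Prime) (f : ℕ → ℕ) {p : ℕ} (hp : p ∈ S) :
    (enc S f).factorization p = f p := by
  rw [enc, Nat.factorization_prod_apply fun r hr => pow_ne_zero _ (hS r hr).ne_zero,
    sum_eq_single_of_mem p hp fun r hr h => by
      rw [(hS r hr).factorization_pow, Finsupp.single_eq_of_ne h.symm],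
    (hS p hp).factorization_pow, Finsupp.single_eq_same]

lemma sum_fact {S : Finset ℕ} (hS : ∀ p ∈ S, p.Prime) {q M : ℕ} (hq0 : q ≠ 0) (hq : q ≤ 2 ^ M) :
    ∑ p ∈ S, q.factorization p ≤ M := by
  refine (Nat.pow_le_pow_iff_right (a := 2) (by norm_num)).1 (le_trans ?_ hq)
  rw [← prod_pow_eq_pow_sum]
  refine (prod_le_prod' fun p hp => Nat.pow_le_pow_left (hS p hp).two_le _).trans
    (Nat.le_of_dvd (Nat.pos_of_ne_zero hq0) ?_)
  conv_rhs => rw [eq_prod hq0 (subset_union_right (s₁ := S))]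
  exact prod_dvd_prod_of_subset _ _ _ subset_union_left

lemma self_mem {m v M : ℕ} (hv : v ≠ 0) (h : v.primeFactors ⊆ m.primeFactors) (hM : v ≤ 2 ^ M) :
    v ∈ units m.primeFactors M := by
  rw [eq_prod hv h]
  exact enc_mem (sum_fact (fun p hp => Nat.prime_of_mem_primeFactors hp) hv hM)

/-- The vertex attached to a number `v` supported on the primes of `6 * r`. -/
def vt (τ r v q : ℕ) : ℕ × ℕ × ℕ :=
  (r, enc (6 * r).primeFactors (cell τ v), enc (6 * r).primeFactors q.factorization)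

/-- The possible vertices. -/
def Vt (A L : ℕ) : Finset (ℕ × ℕ × ℕ) := (Icc 1 A).biUnion fun r =>
  {r} ×ˢ units (6 * r).primeFactors L ×ˢ units (6 * r).primeFactors L

lemma card_Vt {A A' L B : ℕ} (hB : ∀ r, 1 ≤ r → r ≤ A' → (box (6 * r).primeFactors L).card ≤ B) :
    (Vt (min A A') L).card ≤ A * B ^ 2 := by
  refine card_biUnion_le.trans ((sum_le_card_nsmul _ _ (B ^ 2) fun r hr => ?_).trans ?_)
  · have h1 := mem_Icc.1 hr
    have h2 : (units (6 * r).primeFactors L).card ≤ B :=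
      card_image_le.trans (hB r h1.1 (h1.2.trans (min_le_right _ _)))
    rw [card_product, card_product, card_singleton, one_mul, sq]
    exact Nat.mul_le_mul h2 h2
  · rw [Nat.card_Icc, smul_eq_mul]
    exact Nat.mul_le_mul_right _ (by omega)

lemma vt_mem {τ r v q A L W : ℕ} (hτ : 1 ≤ τ) (h1 : 1 ≤ r) (h2 : r ≤ A) (hv : v ≠ 0)
    (hvS : v.primeFactors ⊆ (6 * r).primeFactors) (hW : v ≤ 2 ^ W) (hL : W ≤ τ * L) (hq0 : q ≠ 0)
    (hq : q ≤ 2 ^ L) : vt τ r v q ∈ Vt A L := by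
  have hS : ∀ p ∈ (6 * r).primeFactors, p.Prime := fun p hp => Nat.prime_of_mem_primeFactors hp
  exact mem_biUnion.2 ⟨r, mem_Icc.2 ⟨h1, h2⟩, mem_product.2 ⟨mem_singleton_self _, mem_product.2
    ⟨enc_mem (Nat.le_of_mul_le_mul_left ((sum_cell hS τ hv hvS hW).trans hL) hτ),
      enc_mem (sum_fact hS hq0 hq)⟩⟩⟩

lemma vt_eq {τ r v q r' v' q' D : ℕ} (hτ : 1 ≤ τ) (h1 : 1 ≤ r) (hD : 6 * r ≤ 2 ^ D) (hv : v ≠ 0)
    (hv' : v' ≠ 0) (hvS : v.primeFactors ⊆ (6 * r).primeFactors)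
    (hvS' : v'.primeFactors ⊆ (6 * r').primeFactors) (h : vt τ r v q = vt τ r' v' q') :
    ∃ a b : ℕ, (1 ≤ a ∧ a ≤ 2 ^ (2 * τ * D)) ∧ (1 ≤ b ∧ b ≤ 2 ^ (2 * τ * D)) ∧ v * b = v' * a ∧
      ∀ p, q.factorization p = q'.factorization p ∨
        (a.factorization p = 0 ∧ b.factorization p = 0) := by
  have hS : ∀ p ∈ (6 * r).primeFactors, p.Prime := fun p hp => Nat.prime_of_mem_primeFactors hp
  simp only [vt, Prod.mk.injEq] at h
  obtain ⟨rfl, h2, h3⟩ := h
  obtain ⟨a, b, a0, b0, a1, b1, a2, b2, e⟩ := cell_ratio hS hτ hv hv' hvS hvS' fun p hp => by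
    rw [← enc_fact hS (cell τ v) hp, h2, enc_fact hS _ hp]
  have h4 : (6 * r).primeFactors.card ≤ D :=
    (Nat.pow_le_pow_iff_right (by norm_num)).1 ((two_pow_card_le (by omega)).trans hD)
  have h5 : 2 ^ (2 * (τ - 1) * (6 * r).primeFactors.card) ≤ 2 ^ (2 * τ * D) :=
    Nat.pow_le_pow_right (by norm_num) (Nat.mul_le_mul (by omega) h4)
  refine ⟨a, b, ⟨by omega, by omega⟩, ⟨by omega, by omega⟩, e, fun p => ?_⟩
  by_cases hp : p ∈ (6 * r).primeFactors
  · left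
    rw [← enc_fact hS q.factorization hp, h3, enc_fact hS _ hp]
  · exact Or.inr ⟨(Finsupp.notMem_support_iff (f := a.factorization)).1 fun h => hp (a2 h),
      (Finsupp.notMem_support_iff (f := b.factorization)).1 fun h => hp (b2 h)⟩

lemma kst {α ρ κ : Type*} [DecidableEq α] [DecidableEq κ] (F : Finset α) (row : α → ρ)
    (col : α → κ) (m : α → ℕ) (R : Finset ρ) (K : Finset κ) {t Y : ℕ} (hr : ∀ q ∈ F, row q ∈ R)
    (hc : ∀ q ∈ F, col q ∈ K) (hm : ∀ q ∈ F, m q < t)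
    (inj : ∀ q ∈ F, ∀ q' ∈ F, row q = row q' → col q = col q' → q = q')
    (h4 : ∀ q ∈ F, ∀ q' ∈ F, ∀ p ∈ F, ∀ p' ∈ F, q' ≠ q → col q' = col q → col p' = col p →
      row p = row q → row p' = row q' → m p = m q → p = q)
    (hK : K.card ≤ Y) (hY : K.card * (R.card * (R.card * t)) ≤ 16 * Y ^ 2) : F.card ≤ 5 * Y := by
  let P := (F ×ˢ F).filter fun z => col z.2 = col z.1
  have h1 : F.card = ∑ k ∈ K, (F.filter fun q => col q = k).card := card_eq_sum_card_fiberwise hc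
  have h2 : P.card = ∑ k ∈ K, (F.filter fun q => col q = k).card ^ 2 := by
    rw [card_eq_sum_card_fiberwise (f := fun z => col z.1) (t := K) fun z hz =>
      hc _ (mem_product.1 (mem_filter.1 hz).1).1]
    refine sum_congr rfl fun k _ => ?_
    rw [sq, ← card_product]
    congr 1
    ext ⟨u, v⟩
    simp only [mem_filter, mem_product]
    constructor
    · rintro ⟨⟨⟨a1, a2⟩, a3⟩, a4⟩
      exact ⟨⟨a1, a4⟩, a2, a3.trans a4⟩
    · rintro ⟨⟨a1, a4⟩, a2, a3⟩
      exact ⟨⟨⟨a1, a2⟩, a3.trans a4.symm⟩, a4⟩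
  have h3 : F.card ^ 2 ≤ K.card * P.card := by
    rw [h1, h2]; exact sq_sum_le_card_mul_sum_sq
  have h5 : (P.filter fun z => z.2 = z.1).card ≤ F.card :=
    card_le_card_of_injOn (fun z => z.1)
      (fun z hz => (mem_product.1 (mem_filter.1 (mem_filter.1 hz).1).1).1)
      fun z hz w hw h => Prod.ext h
        ((mem_filter.1 hz).2.trans (h.trans (mem_filter.1 hw).2.symm))
  have h6 : (P.filter fun z => ¬ z.2 = z.1).card ≤ (R ×ˢ R ×ˢ range t).card := by
    refine card_le_card_of_injOn (fun z => (row z.1, row z.2, m z.1)) (fun z hz => ?_)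
      fun z hz w hw h => ?_
    · have a1 := mem_product.1 (mem_filter.1 (mem_filter.1 hz).1).1
      exact mem_coe.2 (mem_product.2 ⟨hr _ a1.1, mem_product.2
        ⟨hr _ a1.2, mem_range.2 (hm _ a1.1)⟩⟩)
    · obtain ⟨a1, a2⟩ := mem_filter.1 (mem_filter.1 hz).1
      obtain ⟨b1, b2⟩ := mem_filter.1 (mem_filter.1 hw).1
      rw [mem_product] at a1 b1
      simp only [Prod.mk.injEq] at h
      have c1 := h4 _ b1.1 _ b1.2 _ a1.1 _ a1.2 (mem_filter.1 hw).2 b2 a2 h.1 h.2.1 h.2.2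
      exact Prod.ext c1 (inj _ a1.2 _ b1.2 h.2.1 (by rw [a2, b2, c1]))
  rw [card_product, card_product, card_range] at h6
  have h7 := card_filter_add_card_filter_not (s := P) fun z => z.2 = z.1
  have h8 : K.card * P.card ≤ K.card * (F.card + R.card * (R.card * t)) :=
    Nat.mul_le_mul_left _ (by omega)
  have h9 : K.card * F.card ≤ Y * F.card := Nat.mul_le_mul_right _ hK
  by_contra! h
  nlinarith

lemma exists_rad {q s x : ℕ} (h : Adm q s x) : ∃ r0 r1 r2 m k : ℕ, 1 ≤ r0 ∧ 1 ≤ r1 ∧ 1 ≤ r2 ∧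
    1 ≤ m ∧ x.primeFactors ⊆ (6 * r0).primeFactors ∧
    (x + s).primeFactors ⊆ (6 * r1).primeFactors ∧ s.primeFactors ⊆ (6 * r2).primeFactors ∧
    r0 * r1 * r2 * m ≤ q ∧ m ^ 2 * k = q ∧ Squarefree k := by
  classical
  let P : ℕ → Finset ℕ := fun v => v.primeFactors.filter (5 ≤ ·)
  let R : ℕ → ℕ := fun v => ∏ p ∈ P v, p
  have hR : ∀ v, 1 ≤ R v := fun v =>
    prod_pos fun p hp => (Nat.prime_of_mem_primeFactors (mem_filter.1 hp).1).pos
  have hsub : ∀ v, v.primeFactors ⊆ (6 * R v).primeFactors := by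
    intro v p hp
    have hp1 := Nat.prime_of_mem_primeFactors hp
    refine Nat.mem_primeFactors.2 ⟨hp1, ?_, by have := hR v; omega⟩
    by_cases h5 : 5 ≤ p
    · exact (dvd_prod_of_mem _ (mem_filter.2 ⟨hp, h5⟩)).mul_left _
    · refine Dvd.dvd.mul_right ?_ _
      have := hp1.two_le
      have h4 : p ≠ 4 := by rintro rfl; norm_num at hp1
      have : p = 2 ∨ p = 3 := by omega
      rcases this with rfl | rfl <;> norm_num
  have hmem : ∀ v p, p ∈ P v → p.Prime ∧ 5 ≤ p ∧ p ∣ v := fun v p hp =>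
    ⟨Nat.prime_of_mem_primeFactors (mem_filter.1 hp).1, (mem_filter.1 hp).2,
      Nat.dvd_of_mem_primeFactors (mem_filter.1 hp).1⟩
  have d1 : Disjoint (P x) (P (x + s)) := disjoint_left.2 fun p h1 h2 =>
    h.not_two (hmem _ _ h1).1 (hmem _ _ h1).2.1 (hmem _ _ h1).2.2
      ((Nat.dvd_add_right (hmem _ _ h1).2.2).1 (hmem _ _ h2).2.2)
  have d2 : Disjoint (P x ∪ P (x + s)) (P s) := disjoint_left.2 fun p h1 h2 => by
    refine h.not_two (hmem _ _ h2).1 (hmem _ _ h2).2.1 ?_ (hmem _ _ h2).2.2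
    rcases mem_union.1 h1 with h1 | h1
    · exact (hmem _ _ h1).2.2
    · exact (Nat.dvd_add_left (hmem _ _ h2).2.2).1 (hmem _ _ h1).2.2
  have hq0 : q ≠ 0 := by have := h.hq; omega
  obtain ⟨k, m, e, hk⟩ := Nat.sq_mul_squarefree q
  have m0 : m ≠ 0 := by rintro rfl; simp at e; omega
  refine ⟨R x, R (x + s), R s, m, k, hR _, hR _, hR _, by omega, hsub _, hsub _, hsub _, ?_, e, hk⟩
  simp only [R]
  rw [← prod_union d1, ← prod_union d2]
  refine Nat.le_of_dvd (Nat.pos_of_ne_zero hq0) ?_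
  rw [← e, show m ^ 2 * k = m * k * m by ring]
  have h1 : ∀ p ∈ P x ∪ P (x + s) ∪ P s, p.Prime ∧ 5 ≤ p ∧ p ∣ x * (x + s) * s := fun p hp => by
    rcases mem_union.1 hp with h1 | h1
    · rcases mem_union.1 h1 with h1 | h1
      · exact ⟨(hmem _ _ h1).1, (hmem _ _ h1).2.1, ((hmem _ _ h1).2.2.mul_right _).mul_right _⟩
      · exact ⟨(hmem _ _ h1).1, (hmem _ _ h1).2.1, ((hmem _ _ h1).2.2.mul_left _).mul_right _⟩
    · exact ⟨(hmem _ _ h1).1, (hmem _ _ h1).2.1, (hmem _ _ h1).2.2.mul_left _⟩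
  refine Nat.mul_dvd_mul_right (prod_primes_dvd _ (fun p hp => (h1 p hp).1.prime) fun p hp => ?_) _
  obtain ⟨a1, a2, a3⟩ := h1 p hp
  have a4 : p ∣ m ^ 2 * k := e ▸ (a1.dvd_mul.1 (h.rad p a1 a3)).resolve_left fun h2 => by
    have := Nat.le_of_dvd (by norm_num) h2
    omega
  exact (a1.dvd_mul.1 a4).elim (fun h => (a1.dvd_of_dvd_pow h).mul_right _) fun h => h.mul_left _

end Pool.Agent.Lib.MP_68c55c_lc.Half
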