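import Pool.Agent.Lib.MP_68c55c_lc.HalfA
import Pool.Agent.Lib.MP_68c55c_lc.HalfB

/-!
Counting alphabet sizes with admissible parameters: exponent one half.
-/

set_option autoImplicit false

namespace Pool.Agent.Lib.MP_68c55c_lc.Half

open Finset

lemma fact_eq {A B q q' : ℕ} (hA : A ≠ 0) (hB : B ≠ 0) (hq : q ≠ 0) (hq' : q' ≠ 0)
    (h : A * q = B * q') (hf : ∀ p, q.factorization p = q'.factorization p ∨
      (A.factorization p = 0 ∧ B.factorization p = 0)) : q = q' := by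
  refine Nat.eq_of_factorization_eq hq hq' fun p => (hf p).elim id fun h0 => ?_
  have h1 := congrArg (fun m => m.factorization p) h
  simp only [Nat.factorization_mul hA hq, Nat.factorization_mul hB hq', Finsupp.add_apply] at h1
  omega

lemma sq_class {a b q q' U V m k k' : ℕ} (ha : a ≠ 0) (hb : b ≠ 0) (hq : q ≠ 0) (hq' : q' ≠ 0)
    (hV : V ≠ 0) (h : a * q * V ^ 2 = b * q' * U ^ 2)
    (hf : ∀ p, q.factorization p = q'.factorization p ∨
      (a.factorization p = 0 ∧ b.factorization p = 0))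
    (e : m ^ 2 * k = q) (e' : m ^ 2 * k' = q') (hk : Squarefree k) (hk' : Squarefree k') :
    q = q' := by
  have hU : U ≠ 0 := by
    rintro rfl
    have : a * q * V ^ 2 ≠ 0 := by positivity
    simp [h] at this
  have hm : m ^ 2 ≠ 0 := left_ne_zero_of_mul (e ▸ hq)
  refine Nat.eq_of_factorization_eq hq hq' fun p => (hf p).elim id fun h0 => ?_
  have h1 := congrArg (fun m => m.factorization p) h
  have h2 := congrArg (fun m => m.factorization p) e
  have h3 := congrArg (fun m => m.factorization p) e'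
  simp only [Nat.factorization_mul (mul_ne_zero ha hq) (pow_ne_zero 2 hV),
    Nat.factorization_mul (mul_ne_zero hb hq') (pow_ne_zero 2 hU), Nat.factorization_mul ha hq,
    Nat.factorization_mul hb hq', Nat.factorization_mul hm hk.ne_zero,
    Nat.factorization_mul hm hk'.ne_zero, Nat.factorization_pow, Finsupp.add_apply,
    Finsupp.smul_apply, smul_eq_mul] at h1 h2 h3
  have h4 := hk.natFactorization_le_one p
  have h5 := hk'.natFactorization_le_one p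
  omega

lemma large {E B i t α β μ : ℕ} (hE : 4 ≤ E) (hB1 : 1 ≤ B) (ht : t ≤ 1)
    (hB : ∀ m M, m ≠ 0 → m ≤ 2 ^ (1184 * E) → M ≤ 1184 * E → (box m.primeFactors M).card ≤ B)
    (F : Finset ℕ) (s x r r2 m k : ℕ → ℕ)
    (hF : ∀ q ∈ F, 8 * q ≤ 2 ^ (2 * E) ∧ Adm q (s q) (x q) ∧ Nat.log 2 (Nat.log 2 (s q)) = i ∧
      74 * E ≤ 2 ^ i ∧ 1 ≤ r q ∧ 1 ≤ r2 q ∧ 1 ≤ m q ∧
      (x q + t * s q).primeFactors ⊆ (6 * r q).primeFactors ∧
      (s q).primeFactors ⊆ (6 * r2 q).primeFactors ∧ r q * r q * r2 q * m q ≤ q ∧ r2 q < 2 ^ E ∧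
      Nat.log 2 (r q) = α ∧ Nat.log 2 (r2 q) = β ∧ Nat.log 2 (m q) = μ ∧
      m q ^ 2 * k q = q ∧ Squarefree (k q)) : F.card ≤ 5 * (2 ^ E * B ^ 3) := by
  classical
  rcases F.eq_empty_or_nonempty with rfl | ⟨q0, hq0⟩
  · simp
  choose hq hA hi hi2 r1 r21 m1 u1 u2 hle hr2 hα hβ hμ hm hk using hF
  have hi3 := hi2 q0 hq0
  have b1 : β + 1 ≤ E := hβ q0 hq0 ▸ Nat.log_lt_of_lt_pow (by have := r21 q0 hq0; omega) (hr2 q0 hq0)
  have b2 : 2 * α + β + μ ≤ 2 * E := by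
    refine (Nat.pow_le_pow_iff_right (a := 2) (by norm_num)).1 ?_
    have a1 := hα q0 hq0 ▸ Nat.pow_log_le_self 2 (x := r q0) (by have := r1 q0 hq0; omega)
    have a2 := hβ q0 hq0 ▸ Nat.pow_log_le_self 2 (x := r2 q0) (by have := r21 q0 hq0; omega)
    have a3 := hμ q0 hq0 ▸ Nat.pow_log_le_self 2 (x := m q0) (by have := m1 q0 hq0; omega)
    calc _ = 2 ^ α * 2 ^ α * 2 ^ β * 2 ^ μ := by ring
      _ ≤ r q0 * r q0 * r2 q0 * m q0 := by gcongr
      _ ≤ _ := by have := hle q0 hq0; have := hq q0 hq0; omega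
  obtain ⟨τ, hτ⟩ : ∃ τ, τ = 2 ^ i / (74 * E) := ⟨_, rfl⟩
  have τ1 : 1 ≤ τ := hτ ▸ Nat.div_pos hi3 (by omega)
  have τ2 : 74 * E * τ ≤ 2 ^ i := hτ ▸ Nat.mul_div_le _ _
  have τ3 : 8 * 2 ^ i ≤ τ * (1184 * E) := by
    have h1 := Nat.lt_mul_div_succ (2 ^ i) (by omega : 0 < 74 * E)
    rw [← hτ] at h1
    nlinarith
  obtain ⟨H, hH⟩ : ∃ H, H = 2 ^ (2 * τ * (2 * E)) := ⟨_, rfl⟩
  have H1 : 2 ^ (2 * E) ≤ H := hH ▸ Nat.pow_le_pow_right (by norm_num) (by nlinarith)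
  have H0 : 1 ≤ H := le_trans Nat.one_le_two_pow H1
  have H2 : 200 * H ^ 18 ≤ 2 ^ 2 ^ i := by
    calc _ ≤ 2 ^ 8 * H ^ 18 := by gcongr; norm_num
      _ = 2 ^ (8 + 72 * (E * τ)) := by rw [hH, ← pow_mul, ← pow_add]; congr 1; ring
      _ ≤ _ := Nat.pow_le_pow_right (by norm_num) (by nlinarith)
  have L1 : 2 ^ (2 * E) ≤ 2 ^ (1184 * E) := Nat.pow_le_pow_right (by norm_num) (by omega)
  have hs : ∀ q ∈ F, 200 * H ^ 18 ≤ s q ∧ s q ^ 4 ≤ 2 ^ (8 * 2 ^ i) := by
    intro q hq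
    have h1 := (hA q hq).hs
    have h2 : 1 ≤ Nat.log 2 (s q) := Nat.le_log_of_pow_le (by norm_num) h1
    have h3 := Nat.pow_log_le_self 2 (x := Nat.log 2 (s q)) (by omega)
    have h4 := Nat.lt_pow_succ_log_self (b := 2) (by norm_num) (Nat.log 2 (s q))
    rw [hi q hq] at h3 h4
    refine ⟨H2.trans ((Nat.pow_le_pow_right (by norm_num) h3).trans
      (Nat.pow_log_le_self 2 (by omega))), ?_⟩
    have h5 := Nat.lt_pow_succ_log_self (b := 2) (by norm_num) (s q)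
    refine (Nat.pow_le_pow_left h5.le 4).trans ?_
    rw [← pow_mul]
    refine Nat.pow_le_pow_right (by norm_num) ?_
    rw [pow_succ] at h4
    omega
  have hz : ∀ q ∈ F, q ≠ 0 ∧ x q + t * s q ≠ 0 ∧ s q ≠ 0 ∧ x q + t * s q ≤ s q ^ 4 ∧
      s q ≤ s q ^ 4 ∧ r q ≤ q ∧ r2 q ≤ q ∧ (1 ≤ q ∧ q ≤ H) ∧ 4 * ((x q + t * s q : ℕ) : ℤ) =
        q * (s q : ℤ) ^ 2 + 2 * (2 * t - 1) * s q + 6 - q := fun q h => by
    have h1 := hA q h
    have h2 := h1.hq
    have h3 := h1.hs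
    have h4 := h1.hx
    have h5 := h1.le_four
    have h6 : t * s q ≤ 1 * s q := Nat.mul_le_mul_right _ ht
    have h7 := hq q h
    have e : 4 * (x q : ℤ) + 2 * s q + q = q * (s q : ℤ) ^ 2 + 6 := by exact_mod_cast h1.eq
    have a1 := r1 q h
    have a2 := r21 q h
    have a3 := m1 q h
    refine ⟨by omega, by omega, by omega, by omega, by omega, le_trans ?_ (hle q h),
      le_trans ?_ (hle q h), ⟨by omega, by omega⟩, by push_cast; linarith⟩
    · calc _ = r q * 1 * 1 * 1 := by ring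
        _ ≤ _ := by gcongr
    · calc _ = 1 * 1 * r2 q * 1 := by ring
        _ ≤ _ := by gcongr
  choose z0 z1 z2 z3 z4 z5 z6 z7 z8 using hz
  have row : ∀ q ∈ F, ∀ q' ∈ F, vt τ (r q) (x q + t * s q) q = vt τ (r q') (x q' + t * s q') q' →
      _ := fun q h q' h' e => hH ▸ vt_eq (D := 2 * E) τ1 (r1 q h)
        (by have := z5 q h; have := hq q h; omega) (z1 q h) (z1 q' h') (u1 q h) (u1 q' h') e
  have col : ∀ q ∈ F, ∀ q' ∈ F, vt τ (r2 q) (s q) q = vt τ (r2 q') (s q') q' →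
      _ := fun q h q' h' e => hH ▸ vt_eq (D := 2 * E) τ1 (r21 q h)
        (by have := z6 q h; have := hq q h; omega) (z2 q h) (z2 q' h') (u2 q h) (u2 q' h') e
  have cV : ∀ A, (Vt (min A (2 ^ (2 * E))) (1184 * E)).card ≤ A * B ^ 2 := fun A =>
    card_Vt fun r h1 h2 => hB _ _ (by omega) (by
      calc 6 * r ≤ 2 ^ 3 * 2 ^ (2 * E) := by omega
        _ ≤ _ := by rw [← pow_add]; exact Nat.pow_le_pow_right (by norm_num) (by omega)) le_rfl
  have hε : |2 * (t : ℤ) - 1| = 1 := by interval_cases t <;> norm_num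
  refine kst F (fun q => vt τ (r q) (x q + t * s q) q) (fun q => vt τ (r2 q) (s q) q) m
    (Vt (min (2 ^ (α + 1)) (2 ^ (2 * E))) (1184 * E))
    (Vt (min (2 ^ (β + 1)) (2 ^ (2 * E))) (1184 * E)) (t := 2 ^ (μ + 1))
    (fun q h => vt_mem τ1 (r1 q h) (le_min ?_ ?_) (z1 q h) (u1 q h) ((z3 q h).trans (hs q h).2) τ3
      (z0 q h) ?_)
    (fun q h => vt_mem τ1 (r21 q h) (le_min ?_ ?_) (z2 q h) (u2 q h) ((z4 q h).trans (hs q h).2) τ3
      (z0 q h) ?_)
    (fun q h => hμ q h ▸ Nat.lt_pow_succ_log_self (by norm_num) _)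
    (fun q h q' h' e1 e2 => ?_) (fun q h q' h' p g p' g' hne e1 e2 e3 e4 e5 => ?_)
    ((cV _).trans ?_) ?_
  · exact (hα q h ▸ Nat.lt_pow_succ_log_self (by norm_num) _).le
  · have := z5 q h; have := hq q h; omega
  · have := hq q h; omega
  · exact (hβ q h ▸ Nat.lt_pow_succ_log_self (by norm_num) _).le
  · have := z6 q h; have := hq q h; omega
  · have := hq q h; omega
  · obtain ⟨a, b, ⟨a1, a2⟩, ⟨b1, b2⟩, f1, f2⟩ := row q h q' h' e1
    obtain ⟨c, d, ⟨c1, c2⟩, ⟨d1, d2⟩, f3, f4⟩ := col q h q' h' e2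
    have H3 : H ^ 3 ≤ H ^ 18 := Nat.pow_le_pow_right H0 (by norm_num)
    have H4 : H ≤ H ^ 3 := Nat.le_self_pow (by norm_num) _
    have g : ∀ q ∈ F, |2 * (2 * (t : ℤ) - 1) * s q + 6 - q| ≤ 3 * s q ∧ 8 * (H : ℤ) ^ 3 < s q :=
      fun q h => by
        have h1 := (hs q h).1
        have h2 := z7 q h
        have h3 : 8 * H ^ 3 < s q := by omega
        refine ⟨abs_le.2 ?_, by exact_mod_cast h3⟩
        interval_cases t <;> push_cast <;> omega
    have := liou1 (a := a) (b := b) (c := c) (d := d) (H := H)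
      (ρ := 2 * (2 * (t : ℤ) - 1) * s q + 6 - q) (ρ' := 2 * (2 * (t : ℤ) - 1) * s q' + 6 - q')
      (q := q) (q' := q') ((z8 q h).trans (by ring)) ((z8 q' h').trans (by ring)) (g q h).1
      (g q' h').1 (by positivity) (by positivity) (by positivity) (by positivity)
      (by exact_mod_cast a2) (by exact_mod_cast b2) (by exact_mod_cast c2) (by exact_mod_cast d2)
      (by exact_mod_cast f1) (by exact_mod_cast f3) (g q h).2 (g q' h').2
    have h8 : b * c ^ 2 * q = a * d ^ 2 * q' := by exact_mod_cast this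
    refine fact_eq (by positivity) (by positivity) (z0 q h) (z0 q' h') h8 fun p =>
      (f2 p).elim Or.inl fun h1 => (f4 p).imp_right fun h2 => ?_
    rw [Nat.factorization_mul (by omega) (by positivity),
      Nat.factorization_mul (by omega) (by positivity)]
    simp [h1, h2]
  · obtain ⟨a, b, a1, b1, f1, -⟩ := row p' g' q' h' e4
    obtain ⟨a', b', a2, b2, f2, f2'⟩ := row p g q h e3
    obtain ⟨c, d, c1, d1, f3, -⟩ := col p' g' p g e2
    obtain ⟨c', d', c2, d2, f4, f4'⟩ := col q' h' q h e1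
    rcases c4 (H := H) hε (z8 p' g') (z8 q' h') (z8 p g) (z8 q h)
      (by simp only [List.mem_cons, List.not_mem_nil, or_false, forall_eq_or_imp, forall_eq]
          exact ⟨z7 _ g', z7 _ h', z7 _ g, z7 _ h, a1, b1, a2, b2, c1, d1, c2, d2⟩)
      (by simp only [List.mem_cons, List.not_mem_nil, or_false, forall_eq_or_imp, forall_eq]
          exact ⟨(hs _ g').1, (hs _ h').1, (hs _ g).1, (hs _ h).1⟩)
      f1 f2 f3 f4 with h0 | ⟨U, V, V0, h0⟩
    · exact absurd (fact_eq (A := c') (B := d') (by omega) (by omega) (z0 _ h') (z0 _ h)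
        (by linarith) f4') hne
    · exact sq_class (by omega) (by omega) (z0 _ g) (z0 _ h) V0 h0 f2' (hm p g) (e5 ▸ hm q h)
        (hk p g) (hk q h)
  · exact Nat.mul_le_mul (Nat.pow_le_pow_right (by norm_num) b1)
      (Nat.pow_le_pow_right hB1 (by norm_num))
  · have c1 := cV (2 ^ (α + 1))
    have c2 := cV (2 ^ (β + 1))
    have c3 : 2 ^ (2 * α + β + μ) ≤ 2 ^ (2 * E) := Nat.pow_le_pow_right (by norm_num) b2
    calc _ ≤ 2 ^ (β + 1) * B ^ 2 * (2 ^ (α + 1) * B ^ 2 * (2 ^ (α + 1) * B ^ 2 * 2 ^ (μ + 1))) := by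
          gcongr
      _ = 16 * (2 ^ (2 * α + β + μ) * B ^ 6) := by ring
      _ ≤ 16 * (2 ^ (2 * E) * B ^ 6) := by gcongr
      _ = _ := by ring

end Pool.Agent.Lib.MP_68c55c_lc.Half
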