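import Pool.Agent.Lib.MP_68c55c_lc.HalfC

/-!
Counting alphabet sizes with admissible parameters: the assembly.
-/

set_option autoImplicit false

namespace Pool.Agent.Lib.MP_68c55c_lc.Half

open Finset

lemma small {E B : ℕ} (hE : 4 ≤ E)
    (hB : ∀ m M, m ≠ 0 → m ≤ 2 ^ (1184 * E) → M ≤ 1184 * E → (box m.primeFactors M).card ≤ B)
    (F : Finset ℕ) (s x r2 : ℕ → ℕ)
    (hF : ∀ q ∈ F, 8 * q ≤ 2 ^ (2 * E) ∧ Adm q (s q) (x q) ∧
      2 ^ Nat.log 2 (Nat.log 2 (s q)) < 74 * E ∧ 1 ≤ r2 q ∧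
      (s q).primeFactors ⊆ (6 * r2 q).primeFactors ∧ r2 q < 2 ^ E) :
    F.card ≤ B * (2 ^ E * B) := by
  classical
  choose hq hA hi r21 u2 hr2 using hF
  have L1 : 2 ^ (2 * E) ≤ 2 ^ (1184 * E) := Nat.pow_le_pow_right (by norm_num) (by omega)
  have hs : ∀ q ∈ F, s q ^ 2 ≤ 2 ^ (1184 * E) := fun q h => by
    have h4 := Nat.lt_pow_succ_log_self (b := 2) (by norm_num) (Nat.log 2 (s q))
    have h5 := Nat.lt_pow_succ_log_self (b := 2) (by norm_num) (s q)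
    have h6 := hi q h
    refine (Nat.pow_le_pow_left h5.le 2).trans ?_
    rw [← pow_mul]
    refine Nat.pow_le_pow_right (by norm_num) ?_
    rw [pow_succ] at h4
    omega
  have cu : ∀ m, m ≠ 0 → m ≤ 2 ^ (1184 * E) → (units m.primeFactors (1184 * E)).card ≤ B :=
    fun m h1 h2 => card_image_le.trans (hB m _ h1 h2 le_rfl)
  have L2 : 2 ^ 3 * 2 ^ E ≤ 2 ^ (1184 * E) := by
    rw [← pow_add]; exact Nat.pow_le_pow_right (by norm_num) (by omega)
  clear hB hi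
  generalize 1184 * E = L at *
  have c1 : ((Icc 1 (2 ^ E)).biUnion fun r => units (6 * r).primeFactors L).card ≤ 2 ^ E * B := by
    refine card_biUnion_le.trans ((sum_le_card_nsmul _ _ B fun r hr => ?_).trans (by simp))
    have h1 := mem_Icc.1 hr
    exact cu _ (by omega) (by omega)
  refine le_trans ?_ (Nat.mul_le_mul_left B c1)
  refine card_le_mul_card_image_of_maps_to (f := s) (fun q h => ?_) B fun s0 _ => ?_
  · exact mem_biUnion.2 ⟨r2 q, mem_Icc.2 ⟨r21 q h, (hr2 q h).le⟩, self_mem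
      (by have := (hA q h).hs; omega) (u2 q h) ((Nat.le_self_pow two_ne_zero _).trans (hs q h))⟩
  rcases (F.filter fun q => s q = s0).eq_empty_or_nonempty with h0 | ⟨q0, h0⟩
  · simp [h0]
  obtain ⟨h1, rfl⟩ := mem_filter.1 h0
  have h2 : 2 ^ 2 ≤ s q0 ^ 2 := Nat.pow_le_pow_left (hA q0 h1).hs 2
  have h3 := hs q0 h1
  refine le_trans ?_ (cu (s q0 ^ 2 - 1) (by omega) (by omega))
  refine card_le_card_of_injOn (fun q => q - 1) (fun q h => ?_) fun q h q' h' e => ?_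
  · obtain ⟨a1, a2⟩ := mem_filter.1 h
    have a3 := (hA q a1).hq
    have a4 := hq q a1
    have a5 := (hA q a1).dvd
    rw [a2] at a5
    exact mem_coe.2 (self_mem (v := q - 1) (by omega) (Nat.primeFactors_mono a5 (by omega))
      (by omega))
  · have a3 := (hA q (mem_filter.1 h).1).hq
    have a4 := (hA q' (mem_filter.1 h').1).hq
    simp only at e
    omega

lemma loglog_lt {q s x D : ℕ} (h : Adm q s x) (hD : 8 ≤ D) (hq : 2 * q ≤ 2 ^ D) :
    Nat.log 2 (Nat.log 2 s) < 2 ^ 21 * D ^ 2 := by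
  have c1 := h.log_le hD hq
  have c2 : 1 ≤ Nat.log 2 s := Nat.le_log_of_pow_le (by norm_num) h.hs
  refine Nat.log_lt_of_lt_pow (b := 2) (Nat.one_le_iff_ne_zero.1 c2) ?_
  have c3 : 1 ≤ D ^ 2 := Nat.one_le_pow _ _ (by omega)
  have c4 : 2 ^ 21 * D ^ 2 = 2 ^ 20 * D ^ 2 + 2 ^ 20 * D ^ 2 := by ring
  have c5 : 2 ^ 4 ≤ 2 ^ (2 ^ 20 * D ^ 2) := Nat.pow_le_pow_right (by norm_num) (by omega)
  rw [c4, pow_add]
  generalize 2 ^ (2 ^ 20 * D ^ 2) = M at *
  nlinarith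

lemma count_nat {E B : ℕ} (hE : 4 ≤ E)
    (hB : ∀ m M, m ≠ 0 → m ≤ 2 ^ (1184 * E) → M ≤ 1184 * E → (box m.primeFactors M).card ≤ B)
    (F : Finset ℕ) (hF : ∀ q ∈ F, 8 * q ≤ 2 ^ (2 * E) ∧ ∃ s x, Adm q s x) :
    F.card ≤ 2 ^ 25 * (2 * E + 1) ^ 5 * (2 ^ E * B ^ 3) := by
  classical
  have hB1 : 1 ≤ B := le_trans (card_pos.2 ⟨_, mem_box (fun _ => 0) (by simp)⟩)
    (hB 1 0 one_ne_zero Nat.one_le_two_pow (Nat.zero_le _))
  choose! hq s x hA using hF
  choose! r0 r1 r2 m k a0 a1 a2 a3 u0 u1 u2 hle hm hk using fun q (h : q ∈ F) =>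
    exists_rad (hA q h)
  obtain ⟨N, hN⟩ : ∃ N, N = 2 ^ 21 * (2 * E) ^ 2 := ⟨_, rfl⟩
  have hi : ∀ q ∈ F, Nat.log 2 (Nat.log 2 (s q)) ∈ range N := fun q h =>
    mem_range.2 (hN ▸ loglog_lt (hA q h) (by omega) (by have := hq q h; omega))
  have hr2 : ∀ q ∈ F, ¬ r0 q * r1 q ≤ 2 ^ E → r2 q < 2 ^ E := fun q h h1 => by
    by_contra! h2
    have h3 : 2 ^ E * 2 ^ E * 1 ≤ r0 q * r1 q * r2 q * m q := by
      have := a3 q h
      gcongr
      omega
    have h4 := hle q h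
    have h5 := hq q h
    have h6 := (hA q h).hq
    rw [two_mul, pow_add] at h5
    omega
  have lg : ∀ q ∈ F, ∀ v, v ≤ q → Nat.log 2 v ∈ range (2 * E + 1) := fun q h v hv =>
    mem_range.2 (Nat.lt_succ_of_le ((Nat.log_mono_right (b := 2)
      (show v ≤ 2 ^ (2 * E) by have := hq q h; omega)).trans (by simp [Nat.log_pow])))
  have c1 : (F.filter fun q => r0 q * r1 q ≤ 2 ^ E).card ≤ B ^ 3 * (2 ^ E * N) := by
    refine (card_le_mul_card_image_of_maps_to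
      (f := fun q => (r0 q * r1 q, Nat.log 2 (Nat.log 2 (s q)))) (t := Icc 1 (2 ^ E) ×ˢ range N)
      (fun q h => ?_) (B ^ 3) fun z hz => ?_).trans (by simp)
    · obtain ⟨h1, h2⟩ := mem_filter.1 h
      exact mem_product.2 ⟨mem_Icc.2 ⟨Nat.mul_pos (a0 q h1) (a1 q h1), h2⟩, hi q h1⟩
    have h1 := mem_Icc.1 (mem_product.1 hz).1
    have h2 : 6 * z.1 ≤ 2 ^ (2 * E) := by
      calc _ ≤ 2 ^ 3 * 2 ^ E := by omega
        _ ≤ _ := by rw [← pow_add]; exact Nat.pow_le_pow_right (by norm_num) (by omega)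
    refine (fiber_card (D := 2 * E) (i := z.2) (j := 0) (S := (6 * z.1).primeFactors)
      (fun p hp => Nat.prime_of_mem_primeFactors hp)
      ((Nat.pow_le_pow_iff_right (by norm_num)).1 ((two_pow_card_le (by omega)).trans h2))
      (by omega) _ fun q h => ?_).trans (Nat.pow_le_pow_left (hB _ _ (by omega)
        (h2.trans (Nat.pow_le_pow_right (by norm_num) (by omega))) (by omega)) 3)
    obtain ⟨h3, rfl⟩ := mem_filter.1 h
    have h4 := (mem_filter.1 h3).1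
    exact ⟨by have := hq q h4; omega, s q, x q, hA q h4, rfl,
      (u0 q h4).trans (Nat.primeFactors_mono ⟨r1 q, by ring⟩ (by omega)),
      (u1 q h4).trans (Nat.primeFactors_mono ⟨r0 q, by ring⟩ (by omega))⟩
  have c2 := small hE hB ((F.filter fun q => ¬ r0 q * r1 q ≤ 2 ^ E).filter fun q =>
    2 ^ Nat.log 2 (Nat.log 2 (s q)) < 74 * E) s x r2 fun q h => by
      obtain ⟨h1, h2⟩ := mem_filter.1 h
      obtain ⟨h3, h4⟩ := mem_filter.1 h1
      exact ⟨hq q h3, hA q h3, h2, a2 q h3, u2 q h3, hr2 q h3 h4⟩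
  have hmin : ∀ q ∈ F, min (r0 q) (r1 q) * min (r0 q) (r1 q) * r2 q * m q ≤ q := fun q h =>
    le_trans (by gcongr; exacts [min_le_left _ _, min_le_right _ _]) (hle q h)
  have c3 : ((F.filter fun q => ¬ r0 q * r1 q ≤ 2 ^ E).filter fun q =>
      ¬ 2 ^ Nat.log 2 (Nat.log 2 (s q)) < 74 * E).card ≤
      5 * (2 ^ E * B ^ 3) * (2 * ((2 * E + 1) * ((2 * E + 1) * ((2 * E + 1) * N)))) := by
    refine (card_le_mul_card_image_of_maps_to
      (f := fun q => (if r0 q ≤ r1 q then 0 else 1, Nat.log 2 (min (r0 q) (r1 q)),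
        Nat.log 2 (r2 q), Nat.log 2 (m q), Nat.log 2 (Nat.log 2 (s q))))
      (t := range 2 ×ˢ range (2 * E + 1) ×ˢ range (2 * E + 1) ×ˢ range (2 * E + 1) ×ˢ range N)
      (fun q h => ?_) (5 * (2 ^ E * B ^ 3)) fun z hz => ?_).trans (by simp)
    · have h1 := (mem_filter.1 (mem_filter.1 h).1).1
      have b0 : 1 ≤ min (r0 q) (r1 q) := le_min (a0 q h1) (a1 q h1)
      have b2 := a2 q h1
      have b3 := a3 q h1
      refine mem_product.2 ⟨mem_range.2 (by dsimp only; split_ifs <;> norm_num), mem_product.2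
        ⟨lg q h1 _ (le_trans ?_ (hmin q h1)), mem_product.2
          ⟨lg q h1 _ (le_trans ?_ (hmin q h1)), mem_product.2
            ⟨lg q h1 _ (le_trans ?_ (hmin q h1)), hi q h1⟩⟩⟩⟩
      · calc _ = min (r0 q) (r1 q) * 1 * 1 * 1 := by ring
          _ ≤ _ := by gcongr
      · calc _ = 1 * 1 * r2 q * 1 := by ring
          _ ≤ _ := by gcongr
      · calc _ = 1 * 1 * 1 * m q := by ring
          _ ≤ _ := by gcongr
    refine large (i := z.2.2.2.2) (t := z.1) (α := z.2.1) (β := z.2.2.1) (μ := z.2.2.2.1) hE hB1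
      (Nat.le_of_lt_succ (mem_range.1 (mem_product.1 hz).1)) hB _ s x
      (fun q => min (r0 q) (r1 q)) r2 m k fun q h => ?_
    obtain ⟨h1, rfl⟩ := mem_filter.1 h
    obtain ⟨h2, h3⟩ := mem_filter.1 h1
    obtain ⟨h4, h5⟩ := mem_filter.1 h2
    refine ⟨hq q h4, hA q h4, rfl, not_lt.1 h3, le_min (a0 q h4) (a1 q h4), a2 q h4, a3 q h4, ?_,
      u2 q h4, hmin q h4, hr2 q h4 h5, rfl, rfl, rfl, hm q h4, hk q h4⟩
    dsimp only
    split_ifs with h6
    · rw [min_eq_left h6, zero_mul, add_zero]; exact u0 q h4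
    · rw [min_eq_right (not_le.1 h6).le, one_mul]; exact u1 q h4
  have d1 := card_filter_add_card_filter_not (s := F) fun q => r0 q * r1 q ≤ 2 ^ E
  have d2 := card_filter_add_card_filter_not (s := F.filter fun q => ¬ r0 q * r1 q ≤ 2 ^ E)
    fun q => 2 ^ Nat.log 2 (Nat.log 2 (s q)) < 74 * E
  obtain ⟨T, hT⟩ : ∃ T, T = (2 * E + 1) * ((2 * E + 1) * ((2 * E + 1) * N)) := ⟨_, rfl⟩
  have e1 : N ≤ T := by
    calc _ = 1 * (1 * (1 * N)) := by ring
      _ ≤ _ := by rw [hT]; gcongr <;> omega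
  have e2 : 1 ≤ N := by rw [hN]; exact Nat.mul_pos (by norm_num) (by positivity)
  have e3 : T ≤ 2 ^ 21 * (2 * E + 1) ^ 5 := by
    calc _ ≤ (2 * E + 1) * ((2 * E + 1) * ((2 * E + 1) * (2 ^ 21 * (2 * E + 1) ^ 2))) := by
          rw [hT, hN]; gcongr; omega
      _ = _ := by ring
  have e4 : B * (2 ^ E * B) ≤ 2 ^ E * B ^ 3 * T := by
    calc _ = 2 ^ E * B ^ 2 * 1 := by ring
      _ ≤ _ := by gcongr <;> omega
  have e5 : B ^ 3 * (2 ^ E * N) ≤ 2 ^ E * B ^ 3 * T := by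
    calc _ = 2 ^ E * B ^ 3 * N := by ring
      _ ≤ _ := by gcongr
  rw [← hT] at c3
  calc _ ≤ 16 * (2 ^ E * B ^ 3 * T) := by linarith
    _ ≤ 16 * (2 ^ E * B ^ 3 * (2 ^ 21 * (2 * E + 1) ^ 5)) := by gcongr
    _ = _ := by ring

theorem count_half {ε : ℝ} (hε : 0 < ε) : ∃ C : ℝ, ∀ X : ℕ, 1 ≤ X →
    ∀ F : Finset ℕ, (∀ q ∈ F, q ≤ X ∧ ∃ s x, Adm q s x) →
    (F.card : ℝ) ≤ C * (X : ℝ) ^ (1 / 2 + ε) := by
  obtain ⟨δ, hδe⟩ : ∃ δ : ℝ, δ = ε / 7107 := ⟨_, rfl⟩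
  have hδ : 0 < δ := by rw [hδe]; positivity
  have hz1 : Real.exp (-δ) < 1 := Real.exp_lt_one_iff.2 (by linarith)
  have hz0 := Real.exp_pos (-δ)
  obtain ⟨C1, hC1⟩ := pow_card_le (c := (1 - Real.exp (-δ))⁻¹)
    ((one_le_inv₀ (by linarith)).2 (by linarith)) hδ
  have hC0 : 0 ≤ C1 := by
    have := hC1 1 one_ne_zero
    simp at this
    linarith
  refine ⟨2 ^ 25 * (120 / δ ^ 5) * (16 * C1 ^ 3) * Real.exp (4 * ε), fun X hX F hF => ?_⟩
  obtain ⟨E, hE⟩ : ∃ E, E = Nat.log 2 X / 2 + 4 := ⟨_, rfl⟩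
  have hX' : (1 : ℝ) ≤ X := by exact_mod_cast hX
  have h1 : 8 * X ≤ 2 ^ (2 * E) := by
    have h1 : X < 2 ^ (Nat.log 2 X + 1) := Nat.lt_pow_succ_log_self (by norm_num) X
    calc _ ≤ 2 ^ 3 * 2 ^ (Nat.log 2 X + 1) := by omega
      _ ≤ _ := by rw [← pow_add]; exact Nat.pow_le_pow_right (by norm_num) (by omega)
  have h2 := count_nat (E := E) (B := ⌊C1 * Real.exp (2368 * δ * E)⌋₊) (by omega)
    (fun m M m0 m1 m2 => Nat.le_floor ((card_box _ _ hδ).trans ?_)) F fun q hq =>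
      ⟨by have := (hF q hq).1; omega, (hF q hq).2⟩
  · have h3 : (F.card : ℝ) ≤ 2 ^ 25 * (2 * E + 1) ^ 5 *
        (2 ^ E * (⌊C1 * Real.exp (2368 * δ * E)⌋₊ : ℝ) ^ 3) := by exact_mod_cast h2
    have h4 : (2 * E + 1 : ℝ) ^ 5 ≤ 120 / δ ^ 5 * Real.exp (3 * δ * E) := by
      have := Real.pow_div_factorial_le_exp (x := 3 * δ * E) (by positivity) 5
      rw [div_le_iff₀ (by positivity)] at this
      rw [div_mul_eq_mul_div, le_div_iff₀ (by positivity), ← mul_pow]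
      norm_num [Nat.factorial] at this
      have h5 : (1 : ℝ) ≤ E := by exact_mod_cast (by omega : 1 ≤ E)
      have h6 : ((2 * E + 1) * δ) ^ 5 ≤ (3 * δ * E) ^ 5 :=
        pow_le_pow_left₀ (by positivity) (by nlinarith) 5
      linarith
    have h5 : (2 : ℝ) ^ E ≤ 16 * (X : ℝ) ^ (1 / 2 : ℝ) := by
      rw [← Real.sqrt_eq_rpow, hE, pow_add, mul_comm]
      norm_num
      refine Real.le_sqrt_of_sq_le ?_
      have : (2 ^ (Nat.log 2 X / 2)) ^ 2 ≤ X := by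
        rw [← pow_mul]
        exact (Nat.pow_le_pow_right (by norm_num) (by omega)).trans
          (Nat.pow_log_le_self 2 (by omega))
      exact_mod_cast this
    have h6 : (E : ℝ) ≤ Real.log X + 4 := by
      have b1 : (2 : ℝ) ^ Nat.log 2 X ≤ X := by exact_mod_cast Nat.pow_log_le_self 2 (by omega)
      have b2 := Real.log_le_log (by positivity) b1
      rw [Real.log_pow] at b2
      have := Real.log_two_gt_d9
      have b3 : (2 * E : ℝ) ≤ Nat.log 2 X + 8 := by exact_mod_cast (by omega)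
      have : (0 : ℝ) ≤ Nat.log 2 X := by positivity
      nlinarith
    have h7 : Real.exp (3 * δ * E) * Real.exp (2368 * δ * E) ^ 3 ≤
        Real.exp (4 * ε) * (X : ℝ) ^ ε := by
      rw [Real.rpow_def_of_pos (by linarith), ← Real.exp_nat_mul, ← Real.exp_add, ← Real.exp_add,
        Real.exp_le_exp, hδe]
      push_cast
      nlinarith
    rw [Real.rpow_add (by linarith)]
    calc _ ≤ 2 ^ 25 * (120 / δ ^ 5 * Real.exp (3 * δ * E)) *
          (16 * (X : ℝ) ^ (1 / 2 : ℝ) * (C1 * Real.exp (2368 * δ * E)) ^ 3) := by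
          refine h3.trans ?_
          gcongr
          exact Nat.floor_le (by positivity)
      _ = 2 ^ 25 * (120 / δ ^ 5) * (16 * C1 ^ 3) * (X : ℝ) ^ (1 / 2 : ℝ) *
          (Real.exp (3 * δ * E) * Real.exp (2368 * δ * E) ^ 3) := by ring
      _ ≤ 2 ^ 25 * (120 / δ ^ 5) * (16 * C1 ^ 3) * (X : ℝ) ^ (1 / 2 : ℝ) *
          (Real.exp (4 * ε) * (X : ℝ) ^ ε) := by gcongr
      _ = _ := by ring
  · have a6 : Real.log m ≤ (1184 * E : ℕ) := by
      have b1 : (m : ℝ) ≤ 2 ^ (1184 * E) := by exact_mod_cast m1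
      refine (Real.log_le_log (by positivity) b1).trans ?_
      rw [Real.log_pow]
      have := Real.log_two_lt_d9
      exact mul_le_of_le_one_right (by positivity) (by linarith)
    calc _ ≤ Real.exp (δ * (1184 * E : ℕ)) * (C1 * Real.exp (δ * (1184 * E : ℕ))) := by
          gcongr
          exact (hC1 _ m0).trans (by gcongr)
      _ = _ := by
          rw [mul_left_comm, ← Real.exp_add]
          congr 2
          push_cast
          ring

end Pool.Agent.Lib.MP_68c55c_lc.Half
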