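import Mathlib

/-!
The gap of the two Lloyd roots of a perfect 2-code: the case of odd roots and a gap `2 ^ i`.
-/

set_option autoImplicit false

namespace Pool.Agent.Lib.MP_68c55c_lc.PowTwo

open jacobiSym

/-- The Jacobi symbol only sees the numerator modulo the primes of the denominator. -/
lemma jc (a b : ℤ) (m : ℕ) (hm : m ≠ 0) (h : ∀ p : ℕ, p.Prime → p ∣ m → (p : ℤ) ∣ a - b) :
    jacobiSym a m = jacobiSym b m := by
  induction m using induction_on_primes with
  | zero => exact absurd rfl hm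
  | one => simp
  | prime_mul p m hp ih =>
    have m0 : m ≠ 0 := fun h0 => hm (by simp [h0])
    rw [mul_right' _ hp.ne_zero m0, mul_right' _ hp.ne_zero m0,
      ih m0 fun r hr h1 => h r hr (h1.mul_left _)]
    congr 1
    exact mod_left' (Int.modEq_iff_dvd.2 (h p hp (Dvd.intro _ rfl))).symm

lemma odd_pow {q s x n i : ℕ} (hi : 2 ≤ i) (hs : s = 2 ^ i)
    (e1 : 4 * x + 2 * s + q = q * s ^ 2 + 6) (e3 : x * (x + s) ∣ 2 * q ^ n)
    (hx : ¬ 2 ∣ x) : False := by
  have s4 : 4 ∣ s := hs ▸ pow_dvd_pow 2 hi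
  have s3 : ¬ 3 ∣ s := fun h => by
    have := Nat.prime_three.dvd_of_dvd_pow (hs ▸ h); omega
  have e1' : (4 * x + 2 * s + q : ℤ) = q * s ^ 2 + 6 := by exact_mod_cast e1
  have pq : ∀ p : ℕ, p.Prime → p ∣ x * (x + s) → p ∣ q ∧ IsCoprime (p : ℤ) 2 := fun p hp h => by
    have p2 : ¬ p ∣ 2 := fun h2 => by
      obtain rfl := (Nat.prime_dvd_prime_iff_eq hp Nat.prime_two).1 h2
      rcases hp.dvd_mul.1 h with h | h <;> omega
    exact ⟨hp.dvd_of_dvd_pow ((hp.dvd_mul.1 (h.trans e3)).resolve_left p2),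
      Nat.isCoprime_iff_coprime.2 (hp.coprime_iff_not_dvd.2 p2)⟩
  have px : ∀ p : ℕ, p.Prime → p ∣ x → (p : ℤ) ∣ s - 3 := fun p hp h => by
    obtain ⟨⟨c, hc⟩, h2⟩ := pq p hp (h.mul_right _)
    obtain ⟨d, hd⟩ := h
    refine h2.dvd_of_dvd_mul_left ⟨c * s ^ 2 - c - 4 * d, ?_⟩
    have hc' : (q : ℤ) = p * c := by exact_mod_cast hc
    have hd' : (x : ℤ) = p * d := by exact_mod_cast hd
    linear_combination e1' + ((s : ℤ) ^ 2 - 1) * hc' - 4 * hd'
  have py : ∀ p : ℕ, p.Prime → p ∣ x + s → (p : ℤ) ∣ s + 3 := fun p hp h => by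
    obtain ⟨⟨c, hc⟩, h2⟩ := pq p hp (h.mul_left _)
    obtain ⟨d, hd⟩ := h
    refine h2.dvd_of_dvd_mul_left ⟨4 * d + c - c * s ^ 2, ?_⟩
    have hc' : (q : ℤ) = p * c := by exact_mod_cast hc
    have hd' : (x + s : ℤ) = p * d := by exact_mod_cast hd
    linear_combination -e1' - ((s : ℤ) ^ 2 - 1) * hc' + 4 * hd'
  have x3 : ¬ 3 ∣ x := fun h => by have := px 3 Nat.prime_three h; omega
  have y3 : ¬ 3 ∣ x + s := fun h => by have := py 3 Nat.prime_three h; omega
  have x0 : x ≠ 0 := by omega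
  have sq : ∀ (c m : ℕ) (a : ℤ), Nat.Coprime c m → jacobiSym (a * (c : ℤ) ^ 2) m = jacobiSym a m :=
    fun c m a h => by rw [mul_left, sq_one' (by simpa using h), mul_one]
  have c3 : ∀ m : ℕ, ¬ 3 ∣ m → jacobiSym 9 m = 1 := fun m h => by
    simpa using sq 3 m 1 (Nat.prime_three.coprime_iff_not_dvd.2 h)
  have c2 : ∀ k m : ℕ, ¬ 2 ∣ m → Nat.Coprime (2 ^ k) m := fun k m h =>
    (Nat.prime_two.coprime_iff_not_dvd.2 h).pow_left k
  obtain ⟨k, rfl | rfl⟩ := Nat.even_or_odd' i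
  · have oy : ¬ 2 ∣ x + s := by omega
    have hs' : (s : ℤ) = ((2 ^ k : ℕ) : ℤ) ^ 2 := by rw [hs]; push_cast; ring
    have s1 : s % 3 = 1 := by rw [hs, pow_mul]; simp [Nat.pow_mod]
    have j1 : jacobiSym (-3 * s) (x + s) = 1 := by
      rw [← c3 _ y3]
      exact jc _ _ _ (by omega) fun p hp h => by
        rw [show -3 * (s : ℤ) - 9 = -3 * (s + 3) by ring]; exact (py p hp h).mul_left _
    rw [hs', sq _ _ _ (c2 k _ oy), mod_right _ (Nat.odd_iff.2 (by omega))] at j1
    have : (x + s) % 12 = 5 ∨ (x + s) % 12 = 11 := by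
      have h3 : (x + s) % 3 = 2 := by clear * - s1 x3 y3; omega
      clear * - h3 oy; omega
    rcases this with h | h <;> simp only [show 4 * (-3 : ℤ).natAbs = 12 by rfl, h] at j1 <;>
      norm_num at j1
  · have hs' : (s : ℤ) = 2 * ((2 ^ k : ℕ) : ℤ) ^ 2 := by rw [hs]; push_cast; ring
    have s1 : s % 3 = 2 := by rw [hs, pow_succ, pow_mul]; simp [Nat.pow_mod, Nat.mul_mod]
    have ox : Odd x := Nat.odd_iff.2 (by omega)
    have j1 : jacobiSym (3 * s) x = 1 := by
      rw [← c3 _ x3]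
      exact jc _ _ _ x0 fun p hp h => by
        rw [show 3 * (s : ℤ) - 9 = 3 * (s - 3) by ring]; exact (px p hp h).mul_left _
    rw [hs', ← mul_assoc, sq _ _ _ (c2 k _ hx), mod_right _ ox] at j1
    obtain ⟨m, rfl⟩ : ∃ m, s = m + 1 := ⟨s - 1, by omega⟩
    have om : ¬ 2 ∣ m := by omega
    have j2 : jacobiSym x m = 1 := by
      have h1 := sq 2 m x (Nat.prime_two.coprime_iff_not_dvd.2 om)
      have h2 := sq 2 m 1 (Nat.prime_two.coprime_iff_not_dvd.2 om)
      rw [← h1, ← one_left m, ← h2]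
      refine mod_left' (Int.modEq_iff_dvd.2 ⟨2 - q * (m + 2), ?_⟩)
      push_cast at e1' ⊢
      linear_combination -e1'
    have j3 : jacobiSym m x = jacobiSym 2 (x % 8) := by
      refine Eq.trans ?_ (mod_right' 2 ox)
      exact jc _ _ _ x0 fun p hp h => by
        have := px p hp h
        push_cast at this ⊢
        rwa [show (m : ℤ) - 2 = m + 1 - 3 by ring]
    have : x % 24 = 5 ∨ x % 24 = 11 ∨ x % 24 = 17 ∨ x % 24 = 23 := by
      have h3 : x % 3 = 2 := by clear * - s1 x3 y3; omega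
      clear * - h3 hx; omega
    rcases this with h | h | h | h
    · rw [quadratic_reciprocity_one_mod_four (by omega) (Nat.odd_iff.2 (by omega)), j3,
        show x % 8 = 5 by omega] at j2
      norm_num at j2
    · simp only [show 4 * (3 * 2 : ℤ).natAbs = 24 by rfl, h] at j1
      norm_num at j1
    · simp only [show 4 * (3 * 2 : ℤ).natAbs = 24 by rfl, h] at j1
      norm_num at j1
    · rw [quadratic_reciprocity_three_mod_four (by omega) (by omega), j3,
        show x % 8 = 7 by omega] at j2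
      norm_num at j2

end Pool.Agent.Lib.MP_68c55c_lc.PowTwo
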