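import Pool.Agent.Lib.MP_68c55c_lc.Sys
import Pool.Agent.Lib.MP_68c55c_lc.PowTwo

/-!
Perfect 2-codes whose sphere size is divisible by `p * q ^ 2` for every prime `p ≥ 5` dividing
`q`.
-/

set_option autoImplicit false

namespace Pool.Agent.Lib.MP_68c55c_lc.Jac

open Pool.Agent.Lib.MP_68c55c_lc.Sys

lemma jac_congr (a b : ℤ) (O : ℕ) (hO : O ≠ 0)
    (h : ∀ p : ℕ, p.Prime → p ∣ O → a % p = b % p) : jacobiSym a O = jacobiSym b O := by
  induction O using Nat.recOnMul with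
  | zero => exact absurd rfl hO
  | one => simp
  | prime p hp => exact jacobiSym.mod_left' (h p hp dvd_rfl)
  | mul u v hu hv =>
    have u0 : u ≠ 0 := left_ne_zero_of_mul hO
    have v0 : v ≠ 0 := right_ne_zero_of_mul hO
    rw [jacobiSym.mul_right' a u0 v0, jacobiSym.mul_right' b u0 v0,
      hu u0 fun p hp hd => h p hp (hd.mul_right _), hv v0 fun p hp hd => h p hp (hd.mul_left _)]

/-- `2 w ^ 2 O = 4` modulo `r = 5 mod 8` is impossible when `O = 1 mod 4` has all its primes in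
`r + 1`. -/
lemma jac_kill {r w O : ℕ} (hr : r % 8 = 5) (hO : O % 4 = 1)
    (hp : ∀ p : ℕ, p.Prime → p ∣ O → p ∣ r + 1)
    (h : (r : ℤ) ∣ 2 * ((w : ℤ) ^ 2 * O) - 4) : False := by
  have ro : Odd r := Nat.odd_iff.2 (by omega)
  have Oo : Odd O := Nat.odd_iff.2 (by omega)
  have j1 : jacobiSym (2 * ((w : ℤ) ^ 2 * O)) r = 1 := by
    rw [jacobiSym.mod_left' (a₂ := 4) ((Int.modEq_iff_dvd.2 h).symm), jacobiSym.at_four ro]
  have j2 : jacobiSym 2 r = -1 := by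
    rw [jacobiSym.at_two ro, ZMod.χ₈_nat_eq_if_mod_eight]
    have : r % 2 = 1 := by omega
    simp [this, hr]
  have j3 : jacobiSym (O : ℤ) r = 1 := by
    rw [jacobiSym.quadratic_reciprocity_one_mod_four hO ro,
      jac_congr (r : ℤ) (-1) O (by omega) fun p pp hd => ?_, jacobiSym.at_neg_one Oo,
      ZMod.χ₄_nat_one_mod_four hO]
    refine (Int.modEq_iff_dvd.2 ?_).symm
    have := Int.natCast_dvd_natCast.2 (hp p pp hd)
    push_cast at this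
    simpa using this
  rw [jacobiSym.mul_left, jacobiSym.mul_left, j2, j3, jacobiSym.pow_left] at j1
  nlinarith [sq_nonneg (jacobiSym (w : ℤ) r)]

lemma arith2 {q s x n V : ℕ} (hq : ¬ IsPrimePow q) (hq6 : 6 ≤ q) (hs : 2 ≤ s)
    (e1 : 4 * x + 2 * s + q = q * s ^ 2 + 6)
    (e2 : 4 * ((q : ℤ) - 1) * ((n : ℤ) - 2) = (q : ℤ) ^ 2 * ((s : ℤ) ^ 2 - 1))
    (e3 : x * (x + s) ∣ 2 * q ^ n) (rad : ∀ p : ℕ, p.Prime → p ∣ s → p ∣ 2 * q)
    (hV : q ^ 2 * (x * (x + s)) = 2 * V)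
    (hall : ∀ p : ℕ, p.Prime → 5 ≤ p → p ∣ q → p ∣ s → p ∣ x * (x + s)) :
    3 ∣ s ∧ ((q % 24 = 18 ∧ V % 4 = 2) ∨
      ∃ k m : ℕ, 1 ≤ k ∧ k = padicValNat 3 (q * (q - 6)) ∧ V = 9 ^ k * (3 * m + 2)) := by
  have hq2 : 2 ≤ q := by omega
  obtain ⟨d, rfl⟩ : ∃ d, q = d + 6 := ⟨q - 6, by omega⟩
  have hx : 3 * d + 20 ≤ 4 * x := by nlinarith [Nat.mul_le_mul hs hs]
  obtain ⟨X, σ, hc, hX, hσ⟩ := Nat.exists_coprime x s
  generalize Nat.gcd x s = g at hX hσ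
  have g0 : g ≠ 0 := by rintro rfl; omega
  have nX : ∀ p : ℕ, p.Prime → p ∣ σ → ¬ p ∣ X := fun p hp h1 h2 =>
    hp.one_lt.ne' (Nat.eq_one_of_dvd_coprimes hc h2 h1)
  have e1' : 4 * x + 2 * s + d = (d + 6) * s * s := by nlinarith
  have gd : ∀ m, m ∣ x → m ∣ s → m ∣ d := fun m h1 h2 => by
    have h3 : m ∣ 4 * x + 2 * s + d := by
      rw [e1']
      exact h2.mul_left _
    exact (Nat.dvd_add_right (dvd_add (h1.mul_left 4) (h2.mul_left 2))).1 h3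
  by_cases n3 : 3 ∣ σ
  · have p3 := Nat.prime_three
    have : Fact (Nat.Prime 3) := ⟨p3⟩
    have q3 : 3 ∣ d + 6 := by have := rad 3 p3 (hσ ▸ n3.mul_right _); omega
    obtain ⟨c, g', n1, rfl⟩ := Nat.exists_eq_pow_mul_and_not_dvd g0 3 (by omega)
    obtain ⟨e, q', n2, hq'⟩ := Nat.exists_eq_pow_mul_and_not_dvd (n := d + 6) (by omega) 3 (by omega)
    have e0 : 1 ≤ e := by
      rcases e with _ | e
      · simp at hq'; exact absurd (hq' ▸ q3) n2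
      · omega
    obtain ⟨d', hd'⟩ : 3 ^ c ∣ d :=
      gd _ (hX ▸ (Dvd.intro _ rfl).mul_left _) (hσ ▸ (Dvd.intro _ rfl).mul_left _)
    obtain ⟨t, rfl⟩ := n3
    have n4 : ¬ 3 ∣ d' := by
      rintro ⟨u, rfl⟩
      have h1 : 3 ^ c * (4 * (X * g') + 3 * (2 * t * g' + u)) =
          3 ^ c * (3 * ((d + 6) * t * g' * s)) := by
        calc _ = 4 * x + 2 * s + d := by rw [hX, hσ, hd']; ring
          _ = (d + 6) * s * s := e1'
          _ = (d + 6) * (3 * t * (3 ^ c * g')) * s := by rw [← hσ]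
          _ = _ := by ring
      have h2 := Nat.eq_of_mul_eq_mul_left (by positivity) h1
      have h3 : 3 ∣ X * g' := by omega
      exact (p3.dvd_mul.1 h3).elim (nX 3 p3 ⟨t, rfl⟩) n1
    have n5 : ¬ 3 ∣ q' * d' := fun h => (p3.dvd_mul.1 h).elim n2 n4
    have hk : padicValNat 3 ((d + 6) * (d + 6 - 6)) = e + c := by
      have h1 : (d + 6) * (d + 6 - 6) = 3 ^ (e + c) * (q' * d') := by
        rw [Nat.add_sub_cancel, hq']; conv_lhs => rw [hd']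
        ring
      have h2 : q' * d' ≠ 0 := fun h => n5 (h ▸ dvd_zero 3)
      rw [h1, padicValNat.mul (by positivity) h2, padicValNat.prime_pow,
        padicValNat.eq_zero_of_not_dvd n5, add_zero]
    have hW : (d + 6) ^ 2 * (x * (x + s)) =
        9 ^ (e + c) * ((q' * g' * X) ^ 2 + 3 * ((q' * g') ^ 2 * X * t)) := by
      rw [hq', hX, hσ, show (9 : ℕ) = 3 ^ 2 by norm_num, ← pow_mul]; ring
    have v1 := sq3 (u := q' * g' * X) fun h => (p3.dvd_mul.1 h).elim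
      (fun h => (p3.dvd_mul.1 h).elim n2 n1) (nX 3 p3 ⟨t, rfl⟩)
    have v2 : 2 ∣ (q' * g' * X) ^ 2 + 3 * ((q' * g') ^ 2 * X * t) := by
      have h1 : 2 ∣ (d + 6) ^ 2 * (x * (x + s)) := ⟨V, hV⟩
      rw [hW] at h1
      exact (Nat.Coprime.pow_right _ (by norm_num)).dvd_of_dvd_mul_left h1
    obtain ⟨w, hw⟩ := v2
    refine ⟨hσ ▸ (Dvd.intro _ rfl).mul_right _,
      Or.inr ⟨e + c, w / 3, by omega, hk.symm, Nat.eq_of_mul_eq_mul_left two_pos ?_⟩⟩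
    rw [← hV, hW, hw, show 3 * (w / 3) + 2 = w by omega]; ring
  have big : ∀ p : ℕ, p.Prime → p ∣ s → p = 2 ∨ p = 3 := fun p hp h2 => by
    by_contra! hne
    have h1 : 5 ≤ p := by
      have := hp.two_le
      have : p ≠ 4 := by rintro rfl; norm_num at hp
      omega
    have h3 : p ∣ d + 6 := (hp.dvd_mul.1 (rad p hp h2)).resolve_left fun h => by
      have := Nat.le_of_dvd two_pos h
      omega
    have h5 : p ∣ x :=
      (hp.dvd_mul.1 (hall p hp h1 h3 h2)).elim id fun h => (Nat.dvd_add_left h2).1 h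
    have h6 : p ∣ 2 * 3 := (Nat.dvd_add_right (gd p h5 h2)).1 h3
    rcases hp.dvd_mul.1 h6 with h | h <;> have := Nat.le_of_dvd (by norm_num) h <;> omega
  obtain ⟨ν0, hν0⟩ : ((d : ℤ) + 5) ∣ (s : ℤ) ^ 2 - 1 := by
    have h1 : ((d : ℤ) + 5) ∣ ((d : ℤ) + 6) ^ 2 * ((s : ℤ) ^ 2 - 1) := by
      refine ⟨4 * ((n : ℤ) - 2), ?_⟩
      push_cast at e2
      linear_combination -e2
    have h2 : IsCoprime ((d : ℤ) + 5) ((d : ℤ) + 6) := ⟨-1, 1, by ring⟩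
    exact (h2.pow_right (n := 2)).dvd_of_dvd_mul_left h1
  by_cases n4 : 4 ∣ σ
  · obtain ⟨t, ht⟩ := n4
    have p2 := Nat.prime_two
    have h2 : 2 ∣ σ := ⟨2 * t, by omega⟩
    have oX := nX 2 p2 h2
    have v0 : 4 * x + 8 * (t * g) + d = 16 * ((d + 6) * (t * g) ^ 2) := by
      rw [hσ, ht] at e1; linarith
    have hs4 : s = 4 * (t * g) := by rw [hσ, ht]; ring
    by_cases h5 : ¬ 2 ∣ x
    · have s3 : 3 ∣ s := by
        by_contra s3
        have h3 := Nat.eq_prime_pow_of_unique_prime_dvd (n := s) (p := 2) (by omega)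
          fun {p} hp h => (big p hp h).resolve_right fun h3 => s3 (h3 ▸ h)
        generalize s.primeFactorsList.length = i at h3
        refine PowTwo.odd_pow (i := i) ?_ h3 e1 e3 h5
        rcases i with _ | _ | i <;> omega
      have q3 := rad 3 Nat.prime_three s3
      obtain ⟨u, hu⟩ : ∃ u, d + 6 = 2 * (2 * u + 1) := ⟨(d + 4) / 4, by omega⟩
      have o1 : Odd ((2 * u + 1) ^ 2 * (x * (x + s))) :=
        (odd_two_mul_add_one u).pow.mul
          ((Nat.odd_iff.2 (by omega)).mul (Nat.odd_iff.2 (by omega)))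
      have o2 : V = 2 * ((2 * u + 1) ^ 2 * (x * (x + s))) := by rw [hu] at hV; linarith
      have o3 := Nat.odd_iff.1 o1
      exact ⟨s3, Or.inl ⟨by omega, by omega⟩⟩
    rw [not_not] at h5
    exfalso
    have h6 : 2 ∣ g := (p2.dvd_mul.1 (hX ▸ h5)).resolve_left oX
    have h7 : 2 ∣ t * g := h6.mul_left _
    have v1 := sq4 (u := X) oX
    have hxy : x * (x + s) = g ^ 2 * (X ^ 2 + 4 * (X * t)) := by rw [hX, hσ, ht]; ring
    refine jac_kill (r := d + 5) (w := g) (O := X ^ 2 + 4 * (X * t)) (by omega) (by omega)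
      (fun p hp hd => ?_) ?_
    · have h8 : p ∣ 2 * (d + 6) ^ n := (hd.mul_left _).trans (hxy ▸ e3)
      rcases hp.dvd_mul.1 h8 with h | h
      · obtain rfl := (Nat.prime_dvd_prime_iff_eq hp p2).1 h
        omega
      · exact hp.dvd_of_dvd_pow h
    · have h8 : IsCoprime ((d : ℤ) + 5) 2 := by
        obtain ⟨u, hu⟩ : ∃ u, d = 2 * u := ⟨d / 2, by omega⟩
        exact ⟨1, -((u : ℤ) + 2), by rw [hu]; push_cast; ring⟩
      have h9 : ((g : ℤ) ^ 2 * ((X ^ 2 + 4 * (X * t) : ℕ) : ℤ)) = (x : ℤ) * (x + s) := by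
        exact_mod_cast hxy.symm
      rw [h9]
      have e1z : 4 * (x : ℤ) + 2 * s + (d + 6) = (d + 6) * s ^ 2 + 6 := by exact_mod_cast e1
      have hx4 : 4 * (x : ℤ) = (d + 6) * ((d + 5) * ν0) + 6 - 2 * s := by
        rw [← hν0]; linarith
      push_cast
      refine (h8.pow_right (n := 3)).dvd_of_dvd_mul_left
        ⟨ν0 * ((d + 6) ^ 2 * (d + 5) * ν0 + 12 * (d + 6) - 4), ?_⟩
      linear_combination (4 * (x : ℤ) + (d + 6) * ((d + 5) * ν0) + 6 + 2 * s) * hx4 - 4 * hν0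
  exfalso
  have hσ2 : σ ∣ 2 := (Nat.dvd_iff_prime_pow_dvd_dvd _ _).2 fun p k hp hk => by
    rcases k with _ | k
    · simp
    have h1 : p ∣ σ := (dvd_pow_self p k.succ_ne_zero).trans hk
    rcases big p hp (hσ ▸ h1.mul_right _) with rfl | rfl
    · rcases k with _ | k
      · simp
      · exact absurd ((pow_dvd_pow 2 (by omega : 2 ≤ k + 1 + 1)).trans hk) n4
    · exact absurd h1 n3
  rcases (Nat.dvd_prime Nat.prime_two).1 hσ2 with rfl | rfl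
  · have := Tr.finish hq hq2 le_rfl hs e1 e2 e3 ⟨X, by rw [hX, hσ]; ring⟩
    omega
  have o1 := nX 2 Nat.prime_two dvd_rfl
  obtain ⟨t, ht⟩ : 4 * g ∣ d := by
    refine (Nat.dvd_add_right (a := 4 * g) (b := 4 * x + 2 * s) ⟨X + 1, by rw [hX, hσ]; ring⟩).1
      ⟨(d + 6) * g, ?_⟩
    rw [hσ] at e1 ⊢; linarith
  have o2 : X + 1 + t = 2 * ((2 * g * t + 3) * g) := by
    refine Nat.eq_of_mul_eq_mul_left (show 0 < 4 * g by omega) ?_
    rw [hX, hσ, ht] at e1; linarith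
  obtain ⟨t, rfl⟩ : 2 ∣ t := by omega
  rcases Nat.eq_zero_or_pos t with rfl | t0
  · obtain rfl : d = 0 := by omega
    exact Tr.six hs (by simpa using e1) (by simpa using e3)
  obtain ⟨ν, hν⟩ : ((d : ℤ) + 5) ∣ (s : ℤ) ^ 2 - 1 := by
    have h1 : ((d : ℤ) + 5) ∣ ((d : ℤ) + 6) ^ 2 * ((s : ℤ) ^ 2 - 1) := by
      refine ⟨4 * ((n : ℤ) - 2), ?_⟩
      push_cast at e2
      linear_combination -e2
    have h2 : IsCoprime ((d : ℤ) + 5) ((d : ℤ) + 6) := ⟨-1, 1, by ring⟩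
    exact (h2.pow_right (n := 2)).dvd_of_dvd_mul_left h1
  have hd : (d : ℤ) = 4 * s * t := by rw [ht, hσ]; push_cast; ring
  have hs' : (2 : ℤ) ≤ s := by exact_mod_cast hs
  have t1 : (1 : ℤ) ≤ t := by exact_mod_cast t0
  have d0 : (8 : ℤ) ≤ d := by nlinarith
  have hν1 : 1 ≤ ν := by
    by_contra h
    nlinarith [mul_nonneg (by linarith : (0 : ℤ) ≤ d + 5) (by linarith : 0 ≤ -ν)]
  have k1 : (d : ℤ) + 5 ∣ 16 * t ^ 2 - 25 :=
    ⟨(d - 5) - 16 * ν * t ^ 2, by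
      linear_combination (-16 * (t : ℤ) ^ 2) * hν - ((d : ℤ) + 4 * s * t) * hd⟩
  have k2 : 16 * (t : ℤ) ^ 2 < d := by
    by_contra! k2
    have : (d : ℤ) + 6 ≤ s ^ 2 := by nlinarith
    nlinarith [mul_le_mul this k2 (by linarith) (by positivity)]
  rcases t1.eq_or_lt with t2 | t2
  · rw [← t2] at k1
    have := Int.le_of_dvd (by norm_num) ((dvd_neg).2 k1)
    linarith
  · have := Int.le_of_dvd (by nlinarith) k1
    linarith

lemma arith {q s x n V : ℕ} (hq : ¬ IsPrimePow q) (hq6 : 6 ≤ q) (hs : 2 ≤ s)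
    (e1 : 4 * x + 2 * s + q = q * s ^ 2 + 6)
    (e2 : 4 * ((q : ℤ) - 1) * ((n : ℤ) - 2) = (q : ℤ) ^ 2 * ((s : ℤ) ^ 2 - 1))
    (e3 : x * (x + s) ∣ 2 * q ^ n) (rad : ∀ p : ℕ, p.Prime → p ∣ s → p ∣ 2 * q)
    (hV : q ^ 2 * (x * (x + s)) = 2 * V)
    (hall : ∀ p : ℕ, p.Prime → 5 ≤ p → p ∣ q → p ∣ x * (x + s)) :
    (q % 24 = 18 ∧ V % 4 = 2) ∨
      ∃ k m : ℕ, 1 ≤ k ∧ k = padicValNat 3 (q * (q - 6)) ∧ V = 9 ^ k * (3 * m + 2) :=
  (arith2 hq hq6 hs e1 e2 e3 rad hV fun p hp h1 h2 _ => hall p hp h1 h2).2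

/-- The difference of the two roots is never a power of two. -/
lemma not_pow_two {q s x n V i : ℕ} (hq : ¬ IsPrimePow q) (hq6 : 6 ≤ q) (hs : 2 ≤ s)
    (e1 : 4 * x + 2 * s + q = q * s ^ 2 + 6)
    (e2 : 4 * ((q : ℤ) - 1) * ((n : ℤ) - 2) = (q : ℤ) ^ 2 * ((s : ℤ) ^ 2 - 1))
    (e3 : x * (x + s) ∣ 2 * q ^ n) (rad : ∀ p : ℕ, p.Prime → p ∣ s → p ∣ 2 * q)
    (hV : q ^ 2 * (x * (x + s)) = 2 * V) (hi : s = 2 ^ i) : False := by
  have h := (arith2 hq hq6 hs e1 e2 e3 rad hV fun p hp h1 _ h2 => by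
    have := Nat.le_of_dvd two_pos (hp.dvd_of_dvd_pow (hi ▸ h2))
    omega).1
  have := Nat.prime_three.dvd_of_dvd_pow (hi ▸ h)
  omega

end Pool.Agent.Lib.MP_68c55c_lc.Jac
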