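import Pool.Agent.Lib.MP_68c55c_lc.Count

/-!
Counting tools: a bipartite bound from codegrees, square classes, and the divisor bound.
-/

set_option autoImplicit false

namespace Pool.Agent.Lib.MP_68c55c_lc.Kst

open Finset

open Classical in
theorem kst {α β γ : Type} (F : Finset α) (row : α → β) (col : α → γ) (Rw : Finset β)
    (Cl : Finset γ) (hrow : ∀ a ∈ F, row a ∈ Rw) (hcol : ∀ a ∈ F, col a ∈ Cl)
    (inj : ∀ a ∈ F, ∀ b ∈ F, row a = row b → col a = col b → a = b) (M : ℕ)
    (hM : ∀ r r', r ≠ r' →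
      (F.filter fun a => row a = r ∧ ∃ b ∈ F, row b = r' ∧ col b = col a).card ≤ M) :
    (F.card : ℝ) ≤ Cl.card + Rw.card * √(M * Cl.card) := by
  let P : Finset (α × α) := (F ×ˢ F).filter fun w => col w.1 = col w.2
  have h1 : F.card = ∑ c ∈ Cl, (F.filter fun a => col a = c).card :=
    card_eq_sum_card_fiberwise hcol
  have h2 : P.card = ∑ c ∈ Cl, (F.filter fun a => col a = c).card ^ 2 := by
    rw [card_eq_sum_card_fiberwise (f := fun w => col w.1) (t := Cl)
      (fun w hw => hcol _ (mem_product.1 (mem_filter.1 hw).1).1)]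
    refine sum_congr rfl fun c _ => ?_
    rw [sq, ← card_product]
    congr 1
    ext w
    simp only [mem_filter, mem_product, P]
    constructor
    · rintro ⟨⟨⟨a, b⟩, h⟩, h'⟩
      exact ⟨⟨a, h'⟩, b, h ▸ h'⟩
    · rintro ⟨⟨a, h⟩, b, h'⟩
      exact ⟨⟨⟨a, b⟩, h.trans h'.symm⟩, h⟩
  have h3 : F.card ^ 2 ≤ Cl.card * P.card := by
    rw [h1, h2]
    exact sq_sum_le_card_mul_sum_sq
  have h4 : P.card ≤ F.card + Rw.card ^ 2 * M := by
    rw [← card_filter_add_card_filter_not (s := P) (fun w => row w.1 = row w.2)]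
    refine add_le_add ?_ ?_
    · refine card_le_card_of_injOn (fun w => w.1)
        (fun w hw => (mem_product.1 (mem_filter.1 (mem_filter.1 hw).1).1).1) ?_
      intro w hw w' hw' he
      obtain ⟨a1, a2⟩ := mem_filter.1 (mem_coe.1 hw)
      obtain ⟨a3, a4⟩ := mem_filter.1 a1
      obtain ⟨b1, b2⟩ := mem_filter.1 (mem_coe.1 hw')
      obtain ⟨b3, b4⟩ := mem_filter.1 b1
      have e1 := inj _ (mem_product.1 a3).1 _ (mem_product.1 a3).2 a2 a4
      have e2 := inj _ (mem_product.1 b3).1 _ (mem_product.1 b3).2 b2 b4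
      exact Prod.ext he (e1.symm.trans (he.trans e2))
    · rw [card_eq_sum_card_fiberwise (f := fun w => (row w.1, row w.2)) (t := Rw ×ˢ Rw)
        (fun w hw => by
          have := mem_product.1 (mem_filter.1 (mem_filter.1 (mem_coe.1 hw)).1).1
          exact mem_coe.2 (mem_product.2 ⟨hrow _ this.1, hrow _ this.2⟩)),
        sq, ← card_product, ← smul_eq_mul]
      refine sum_le_card_nsmul _ _ _ fun t _ => ?_
      by_cases ht : t.1 = t.2
      · rw [card_eq_zero.2]
        · exact Nat.zero_le _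
        · refine filter_eq_empty_iff.2 fun w hw he => (mem_filter.1 hw).2 ?_
          rw [← he] at ht
          exact ht
      · refine le_trans (card_le_card_of_injOn (fun w => w.1) ?_ ?_) (hM t.1 t.2 ht)
        · intro w hw
          obtain ⟨a0, a1⟩ := mem_filter.1 (mem_coe.1 hw)
          obtain ⟨a3, a4⟩ := mem_filter.1 (mem_filter.1 a0).1
          refine mem_coe.2 (mem_filter.2 ⟨(mem_product.1 a3).1, congrArg Prod.fst a1,
            w.2, (mem_product.1 a3).2, congrArg Prod.snd a1, a4.symm⟩)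
        · intro w hw w' hw' he
          obtain ⟨a0, a1⟩ := mem_filter.1 (mem_coe.1 hw)
          obtain ⟨a3, a4⟩ := mem_filter.1 (mem_filter.1 a0).1
          obtain ⟨b0, b1⟩ := mem_filter.1 (mem_coe.1 hw')
          obtain ⟨b3, b4⟩ := mem_filter.1 (mem_filter.1 b0).1
          refine Prod.ext he (inj _ (mem_product.1 a3).2 _ (mem_product.1 b3).2
            ((congrArg Prod.snd a1).trans (congrArg Prod.snd b1).symm) ?_)
          rw [← a4, ← b4]
          exact congrArg col he
  have h5 : (F.card : ℝ) ^ 2 ≤ Cl.card * (F.card + Rw.card ^ 2 * M) := by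
    exact_mod_cast h3.trans (Nat.mul_le_mul_left _ h4)
  have h6 : √((M : ℝ) * Cl.card) ^ 2 = M * Cl.card := Real.sq_sqrt (by positivity)
  have h7 : 0 ≤ (Rw.card : ℝ) * √(M * Cl.card) := by positivity
  have h8 : ((Rw.card : ℝ) * √(M * Cl.card)) ^ 2 = Cl.card * (Rw.card ^ 2 * M) := by
    rw [mul_pow, h6]; ring
  have h9 : (0 : ℝ) ≤ Cl.card := by positivity
  generalize (Rw.card : ℝ) * √(M * Cl.card) = t at h7 h8 ⊢
  rw [mul_add, ← h8] at h5
  by_contra h
  push Not at h
  nlinarith

theorem even_fact {a b : ℕ} (ha : a ≠ 0) (hb : b ≠ 0) (h : IsSquare (a * b)) (p : ℕ) :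
    (a.factorization p + b.factorization p) % 2 = 0 := by
  obtain ⟨r, hr⟩ := h
  have hr0 : r ≠ 0 := by
    rintro rfl
    exact mul_ne_zero ha hb hr
  have := congrArg (fun m => m.factorization p) hr
  simp only [Nat.factorization_mul ha hb, Nat.factorization_mul hr0 hr0, Finsupp.add_apply] at this
  omega

theorem sqclass_par (f : ℕ → ℕ) (M : ℕ) (G : Finset ℕ)
    (hG : ∀ q ∈ G, q ≠ 0 ∧ (∀ p, (q.factorization p + f p) % 2 = 0) ∧
      ∃ k m, Squarefree k ∧ q = k * m ^ 2 ∧ M ≤ m ∧ m < 2 * M) : G.card ≤ M := by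
  choose! h0 h1 k m h2 h3 h4 h5 using hG
  have hc : (Ico M (2 * M)).card = M := by rw [Nat.card_Ico]; omega
  rw [← hc]
  refine card_le_card_of_injOn m (fun q hq => mem_coe.2 (mem_Ico.2 ⟨h4 q hq, h5 q hq⟩)) ?_
  have key : ∀ q ∈ G, ∀ p, ((k q).factorization p + f p) % 2 = 0 ∧ (k q).factorization p ≤ 1 := by
    intro q hq p
    have hm : m q ≠ 0 := by
      intro h
      have := h3 q hq
      rw [h] at this
      exact h0 q hq (by simpa using this)
    have e := congrArg (fun m => m.factorization p) (h3 q hq)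
    simp only [Nat.factorization_mul (h2 q hq).ne_zero (pow_ne_zero 2 hm), Nat.factorization_pow,
      Finsupp.add_apply, Finsupp.smul_apply, smul_eq_mul] at e
    have := h1 q hq p
    exact ⟨by omega, (h2 q hq).natFactorization_le_one p⟩
  intro q hq q' hq' he
  have hk : k q = k q' := Nat.eq_of_factorization_eq (h2 q hq).ne_zero (h2 q' hq').ne_zero
    fun p => by
      have a := key q hq p
      have b := key q' hq' p
      omega
  rw [h3 q hq, h3 q' hq', hk, he]

theorem sqclass {q0 : ℕ} (hq0 : q0 ≠ 0) (M : ℕ) (G : Finset ℕ)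
    (hG : ∀ q ∈ G, q ≠ 0 ∧ IsSquare (q * q0) ∧
      ∃ k m, Squarefree k ∧ q = k * m ^ 2 ∧ M ≤ m ∧ m < 2 * M) : G.card ≤ M :=
  sqclass_par q0.factorization M G fun q hq =>
    ⟨(hG q hq).1, even_fact (hG q hq).1 hq0 (hG q hq).2.1, (hG q hq).2.2⟩

theorem divb {δ : ℝ} (hδ : 0 < δ) : ∃ C : ℝ, 0 ≤ C ∧ ∀ m W : ℕ, m ≠ 0 → m ≤ 2 ^ W →
    (m.divisors.card : ℝ) ≤ C * Real.exp (2 * δ * W) := by
  have hz1 : Real.exp (-δ) < 1 := Real.exp_lt_one_iff.2 (by linarith)
  have hz0 := Real.exp_pos (-δ)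
  obtain ⟨C1, hC1⟩ := pow_card_le (c := (1 - Real.exp (-δ))⁻¹)
    ((one_le_inv₀ (by linarith)).2 (by linarith)) hδ
  have hC0 : 0 ≤ C1 := by
    have := hC1 1 one_ne_zero
    simp at this
    linarith
  refine ⟨C1, hC0, fun m W hm hW => ?_⟩
  have h1 : m.divisors.card ≤ (box m.primeFactors W).card := by
    refine card_le_card_of_injOn (fun d => fun p : m.primeFactors => d.factorization p) ?_ ?_
    · intro d hd
      have hd' := Nat.dvd_of_mem_divisors (mem_coe.1 hd)
      have hd0 : d ≠ 0 := ne_zero_of_dvd_ne_zero hm hd'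
      refine mem_coe.2 (mem_box (fun p => d.factorization p) ?_)
      have h2 : 2 ^ (∑ p ∈ m.primeFactors, d.factorization p) ≤ 2 ^ W := by
        refine le_trans ?_ ((Nat.le_of_dvd (Nat.pos_of_ne_zero hm) hd').trans hW)
        rw [← prod_pow_eq_pow_sum]
        conv_rhs => rw [eq_prod hd0 (Nat.primeFactors_mono hd' hm)]
        exact prod_le_prod' fun p hp =>
          Nat.pow_le_pow_left (Nat.prime_of_mem_primeFactors hp).two_le _
      exact (Nat.pow_le_pow_iff_right (by norm_num)).1 h2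
    · intro d hd d' hd' he
      have a := Nat.dvd_of_mem_divisors (mem_coe.1 hd)
      have b := Nat.dvd_of_mem_divisors (mem_coe.1 hd')
      rw [eq_prod (ne_zero_of_dvd_ne_zero hm a) (Nat.primeFactors_mono a hm),
        eq_prod (ne_zero_of_dvd_ne_zero hm b) (Nat.primeFactors_mono b hm)]
      exact prod_congr rfl fun p hp => congrArg (p ^ ·) (congrFun he ⟨p, hp⟩)
  have a6 : Real.log (m : ℝ) ≤ W := by
    have b1 : (m : ℝ) ≤ 2 ^ W := by exact_mod_cast hW
    refine (Real.log_le_log (by positivity) b1).trans ?_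
    rw [Real.log_pow]
    have := Real.log_two_lt_d9
    exact mul_le_of_le_one_right (by positivity) (by linarith)
  calc (m.divisors.card : ℝ) ≤ (box m.primeFactors W).card := by exact_mod_cast h1
    _ ≤ _ := card_box _ _ hδ
    _ ≤ Real.exp (δ * W) * (C1 * Real.exp (δ * W)) := by
        gcongr
        exact (hC1 _ hm).trans (by gcongr)
    _ = _ := by
        rw [mul_left_comm, ← Real.exp_add]
        congr 2
        ring

end Pool.Agent.Lib.MP_68c55c_lc.Kst
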