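import Mathlib

/-!
Lloyd's theorem for perfect 2-error-correcting codes, with an integrality condition on the dual
distance distribution.
-/

set_option autoImplicit false

namespace Pool.Agent.Lib.MP_68c55c_lc

open Finset Polynomial

/-- Sum of the three lowest coefficients. -/
noncomputable def low : ℤ[X] →ₗ[ℤ] ℤ := lcoeff ℤ 0 + lcoeff ℤ 1 + lcoeff ℤ 2

lemma low_apply (P : ℤ[X]) : low P = P.coeff 0 + P.coeff 1 + P.coeff 2 := by
  simp [low]

lemma low_X_pow (d : ℕ) (r : ℤ) : low (X ^ d * C r) = if d ≤ 2 then r else 0 := by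
  rw [low_apply, X_pow_mul_C]
  simp only [coeff_C_mul, coeff_X_pow]
  by_cases h : d ≤ 2
  · interval_cases d <;> simp
  · rw [if_neg h, if_neg (by omega), if_neg (by omega), if_neg (by omega)]; simp

lemma coeff_prod_lin {ι : Type} [DecidableEq ι] (a : ι → ℤ) (T : Finset ι) :
    (∏ t ∈ T, (1 + C (a t) * X : ℤ[X])).coeff 0 = 1 ∧
    (∏ t ∈ T, (1 + C (a t) * X : ℤ[X])).coeff 1 = ∑ t ∈ T, a t ∧
    2 * (∏ t ∈ T, (1 + C (a t) * X : ℤ[X])).coeff 2 =
      (∑ t ∈ T, a t) ^ 2 - ∑ t ∈ T, a t ^ 2 := by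
  induction T using Finset.induction_on with
  | empty => simp [coeff_one]
  | insert t T ht ih =>
    obtain ⟨h0, h1, h2⟩ := ih
    rw [prod_insert ht, sum_insert ht, sum_insert ht]
    set P := ∏ t ∈ T, (1 + C (a t) * X : ℤ[X])
    have e : (1 + C (a t) * X : ℤ[X]) * P = P + C (a t) * (X * P) := by ring
    rw [e]
    simp only [coeff_add, coeff_C_mul]
    have c1 : (X * P).coeff 1 = P.coeff 0 := coeff_X_mul P 0
    have c2 : (X * P).coeff 2 = P.coeff 1 := coeff_X_mul P 1
    rw [coeff_X_mul_zero, c1, c2, h0, h1]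
    refine ⟨by ring, by ring, by linear_combination h2⟩

variable {q n : ℕ}

/-- The basic function on letters. -/
def hh (c0 : Fin n → Fin q) (t : Fin n) (a : Fin q) : ℤ := if a = c0 t then (q : ℤ) - 1 else -1

lemma sum_hh (c0 : Fin n → Fin q) (t : Fin n) : ∑ a, hh c0 t a = 0 := by
  have : ∀ a, hh c0 t a = (if a = c0 t then (q : ℤ) else 0) - 1 := by
    intro a; unfold hh; split_ifs <;> simp
  simp [this, sum_sub_distrib]

/-- The product function attached to a set of coordinates. -/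
def chi (c0 : Fin n → Fin q) (S : Finset (Fin n)) (x : Fin n → Fin q) : ℤ :=
  ∏ t ∈ S, hh c0 t (x t)

lemma chi_eq (c0 : Fin n → Fin q) (S : Finset (Fin n)) (x : Fin n → Fin q) :
    chi c0 S x = ∏ t, if t ∈ S then hh c0 t (x t) else 1 := by
  rw [chi, prod_ite_mem, univ_inter]

lemma X_pow_dist (x c : Fin n → Fin q) :
    (X : ℤ[X]) ^ hammingDist x c = ∏ t, if x t = c t then 1 else X := by
  rw [prod_ite, prod_const_one, one_mul, prod_const, hammingDist]

lemma sum_ball_poly (c0 c : Fin n → Fin q) (S : Finset (Fin n)) :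
    ∑ x : Fin n → Fin q, (X : ℤ[X]) ^ hammingDist x c * C (chi c0 S x) =
      C (chi c0 S c) * ∏ t, (1 + C (if t ∈ S then (-1 : ℤ) else (q : ℤ) - 1) * X) := by
  have h1 : ∀ x : Fin n → Fin q, (X : ℤ[X]) ^ hammingDist x c * C (chi c0 S x) =
      ∏ t, ((if x t = c t then 1 else X) * C (if t ∈ S then hh c0 t (x t) else 1)) := by
    intro x
    rw [X_pow_dist, chi_eq, map_prod, prod_mul_distrib]
  simp only [h1]
  rw [← Fintype.piFinset_univ, ← prod_univ_sum (fun _ => univ)
    (fun t a => ((if a = c t then 1 else X) * C (if t ∈ S then hh c0 t a else 1) : ℤ[X])),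
    chi_eq, map_prod, ← prod_mul_distrib]
  refine prod_congr rfl fun t _ => ?_
  have h2 : ∀ a : Fin q, ((if a = c t then 1 else X) * C (if t ∈ S then hh c0 t a else 1) : ℤ[X])
      = X * C (if t ∈ S then hh c0 t a else 1) +
        (if a = c t then (1 - X) * C (if t ∈ S then hh c0 t a else 1) else 0) := by
    intro a; split_ifs <;> ring
  simp only [h2]
  rw [sum_add_distrib, sum_ite_eq', if_pos (mem_univ _), ← mul_sum, ← map_sum]
  by_cases ht : t ∈ S
  · simp only [if_pos ht, sum_hh]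
    simp; ring
  · simp only [if_neg ht]
    simp; ring

/-- Twice the Lloyd polynomial. -/
def LL (q n i : ℤ) : ℤ :=
  2 + 2 * ((n - i) * (q - 1) - i) + ((n - i) * (q - 1) - i) ^ 2 - (i + (n - i) * (q - 1) ^ 2)

lemma sum_ite_card (S : Finset (Fin n)) (u v : ℤ) :
    ∑ t : Fin n, (if t ∈ S then u else v) = S.card * u + ((n : ℤ) - S.card) * v := by
  have h : ∀ t : Fin n, (if t ∈ S then u else v) = (if t ∈ S then u - v else 0) + v := by
    intro t; split_ifs <;> ring
  simp only [h, sum_add_distrib, sum_ite_mem, univ_inter, sum_const, card_univ, Fintype.card_fin,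
    nsmul_eq_mul]
  ring

lemma sum_ball (c0 c : Fin n → Fin q) (S : Finset (Fin n)) :
    2 * ∑ x : Fin n → Fin q, (if hammingDist x c ≤ 2 then chi c0 S x else 0) =
      LL q n S.card * chi c0 S c := by
  have h := congrArg low (sum_ball_poly c0 c S)
  rw [map_sum] at h
  simp only [low_X_pow] at h
  rw [h, low_apply]
  simp only [coeff_C_mul]
  obtain ⟨h0, h1, h2⟩ :=
    coeff_prod_lin (fun t : Fin n => if t ∈ S then (-1 : ℤ) else (q : ℤ) - 1) univ
  have h3 : ∑ t : Fin n, (if t ∈ S then (-1 : ℤ) else (q : ℤ) - 1) ^ 2 =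
      ∑ t : Fin n, (if t ∈ S then (1 : ℤ) else ((q : ℤ) - 1) ^ 2) :=
    sum_congr rfl fun t _ => by split_ifs <;> ring
  rw [h3, sum_ite_card, sum_ite_card] at h2
  rw [sum_ite_card] at h1
  rw [h0, h1, LL]
  linear_combination (chi c0 S c) * h2

lemma sum_chi (c0 : Fin n → Fin q) (S : Finset (Fin n)) :
    ∑ x : Fin n → Fin q, chi c0 S x = if S = ∅ then (q : ℤ) ^ n else 0 := by
  split_ifs with h
  · subst h; simp [chi]
  · obtain ⟨t, ht⟩ := nonempty_iff_ne_empty.2 h
    simp only [chi_eq]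
    rw [← Fintype.piFinset_univ, ← prod_univ_sum (fun _ => univ)
      (fun t a => if t ∈ S then hh c0 t a else 1)]
    exact prod_eq_zero (mem_univ t) (by simp only [if_pos ht, sum_hh])

lemma sum_powerset_chi (c0 x : Fin n → Fin q) (T : Finset (Fin n)) :
    ∑ S ∈ T.powerset, chi c0 S x = if ∀ t ∈ T, x t = c0 t then (q : ℤ) ^ T.card else 0 := by
  unfold chi
  rw [← prod_one_add]
  split_ifs with h
  · rw [← prod_const]
    refine prod_congr rfl fun t ht => ?_
    simp [hh, h t ht]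
  · push Not at h
    obtain ⟨t, ht, hx⟩ := h
    exact prod_eq_zero ht (by simp [hh, hx])

section perfect

variable (C : Finset (Fin n → Fin q))
  (hC : ∀ x : Fin n → Fin q, ∃! c : Fin n → Fin q, c ∈ C ∧ hammingDist x c ≤ 2)

include hC

lemma lloyd_eq (c0 : Fin n → Fin q) (S : Finset (Fin n)) :
    LL q n S.card * ∑ c ∈ C, chi c0 S c = if S = ∅ then 2 * (q : ℤ) ^ n else 0 := by
  rw [mul_sum]
  simp only [← sum_ball]
  rw [← mul_sum, sum_comm]
  have : ∀ x : Fin n → Fin q,
      ∑ c ∈ C, (if hammingDist x c ≤ 2 then chi c0 S x else 0) = chi c0 S x := by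
    intro x
    obtain ⟨c, ⟨hc, hd⟩, hu⟩ := hC x
    rw [sum_eq_single_of_mem c hc, if_pos hd]
    intro c' hc' hne
    rw [if_neg]
    intro hd'
    exact hne (hu c' ⟨hc', hd'⟩)
  simp only [this, sum_chi]
  split_ifs <;> simp

lemma sum_face (c0 : Fin n → Fin q) (h0 : c0 ∈ C) (T : Finset (Fin n)) (hT : Tᶜ.card ≤ 2) :
    ∑ S ∈ T.powerset, ∑ c ∈ C, chi c0 S c = (q : ℤ) ^ T.card := by
  rw [sum_comm]
  simp only [sum_powerset_chi]
  rw [sum_eq_single_of_mem c0 h0, if_pos (fun _ _ => rfl)]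
  intro c hc hne
  rw [if_neg]
  intro h
  obtain ⟨c', -, hu⟩ := hC c
  have h1 : hammingDist c c0 ≤ 2 := by
    refine le_trans (card_le_card ?_) hT
    intro t ht
    simp only [mem_filter, mem_univ, true_and] at ht
    rw [mem_compl]
    exact fun h' => ht (h t h')
  exact hne ((hu c ⟨hc, by simp⟩).trans (hu c0 ⟨h0, h1⟩).symm)

lemma sum_weight (c0 : Fin n → Fin q) (h0 : c0 ∈ C) :
    (q : ℤ) * ∑ S : Finset (Fin n), (S.card : ℤ) * ∑ c ∈ C, chi c0 S c =
      n * ((q : ℤ) - 1) * (q : ℤ) ^ n := by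
  have h1 := sum_face C hC c0 h0 univ (by simp)
  rw [powerset_univ, card_univ, Fintype.card_fin] at h1
  have h2 : ∀ t : Fin n, (q : ℤ) * ∑ S : Finset (Fin n),
      (if t ∈ S then 0 else ∑ c ∈ C, chi c0 S c) = (q : ℤ) ^ n := by
    intro t
    have h3 := sum_face C hC c0 h0 (univ.erase t) (by simp [compl_erase])
    rw [card_erase_of_mem (mem_univ t), card_univ, Fintype.card_fin] at h3
    have h4 : (univ.erase t).powerset = univ.filter (fun S : Finset (Fin n) => t ∉ S) := by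
      ext S
      simp [subset_erase]
    rw [h4, sum_filter] at h3
    simp only [ite_not] at h3
    rw [h3]
    have hn : n = (n - 1) + 1 := by have := t.2; omega
    conv_rhs => rw [hn, pow_succ']
  have h5 : ∑ t : Fin n, (q : ℤ) * ∑ S : Finset (Fin n),
      (if t ∈ S then 0 else ∑ c ∈ C, chi c0 S c) = n * (q : ℤ) ^ n := by
    simp only [h2]; simp
  rw [← mul_sum, sum_comm] at h5
  simp only [sum_ite_card, mul_zero, zero_add, sub_mul, sum_sub_distrib] at h5
  rw [← mul_sum, h1] at h5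
  linear_combination -h5

/-- Lloyd's theorem with the integrality of the dual distribution. -/
theorem lloyd (hq : 2 ≤ q) (hn : 2 ≤ n) (V : ℤ) (hV : LL q n 0 = 2 * V) :
    (C.card : ℤ) * V = (q : ℤ) ^ n ∧
    ∃ x y : ℕ, 1 ≤ x ∧ x < y ∧ LL q n x = 0 ∧ LL q n y = 0 ∧
      ((y : ℤ) - x) ∣ C.card * (q * y * (V - 1) - n * (q - 1) * V) := by
  obtain ⟨c0, ⟨h0, -⟩, -⟩ := hC (fun _ => ⟨0, by omega⟩)
  let β : Finset (Fin n) → ℤ := fun S => ∑ c ∈ C, chi c0 S c
  have hβ0 : β ∅ = C.card := by simp [β, chi]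
  have hM : (C.card : ℤ) * V = (q : ℤ) ^ n := by
    have := lloyd_eq C hC c0 ∅
    rw [if_pos rfl, card_empty, Nat.cast_zero, hV] at this
    change 2 * V * β ∅ = _ at this
    rw [hβ0] at this
    linarith
  refine ⟨hM, ?_⟩
  have hL : ∀ S, S ≠ ∅ → β S ≠ 0 → LL q n S.card = 0 := by
    intro S hS hb
    have := lloyd_eq C hC c0 S
    rw [if_neg hS] at this
    exact (mul_eq_zero.1 this).resolve_right hb
  have h1 : ∑ S, β S = (q : ℤ) ^ n := by
    have := sum_face C hC c0 h0 univ (by simp)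
    rwa [powerset_univ, card_univ, Fintype.card_fin] at this
  have h2 : (q : ℤ) * ∑ S : Finset (Fin n), (S.card : ℤ) * β S = n * ((q : ℤ) - 1) * (q : ℤ) ^ n :=
    sum_weight C hC c0 h0
  have h3 : ∀ v : ℤ, (q : ℤ) * ∑ S ∈ univ.erase ∅, ((S.card : ℤ) - v) * β S =
      C.card * (n * (q - 1) * V - q * v * (V - 1)) := by
    intro v
    have h4 := add_sum_erase univ (fun S : Finset (Fin n) => ((S.card : ℤ) - v) * β S)
      (mem_univ ∅)
    simp only [sub_mul, sum_sub_distrib, ← mul_sum, h1, card_empty, hβ0] at h4 ⊢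
    rw [← hM] at h2 h4
    linear_combination (q : ℤ) * h4 + h2
  have hqz : (2 : ℤ) ≤ q := by exact_mod_cast hq
  have hnz : (2 : ℤ) ≤ n := by exact_mod_cast hn
  have hk : (0 : ℤ) < n * (q - 1) := mul_pos (by linarith) (by linarith)
  have hV1 : n * (q - 1) < V - 1 := by
    have : (0 : ℤ) < n * (n - 1) * (q - 1) ^ 2 :=
      mul_pos (mul_pos (by linarith) (by linarith)) (pow_pos (by linarith) 2)
    unfold LL at hV
    nlinarith
  have hcard : (C.card : ℤ) ≠ 0 := by
    have := card_pos.2 ⟨c0, h0⟩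
    omega
  have h5 : ∀ v : ℤ, ∃ S, S ≠ ∅ ∧ (S.card : ℤ) ≠ v ∧ β S ≠ 0 := by
    intro v
    by_contra hcon
    push Not at hcon
    have h6 := h3 v
    rw [sum_eq_zero, mul_zero] at h6
    · have h7 := (mul_eq_zero.1 h6.symm).resolve_left hcard
      have h8 : (V - 1) ∣ n * (q - 1) := ⟨q * v - n * (q - 1), by linear_combination h7⟩
      have := Int.le_of_dvd hk h8
      linarith
    · intro S hS
      by_cases h9 : (S.card : ℤ) = v
      · rw [h9]; simp
      · rw [hcon S (nonempty_iff_ne_empty.2 (ne_of_mem_erase hS)) h9]; simp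
  obtain ⟨S1, hS1, -, hb1⟩ := h5 0
  obtain ⟨S2, hS2, hne, hb2⟩ := h5 S1.card
  have hr1 := hL S1 hS1 hb1
  have hr2 := hL S2 hS2 hb2
  have hroots : ∀ S, S ≠ ∅ → β S ≠ 0 → (S.card : ℤ) = S1.card ∨ (S.card : ℤ) = S2.card := by
    intro S hS hb
    have hr := hL S hS hb
    by_contra hcon
    push Not at hcon
    have e1 : ((S.card : ℤ) - S1.card) * (q * (q * ((S.card : ℤ) + S1.card) -
        (2 * n * (q - 1) + 4 - q))) = 0 := by
      unfold LL at hr hr1; linear_combination hr - hr1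
    have e2 : ((S2.card : ℤ) - S1.card) * (q * (q * ((S2.card : ℤ) + S1.card) -
        (2 * n * (q - 1) + 4 - q))) = 0 := by
      unfold LL at hr2 hr1; linear_combination hr2 - hr1
    have e3 := (mul_eq_zero.1 e1).resolve_left (sub_ne_zero.2 hcon.1)
    have e4 := (mul_eq_zero.1 e2).resolve_left (sub_ne_zero.2 hne)
    have e5 : (q : ℤ) * q * ((S.card : ℤ) - S2.card) = 0 := by linear_combination e3 - e4
    have hq0 : (q : ℤ) * q ≠ 0 := by positivity
    exact hcon.2 (sub_eq_zero.1 ((mul_eq_zero.1 e5).resolve_left hq0))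
  have hdvd : ∀ v : ℤ, v = S1.card ∨ v = S2.card →
      ((S2.card : ℤ) - S1.card) ∣ C.card * (q * v * (V - 1) - n * (q - 1) * V) := by
    intro v hv
    have h6 : (C.card : ℤ) * (q * v * (V - 1) - n * (q - 1) * V) =
        -((q : ℤ) * ∑ S ∈ univ.erase ∅, ((S.card : ℤ) - v) * β S) := by rw [h3]; ring
    rw [h6, dvd_neg]
    refine Dvd.dvd.mul_left (dvd_sum fun S hS => ?_) _
    by_cases hb : β S = 0
    · rw [hb]; simp
    · refine Dvd.dvd.mul_right ?_ _
      rcases hroots S (ne_of_mem_erase hS) hb with h | h <;> rcases hv with h' | h' <;>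
        rw [h, h']
      · simp
      · exact ⟨-1, by ring⟩
      · simp
  have hp1 : 1 ≤ S1.card := card_pos.2 (nonempty_iff_ne_empty.2 hS1)
  have hp2 : 1 ≤ S2.card := card_pos.2 (nonempty_iff_ne_empty.2 hS2)
  rcases lt_or_gt_of_ne (show S1.card ≠ S2.card from fun h => hne (by rw [h])) with h | h
  · exact ⟨S1.card, S2.card, hp1, h, hr1, hr2, hdvd _ (Or.inr rfl)⟩
  · refine ⟨S2.card, S1.card, hp2, h, hr2, hr1, ?_⟩
    rw [← neg_sub, neg_dvd]
    exact hdvd _ (Or.inl rfl)

end perfect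

end Pool.Agent.Lib.MP_68c55c_lc
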