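import Pool.Agent.Lib.MP_68c55c_lc.Lloyd

/-!
Arithmetic conditions satisfied by the parameters of a perfect 2-error-correcting code.
-/

set_option autoImplicit false

namespace Pool.Agent.Lib.MP_68c55c_lc

open Finset

theorem params {q n : ℕ} (C : Finset (Fin n → Fin q))
    (hC : ∀ x : Fin n → Fin q, ∃! c : Fin n → Fin q, c ∈ C ∧ hammingDist x c ≤ 2)
    (hq : 2 ≤ q) (h2 : 2 ≤ C.card) :
    ∃ s x : ℕ, 2 ≤ s ∧ 1 ≤ x ∧ 4 * x + 2 * s + q = q * s ^ 2 + 6 ∧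
      4 * ((q : ℤ) - 1) * ((n : ℤ) - 2) = (q : ℤ) ^ 2 * ((s : ℤ) ^ 2 - 1) ∧
      x * (x + s) ∣ 2 * q ^ n ∧
      ∀ e : ℕ, e ∣ s → Nat.Coprime e q → (e : ℤ) ∣ ((q : ℤ) - 2) * ((q : ℤ) ^ 2 - 8 * q + 8) := by
  have hn : 3 ≤ n := by
    by_contra hn
    obtain ⟨c, hc, c', hc', hne⟩ := one_lt_card.1 h2
    obtain ⟨c0, -, hu⟩ := hC c
    have h1 : hammingDist c c' ≤ 2 := by
      have := hammingDist_le_card_fintype (x := c) (y := c')
      rw [Fintype.card_fin] at this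
      omega
    exact hne ((hu c ⟨hc, by simp⟩).trans (hu c' ⟨hc', h1⟩).symm)
  obtain ⟨w, hw⟩ := Int.even_mul_pred_self (n : ℤ)
  have hV : LL q n 0 = 2 * (1 + n * (q - 1) + w * (q - 1) ^ 2) := by
    unfold LL; linear_combination ((q : ℤ) - 1) ^ 2 * hw
  set V : ℤ := 1 + n * (q - 1) + w * (q - 1) ^ 2 with hVdef
  obtain ⟨hM, x, y, hx, hxy, hrx, hry, hdvd⟩ := lloyd C hC hq (by omega) V hV
  obtain ⟨s, rfl⟩ := Nat.exists_eq_add_of_le hxy.le
  have hs : 1 ≤ s := by omega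
  have hqz : (2 : ℤ) ≤ q := by exact_mod_cast hq
  have hq0 : (q : ℤ) ≠ 0 := by linarith
  have hs0 : (s : ℤ) ≠ 0 := by exact_mod_cast (by omega : s ≠ 0)
  push_cast at hry hdvd
  have e1 : (q : ℤ) * (2 * x + s) = 2 * n * (q - 1) + 4 - q := by
    have : (s : ℤ) * (q * (q * (2 * x + s) - (2 * n * (q - 1) + 4 - q))) = 0 := by
      unfold LL at hrx hry; linear_combination hry - hrx
    have h1 := (mul_eq_zero.1 ((mul_eq_zero.1 this).resolve_left hs0)).resolve_left hq0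
    linarith
  have e2 : (q : ℤ) ^ 2 * (x * (x + s)) = 2 * V := by
    unfold LL at hrx hV
    linear_combination hV - hrx + (q : ℤ) * x * e1
  have e3 : 4 * ((q : ℤ) - 1) * ((n : ℤ) - 2) = (q : ℤ) ^ 2 * ((s : ℤ) ^ 2 - 1) := by
    unfold LL at hV
    linear_combination 4 * e2 - 4 * hV -
      ((q : ℤ) * (2 * x + s) + (2 * n * (q - 1) + 4 - q)) * e1
  have e4 : 4 * (x : ℤ) + 2 * s + q = q * s ^ 2 + 6 := by
    have : (q : ℤ) * (4 * x + 2 * s + q - (q * s ^ 2 + 6)) = 0 := by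
      linear_combination 2 * e1 + e3
    have h1 := (mul_eq_zero.1 this).resolve_left hq0
    linarith
  have e4' : 4 * x + 2 * s + q = q * s ^ 2 + 6 := by exact_mod_cast e4
  have hs2 : 2 ≤ s := by
    by_contra h
    have h1 : s = 1 := by omega
    subst h1
    have h3 : (3 : ℤ) ≤ n := by exact_mod_cast hn
    have : 0 < 4 * ((q : ℤ) - 1) * ((n : ℤ) - 2) := by
      have : 0 < (q : ℤ) - 1 := by linarith
      have : 0 < (n : ℤ) - 2 := by linarith
      positivity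
    rw [e3] at this
    simp at this
  have hd : x * (x + s) ∣ 2 * q ^ n := by
    have : ((x * (x + s) : ℕ) : ℤ) ∣ ((2 * q ^ n : ℕ) : ℤ) := by
      refine ⟨q ^ 2 * C.card, ?_⟩
      push_cast
      linear_combination -2 * hM - (C.card : ℤ) * e2
    exact_mod_cast this
  refine ⟨s, x, hs2, hx, e4', e3, hd, fun e he hcop => ?_⟩
  have hodd : Nat.Coprime e 2 := by
    rw [Nat.coprime_two_right, ← Nat.not_even_iff_odd]
    intro hev
    have h1 : 2 ∣ s := (even_iff_two_dvd.1 hev).trans he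
    have h2 : ¬ 2 ∣ q := fun h => by
      have := Nat.dvd_gcd (even_iff_two_dvd.1 hev) h
      rw [hcop] at this
      omega
    obtain ⟨t, rfl⟩ := h1
    have : q * (2 * t) ^ 2 = 2 * (2 * q * t ^ 2) := by ring
    omega
  have hc1 : Nat.Coprime e (2 * q ^ n) := hodd.mul_right (hcop.pow_right n)
  have hc2 : IsCoprime (e : ℤ) ((x : ℤ) + s) := by
    have : Nat.Coprime e (x + s) :=
      hc1.coprime_dvd_right ((Dvd.intro_left _ rfl).trans hd)
    exact_mod_cast Nat.isCoprime_iff_coprime.2 this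
  have hc3 : IsCoprime (e : ℤ) (q : ℤ) := Nat.isCoprime_iff_coprime.2 hcop
  have hc4 : IsCoprime (e : ℤ) (C.card : ℤ) :=
    (hc3.pow_right (n := n)).of_isCoprime_of_dvd_right ⟨V, hM.symm⟩
  have hes : (e : ℤ) ∣ s := by exact_mod_cast he
  have h5 : (e : ℤ) ∣ q * (x + s) * (V - 1) - n * (q - 1) * V := by
    refine hc4.dvd_of_dvd_mul_left (hes.trans ?_)
    rwa [add_sub_cancel_left] at hdvd
  have h6 : 8 * (q * ((x : ℤ) + s) * (V - 1) - n * (q - 1) * V) =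
      q * ((x + s) * (2 * (q * x * (q * (s - 1) + 4) - 4))) := by
    linear_combination (-4 * (q : ℤ) * (x + s) + 4 * n * (q - 1)) * e2
      - (q : ℤ) ^ 2 * (x * (x + s)) * e3 + (q : ℤ) ^ 3 * (x * (x + s)) * e4
  have h7 : (e : ℤ) ∣ 2 * (q * x * (q * (s - 1) + 4) - 4) :=
    hc2.dvd_of_dvd_mul_left (hc3.dvd_of_dvd_mul_left (h6 ▸ h5.mul_left 8))
  have h8 : ((q : ℤ) - 2) * ((q : ℤ) ^ 2 - 8 * q + 8) =
      2 * (2 * (q * x * (q * (s - 1) + 4) - 4)) -
        s * (q * ((q * s - 2) * (q * (s - 1) + 4) + (6 - q) * q)) := by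
    linear_combination (-(q : ℤ) * (q * (s - 1) + 4)) * e4
  rw [h8]
  exact dvd_sub (h7.mul_left 2) (hes.mul_right _)

end Pool.Agent.Lib.MP_68c55c_lc
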