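import Pool.Agent.Lib.MP_68c55c_lc.Params

/-!
The dual distribution seen from a word at distance two from a perfect 2-error-correcting code:
the difference of the two Lloyd roots divides a power of the alphabet size (up to a factor two).
-/

set_option autoImplicit false

namespace Pool.Agent.Lib.MP_68c55c_lc

open Finset

variable {q n : ℕ}

lemma three_le (C : Finset (Fin n → Fin q))
    (hC : ∀ x : Fin n → Fin q, ∃! c : Fin n → Fin q, c ∈ C ∧ hammingDist x c ≤ 2)
    (h2 : 2 ≤ C.card) : 3 ≤ n := by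
  by_contra hn
  obtain ⟨c, hc, c', hc', hne⟩ := one_lt_card.1 h2
  obtain ⟨c0, -, hu⟩ := hC c
  have h1 : hammingDist c c' ≤ 2 := by
    have := hammingDist_le_card_fintype (x := c) (y := c')
    rw [Fintype.card_fin] at this
    omega
  exact hne ((hu c ⟨hc, by simp⟩).trans (hu c' ⟨hc', h1⟩).symm)

lemma exists_far (C : Finset (Fin n → Fin q))
    (hC : ∀ x : Fin n → Fin q, ∃! c : Fin n → Fin q, c ∈ C ∧ hammingDist x c ≤ 2)
    (hq : 2 ≤ q) (hn : 2 ≤ n) : ∃ y : Fin n → Fin q, ∀ c ∈ C, 2 ≤ hammingDist c y := by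
  obtain ⟨c0, ⟨h0, -⟩, -⟩ := hC (fun _ => ⟨0, by omega⟩)
  haveI : Nontrivial (Fin q) := Fin.nontrivial_iff_two_le.2 hq
  choose f hf using fun a : Fin q => exists_ne a
  let T : Finset (Fin n) := {⟨0, by omega⟩, ⟨1, by omega⟩}
  have hT : T.card = 2 := card_pair (by simp [Fin.ext_iff])
  let y : Fin n → Fin q := fun t => if t ∈ T then f (c0 t) else c0 t
  have hy : hammingDist y c0 = 2 := by
    rw [← hT, hammingDist]
    congr 1
    ext t
    by_cases ht : t ∈ T <;> simp [y, ht, hf]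
  refine ⟨y, fun c hc => ?_⟩
  by_contra hlt
  obtain ⟨c', -, hu⟩ := hC y
  have h1 : c = c0 := (hu c ⟨hc, by rw [hammingDist_comm]; omega⟩).trans (hu c0 ⟨h0, hy.le⟩).symm
  rw [h1, hammingDist_comm] at hlt
  omega

lemma sum_face_far (C : Finset (Fin n → Fin q)) (y : Fin n → Fin q)
    (hy : ∀ c ∈ C, 2 ≤ hammingDist c y) (T : Finset (Fin n)) (hT : Tᶜ.card ≤ 1) :
    ∑ S ∈ T.powerset, ∑ c ∈ C, chi y S c = 0 := by
  rw [sum_comm]
  simp only [sum_powerset_chi]
  refine sum_eq_zero fun c hc => if_neg fun h => ?_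
  have h1 : hammingDist c y ≤ 1 := by
    refine le_trans (card_le_card ?_) hT
    intro t ht
    simp only [mem_filter, mem_univ, true_and] at ht
    rw [mem_compl]
    exact fun h' => ht (h t h')
  have := hy c hc
  omega

lemma sum_weight_far (C : Finset (Fin n → Fin q)) (y : Fin n → Fin q)
    (hy : ∀ c ∈ C, 2 ≤ hammingDist c y) :
    ∑ S : Finset (Fin n), ∑ c ∈ C, chi y S c = 0 ∧
    ∑ S : Finset (Fin n), (S.card : ℤ) * ∑ c ∈ C, chi y S c = 0 := by
  have h1 := sum_face_far C y hy univ (by simp)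
  rw [powerset_univ] at h1
  refine ⟨h1, ?_⟩
  have h2 : ∀ t : Fin n, ∑ S : Finset (Fin n),
      (if t ∈ S then 0 else ∑ c ∈ C, chi y S c) = 0 := by
    intro t
    have h3 := sum_face_far C y hy (univ.erase t) (by simp [compl_erase])
    have h4 : (univ.erase t).powerset = univ.filter (fun S : Finset (Fin n) => t ∉ S) := by
      ext S
      simp [subset_erase]
    rw [h4, sum_filter] at h3
    simpa only [ite_not] using h3
  have h5 : ∑ t : Fin n, ∑ S : Finset (Fin n),
      (if t ∈ S then 0 else ∑ c ∈ C, chi y S c) = 0 := by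
    simp only [h2]; simp
  rw [sum_comm] at h5
  simp only [sum_ite_card, mul_zero, zero_add, sub_mul, sum_sub_distrib] at h5
  rw [← mul_sum, h1] at h5
  linear_combination -h5

/-- The arithmetic conditions, with the new one: the root difference `s` divides `x * |C|`. -/
theorem params_rad (C : Finset (Fin n → Fin q))
    (hC : ∀ x : Fin n → Fin q, ∃! c : Fin n → Fin q, c ∈ C ∧ hammingDist x c ≤ 2)
    (hq : 2 ≤ q) (h2 : 2 ≤ C.card) :
    ∃ s x : ℕ, 2 ≤ s ∧ 1 ≤ x ∧ 4 * x + 2 * s + q = q * s ^ 2 + 6 ∧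
      4 * ((q : ℤ) - 1) * ((n : ℤ) - 2) = (q : ℤ) ^ 2 * ((s : ℤ) ^ 2 - 1) ∧
      x * (x + s) ∣ 2 * q ^ n ∧ s ∣ x * C.card ∧ C.card ∣ q ^ n := by
  have hn := three_le C hC h2
  obtain ⟨s, x, hs, hx, e1, e2, e3, -⟩ := params C hC hq h2
  refine ⟨s, x, hs, hx, e1, e2, e3, ?_, ?_⟩
  · obtain ⟨y, hy⟩ := exists_far C hC hq (by omega)
    obtain ⟨h0, h1⟩ := sum_weight_far C y hy
    have e1' : 4 * (x : ℤ) + 2 * s + q = q * s ^ 2 + 6 := by exact_mod_cast e1
    have hq0 : (q : ℤ) ≠ 0 := by exact_mod_cast (by omega : q ≠ 0)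
    have hLL : ∀ i : ℤ, 16 * LL q n i = 16 * (q ^ 2 * ((i - x) * (i - x - s))) := by
      intro i
      unfold LL
      have f1 : 2 * ((q : ℤ) * (2 * x + s)) = 2 * (2 * n * (q - 1) + 4 - q) := by
        linear_combination (q : ℤ) * e1' - e2
      linear_combination 8 * q * i * f1 - 4 * e2 -
        2 * ((q : ℤ) * (2 * x + s) + (2 * n * (q - 1) + 4 - q)) * f1
    let β : Finset (Fin n) → ℤ := fun S => ∑ c ∈ C, chi y S c
    have hβ0 : β ∅ = C.card := by simp [β, chi]
    have h3 : ∑ S ∈ univ.erase ∅, ((S.card : ℤ) - x) * β S = x * C.card := by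
      have h4 := add_sum_erase univ (fun S : Finset (Fin n) => ((S.card : ℤ) - x) * β S)
        (mem_univ ∅)
      simp only [sub_mul, sum_sub_distrib, ← mul_sum, card_empty, hβ0] at h4 ⊢
      change _ = ∑ S : Finset (Fin n), (S.card : ℤ) * ∑ c ∈ C, chi y S c -
        x * ∑ S : Finset (Fin n), ∑ c ∈ C, chi y S c at h4
      rw [h0, h1] at h4
      linear_combination h4
    have h5 : (s : ℤ) ∣ x * C.card := by
      rw [← h3]
      refine dvd_sum fun S hS => ?_
      have h6 := lloyd_eq C hC y S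
      rw [if_neg (ne_of_mem_erase hS)] at h6
      rcases mul_eq_zero.1 h6 with h7 | h7
      · have h8 := hLL S.card
        rw [h7, mul_zero] at h8
        have h9 : ((S.card : ℤ) - x) * (S.card - x - s) = 0 := by
          have := (mul_eq_zero.1 h8.symm).resolve_left (by norm_num)
          exact (mul_eq_zero.1 this).resolve_left (pow_ne_zero 2 hq0)
        rcases mul_eq_zero.1 h9 with h | h
        · rw [h]; simp
        · rw [show (S.card : ℤ) - x = s by linarith]; simp
      · change β S = 0 at h7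
        rw [h7]; simp
    exact_mod_cast h5
  · obtain ⟨w, hw⟩ := Int.even_mul_pred_self (n : ℤ)
    have hV : LL q n 0 = 2 * (1 + n * (q - 1) + w * (q - 1) ^ 2) := by
      unfold LL; linear_combination ((q : ℤ) - 1) ^ 2 * hw
    have hM := (lloyd C hC hq (by omega) _ hV).1
    have : (C.card : ℤ) ∣ (q : ℤ) ^ n := ⟨_, hM.symm⟩
    exact_mod_cast this

end Pool.Agent.Lib.MP_68c55c_lc
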