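import Pool.Agent.Lib.MP_68c55c_lc.Adm

set_option autoImplicit false

namespace Pool.Agent.Lib.MP_68c55c_lc.RootGap

/-- Every prime factor of the difference of the two Lloyd roots of a perfect 2-error-correcting
code with at least two codewords divides the alphabet size. -/
theorem root_gap (q n : ℕ) (C : Finset (Fin n → Fin q)) (h2 : 2 ≤ C.card)
    (hC : ∀ x : Fin n → Fin q, ∃! c : Fin n → Fin q, c ∈ C ∧ hammingDist x c ≤ 2) :
    ∃ s : ℕ, 2 ≤ s ∧ 4 * ((q : ℤ) - 1) * ((n : ℤ) - 2) = (q : ℤ) ^ 2 * ((s : ℤ) ^ 2 - 1) ∧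
      ∀ p : ℕ, p.Prime → p ∣ s → p ∣ q := by
  have hq : 2 ≤ q := by
    obtain ⟨s, x, h⟩ := Pool.Agent.Lib.MP_68c55c_lc.exists_adm C hC h2
    exact h.hq
  obtain ⟨s, x, hs, -, e1, e2, e3, e4, e5⟩ := Pool.Agent.Lib.MP_68c55c_lc.params_rad C hC hq h2
  refine ⟨s, hs, e2, fun p hp hd => ?_⟩
  rcases (Nat.Prime.dvd_mul hp).1 (hd.trans e4) with h | h
  · rcases (Nat.Prime.dvd_mul hp).1 ((h.mul_right _).trans e3) with h' | h'
    · obtain rfl := (Nat.prime_dvd_prime_iff_eq hp Nat.prime_two).1 h'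
      obtain ⟨t, rfl⟩ := hd
      have : q * (2 * t) ^ 2 = 2 * (2 * q * t ^ 2) := by ring
      omega
    · exact hp.dvd_of_dvd_pow h'
  · exact hp.dvd_of_dvd_pow (h.trans e5)

end Pool.Agent.Lib.MP_68c55c_lc.RootGap
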