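import Pool.Agent.Lib.MP_68c55c_lc.Count
import Pool.Agent.Shared.SubspaceGerm

/-!
Finiteness of admissible parameters when two of `x`, `x + s`, `s` are `S`-units.
-/

set_option autoImplicit false

namespace Pool.Agent.Lib.MP_68c55c_lc

open Finset Filter Pool.Agent.Shared.Subspace

theorem no_relation {a0 a1 a2 M q s y ϵ : ℤ} (h0 : |a0| ≤ M) (h1 : |a1| ≤ M) (h2 : |a2| ≤ M)
    (hne : ¬ (a0 = 0 ∧ a1 = 0 ∧ a2 = 0)) (hϵ : ϵ = 1 ∨ ϵ = -1)
    (e : 4 * y = q * (s ^ 2 - 1) - 2 * ϵ * s + 6) (hy : 0 < y) (hq : 2 ≤ q) (hqs : q ≤ s ^ 2)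
    (hd : q - 1 ∣ s ^ 2 - 1) (hs : 100 * M ^ 2 + 100 ≤ s)
    (hrel : a0 * q * s ^ 4 + (a1 * s ^ 2 + a2) * (4 * y) = 0) : False := by
  have hM : 0 ≤ M := (abs_nonneg _).trans h0
  have hM2 : M ≤ M ^ 2 := by nlinarith
  have hs0 : 100 ≤ s := by nlinarith
  have hs2 : 100 * s ≤ s ^ 2 := by nlinarith
  have ht : |2 * ϵ * s - 6| ≤ 3 * s := by
    rw [abs_le]; rcases hϵ with rfl | rfl <;> constructor <;> linarith
  have ht0 : 2 * ϵ * s - 6 ≠ 0 := by rcases hϵ with rfl | rfl <;> linarith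
  have k : q * ((a0 + a1) * s ^ 4 + (a2 - a1) * s ^ 2 - a2) =
      (a1 * s ^ 2 + a2) * (2 * ϵ * s - 6) := by
    linear_combination hrel - (a1 * s ^ 2 + a2) * e
  have hb : |a1 * s ^ 2 + a2| ≤ 2 * M * s ^ 2 := by
    refine (abs_add_le _ _).trans ?_
    rw [abs_mul, abs_of_nonneg (by positivity : 0 ≤ s ^ 2)]
    have : |a1| * s ^ 2 ≤ M * s ^ 2 := by gcongr
    nlinarith
  have h01 : a0 + a1 = 0 := by
    by_contra hc
    have b1 : 1 ≤ |a0 + a1| := Int.one_le_abs hc
    have b2 : |(a0 + a1) * s ^ 4| ≤ |(a0 + a1) * s ^ 4 + (a2 - a1) * s ^ 2 - a2| +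
        (|a2| * s ^ 2 + |a1| * s ^ 2 + |a2|) := by
      have c1 := abs_sub ((a0 + a1) * s ^ 4 + (a2 - a1) * s ^ 2 - a2) ((a2 - a1) * s ^ 2 - a2)
      have c2 := abs_sub ((a2 - a1) * s ^ 2) a2
      have c3 := abs_sub a2 a1
      rw [abs_mul, abs_of_nonneg (by positivity : 0 ≤ s ^ 2)] at c2
      rw [show (a0 + a1) * s ^ 4 + (a2 - a1) * s ^ 2 - a2 - ((a2 - a1) * s ^ 2 - a2) =
        (a0 + a1) * s ^ 4 by ring] at c1
      nlinarith [sq_nonneg s]
    have b3 := congrArg abs k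
    rw [abs_mul, abs_mul, abs_of_nonneg (by linarith : 0 ≤ q)] at b3
    rw [abs_mul, abs_of_nonneg (by positivity : 0 ≤ s ^ 4)] at b2
    have b4 : |a1 * s ^ 2 + a2| * |2 * ϵ * s - 6| ≤ 2 * M * s ^ 2 * (3 * s) := by gcongr
    have b5 : |a2| * s ^ 2 ≤ M * s ^ 2 := by gcongr
    have b6 : |a1| * s ^ 2 ≤ M * s ^ 2 := by gcongr
    have b7 : 1 * s ^ 4 ≤ |a0 + a1| * s ^ 4 := by gcongr
    have b8 := abs_nonneg ((a0 + a1) * s ^ 4 + (a2 - a1) * s ^ 2 - a2)
    have b9 : |(a0 + a1) * s ^ 4 + (a2 - a1) * s ^ 2 - a2| ≤ 6 * M * s ^ 3 := by nlinarith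
    have c1 : 100 * M * s ^ 3 ≤ s * s ^ 3 := by gcongr; linarith
    have c2 : M * s ^ 2 * 1 ≤ M * s ^ 2 * s := by gcongr; linarith
    have c3 : M * 1 ≤ M * s ^ 2 := by gcongr; linarith
    have c4 : 0 < s ^ 4 := by positivity
    nlinarith
  rw [h01, zero_mul, zero_add] at k
  have ha1 : a1 ≠ 0 := by
    rintro rfl
    have ha0 : a0 = 0 := by linarith
    have ha2 : a2 ≠ 0 := fun h => hne ⟨ha0, rfl, h⟩
    have : a2 * (4 * y) = 0 := by rw [ha0] at hrel; linear_combination hrel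
    have := (mul_eq_zero.1 this).resolve_left ha2
    linarith
  by_cases hc : a2 - a1 = 0
  · have ha : a2 = a1 := by linarith
    have : a1 * (q + (s ^ 2 + 1) * (2 * ϵ * s - 6)) = 0 := by
      rw [ha] at k; linear_combination -k
    have := (mul_eq_zero.1 this).resolve_left ha1
    rcases hϵ with rfl | rfl <;> nlinarith
  · have k1 : ((a2 - a1) * s ^ 2 - a2) * ((a2 - a1) * q - a1 * (2 * ϵ * s - 6)) =
        a2 ^ 2 * (2 * ϵ * s - 6) := by linear_combination (a2 - a1) * k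
    have b1 : 1 ≤ |a2 - a1| := Int.one_le_abs hc
    have b2 : s ^ 2 - M ≤ |(a2 - a1) * s ^ 2 - a2| := by
      have c1 := abs_sub_abs_le_abs_sub ((a2 - a1) * s ^ 2) a2
      rw [abs_mul, abs_of_nonneg (by positivity : 0 ≤ s ^ 2)] at c1
      nlinarith [sq_nonneg s]
    have b3 : (a2 - a1) * q - a1 * (2 * ϵ * s - 6) = 0 := by
      by_contra h3
      have c1 := Int.one_le_abs h3
      have c2 := congrArg abs k1
      rw [abs_mul, abs_mul, abs_pow] at c2
      have c3 : |a2| ^ 2 * |2 * ϵ * s - 6| ≤ M ^ 2 * (3 * s) := by gcongr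
      have c4 : (s ^ 2 - M) * 1 ≤ |(a2 - a1) * s ^ 2 - a2| *
        |(a2 - a1) * q - a1 * (2 * ϵ * s - 6)| := by gcongr
      have c5 : (100 * M ^ 2 + 100) * s ≤ s * s := by gcongr
      have c6 : M ^ 2 * 1 ≤ M ^ 2 * s := by gcongr; linarith
      nlinarith
    rw [b3, mul_zero] at k1
    have ha2 : a2 = 0 := pow_eq_zero_iff (two_ne_zero) |>.1
      ((mul_eq_zero.1 k1.symm).resolve_right ht0)
    have : a1 * (q + (2 * ϵ * s - 6)) = 0 := by rw [ha2] at b3; linear_combination -b3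
    have hq1 := (mul_eq_zero.1 this).resolve_left ha1
    rcases hϵ with rfl | rfl
    · linarith
    · have hq2 : q - 1 = 2 * s + 5 := by linarith
      rw [hq2] at hd
      have : 2 * s + 5 ∣ 21 := by
        have := (hd.mul_left 4).sub (Dvd.intro (2 * s - 5) rfl)
        rwa [show 4 * (s ^ 2 - 1) - (2 * s + 5) * (2 * s - 5) = 21 by ring] at this
      have := Int.le_of_dvd (by norm_num) this
      linarith

theorem finite_units (S : Finset ℕ) (hS : ∀ p ∈ S, p.Prime) (t : ℕ) (ht : t ≤ 1) :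
    {q : ℕ | ∃ s x, Adm q s x ∧ (x + t * s).primeFactors ⊆ S ∧ s.primeFactors ⊆ S}.Finite := by
  classical
  by_contra hinf
  have hne := (Set.not_finite.1 hinf).cofinite_inf_principal_neBot
  set Q := {q : ℕ | ∃ s x, Adm q s x ∧ (x + t * s).primeFactors ⊆ S ∧ s.primeFactors ⊆ S}
  have hQ : ∀ q ∈ Q, ∃ s x, Adm q s x ∧ (x + t * s).primeFactors ⊆ S ∧ s.primeFactors ⊆ S :=
    fun q hq => hq
  choose! s x hA u1 u2 using hQ
  let U : Ultrafilter ℕ := Ultrafilter.of (cofinite ⊓ principal Q)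
  have hU := le_inf_iff.1 (Ultrafilter.of_le (cofinite ⊓ principal Q))
  have hUQ : ∀ᶠ q in (U : Filter ℕ), q ∈ Q := le_principal_iff.1 hU.2
  have hs : ∀ N : ℕ, ∀ᶠ q in (U : Filter ℕ), N ≤ s q := by
    intro N
    have h1 : ∀ᶠ q in (U : Filter ℕ), N ^ 2 ≤ q :=
      hU.1 (by rw [Nat.cofinite_eq_atTop]; exact eventually_ge_atTop _)
    filter_upwards [h1, hUQ] with q h1 h2
    exact (Nat.pow_le_pow_iff_left (by norm_num)).1 (h1.trans (hA q h2).q_le)
  let l : ℕ → ℝ := fun q => Real.log (s q)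
  have hl : Tendsto l U atTop :=
    Real.tendsto_log_atTop.comp (tendsto_natCast_atTop_atTop.comp (tendsto_atTop.2 hs))
  let F : PrimeFam S := ⟨fun p => p, fun p => hS p p.2, Subtype.val_injective⟩
  have hunit : ∀ v : ℕ, v ≠ 0 → v.primeFactors ⊆ S →
      F.unit (fun p => (v.factorization p : ℤ)) = v := by
    intro v h0 h1
    conv_rhs => rw [eq_prod h0 h1]
    simp only [PrimeFam.unit, F, zpow_natCast]
    push_cast
    exact Finset.prod_coe_sort S fun p => (p : ℚ) ^ v.factorization p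
  have hEE : ∀ v : ℕ → ℕ, (∀ q ∈ Q, v q ≠ 0 ∧ v q ≤ s q ^ 4) →
      (fun q (p : S) => ((v q).factorization p : ℤ)) ∈ EE S U l := by
    intro v hv p
    refine ⟨8, ?_⟩
    filter_upwards [hUQ, hl.eventually_gt_atTop 0] with q h1 h2
    rw [abs_div, abs_of_pos h2, div_le_iff₀ h2, Int.cast_natCast, Nat.abs_cast]
    have h3 : 2 ^ (v q).factorization p ≤ s q ^ 4 :=
      ((Nat.pow_le_pow_right (by norm_num) (factorization_le_log (hv q h1).1 p)).trans
        (Nat.pow_log_le_self 2 (hv q h1).1)).trans (hv q h1).2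
    have h4 : (2 : ℝ) ^ (v q).factorization p ≤ (s q : ℝ) ^ 4 := by exact_mod_cast h3
    have h5 := Real.log_le_log (by positivity) h4
    rw [Real.log_pow, Real.log_pow] at h5
    have := Real.log_two_gt_d9
    have : (0 : ℝ) ≤ (v q).factorization p := by positivity
    simp only [l]
    push_cast at h5
    nlinarith
  have hy : ∀ q ∈ Q, x q + t * s q ≠ 0 ∧ x q + t * s q ≤ s q ^ 4 := by
    intro q hq
    have h1 := (hA q hq).hx
    have h2 := (hA q hq).le_four
    interval_cases t <;> omega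
  have hs' : ∀ q ∈ Q, s q ≠ 0 ∧ s q ≤ s q ^ 4 := by
    intro q hq
    have h1 := (hA q hq).hs
    have h2 := (hA q hq).le_four
    omega
  let Ey : EE S U l := ⟨_, hEE (fun q => x q + t * s q) hy⟩
  let Es : EE S U l := ⟨_, hEE s hs'⟩
  let E1 : EE S U l := Ey - Es - Es
  let E2 : EE S U l := E1 - Es - Es
  have hE : ∀ q ∈ Q, F.unit (E1.1 q) * (s q : ℚ) ^ 2 = (x q + t * s q : ℕ) ∧
      F.unit (E2.1 q) * (s q : ℚ) ^ 2 = F.unit (E1.1 q) := by
    intro q hq
    have h1 : F.unit (Es.1 q) = s q := hunit _ (hs' q hq).1 (u2 q hq)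
    have h2 : F.unit (Ey.1 q) = (x q + t * s q : ℕ) := hunit _ (hy q hq).1 (u1 q hq)
    rw [← h1, ← h2, sq, ← mul_assoc, ← mul_assoc, ← F.unit_add, ← F.unit_add, ← F.unit_add,
      ← F.unit_add]
    constructor <;> congr 1 <;> simp [E1, E2]
  let X : ℕ → Fin 3 → ℚ := fun q => ![(q : ℚ), F.unit (E1.1 q), F.unit (E2.1 q)]
  let L : Option S → Matrix (Fin 3) (Fin 3) ℚ := fun v =>
    match v with
    | none => !![1, -4, -4; 0, 1, 0; 0, 0, 1]
    | some _ => 1
  let c : Option S → Fin 3 → ℝ := fun v =>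
    ![match v with | none => -1 | some _ => 0, lam0 F v E1, lam0 F v E2]
  have hm : ∀ v (E : EE S U l), SB U l (fun q => F.av v (F.unit (E.1 q))) (lam0 F v E) :=
    fun v E => GLe_gm.1 (GLe_mon F hl v E)
  obtain ⟨a, ha0, ha⟩ := subspace_ultra U hl F L
    (by rintro (_ | p) <;> simp [L, Matrix.det_fin_three]) c
    (by
      simp only [c, Fin.sum_univ_three, Matrix.cons_val_zero, Matrix.cons_val_one,
        Matrix.cons_val, sum_add_distrib, sum_lam0]
      simp)
    X (Eventually.of_forall fun q k => by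
      fin_cases k
      · exact F.mem_OS_of_Zr (natCast_mem Zr q)
      · exact F.unit_mem _
      · exact F.unit_mem _)
    (by
      rintro (_ | p) i
      · fin_cases i
        · refine ((SB_exp hl (-1)).const_mul hl
            (Eventually.of_forall fun _ => (Real.exp_pos _).le) 7).of_le ?_
          filter_upwards [hUQ, hs 6] with q h1 h2
          obtain ⟨e1, e2⟩ := hE q h1
          have hs0 : (6 : ℚ) ≤ s q := by exact_mod_cast h2
          have e3 : (4 * x q + 2 * s q + q : ℚ) = q * (s q : ℚ) ^ 2 + 6 := by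
            exact_mod_cast (hA q h1).eq
          have e4 : (q : ℚ) ≤ (s q : ℚ) ^ 2 := by exact_mod_cast (hA q h1).q_le
          have e5 : ((L none).mulVec (X q) 0) * (s q : ℚ) ^ 4 =
              q + ((s q : ℚ) ^ 2 + 1) * (2 * s q - 4 * t * s q - 6) := by
            simp only [L, X, Matrix.mulVec, dotProduct, Fin.sum_univ_three]
            simp only [Matrix.of_apply, Matrix.cons_val', Matrix.cons_val_zero,
              Matrix.cons_val_one, Matrix.cons_val]
            push_cast at e1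
            linear_combination (-4 * (s q : ℚ) ^ 2) * e2 - 4 * ((s q : ℚ) ^ 2 + 1) * e1 -
              ((s q : ℚ) ^ 2 + 1) * e3
          have e6 : |(L none).mulVec (X q) 0| * (s q : ℚ) ^ 4 ≤ 7 * (s q : ℚ) ^ 3 := by
            rw [← abs_of_nonneg (by positivity : (0 : ℚ) ≤ (s q : ℚ) ^ 4), ← abs_mul, e5]
            refine (abs_add_le _ _).trans ?_
            rw [abs_mul, Nat.abs_cast, abs_of_nonneg (by positivity : (0 : ℚ) ≤ (s q : ℚ) ^ 2 + 1)]
            have b1 : |(2 * s q - 4 * t * s q - 6 : ℚ)| ≤ 3 * s q := by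
              rw [abs_le]
              rcases Nat.le_one_iff_eq_zero_or_eq_one.1 ht with h | h <;> rw [h] <;>
                push_cast <;> constructor <;> linarith
            have b2 : ((s q : ℚ) ^ 2 + 1) * |(2 * s q - 4 * t * s q - 6 : ℚ)| ≤
                (2 * (s q : ℚ) ^ 2) * (3 * s q) := by gcongr; nlinarith
            have b3 : (s q : ℚ) ^ 2 * 1 ≤ (s q : ℚ) ^ 2 * s q := by gcongr; linarith
            nlinarith
          have e7 : |(L none).mulVec (X q) 0| * (s q : ℚ) ≤ 7 := by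
            refine le_of_mul_le_mul_right ?_ (by positivity : (0 : ℚ) < (s q : ℚ) ^ 3)
            calc _ = _ := by ring
              _ ≤ _ := e6
          have hs1 : (0 : ℝ) < s q := by exact_mod_cast (by omega : 0 < s q)
          rw [F.av_none, vinf_apply, neg_one_mul, Real.exp_neg, Real.exp_log hs1,
            ← div_eq_mul_inv, le_div_iff₀ hs1]
          exact_mod_cast e7
        · simpa [L, X, c, Matrix.mulVec, dotProduct, Fin.sum_univ_three] using hm none E1
        · simpa [L, X, c, Matrix.mulVec, dotProduct, Fin.sum_univ_three] using hm none E2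
      · simp only [L, Matrix.one_mulVec]
        fin_cases i
        · exact (SB_const hl 1).of_le
            (Eventually.of_forall fun q => F.av_le_one p (natCast_mem Zr q))
        · exact hm _ E1
        · exact hm _ E2)
  obtain ⟨⟨N, hN⟩, hb⟩ := IsLocalization.exist_integer_multiples_of_finite (nonZeroDivisors ℤ) a
  choose b hb using hb
  have hN0 : (N : ℚ) ≠ 0 := by exact_mod_cast nonZeroDivisors.ne_zero hN
  simp only [eq_intCast, zsmul_eq_mul] at hb
  obtain ⟨q, h1, h2, h3⟩ := (hUQ.and (ha.and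
    (hs (100 * (4 * |b 0| + |b 1| + |b 2|).natAbs ^ 2 + 100)))).exists
  obtain ⟨e1, e2⟩ := hE q h1
  have h := hA q h1
  have n0 := abs_nonneg (b 0)
  have n1 := abs_nonneg (b 1)
  have n2 := abs_nonneg (b 2)
  refine no_relation (a0 := 4 * b 0) (a1 := b 1) (a2 := b 2) (M := 4 * |b 0| + |b 1| + |b 2|)
    (q := q) (s := s q) (y := (x q + t * s q : ℕ)) (ϵ := 1 - 2 * t)
    (by rw [abs_mul]; norm_num; linarith) (by linarith) (by linarith) ?_
    (by omega) ?_ (by exact_mod_cast Nat.pos_of_ne_zero (hy q h1).1)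
    (by exact_mod_cast h.hq) (by exact_mod_cast h.q_le) ?_ ?_ ?_
  · rintro ⟨b0, b1, b2⟩
    refine ha0 (funext fun i => (mul_eq_zero.1 ((hb i).symm.trans ?_)).resolve_left hN0)
    fin_cases i
    · exact_mod_cast (show b 0 = 0 by linarith)
    · exact_mod_cast b1
    · exact_mod_cast b2
  · have e3 : (4 * x q + 2 * s q + q : ℤ) = q * (s q : ℤ) ^ 2 + 6 := by exact_mod_cast h.eq
    push_cast
    linear_combination e3
  · have := Int.natCast_dvd_natCast.2 h.dvd
    rwa [Nat.cast_sub (by have := h.hq; omega),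
      Nat.cast_sub (Nat.one_le_pow _ _ (by have := h.hs; omega))] at this
  · have : ((100 * (4 * |b 0| + |b 1| + |b 2|).natAbs ^ 2 + 100 : ℕ) : ℤ) ≤ s q := by
      exact_mod_cast h3
    push_cast at this
    rwa [sq_abs] at this
  · simp only [X, Fin.sum_univ_three, Matrix.cons_val_zero, Matrix.cons_val_one,
      Matrix.cons_val] at h2
    have : (4 * b 0 * q * (s q : ℚ) ^ 4 + (b 1 * (s q : ℚ) ^ 2 + b 2) *
        (4 * (x q + t * s q : ℕ)) : ℚ) = 0 := by
      rw [hb 0, hb 1, hb 2, ← e1, ← e2]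
      rw [← e2] at h2
      linear_combination 4 * N * (s q : ℚ) ^ 4 * h2
    exact_mod_cast this

theorem finite_roots (S : Finset ℕ) (hS : ∀ p ∈ S, p.Prime) :
    {q : ℕ | ∃ s x, Adm q s x ∧ x.primeFactors ⊆ S ∧ (x + s).primeFactors ⊆ S}.Finite := by
  obtain ⟨D, hD, hSD, hD'⟩ : ∃ D, 8 ≤ D ∧ S.card ≤ D ∧ ∀ p ∈ S, p ≤ 2 ^ D :=
    ⟨8 + S.card + S.sup id, by omega, by omega, fun p hp =>
      le_trans (le_trans (le_sup (f := id) hp) (by omega)) Nat.lt_two_pow_self.le⟩
  obtain ⟨N, hN⟩ : ∃ N, N = 2 ^ (2 ^ 20 * D ^ 2) := ⟨_, rfl⟩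
  refine (Set.finite_Iic ((2 ^ (N + 8)) ^ 2)).subset ?_
  rintro q ⟨s, x, h, u1, u2⟩
  refine h.q_le.trans (Nat.pow_le_pow_left ?_ 2)
  refine (Nat.lt_pow_succ_log_self (b := 2) (by norm_num) s).le.trans
    (Nat.pow_le_pow_right (by norm_num) ?_)
  by_contra hc
  obtain ⟨T, hT⟩ : ∃ T, Nat.log 2 s = T + 3 := ⟨Nat.log 2 s - 3, by omega⟩
  have hT4 : 4 ≤ T := by omega
  have hs0 : s ≠ 0 := by have := h.hs; omega
  have hx0 : x ≠ 0 := by have := h.hx; omega
  have hs1 : 2 ^ (T + 3) ≤ s := hT ▸ Nat.pow_log_le_self 2 hs0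
  have hs2 : s < 2 ^ (T + 4) := by
    have := Nat.lt_pow_succ_log_self (b := 2) (by norm_num) s
    rwa [hT] at this
  have hlog : ∀ v : ℕ, v ≠ 0 → v.primeFactors ⊆ S →
      Real.log v = ∑ p : S, (v.factorization p : ℝ) * Real.log (p : ℕ) := by
    intro v hv h1
    conv_lhs => rw [eq_prod hv h1]
    push_cast
    rw [Real.log_prod fun p hp => by have := (hS p hp).pos; positivity]
    simp only [Real.log_pow]
    exact (Finset.sum_coe_sort S fun p => (v.factorization p : ℝ) * Real.log p).symm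
  have hΛ : ∑ p : S, ((((x + s).factorization p : ℤ) - x.factorization p : ℤ) : ℝ) *
      Real.log (p : ℕ) = Real.log ((x + s : ℕ) : ℝ) - Real.log x := by
    rw [hlog _ (by omega) u2, hlog _ hx0 u1, ← sum_sub_distrib]
    refine sum_congr rfl fun p _ => ?_
    push_cast
    ring
  have hx' : (0 : ℝ) < x := by positivity
  have hs' : (0 : ℝ) < s := by positivity
  have hpos : 0 < Real.log ((x + s : ℕ) : ℝ) - Real.log x :=
    sub_pos.2 (Real.log_lt_log hx' (by push_cast; linarith))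
  have hv : ∀ v : ℕ, v ≠ 0 → v ≤ x + s → ∀ p, v.factorization p ≤ D * T := by
    intro v hv hle p
    refine (factorization_le_log hv p).trans ?_
    have h1 : v < 2 ^ (4 * (T + 4)) := by
      rw [mul_comm, pow_mul]
      exact (hle.trans h.le_four).trans_lt (Nat.pow_lt_pow_left hs2 (by norm_num))
    have h2 := Nat.log_lt_of_lt_pow hv h1
    have h3 : 8 * T ≤ D * T := Nat.mul_le_mul_right _ hD
    omega
  have := Pool.Agent.Shared.TwoLogsProd.baker_gap (fun p : S => (p : ℕ)) (D := D) (T := T)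
    (by rwa [Fintype.card_coe]) (by omega) (fun p => (hS p p.2).one_le) (fun p => hD' p p.2)
    (fun p => ((x + s).factorization p : ℤ) - x.factorization p)
    (fun p => by
      have h1 := hv (x + s) (by omega) le_rfl p
      have h2 := hv x hx0 (by omega) p
      rw [← Nat.cast_mul, abs_le]
      omega)
    (by rw [hΛ]; exact hpos.ne')
    (by
      rw [hΛ, abs_of_pos hpos, ← Real.log_div (by positivity) hx'.ne']
      have h1 := Real.log_le_sub_one_of_pos (x := ((x + s : ℕ) : ℝ) / x) (by positivity)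
      have h2 : ((x + s : ℕ) : ℝ) / x - 1 = s / x := by push_cast; field_simp; ring
      have h3 : (s : ℝ) ^ 2 ≤ 4 * x := by exact_mod_cast h.sq_le
      have h4 : (2 : ℝ) ^ T * 8 ≤ s := by
        rw [pow_add] at hs1
        exact_mod_cast hs1
      have h5 : (2 : ℝ) ^ T * (s / x) < 1 := by
        rw [← mul_div_assoc, div_lt_one hx']
        nlinarith
      exact lt_of_le_of_lt (by rw [← h2]; gcongr) h5)
  rw [← hN] at this
  omega

theorem finite_second (y : ℕ) :
    {q : ℕ | (∃ s x, Adm q s x) ∧ (q.primeFactors.filter (y < ·)).card ≤ 1}.Finite := by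
  classical
  let S : Finset ℕ := (range (y + 5)).filter Nat.Prime
  have hS : ∀ p ∈ S, p.Prime := fun p hp => (mem_filter.1 hp).2
  refine (((finite_roots S hS).union (finite_units S hS 0 (by norm_num))).union
    (finite_units S hS 1 (by norm_num))).subset ?_
  rintro q ⟨⟨s, x, h⟩, hc⟩
  have hq0 : q ≠ 0 := by have := h.hq; omega
  have key : ∀ v, v ∣ x * (x + s) * s → ¬ v.primeFactors ⊆ S →
      ∃ p, p.Prime ∧ 5 ≤ p ∧ p ∣ v ∧ p ∈ q.primeFactors.filter (y < ·) := by
    intro v hv hn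
    obtain ⟨p, hp, hpS⟩ := not_subset.1 hn
    have h1 := Nat.prime_of_mem_primeFactors hp
    have h2 := Nat.dvd_of_mem_primeFactors hp
    have h3 : y + 5 ≤ p := not_lt.1 fun h => hpS (mem_filter.2 ⟨mem_range.2 h, h1⟩)
    refine ⟨p, h1, by omega, h2, mem_filter.2 ⟨Nat.mem_primeFactors.2 ⟨h1, ?_, hq0⟩, by omega⟩⟩
    refine ((Nat.Prime.dvd_mul h1).1 (h.rad p h1 (h2.trans hv))).resolve_left fun h4 => ?_
    have := Nat.le_of_dvd (by norm_num) h4
    omega
  have two : ∀ v w, v ∣ x * (x + s) * s → w ∣ x * (x + s) * s →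
      (∀ p, p ∣ v → p ∣ w → p ∣ x ∧ p ∣ s) → v.primeFactors ⊆ S ∨ w.primeFactors ⊆ S := by
    intro v w hv hw hvw
    by_contra hn
    obtain ⟨p, p1, p2, p3, p4⟩ := key v hv fun h => hn (Or.inl h)
    obtain ⟨r, -, -, r3, r4⟩ := key w hw fun h => hn (Or.inr h)
    obtain rfl := card_le_one.1 hc p p4 r r4
    exact h.not_two p1 p2 (hvw p p3 r3).1 (hvw p p3 r3).2
  have d1 : x ∣ x * (x + s) * s := (Dvd.intro _ rfl).mul_right _
  have d2 : x + s ∣ x * (x + s) * s := (Dvd.intro_left _ rfl).mul_right _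
  have d3 : s ∣ x * (x + s) * s := Dvd.intro_left _ rfl
  have t1 := two _ _ d1 d2 fun p h1 h2 => ⟨h1, (Nat.dvd_add_right h1).1 h2⟩
  have t2 := two _ _ d1 d3 fun p h1 h2 => ⟨h1, h2⟩
  have t3 := two _ _ d2 d3 fun p h1 h2 => ⟨(Nat.dvd_add_left h2).1 h1, h2⟩
  by_cases a1 : x.primeFactors ⊆ S
  · rcases t3 with a2 | a2
    · exact Or.inl (Or.inl ⟨s, x, h, a1, a2⟩)
    · exact Or.inl (Or.inr ⟨s, x, h, by simpa using a1, a2⟩)
  · exact Or.inr ⟨s, x, h, by simpa using t1.resolve_left a1, t2.resolve_left a1⟩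

end Pool.Agent.Lib.MP_68c55c_lc
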