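import Pool.Agent.Lib.MP_68c55c_lc.TrD
import Pool.Agent.Lib.MP_68c55c_lc.Rad

/-!
Perfect 2-codes whose size is multiplicatively dependent with the alphabet size.
-/

set_option autoImplicit false

namespace Pool.Agent.Lib.MP_68c55c_lc.Sys

lemma uniq {p α β u v : ℕ} (hp : p.Prime) (hu : ¬ p ∣ u) (hv : ¬ p ∣ v)
    (h : p ^ α * u = p ^ β * v) : α = β ∧ u = v := by
  have key : ∀ {α β u v : ℕ}, ¬ p ∣ v → p ^ α * u = p ^ β * v → α ≤ β := fun hv h =>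
    (Nat.pow_dvd_pow_iff_le_right hp.one_lt).1
      (((hp.coprime_iff_not_dvd.2 hv).pow_left _).dvd_of_dvd_mul_right ⟨_, h.symm⟩)
  obtain rfl := le_antisymm (key hv h) (key hu h.symm)
  exact ⟨rfl, Nat.eq_of_mul_eq_mul_left (pow_pos hp.pos _) h⟩

lemma sq3 {u : ℕ} (h : ¬ 3 ∣ u) : u ^ 2 % 3 = 1 := by
  have : u % 3 = 1 ∨ u % 3 = 2 := by omega
  rcases this with h | h <;> simp [pow_two, Nat.mul_mod, h]

lemma sq4 {u : ℕ} (h : ¬ 2 ∣ u) : u ^ 2 % 4 = 1 := by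
  have : u % 4 = 1 ∨ u % 4 = 3 := by omega
  rcases this with h | h <;> simp [pow_two, Nat.mul_mod, h]

lemma arith {q s x n a j : ℕ} (hq : ¬ IsPrimePow q) (hq2 : 2 ≤ q) (hs : 2 ≤ s)
    (e1 : 4 * x + 2 * s + q = q * s ^ 2 + 6)
    (e2 : 4 * ((q : ℤ) - 1) * ((n : ℤ) - 2) = (q : ℤ) ^ 2 * ((s : ℤ) ^ 2 - 1))
    (e3 : x * (x + s) ∣ 2 * q ^ n) (rad : ∀ p : ℕ, p.Prime → p ∣ s → p ∣ 2 * q) (ha : 1 ≤ a)
    (h : (x * (x + s)) ^ a = 2 ^ a * q ^ j) : False := by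
  have hq6 : 6 ≤ q := by
    by_contra h6
    have : q = 2 ∨ q = 3 ∨ q = 2 ^ 2 ∨ q = 5 := by omega
    rcases this with rfl | rfl | rfl | rfl
    exacts [hq Nat.prime_two.isPrimePow, hq Nat.prime_three.isPrimePow,
      hq (Nat.prime_two.isPrimePow.pow two_ne_zero), hq Nat.prime_five.isPrimePow]
  obtain ⟨d, rfl⟩ : ∃ d, q = d + 6 := ⟨q - 6, by omega⟩
  have hx : 3 * d + 20 ≤ 4 * x := by nlinarith [Nat.mul_le_mul hs hs]
  have hj : a < j := by
    by_contra! hj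
    have h1 : 2 * (d + 6) < x * (x + s) := by nlinarith
    have h2 := Nat.pow_lt_pow_left h1 (by omega : a ≠ 0)
    rw [h, mul_pow] at h2
    exact absurd (Nat.lt_of_mul_lt_mul_left h2) (Nat.pow_le_pow_right (by omega) hj).not_gt
  obtain ⟨X, σ, hc, hX, hσ⟩ := Nat.exists_coprime x s
  generalize Nat.gcd x s = g at hX hσ
  have g0 : g ≠ 0 := by rintro rfl; omega
  have nX : ∀ p : ℕ, p.Prime → p ∣ σ → ¬ p ∣ X := fun p hp h1 h2 =>
    hp.one_lt.ne' (Nat.eq_one_of_dvd_coprimes hc h2 h1)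
  have nY : ∀ p : ℕ, p.Prime → p ∣ σ → ¬ p ∣ X * (X + σ) := fun p hp h1 h2 =>
    (hp.dvd_mul.1 h2).elim (nX p hp h1) fun h3 => nX p hp h1 ((Nat.dvd_add_left h1).1 h3)
  have gd : ∀ m, m ∣ x → m ∣ s → m ∣ d := fun m h1 h2 => by
    have h3 : m ∣ 4 * x + 2 * s + d := by
      rw [show 4 * x + 2 * s + d = (d + 6) * s * s by nlinarith]
      exact h2.mul_left _
    exact (Nat.dvd_add_right (dvd_add (h1.mul_left 4) (h2.mul_left 2))).1 h3
  have h' : (g ^ 2 * (X * (X + σ))) ^ a = 2 ^ a * (d + 6) ^ j := by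
    rw [← h, hX, hσ]; congr 1; ring
  have n3 : ¬ 3 ∣ σ := fun h3 => by
    have p3 := Nat.prime_three
    have q3 : 3 ∣ d + 6 := by have := rad 3 p3 (hσ ▸ h3.mul_right _); omega
    obtain ⟨c, g', n1, rfl⟩ := Nat.exists_eq_pow_mul_and_not_dvd g0 3 (by omega)
    obtain ⟨e, q', n2, hq'⟩ := Nat.exists_eq_pow_mul_and_not_dvd (n := d + 6) (by omega) 3 (by omega)
    obtain ⟨u1, u2⟩ := uniq (α := 2 * c * a) (β := e * j) (u := (g' ^ 2 * (X * (X + σ))) ^ a)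
      (v := 2 ^ a * q' ^ j) p3
      (fun h => (p3.dvd_mul.1 (p3.dvd_of_dvd_pow h)).elim (fun h => n1 (p3.dvd_of_dvd_pow h))
        (nY 3 p3 h3))
      (fun h => (p3.dvd_mul.1 h).elim (fun h => by have := p3.dvd_of_dvd_pow h; omega)
        fun h => n2 (p3.dvd_of_dvd_pow h))
      (by rw [hq'] at h'
          calc _ = ((3 ^ c * g') ^ 2 * (X * (X + σ))) ^ a := by
                rw [pow_mul, ← mul_pow]; congr 1; ring
            _ = _ := by rw [h', mul_pow, ← pow_mul]; ring)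
    rcases e with _ | _ | e
    · simp at hq'; exact n2 (hq' ▸ q3)
    · rw [zero_add, one_mul] at u1
      rw [← u1, pow_mul q', ← mul_pow] at u2
      have u3 := Nat.pow_left_injective (by omega) u2
      obtain ⟨t, rfl⟩ := h3
      have v1 := sq3 (u := g' * X) fun h => (p3.dvd_mul.1 h).elim n1 (nX 3 p3 ⟨t, rfl⟩)
      have v2 := sq3 (u := q' ^ c) fun h => n2 (p3.dvd_of_dvd_pow h)
      have v3 : (g' * X) ^ 2 + 3 * (g' ^ 2 * X * t) = 2 * (q' ^ c) ^ 2 := by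
        rw [← pow_mul, mul_comm c, ← u3]; ring
      omega
    · have v1 : c ≤ 1 := by
        by_contra! hc2
        have v2 : 3 ^ 2 ∣ 3 ^ c * g' := (pow_dvd_pow 3 hc2).mul_right _
        have v3 := gd _ (hX ▸ v2.mul_left _) (hσ ▸ v2.mul_left _)
        have v4 : 3 ^ 2 ∣ d + 6 := hq' ▸ (pow_dvd_pow 3 (by omega)).mul_right _
        omega
      nlinarith [Nat.mul_le_mul_right a v1]
  have n4 : ¬ 4 ∣ σ := fun ⟨t, ht⟩ => by
    have p2 := Nat.prime_two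
    have h2 : 2 ∣ σ := ⟨2 * t, by omega⟩
    obtain ⟨c, g', n1, rfl⟩ := Nat.exists_eq_pow_mul_and_not_dvd g0 2 (by omega)
    have v0 : 4 * (X * (2 ^ c * g')) + 8 * (t * (2 ^ c * g')) + d =
        16 * ((d + 6) * (t * (2 ^ c * g')) ^ 2) := by
      rw [hX, hσ, ht] at e1; linarith
    obtain ⟨q', hq', n2⟩ : ∃ q', d + 6 = 2 * q' ∧ ¬ 2 ∣ q' := ⟨(d + 6) / 2, by omega, by omega⟩
    obtain ⟨u1, u2⟩ := uniq (α := 2 * c * a) (β := a + j) (u := (g' ^ 2 * (X * (X + σ))) ^ a)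
      (v := q' ^ j) p2
      (fun h => (p2.dvd_mul.1 (p2.dvd_of_dvd_pow h)).elim (fun h => n1 (p2.dvd_of_dvd_pow h))
        (nY 2 p2 h2))
      (fun h => n2 (p2.dvd_of_dvd_pow h))
      (by rw [hq'] at h'
          calc _ = ((2 ^ c * g') ^ 2 * (X * (X + σ))) ^ a := by
                rw [pow_mul, ← mul_pow]; congr 1; ring
            _ = _ := by rw [h', mul_pow]; ring)
    rcases c with _ | c
    · omega
    rw [show j = (2 * c + 1) * a by linarith, pow_mul] at u2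
    have u3 := Nat.pow_left_injective (by omega) u2
    have v1 := sq4 (u := g' * X) fun h => (p2.dvd_mul.1 h).elim n1 (nX 2 p2 h2)
    have v2 := sq4 (u := q' ^ c) fun h => n2 (p2.dvd_of_dvd_pow h)
    have v3 : (g' * X) ^ 2 + 4 * (g' ^ 2 * X * t) = q' * (q' ^ c) ^ 2 := by
      rw [← pow_mul, mul_comm c, ← pow_succ', ← u3, ht]; ring
    have v4 : X * (2 ^ (c + 1) * g') = 2 * (X * (2 ^ c * g')) := by ring
    have v5 : t * (2 ^ (c + 1) * g') = 2 * (t * (2 ^ c * g')) := by ring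
    have v6 : q' % 4 = 3 := by omega
    have v7 := Nat.mul_mod q' ((q' ^ c) ^ 2) 4
    rw [v6, v2] at v7
    omega
  have hσ2 : σ ∣ 2 := (Nat.dvd_iff_prime_pow_dvd_dvd _ _).2 fun p k hp hk => by
    rcases k with _ | k
    · simp
    have h1 : p ∣ σ := (dvd_pow_self p k.succ_ne_zero).trans hk
    have h2 : p ∣ s := hσ ▸ h1.mul_right _
    by_cases hp2 : p = 2
    · subst hp2
      rcases k with _ | k
      · simp
      · exact absurd ((pow_dvd_pow 2 (by omega : 2 ≤ k + 1 + 1)).trans hk) n4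
    have h3 : p ∣ d + 6 := (hp.dvd_mul.1 (rad p hp h2)).resolve_left fun h =>
      hp2 ((Nat.prime_dvd_prime_iff_eq hp Nat.prime_two).1 h)
    have h4 : p ∣ x * (x + s) :=
      hp.dvd_of_dvd_pow (h ▸ (h3.trans (dvd_pow_self _ (by omega))).mul_left _)
    have h5 : p ∣ x := (hp.dvd_mul.1 h4).elim id fun h => (Nat.dvd_add_left h2).1 h
    have h6 : p ∣ 2 * 3 := (Nat.dvd_add_right (gd p h5 h2)).1 h3
    rcases hp.dvd_mul.1 h6 with h | h
    · exact absurd ((Nat.prime_dvd_prime_iff_eq hp Nat.prime_two).1 h) hp2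
    · exact absurd ((Nat.prime_dvd_prime_iff_eq hp Nat.prime_three).1 h ▸ h1) n3
  rcases (Nat.dvd_prime Nat.prime_two).1 hσ2 with rfl | rfl
  · have := Tr.finish hq hq2 le_rfl hs e1 e2 e3 ⟨X, by rw [hX, hσ]; ring⟩
    omega
  have o1 := nX 2 Nat.prime_two dvd_rfl
  obtain ⟨t, ht⟩ : 4 * g ∣ d := by
    refine (Nat.dvd_add_right (a := 4 * g) (b := 4 * x + 2 * s) ⟨X + 1, by rw [hX, hσ]; ring⟩).1
      ⟨(d + 6) * g, ?_⟩
    rw [hσ] at e1 ⊢; linarith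
  have o2 : X + 1 + t = 2 * ((2 * g * t + 3) * g) := by
    refine Nat.eq_of_mul_eq_mul_left (show 0 < 4 * g by omega) ?_
    rw [hX, hσ, ht] at e1; linarith
  obtain ⟨t, rfl⟩ : 2 ∣ t := by omega
  rcases Nat.eq_zero_or_pos t with rfl | t0
  · obtain rfl : d = 0 := by omega
    exact Tr.six hs (by simpa using e1) (by simpa using e3)
  obtain ⟨ν, hν⟩ : ((d : ℤ) + 5) ∣ (s : ℤ) ^ 2 - 1 := by
    have h1 : ((d : ℤ) + 5) ∣ ((d : ℤ) + 6) ^ 2 * ((s : ℤ) ^ 2 - 1) := by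
      refine ⟨4 * ((n : ℤ) - 2), ?_⟩
      push_cast at e2
      linear_combination -e2
    have h2 : IsCoprime ((d : ℤ) + 5) ((d : ℤ) + 6) := ⟨-1, 1, by ring⟩
    exact (h2.pow_right (n := 2)).dvd_of_dvd_mul_left h1
  have hd : (d : ℤ) = 4 * s * t := by rw [ht, hσ]; push_cast; ring
  have hs' : (2 : ℤ) ≤ s := by exact_mod_cast hs
  have t1 : (1 : ℤ) ≤ t := by exact_mod_cast t0
  have d0 : (8 : ℤ) ≤ d := by nlinarith
  have hν1 : 1 ≤ ν := by
    by_contra h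
    nlinarith [mul_nonneg (by linarith : (0 : ℤ) ≤ d + 5) (by linarith : 0 ≤ -ν)]
  have k1 : (d : ℤ) + 5 ∣ 16 * t ^ 2 - 25 :=
    ⟨(d - 5) - 16 * ν * t ^ 2, by
      linear_combination (-16 * (t : ℤ) ^ 2) * hν - ((d : ℤ) + 4 * s * t) * hd⟩
  have k2 : 16 * (t : ℤ) ^ 2 < d := by
    by_contra! k2
    have : (d : ℤ) + 6 ≤ s ^ 2 := by nlinarith
    nlinarith [mul_le_mul this k2 (by linarith) (by positivity)]
  rcases t1.eq_or_lt with t2 | t2
  · rw [← t2] at k1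
    have := Int.le_of_dvd (by norm_num) ((dvd_neg).2 k1)
    linarith
  · have := Int.le_of_dvd (by nlinarith) k1
    linarith

end Pool.Agent.Lib.MP_68c55c_lc.Sys
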