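import Pool.Agent.Lib.MP_68c55c_lc.Rad

/-!
Transitive perfect 2-codes, part A: Lloyd's equation for boxes and the counting of a box.
-/

set_option autoImplicit false

namespace Pool.Agent.Lib.MP_68c55c_lc.Tr

open Finset Polynomial

variable {q n : ℕ}

/-- Product function attached to letter functions `h` and a set of coordinates. -/
def ch (h : Fin n → Fin q → ℤ) (S : Finset (Fin n)) (x : Fin n → Fin q) : ℤ :=
  ∏ t ∈ S, h t (x t)

lemma ch_eq (h : Fin n → Fin q → ℤ) (S : Finset (Fin n)) (x : Fin n → Fin q) :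
    ch h S x = ∏ t, if t ∈ S then h t (x t) else 1 := by
  rw [ch, prod_ite_mem, univ_inter]

lemma ball_poly (h : Fin n → Fin q → ℤ) (h0 : ∀ t, ∑ a, h t a = 0) (c : Fin n → Fin q)
    (S : Finset (Fin n)) :
    ∑ x : Fin n → Fin q, (X : ℤ[X]) ^ hammingDist x c * C (ch h S x) =
      C (ch h S c) * ∏ t, (1 + C (if t ∈ S then (-1 : ℤ) else (q : ℤ) - 1) * X) := by
  have h1 : ∀ x : Fin n → Fin q, (X : ℤ[X]) ^ hammingDist x c * C (ch h S x) =
      ∏ t, ((if x t = c t then 1 else X) * C (if t ∈ S then h t (x t) else 1)) := by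
    intro x
    rw [X_pow_dist, ch_eq, map_prod, prod_mul_distrib]
  simp only [h1]
  rw [← Fintype.piFinset_univ, ← prod_univ_sum (fun _ => univ)
    (fun t a => ((if a = c t then 1 else X) * C (if t ∈ S then h t a else 1) : ℤ[X])),
    ch_eq, map_prod, ← prod_mul_distrib]
  refine prod_congr rfl fun t _ => ?_
  have h2 : ∀ a : Fin q, ((if a = c t then 1 else X) * C (if t ∈ S then h t a else 1) : ℤ[X])
      = X * C (if t ∈ S then h t a else 1) +
        (if a = c t then (1 - X) * C (if t ∈ S then h t a else 1) else 0) := by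
    intro a; split_ifs <;> ring
  simp only [h2]
  rw [sum_add_distrib, sum_ite_eq', if_pos (mem_univ _), ← mul_sum, ← map_sum]
  by_cases ht : t ∈ S
  · simp only [if_pos ht, h0]
    simp; ring
  · simp only [if_neg ht]
    simp; ring

lemma ball (h : Fin n → Fin q → ℤ) (h0 : ∀ t, ∑ a, h t a = 0) (c : Fin n → Fin q)
    (S : Finset (Fin n)) :
    2 * ∑ x : Fin n → Fin q, (if hammingDist x c ≤ 2 then ch h S x else 0) =
      LL q n S.card * ch h S c := by
  have h' := congrArg low (ball_poly h h0 c S)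
  rw [map_sum] at h'
  simp only [low_X_pow] at h'
  rw [h', low_apply]
  simp only [coeff_C_mul]
  obtain ⟨k0, k1, k2⟩ :=
    coeff_prod_lin (fun t : Fin n => if t ∈ S then (-1 : ℤ) else (q : ℤ) - 1) univ
  have h3 : ∑ t : Fin n, (if t ∈ S then (-1 : ℤ) else (q : ℤ) - 1) ^ 2 =
      ∑ t : Fin n, (if t ∈ S then (1 : ℤ) else ((q : ℤ) - 1) ^ 2) :=
    sum_congr rfl fun t _ => by split_ifs <;> ring
  rw [h3, sum_ite_card, sum_ite_card] at k2
  rw [sum_ite_card] at k1
  rw [k0, k1, LL]
  linear_combination (ch h S c) * k2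

lemma sum_ch (h : Fin n → Fin q → ℤ) (h0 : ∀ t, ∑ a, h t a = 0) (S : Finset (Fin n))
    (hS : S ≠ ∅) : ∑ x : Fin n → Fin q, ch h S x = 0 := by
  obtain ⟨t, ht⟩ := nonempty_iff_ne_empty.2 hS
  simp only [ch_eq]
  rw [← Fintype.piFinset_univ, ← prod_univ_sum (fun _ => univ)
    (fun t a => if t ∈ S then h t a else 1)]
  exact prod_eq_zero (mem_univ t) (by simp only [if_pos ht, h0])

lemma lloyd_gen (K : Finset (Fin n → Fin q))
    (hK : ∀ x : Fin n → Fin q, ∃! c : Fin n → Fin q, c ∈ K ∧ hammingDist x c ≤ 2)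
    (h : Fin n → Fin q → ℤ) (h0 : ∀ t, ∑ a, h t a = 0) (S : Finset (Fin n)) (hS : S ≠ ∅) :
    LL q n S.card * ∑ c ∈ K, ch h S c = 0 := by
  rw [mul_sum]
  simp only [← ball h h0]
  rw [← mul_sum, sum_comm]
  have : ∀ x : Fin n → Fin q,
      ∑ c ∈ K, (if hammingDist x c ≤ 2 then ch h S x else 0) = ch h S x := by
    intro x
    obtain ⟨c, ⟨hc, hd⟩, hu⟩ := hK x
    rw [sum_eq_single_of_mem c hc, if_pos hd]
    intro c' hc' hne
    rw [if_neg]
    intro hd'
    exact hne (hu c' ⟨hc', hd'⟩)
  simp only [this, sum_ch h h0 S hS, mul_zero]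

/-- Number of coordinates of `z` outside the box `O`. -/
def out (O : Fin n → Finset (Fin q)) (z : Fin n → Fin q) : ℕ :=
  (univ.filter fun t => z t ∉ O t).card

/-- The letter functions of a box. -/
def hb (m : ℕ) (O : Fin n → Finset (Fin q)) (t : Fin n) (a : Fin q) : ℤ :=
  if a ∈ O t then (m : ℤ) - 1 else -1

lemma sum_hb (m Q : ℕ) (hq : q = Q * m) (O : Fin n → Finset (Fin q)) (hO : ∀ t, (O t).card = Q)
    (t : Fin n) : ∑ a, hb m O t a = 0 := by
  have : ∀ a, hb m O t a = (if a ∈ O t then (m : ℤ) else 0) - 1 := by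
    intro a; unfold hb; split_ifs <;> simp
  simp only [this, sum_sub_distrib, sum_ite_mem, univ_inter, sum_const, hO, card_univ,
    Fintype.card_fin, nsmul_eq_mul]
  rw [hq]; push_cast; ring

lemma gen_poly (m : ℕ) (O : Fin n → Finset (Fin q)) (z : Fin n → Fin q) :
    ∑ S : Finset (Fin n), C (ch (hb m O) S z) * (X : ℤ[X]) ^ S.card =
      (1 + C ((m : ℤ) - 1) * X) ^ (n - out O z) * (1 - X) ^ out O z := by
  have h1 : ∀ S : Finset (Fin n), C (ch (hb m O) S z) * (X : ℤ[X]) ^ S.card =
      ∏ t ∈ S, C (hb m O t (z t)) * X := by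
    intro S
    rw [prod_mul_distrib, prod_const, ch, map_prod]
  simp only [h1]
  rw [← powerset_univ, ← prod_one_add]
  have h2 : ∀ t, (1 + C (hb m O t (z t)) * X : ℤ[X]) =
      if z t ∉ O t then 1 - X else 1 + C ((m : ℤ) - 1) * X := by
    intro t
    unfold hb
    by_cases ht : z t ∈ O t
    · simp [ht]
    · simp [ht, sub_eq_add_neg]
  simp only [h2]
  rw [prod_ite, prod_const, prod_const, mul_comm]
  congr 2
  have := card_filter_add_card_filter_not (s := (univ : Finset (Fin n))) (fun t => z t ∉ O t)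
  rw [card_univ, Fintype.card_fin] at this
  unfold out
  omega

/-- The core divisibility for a box that is far from all codewords. -/
lemma core (K : Finset (Fin n → Fin q))
    (hK : ∀ x : Fin n → Fin q, ∃! c : Fin n → Fin q, c ∈ K ∧ hammingDist x c ≤ 2)
    (m Q : ℕ) (hq : q = Q * m) (O : Fin n → Finset (Fin q)) (hO : ∀ t, (O t).card = Q)
    (s x D : ℕ) (hs : 1 ≤ s) (hx : 1 ≤ x)
    (hr : ∀ i : ℕ, LL q n i = 0 → i = x ∨ i = x + s)
    (hD : ∀ j, D ∣ (K.filter fun c => out O c = j).card)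
    (hfar : ∀ c ∈ K, 2 ≤ out O c) : s * D ∣ x * K.card := by
  let β : Finset (Fin n) → ℤ := fun S => ∑ c ∈ K, ch (hb m O) S c
  let g : ℕ → ℤ[X] := fun j => (1 + C ((m : ℤ) - 1) * X) ^ (n - j) * (1 - X) ^ j
  have hG : ∑ S : Finset (Fin n), C (β S) * (X : ℤ[X]) ^ S.card = ∑ c ∈ K, g (out O c) := by
    simp only [β, map_sum, sum_mul]
    rw [sum_comm]
    exact sum_congr rfl fun c _ => gen_poly m O c
  have hdv : (1 - X : ℤ[X]) ^ 2 ∣ ∑ S : Finset (Fin n), C (β S) * (X : ℤ[X]) ^ S.card := by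
    rw [hG]
    exact dvd_sum fun c hc => Dvd.dvd.mul_left (pow_dvd_pow _ (hfar c hc)) _
  obtain ⟨H, hH⟩ := hdv
  have e0 : ∑ S, β S = 0 := by
    have := congrArg (eval 1) hH
    simpa [eval_finsetSum] using this
  have e1 : ∑ S : Finset (Fin n), (S.card : ℤ) * β S = 0 := by
    have := congrArg (fun P => eval 1 (derivative P)) hH
    simp only [derivative_sum, eval_finsetSum, eval_mul,
      eval_C, eval_pow, eval_X, one_pow, mul_one, derivative_mul, derivative_pow, eval_add,
      eval_sub, eval_one, sub_self] at this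
    simp only [mul_comm (β _)] at this
    simpa using this
  have e2 : (D : ℤ) ∣ ∑ S : Finset (Fin n), if S.card = x + s then β S else 0 := by
    have h1 := congrArg (fun P => coeff P (x + s)) hG
    simp only [finsetSum_coeff, coeff_C_mul, coeff_X_pow, mul_ite, mul_one, mul_zero] at h1
    simp only [eq_comm (a := x + s)] at h1
    rw [h1, sum_comp (fun j => (g j).coeff (x + s)) (out O)]
    refine dvd_sum fun j _ => ?_
    rw [nsmul_eq_mul]
    exact Dvd.dvd.mul_right (by exact_mod_cast hD j) _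
  have hβ0 : β ∅ = K.card := by simp [β, ch]
  have e3 : ∑ S : Finset (Fin n), ((S.card : ℤ) - x) * β S = 0 := by
    simp only [sub_mul, sum_sub_distrib, ← mul_sum, e0, e1]; simp
  have e4 : ∀ S : Finset (Fin n), ((S.card : ℤ) - x) * β S =
      s * (if S.card = x + s then β S else 0) - if S = ∅ then (x : ℤ) * K.card else 0 := by
    intro S
    by_cases hS : S = ∅
    · subst hS
      rw [if_pos rfl, if_neg (by simp; omega), hβ0]; simp
    · rw [if_neg hS]
      rcases mul_eq_zero.1 (lloyd_gen K hK (hb m O) (sum_hb m Q hq O hO) S hS) with h7 | h7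
      · rcases hr _ h7 with h | h
        · rw [if_neg (by omega), h]; simp
        · rw [if_pos h, h]; push_cast; ring
      · change β S = 0 at h7
        rw [h7]; simp
  simp only [e4, sum_sub_distrib, ← mul_sum, sum_ite_eq', mem_univ, if_true] at e3
  obtain ⟨w, hw⟩ := e2
  rw [hw] at e3
  have : ((s * D : ℕ) : ℤ) ∣ ((x * K.card : ℕ) : ℤ) := ⟨w, by push_cast; linear_combination -e3⟩
  exact_mod_cast this

/-- Counting the points of a box. -/
lemma count (K : Finset (Fin n → Fin q))
    (hK : ∀ x : Fin n → Fin q, ∃! c : Fin n → Fin q, c ∈ K ∧ hammingDist x c ≤ 2)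
    (Q : ℕ) (hQ : 2 ≤ Q) (hn : 1 ≤ n) (O : Fin n → Finset (Fin q)) (hO : ∀ t, (O t).card = Q) :
    (K.filter fun c => out O c ≤ 1).card * (Q * (n - 1)) ≤ Q ^ n := by
  choose ν hν hu using hK
  have hB : (Fintype.piFinset O).card = Q ^ n := by
    rw [Fintype.card_piFinset]; simp [hO]
  rw [← hB, card_eq_sum_card_fiberwise (s := Fintype.piFinset O) (f := ν) (t := K)
    (fun z _ => (hν z).1), ← smul_eq_mul, ← sum_const]
  refine le_trans (sum_le_sum fun c hc => ?_)
    (sum_le_sum_of_subset (f := fun c => ((Fintype.piFinset O).filter fun z => ν z = c).card)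
      (filter_subset _ _))
  obtain ⟨hcK, hc1⟩ := mem_filter.1 hc
  obtain ⟨i, hi⟩ : ∃ i : Fin n, ∀ t, t ≠ i → c t ∈ O t := by
    haveI : Nonempty (Fin n) := ⟨⟨0, by omega⟩⟩
    obtain ⟨i, hi⟩ := (card_le_one_iff_subset_singleton
      (s := univ.filter fun t => c t ∉ O t)).1 hc1
    refine ⟨i, fun t ht => ?_⟩
    by_contra h
    exact ht (mem_singleton.1 (hi (by simp [h])))
  have halt : ∀ j, ∃ b ∈ O j, b ≠ c j := fun j => exists_mem_ne (by rw [hO]; omega) _
  choose alt halt1 halt2 using halt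
  have hcard : (O i ×ˢ (univ.erase i)).card = Q * (n - 1) := by
    rw [card_product, hO, card_erase_of_mem (mem_univ _), card_univ, Fintype.card_fin]
  rw [← hcard]
  refine card_le_card_of_injOn
    (fun w => Function.update (Function.update c w.2 (alt w.2)) i w.1) ?_ ?_
  · rintro ⟨a, j⟩ hw
    obtain ⟨ha, hj⟩ := mem_product.1 (mem_coe.1 hw)
    have hj' : j ≠ i := ne_of_mem_erase hj
    refine mem_coe.2 (mem_filter.2 ⟨Fintype.mem_piFinset.2 fun t => ?_, ?_⟩)
    · by_cases h1 : t = i
      · subst h1; simpa using ha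
      · by_cases h2 : t = j
        · subst h2; simpa [Function.update_of_ne h1] using halt1 t
        · simpa [Function.update_of_ne h1, Function.update_of_ne h2] using hi t h1
    · refine (hu _ c ⟨hcK, ?_⟩).symm
      refine le_trans (card_le_card (t := {i, j}) fun t ht => ?_) card_le_two
      simp only [mem_filter, mem_univ, true_and] at ht
      by_contra h
      simp only [mem_insert, mem_singleton, not_or] at h
      exact ht (by rw [Function.update_of_ne h.1, Function.update_of_ne h.2])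
  · rintro ⟨a, j⟩ hw ⟨a', j'⟩ hw' he
    have hj : j ≠ i := ne_of_mem_erase (mem_product.1 (mem_coe.1 hw)).2
    have h1 := congrFun he i
    have h2 := congrFun he j
    simp only [Function.update_self, Function.update_of_ne hj] at h1 h2
    by_cases h3 : j = j'
    · rw [h1, h3]
    · rw [Function.update_of_ne h3] at h2
      exact absurd h2 (halt2 j)

end Pool.Agent.Lib.MP_68c55c_lc.Tr
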