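import Pool.Agent.Lib.MP_68c55c_lc.TrA

/-!
Transitive perfect 2-codes, part B: a Sylow subgroup fixes a box.
-/

set_option autoImplicit false

namespace Pool.Agent.Lib.MP_68c55c_lc.Tr

open Finset MulAction

lemma sylow_fix {G α β : Type} [Group G] [Finite G] [MulAction G α] [MulAction G β]
    (p : ℕ) [hp : Fact p.Prime] (hβ : ¬ p ∣ Nat.card β) (K : Finset α) (k : ℕ)
    (hk : ∀ c ∈ K, p ^ k ∣ (orbit G c).ncard) :
    ∃ b : β, ∀ A : Finset α, A ⊆ K → (∀ g : G, g • b = b → ∀ a ∈ A, g • a ∈ A) →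
      p ^ k ∣ A.card := by
  classical
  obtain ⟨P⟩ : Nonempty (Sylow p G) := inferInstance
  obtain ⟨b, hb⟩ := P.isPGroup'.nonempty_fixed_point_of_prime_not_dvd_card β hβ
  have horb : ∀ c ∈ K, p ^ k ∣ (orbit (P : Subgroup G) c).ncard := by
    intro c hc
    have h1 := hk c hc
    rw [← index_stabilizer] at h1 ⊢
    have h2 : (stabilizer (P : Subgroup G) c) = (stabilizer G c).subgroupOf P := by
      ext g; simp [Subgroup.mem_subgroupOf, Subgroup.smul_def]
    rw [h2]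
    change _ ∣ (stabilizer G c).relIndex P
    have h3 := Subgroup.relIndex_mul_index (inf_le_right : stabilizer G c ⊓ P ≤ P)
    rw [Subgroup.inf_relIndex_right] at h3
    have h4 := h1.trans (Subgroup.index_dvd_of_le (inf_le_left : stabilizer G c ⊓ P ≤ _))
    rw [← h3] at h4
    exact (((Nat.Prime.coprime_iff_not_dvd hp.out).2 P.not_dvd_index).pow_left k).dvd_of_dvd_mul_right
      h4
  have main : ∀ A : Finset α, A ⊆ K → (∀ g : (P : Subgroup G), ∀ a ∈ A, g • a ∈ A) →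
      p ^ k ∣ A.card := by
    intro A
    induction A using Finset.strongInduction with
    | H A ih =>
      intro hA hinv
      rcases A.eq_empty_or_nonempty with rfl | ⟨a, ha⟩
      · simp
      have hfin : (orbit (P : Subgroup G) a).Finite := Set.finite_range _
      have hsub : hfin.toFinset ⊆ A := by
        intro z hz
        obtain ⟨g, rfl⟩ := hfin.mem_toFinset.1 hz
        exact hinv g a ha
      have h1 := horb a (hA ha)
      rw [Set.ncard_eq_toFinset_card _ hfin] at h1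
      rw [← card_sdiff_add_card_eq_card hsub]
      refine dvd_add (ih _ ?_ (sdiff_subset.trans hA) ?_) h1
      · exact sdiff_ssubset hsub ⟨a, hfin.mem_toFinset.2 (mem_orbit_self a)⟩
      · intro g z hz
        obtain ⟨hz1, hz2⟩ := mem_sdiff.1 hz
        refine mem_sdiff.2 ⟨hinv g z hz1, fun h => hz2 ?_⟩
        obtain ⟨g', hg'⟩ := hfin.mem_toFinset.1 h
        refine hfin.mem_toFinset.2 ⟨g⁻¹ * g', ?_⟩
        simp only at hg' ⊢
        rw [mul_smul, hg', inv_smul_smul]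
  exact ⟨b, fun A hA hinv => main A hA fun g a ha => hinv g (hb g) a ha⟩

lemma not_dvd_choose (p : ℕ) [hp : Fact p.Prime] (m : ℕ) (hm : ¬ p ∣ m) (a : ℕ) :
    ¬ p ∣ (p ^ a * m).choose (p ^ a) := by
  induction a with
  | zero => simpa using hm
  | succ a ih =>
    have h := Choose.choose_modEq_choose_mod_mul_choose_div_nat (n := p ^ (a + 1) * m)
      (k := p ^ (a + 1)) (p := p)
    have h0 : 0 < p := hp.out.pos
    have e1 : p ^ (a + 1) * m = p * (p ^ a * m) := by ring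
    have e2 : p ^ (a + 1) = p * p ^ a := by ring
    rw [e1, e2] at h ⊢
    rw [Nat.mul_mod_right, Nat.mul_mod_right, Nat.mul_div_cancel_left _ h0,
      Nat.mul_div_cancel_left _ h0, Nat.choose_self, one_mul] at h
    exact fun hd => ih ((h.dvd_iff dvd_rfl).1 hd)

variable {q n : ℕ}

/-- Boxes with all sides of size `Q`. -/
abbrev Box (q n Q : ℕ) := Fin n → {T : Finset (Fin q) // T.card = Q}

/-- The automorphisms of a code, acting on words and on boxes. -/
def Aut (K : Finset (Fin n → Fin q)) (Q : ℕ) :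
    Subgroup (Equiv.Perm (Fin n → Fin q) × Equiv.Perm (Box q n Q)) where
  carrier := {g | ∃ (σ : Equiv.Perm (Fin n)) (π : Fin n → Equiv.Perm (Fin q)),
    (∀ z i, g.1 z i = π i (z (σ i))) ∧ (∀ O i a, π i a ∈ (g.2 O i).1 ↔ a ∈ (O (σ i)).1) ∧
      ∀ z, g.1 z ∈ K ↔ z ∈ K}
  one_mem' := ⟨1, fun _ => 1, fun _ _ => rfl, fun _ _ _ => Iff.rfl, fun _ => Iff.rfl⟩
  mul_mem' := by
    rintro g g' ⟨σ, π, h1, h2, h3⟩ ⟨σ', π', h1', h2', h3'⟩
    refine ⟨σ' * σ, fun i => π i * π' (σ i), fun z i => ?_, fun O i a => ?_, fun z => ?_⟩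
    · change g.1 (g'.1 z) i = _
      rw [h1, h1']; rfl
    · change π i (π' (σ i) a) ∈ (g.2 (g'.2 O) i).1 ↔ _
      rw [h2, h2']; rfl
    · change g.1 (g'.1 z) ∈ K ↔ _
      rw [h3, h3']
  inv_mem' := by
    rintro g ⟨σ, π, h1, h2, h3⟩
    refine ⟨σ⁻¹, fun i => (π (σ⁻¹ i))⁻¹, fun z i => ?_, fun O i a => ?_, fun z => ?_⟩
    · have := h1 (g.1⁻¹ z) (σ⁻¹ i)
      simp only [Equiv.Perm.coe_inv, Equiv.apply_symm_apply] at this
      change g.1⁻¹ z i = (π (σ⁻¹ i))⁻¹ (z (σ⁻¹ i))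
      simp only [Equiv.Perm.coe_inv]
      rw [this, Equiv.symm_apply_apply]
    · have := h2 (g.2⁻¹ O) (σ⁻¹ i) ((π (σ⁻¹ i))⁻¹ a)
      simp only [Equiv.Perm.coe_inv, Equiv.apply_symm_apply] at this
      exact this.symm
    · have := h3 (g.1⁻¹ z)
      simp only [Equiv.Perm.coe_inv, Equiv.apply_symm_apply] at this
      exact this.symm

lemma exists_aut (K : Finset (Fin n → Fin q)) (Q : ℕ) (σ : Equiv.Perm (Fin n))
    (π : Fin n → Equiv.Perm (Fin q)) (h : ∀ z ∈ K, (fun i => π i (z (σ i))) ∈ K) :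
    ∃ g ∈ Aut K Q, ∀ z, g.1 z = fun i => π i (z (σ i)) := by
  let φ : Equiv.Perm (Fin n → Fin q) :=
    ⟨fun z i => π i (z (σ i)), fun z i => (π (σ.symm i)).symm (z (σ.symm i)),
      fun z => by funext i; simp, fun z => by funext i; simp⟩
  let ψ : Equiv.Perm (Box q n Q) :=
    ⟨fun O i => ⟨(O (σ i)).1.map (π i).toEmbedding, by rw [card_map]; exact (O _).2⟩,
      fun O i => ⟨(O (σ.symm i)).1.map (π (σ.symm i)).symm.toEmbedding,
        by rw [card_map]; exact (O _).2⟩,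
      fun O => by funext i; ext a; simp, fun O => by funext i; ext a; simp⟩
  refine ⟨(φ, ψ), ⟨σ, π, fun _ _ => rfl, fun O i a => ?_, fun z => ⟨fun hz => ?_, h z⟩⟩,
    fun _ => rfl⟩
  · simp [ψ]
  · have h1 : K.map φ.toEmbedding = K := by
      refine eq_of_subset_of_card_le (fun w hw => ?_) (by rw [card_map])
      obtain ⟨v, hv, rfl⟩ := mem_map.1 hw
      exact h v hv
    have h2 : φ z ∈ K.map φ.toEmbedding := by rw [h1]; exact hz
    simpa using h2

/-- A box on which all the counts are as divisible as the orbits. -/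
lemma exists_box (K : Finset (Fin n → Fin q)) (p : ℕ) (hp : p.Prime) (a m k : ℕ)
    (hq : q = p ^ a * m) (hm : ¬ p ∣ m)
    (hk : ∀ c ∈ K, p ^ k ∣ {c' | ∃ (σ : Equiv.Perm (Fin n)) (π : Fin n → Equiv.Perm (Fin q)),
      (∀ z ∈ K, (fun i => π i (z (σ i))) ∈ K) ∧ (fun i => π i (c (σ i))) = c'}.ncard) :
    ∃ O : Fin n → Finset (Fin q), (∀ t, (O t).card = p ^ a) ∧
      ∀ W : ℕ → Prop, ∀ [DecidablePred W], p ^ k ∣ (K.filter fun c => W (out O c)).card := by
  have := Fact.mk hp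
  letI : MulAction (Aut K (p ^ a)) (Fin n → Fin q) :=
    MulAction.compHom _ ((MonoidHom.fst _ _).comp (Aut K (p ^ a)).subtype)
  letI : MulAction (Aut K (p ^ a)) (Box q n (p ^ a)) :=
    MulAction.compHom _ ((MonoidHom.snd _ _).comp (Aut K (p ^ a)).subtype)
  have hβ : ¬ p ∣ Nat.card (Box q n (p ^ a)) := by
    rw [Nat.card_eq_fintype_card, Fintype.card_pi]
    simp only [Fintype.card_finset_len, Fintype.card_fin, prod_const, card_univ]
    intro h
    have h1 := hp.dvd_of_dvd_pow h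
    rw [hq] at h1
    exact not_dvd_choose p m hm a h1
  obtain ⟨b, hb⟩ := sylow_fix (G := Aut K (p ^ a)) p hβ K k (by
    intro c hc
    convert hk c hc using 2
    ext c'
    constructor
    · rintro ⟨⟨g, σ, π, h1, h2, h3⟩, rfl⟩
      refine ⟨σ, π, fun z hz => ?_, (funext fun i => h1 c i).symm⟩
      rw [← funext fun i => h1 z i]
      exact (h3 z).2 hz
    · rintro ⟨σ, π, h1, rfl⟩
      obtain ⟨g, hg, h2⟩ := exists_aut K (p ^ a) σ π h1
      exact ⟨⟨g, hg⟩, h2 c⟩)
  refine ⟨fun t => (b t).1, fun t => (b t).2, fun W _ => hb _ (filter_subset _ _) ?_⟩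
  rintro ⟨g, σ, π, h1, h2, h3⟩ hg c hc
  obtain ⟨hc1, hc2⟩ := mem_filter.1 hc
  change g.2 b = b at hg
  change g.1 c ∈ _
  refine mem_filter.2 ⟨(h3 c).2 hc1, ?_⟩
  have : out (fun t => (b t).1) (g.1 c) = out (fun t => (b t).1) c := by
    unfold out
    refine card_equiv σ fun i => ?_
    simp only [mem_filter, mem_univ, true_and]
    rw [h1, ← h2 b i, hg]
  rwa [this]

end Pool.Agent.Lib.MP_68c55c_lc.Tr
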