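import Pool.Agent.Lib.MP_68c55c_lc.TrB

/-!
Transitive perfect 2-codes, part C: the root difference divides `r * x`, and the arithmetic end.
-/

set_option autoImplicit false

namespace Pool.Agent.Lib.MP_68c55c_lc.Tr

open Finset

variable {q n : ℕ}

lemma step (K : Finset (Fin n → Fin q))
    (hK : ∀ x : Fin n → Fin q, ∃! c : Fin n → Fin q, c ∈ K ∧ hammingDist x c ≤ 2)
    (hq : ¬ IsPrimePow q) (hq2 : 2 ≤ q) (h2 : 2 ≤ K.card) (r : ℕ) (hr : 1 ≤ r)
    (horb : ∀ c ∈ K, K.card ∣ r * {c' | ∃ (σ : Equiv.Perm (Fin n)) (π : Fin n → Equiv.Perm (Fin q)),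
      (∀ z ∈ K, (fun i => π i (z (σ i))) ∈ K) ∧ (fun i => π i (c (σ i))) = c'}.ncard) :
    ∃ s x : ℕ, 2 ≤ s ∧ 1 ≤ x ∧ 4 * x + 2 * s + q = q * s ^ 2 + 6 ∧
      4 * ((q : ℤ) - 1) * ((n : ℤ) - 2) = (q : ℤ) ^ 2 * ((s : ℤ) ^ 2 - 1) ∧
      x * (x + s) ∣ 2 * q ^ n ∧ s ∣ r * x := by
  have hn := three_le K hK h2
  obtain ⟨s, x, hs, hx, e1, e2, e3, e4, e5⟩ := params_rad K hK hq2 h2
  refine ⟨s, x, hs, hx, e1, e2, e3, ?_⟩
  have e1' : 4 * (x : ℤ) + 2 * s + q = q * s ^ 2 + 6 := by exact_mod_cast e1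
  have hq0 : (q : ℤ) ≠ 0 := by exact_mod_cast (by omega : q ≠ 0)
  have hLL : ∀ i : ℤ, 16 * LL q n i = 16 * (q ^ 2 * ((i - x) * (i - x - s))) := by
    intro i
    unfold LL
    have f1 : 2 * ((q : ℤ) * (2 * x + s)) = 2 * (2 * n * (q - 1) + 4 - q) := by
      linear_combination (q : ℤ) * e1' - e2
    linear_combination 8 * q * i * f1 - 4 * e2 -
      2 * ((q : ℤ) * (2 * x + s) + (2 * n * (q - 1) + 4 - q)) * f1
  have hroot : ∀ i : ℕ, LL q n i = 0 → i = x ∨ i = x + s := by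
    intro i hi
    have h8 := hLL i
    rw [hi, mul_zero] at h8
    have := (mul_eq_zero.1 h8.symm).resolve_left (by norm_num)
    rcases mul_eq_zero.1 ((mul_eq_zero.1 this).resolve_left (pow_ne_zero 2 hq0)) with h | h
    · left; omega
    · right; omega
  have hpack : K.card * (q ^ 2 * (x * (x + s))) = 2 * q ^ n := by
    obtain ⟨w, hw⟩ := Int.even_mul_pred_self (n : ℤ)
    have hV : LL q n 0 = 2 * (1 + n * (q - 1) + w * (q - 1) ^ 2) := by
      unfold LL; linear_combination ((q : ℤ) - 1) ^ 2 * hw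
    have hM := (lloyd K hK hq2 (by omega) _ hV).1
    have h0 := hLL 0
    have : (K.card : ℤ) * (q ^ 2 * (x * (x + s))) = 2 * q ^ n := by
      rw [← hM]
      have : (q : ℤ) ^ 2 * (x * (x + s)) = 2 * (1 + n * (q - 1) + w * (q - 1) ^ 2) := by
        rw [← hV]; linarith
      rw [this]; ring
    exact_mod_cast this
  refine (Nat.dvd_iff_prime_pow_dvd_dvd _ _).2 fun p k hp hk => ?_
  obtain ⟨t, x', hx', rfl⟩ := Nat.exists_eq_pow_mul_and_not_dvd (by omega : x ≠ 0) p hp.ne_one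
  obtain ⟨ρ, r', hr', rfl⟩ := Nat.exists_eq_pow_mul_and_not_dvd (by omega : r ≠ 0) p hp.ne_one
  by_cases hle : k ≤ ρ + t
  · refine (pow_dvd_pow p hle).trans ⟨r' * x', by ring⟩
  exfalso
  obtain ⟨s', rfl⟩ : p ^ (ρ + t + 1) ∣ s := (pow_dvd_pow p (by omega)).trans hk
  have hps : p ∣ p ^ (ρ + t + 1) * s' := ⟨p ^ (ρ + t) * s', by ring⟩
  have hpq : p ∣ q := by
    rcases (Nat.Prime.dvd_mul hp).1 (hps.trans e4) with h | h
    · rcases (Nat.Prime.dvd_mul hp).1 ((h.mul_right _).trans e3) with h' | h'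
      · obtain rfl := (Nat.prime_dvd_prime_iff_eq hp Nat.prime_two).1 h'
        obtain ⟨u, hu⟩ := hps
        rw [hu] at e1
        have : q * (2 * u) ^ 2 = 2 * (2 * q * u ^ 2) := by ring
        omega
      · exact hp.dvd_of_dvd_pow h'
    · exact hp.dvd_of_dvd_pow (h.trans e5)
  obtain ⟨a, m, hm, hqm⟩ := Nat.exists_eq_pow_mul_and_not_dvd (by omega : q ≠ 0) p hp.ne_one
  have ha : a ≠ 0 := by
    rintro rfl
    rw [pow_zero, one_mul] at hqm
    exact hm (hqm ▸ hpq)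
  have hm2 : 2 ≤ m := by
    have h0 : m ≠ 0 := by rintro rfl; simp at hm
    have h1 : m ≠ 1 := by
      rintro rfl
      rw [mul_one] at hqm
      exact hq (hqm ▸ hp.isPrimePow.pow ha)
    omega
  have hpm : 12 ≤ p ^ 2 * m := by
    rcases hp.eq_two_or_odd' with rfl | hodd
    · omega
    · have : 3 ≤ p := by
        have := hp.two_le
        obtain ⟨u, hu⟩ := hodd
        omega
      nlinarith
  have hQ : 2 ≤ p ^ a := hp.two_le.trans (Nat.le_self_pow ha p)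
  obtain ⟨κ, u, hu, hKu⟩ := Nat.exists_eq_pow_mul_and_not_dvd (by omega : K.card ≠ 0) p hp.ne_one
  have hcop : ∀ v e, ¬ p ∣ v → Nat.Coprime (p ^ e) v := fun v e hv =>
    ((Nat.Prime.coprime_iff_not_dvd hp).2 hv).pow_left e
  obtain ⟨O, hO, hW⟩ := exists_box K p hp a m (κ - ρ) hqm hm (by
    intro c hc
    have h1 := horb c hc
    rw [hKu] at h1
    rcases le_total κ ρ with h | h
    · rw [Nat.sub_eq_zero_of_le h]; simp
    · obtain ⟨d, rfl⟩ := Nat.exists_eq_add_of_le h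
      rw [Nat.add_sub_cancel_left]
      have h3 := (Dvd.intro _ rfl : p ^ (ρ + d) ∣ p ^ (ρ + d) * u).trans h1
      rw [pow_add, mul_assoc] at h3
      exact (hcop r' d hr').dvd_of_dvd_mul_left
        (Nat.dvd_of_mul_dvd_mul_left (pow_pos hp.pos ρ) h3))
  have hκ : p ^ κ ∣ p ^ (κ - ρ) * p ^ ρ := by
    rw [← pow_add]; exact pow_dvd_pow p (by omega)
  have hfar : ∀ c ∈ K, 2 ≤ out O c := by
    intro c hc
    by_contra hlt
    have h1 := count K hK (p ^ a) hQ (by omega) O hO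
    have h3 := Nat.le_of_dvd (card_pos.2 ⟨c, mem_filter.2 ⟨hc, by omega⟩⟩) (hW fun j => j ≤ 1)
    have hy : ¬ p ∣ x' + p ^ (ρ + 1) * s' := by
      intro h
      exact hx' ((Nat.dvd_add_left ⟨p ^ ρ * s', by ring⟩).1 h)
    have h4 : (p ^ a) ^ n ∣ p ^ κ * (p ^ a) ^ 2 * p ^ (2 * t) := by
      have h5 : (p ^ a) ^ n ∣ p ^ κ * (p ^ a) ^ 2 * p ^ (2 * t) *
          (u * (m ^ 2 * (x' * (x' + p ^ (ρ + 1) * s')))) := by
        refine ⟨2 * m ^ n, ?_⟩
        have h6 : 2 * q ^ n = (p ^ a) ^ n * (2 * m ^ n) := by rw [hqm, mul_pow]; ring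
        rw [← h6, ← hpack, hKu]
        nth_rewrite 1 [hqm]
        ring
      rw [← pow_mul] at h5 ⊢
      refine (hcop _ _ ?_).dvd_of_dvd_mul_right h5
      simp only [hp.dvd_mul, not_or]
      exact ⟨hu, fun h => hm (hp.dvd_of_dvd_pow h), hx', hy⟩
    have h5 := Nat.le_of_dvd (by have := hp.pos; positivity)
      (h4.trans (Nat.mul_dvd_mul_right (Nat.mul_dvd_mul_right hκ _) _))
    have h6 : p ^ (κ - ρ) * p ^ a * (n - 1) ≤
        p ^ (κ - ρ) * p ^ a * (p ^ ρ * p ^ a * p ^ (2 * t)) := by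
      calc _ = p ^ (κ - ρ) * (p ^ a * (n - 1)) := by ring
        _ ≤ _ := Nat.mul_le_mul_right _ h3
        _ ≤ _ := h1
        _ ≤ _ := h5
        _ = _ := by ring
    have h7 := Nat.le_of_mul_le_mul_left h6 (by have := hp.pos; positivity)
    have hs' : 1 ≤ s' := by
      rcases Nat.eq_zero_or_pos s' with rfl | h
      · simp at hs
      · exact h
    have h8 : (n - 1) * p ^ 2 ≤ p ^ a * (p ^ (ρ + t + 1) * s') ^ 2 := by
      calc _ ≤ p ^ ρ * p ^ a * p ^ (2 * t) * p ^ 2 := Nat.mul_le_mul_right _ h7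
        _ = p ^ a * (p ^ ρ * p ^ (2 * t) * p ^ 2) * 1 := by ring
        _ ≤ p ^ a * (p ^ ρ * p ^ (2 * t) * p ^ 2) * (p ^ ρ * s' ^ 2) :=
          Nat.mul_le_mul_left _ (by have := hp.pos; exact Nat.one_le_iff_ne_zero.2 (by positivity))
        _ = _ := by ring
    generalize p ^ (ρ + t + 1) * s' = s at h8 e2 hs
    generalize p ^ a = Q at h8 hqm hQ
    generalize p ^ 2 = P at h8 hpm
    obtain ⟨n', rfl⟩ : ∃ n', n = n' + 1 := ⟨n - 1, by omega⟩
    rw [Nat.add_sub_cancel] at h8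
    have h9 : (n' : ℤ) * P ≤ Q * s ^ 2 := by exact_mod_cast h8
    have h10 : (12 : ℤ) ≤ P * m := by exact_mod_cast hpm
    have h11 : (q : ℤ) = Q * m := by exact_mod_cast hqm
    have h12 : (2 : ℤ) ≤ s := by exact_mod_cast hs
    have h13 : (2 : ℤ) ≤ q := by exact_mod_cast hq2
    have h14 : (2 : ℤ) ≤ Q := by exact_mod_cast hQ
    have h15 : (3 : ℤ) ≤ s ^ 2 - 1 := by nlinarith
    have h16 : (q : ℤ) * (s ^ 2 - 1) < 4 * n' := by
      push_cast at e2
      by_contra h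
      push Not at h
      nlinarith [mul_nonneg (by linarith : (0 : ℤ) ≤ q - 1) (sub_nonneg.2 h)]
    have h17 : (0 : ℤ) < P := by
      have : (0 : ℤ) ≤ P := by positivity
      rcases this.eq_or_lt with h | h
      · rw [← h] at h10; simp at h10
      · exact h
    have h18 : (Q : ℤ) * (s ^ 2 - 1) * 12 ≤ Q * (s ^ 2 - 1) * (P * m) :=
      mul_le_mul_of_nonneg_left h10 (by positivity)
    have h19 := mul_lt_mul_of_pos_right h16 h17
    rw [h11] at h19
    nlinarith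
  have h1 := core K hK m (p ^ a) hqm O hO _ _ (p ^ (κ - ρ)) (by omega) hx hroot
    (fun j => hW fun i => i = j) hfar
  rw [hKu] at h1
  have h3 : p ^ (t + κ) * p ∣ p ^ (t + κ) * (x' * u) := by
    calc p ^ (t + κ) * p = p ^ (t + 1) * p ^ κ := by ring
      _ ∣ p ^ (t + 1) * (p ^ (κ - ρ) * p ^ ρ) := Nat.mul_dvd_mul_left _ hκ
      _ ∣ p ^ (ρ + t + 1) * s' * p ^ (κ - ρ) := ⟨s', by ring⟩
      _ ∣ _ := h1
      _ = _ := by ring
  rcases (Nat.Prime.dvd_mul hp).1 (Nat.dvd_of_mul_dvd_mul_left (pow_pos hp.pos _) h3) with h | h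
  · exact hx' h
  · exact hu h

end Pool.Agent.Lib.MP_68c55c_lc.Tr
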