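import Pool.Agent.Lib.MP_68c55c_lc.TrC

/-!
Transitive perfect 2-codes, part D: the arithmetic end.
-/

set_option autoImplicit false

namespace Pool.Agent.Lib.MP_68c55c_lc.Tr

lemma five {q s x n : ℕ} (hs : 2 ≤ s) (hq : q = 5 * s + 6)
    (e1 : 4 * x + 2 * s + q = q * s ^ 2 + 6) (e3 : x * (x + s) ∣ 2 * q ^ n) : False := by
  have h32 : 32 ≤ s * q := by nlinarith
  obtain ⟨w, hw⟩ : ∃ w, s * q = w + 3 := ⟨s * q - 3, by omega⟩
  have hy : 4 * (x + s) = s * w := by
    have : (4 * (x + s) + 3 * s : ℕ) = s * (s * q) := by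
      zify at e1 hq ⊢
      linear_combination e1 - hq
    rw [hw] at this
    nlinarith
  have hyq : x + s ∣ 2 * q ^ n := (Dvd.intro_left _ rfl).trans e3
  have h24 : w ∣ 24 := by
    refine (Nat.dvd_iff_prime_pow_dvd_dvd _ _).2 fun p k hp hk => ?_
    rcases Nat.eq_zero_or_pos k with rfl | hk0
    · simp
    have hpw : p ∣ w := (dvd_pow_self p hk0.ne').trans hk
    by_cases h2 : p = 2
    · subst h2
      by_cases hle : k ≤ 3
      · exact (pow_dvd_pow 2 hle).trans (by norm_num)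
      exfalso
      obtain ⟨v, rfl⟩ : 2 ^ 4 ∣ w := (pow_dvd_pow 2 (by omega)).trans hk
      have h4 : 2 * 2 ∣ x + s := ⟨s * v, by nlinarith⟩
      have h5 : 2 ∣ q :=
        Nat.prime_two.dvd_of_dvd_pow (Nat.dvd_of_mul_dvd_mul_left two_pos (h4.trans hyq))
      have h6 : 2 ∣ s * q := h5.mul_left _
      omega
    have hp2 : Nat.Coprime p 2 := (Nat.coprime_primes hp Nat.prime_two).2 h2
    have h1 : p ∣ x + s := by
      have : p ∣ 2 ^ 2 * (x + s) := by
        rw [show 2 ^ 2 * (x + s) = s * w by rw [← hy]; norm_num]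
        exact hpw.mul_left _
      exact (hp2.pow_right 2).dvd_of_dvd_mul_left this
    have h3 : p ∣ q := hp.dvd_of_dvd_pow (hp2.dvd_of_dvd_mul_left (h1.trans hyq))
    have h4 : p ∣ 3 := by
      have := h3.mul_left s
      rw [hw] at this
      exact (Nat.dvd_add_right hpw).1 this
    obtain rfl := (Nat.prime_dvd_prime_iff_eq hp Nat.prime_three).1 h4
    by_cases hle : k ≤ 1
    · exact (pow_dvd_pow 3 hle).trans (by norm_num)
    exfalso
    have h9 : 3 ^ 2 ∣ w := (pow_dvd_pow 3 (by omega)).trans hk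
    have h5 : 3 ∣ s := by omega
    have h6 : 3 * 3 ∣ s * q := Nat.mul_dvd_mul h5 h3
    omega
  have := Nat.le_of_dvd (by norm_num) h24
  omega

lemma six {s x n : ℕ} (hs : 2 ≤ s) (e1 : 4 * x + 2 * s + 6 = 6 * s ^ 2 + 6)
    (e3 : x * (x + s) ∣ 2 * 6 ^ n) : False := by
  have key : ∀ w : ℕ, w ∣ 4 * (x * (x + s)) → ¬ 3 ∣ w → ¬ 4 ∣ w → w ≤ 2 := by
    intro w h1 h3 h4
    refine Nat.le_of_dvd two_pos ((Nat.dvd_iff_prime_pow_dvd_dvd _ _).2 fun p k hp hk => ?_)
    rcases Nat.eq_zero_or_pos k with rfl | hk0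
    · simp
    have hpw : p ∣ w := (dvd_pow_self p hk0.ne').trans hk
    have h5 : p ∣ 6 ^ (n + 3) := by
      refine (hpw.trans h1).trans ((Nat.mul_dvd_mul_left 4 e3).trans ⟨27, by ring⟩)
    rcases (Nat.Prime.dvd_mul hp).1 (show p ∣ 2 * 3 from hp.dvd_of_dvd_pow h5) with h | h
    · obtain rfl := (Nat.prime_dvd_prime_iff_eq hp Nat.prime_two).1 h
      by_cases hle : k ≤ 1
      · exact (pow_dvd_pow 2 hle).trans (by norm_num)
      · exact absurd ((pow_dvd_pow 2 (by omega : 2 ≤ k)).trans hk) h4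
    · obtain rfl := (Nat.prime_dvd_prime_iff_eq hp Nat.prime_three).1 h
      exact absurd hpw h3
  obtain ⟨w, hw⟩ : ∃ w, 3 * s = w + 1 := ⟨3 * s - 1, by omega⟩
  have hx : 2 * x = s * w := by nlinarith
  have e : 4 * (x * (x + s)) = w * (w + 2) * s ^ 2 := by
    calc _ = (2 * x) * (2 * x + 2 * s) := by ring
      _ = _ := by rw [hx]; ring
  by_cases h4 : 4 ∣ w
  · have := key (w + 2) ⟨w * s ^ 2, by rw [e]; ring⟩ (by omega) (by omega)
    omega
  · have := key w ⟨(w + 2) * s ^ 2, by rw [e]; ring⟩ (by omega) h4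
    omega

lemma finish {q s x n r : ℕ} (hq : ¬ IsPrimePow q) (hq2 : 2 ≤ q) (hr : 1 ≤ r) (hs : 2 ≤ s)
    (e1 : 4 * x + 2 * s + q = q * s ^ 2 + 6)
    (e2 : 4 * ((q : ℤ) - 1) * ((n : ℤ) - 2) = (q : ℤ) ^ 2 * ((s : ℤ) ^ 2 - 1))
    (e3 : x * (x + s) ∣ 2 * q ^ n) (e4 : s ∣ r * x) : q + 25 ≤ 25 * r ^ 4 := by
  have pp : ∀ p k : ℕ, p.Prime → k ≠ 0 → q ≠ p ^ k := by
    rintro p k hp hk rfl
    exact hq (hp.isPrimePow.pow hk)
  have hq6 : 6 ≤ q := by
    have h2 := pp 2 1 (by norm_num) (by norm_num)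
    have h3 := pp 3 1 (by norm_num) (by norm_num)
    have h4 := pp 2 2 (by norm_num) (by norm_num)
    have h5 := pp 5 1 (by norm_num) (by norm_num)
    omega
  obtain ⟨d, rfl⟩ : ∃ d, q = d + 6 := ⟨q - 6, by omega⟩
  obtain ⟨t, ht⟩ : s ∣ r * d := by
    obtain ⟨v, hv⟩ := e4
    have h1 : r * d + s * (4 * v + 2 * r) = s * (r * (d + 6) * s) := by
      zify at e1 hv ⊢
      linear_combination (r : ℤ) * e1 - 4 * hv
    exact (Nat.dvd_add_left (Dvd.intro _ rfl)).1 ⟨_, h1⟩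
  obtain ⟨ν, hν⟩ : ((d : ℤ) + 5) ∣ (s : ℤ) ^ 2 - 1 := by
    have h1 : ((d : ℤ) + 5) ∣ ((d : ℤ) + 6) ^ 2 * ((s : ℤ) ^ 2 - 1) := by
      refine ⟨4 * ((n : ℤ) - 2), ?_⟩
      push_cast at e2
      linear_combination -e2
    have h2 : IsCoprime ((d : ℤ) + 5) ((d : ℤ) + 6) := ⟨-1, 1, by ring⟩
    exact (h2.pow_right (n := 2)).dvd_of_dvd_mul_left h1
  have ht' : (r : ℤ) * d = s * t := by exact_mod_cast ht
  have hd0 : (0 : ℤ) ≤ d := by positivity
  have hs' : (2 : ℤ) ≤ s := by exact_mod_cast hs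
  have hr' : (1 : ℤ) ≤ r := by exact_mod_cast hr
  have hν1 : 1 ≤ ν := by
    by_contra h
    nlinarith [mul_nonneg (by linarith : (0 : ℤ) ≤ d + 5) (by linarith : 0 ≤ -ν)]
  obtain ⟨μ, hμ⟩ : ∃ μ : ℤ, (t : ℤ) ^ 2 - 25 * r ^ 2 = (d + 5) * μ :=
    ⟨r ^ 2 * (d - 5) - ν * t ^ 2, by
      linear_combination (-(t : ℤ) ^ 2) * hν - ((r : ℤ) * d + s * t) * ht'⟩
  rcases lt_trichotomy μ 0 with h | rfl | h
  · have h1 : (d : ℤ) + 5 + t ^ 2 ≤ 25 * r ^ 2 := by nlinarith
    rcases Nat.eq_or_lt_of_le hr with rfl | h2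
    · exfalso
      rw [one_mul] at ht
      subst ht
      push_cast at h1 hμ
      have h3 : t < 5 := by
        by_contra h3
        have : (5 : ℤ) ≤ t := by exact_mod_cast not_lt.1 h3
        nlinarith
      rcases Nat.eq_zero_or_pos t with rfl | ht0
      · exact six hs (by simpa using e1) (by simpa using e3)
      have h4 : s < 20 := by
        by_contra h4
        have h5 : (20 : ℤ) ≤ s := by exact_mod_cast not_lt.1 h4
        have h6 : (1 : ℤ) ≤ t := by exact_mod_cast ht0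
        nlinarith
      have h9 := pp 3 2 (by norm_num) (by norm_num)
      have h13 := pp 13 1 (by norm_num) (by norm_num)
      have h25 := pp 5 2 (by norm_num) (by norm_num)
      have h22 : s * t + 6 ≠ 22 ∨ s ≠ 8 := by
        by_contra hc
        push Not at hc
        obtain ⟨c1, rfl⟩ := hc
        rw [c1] at e1 e3
        obtain rfl : x = 344 := by omega
        have h43 : Nat.Prime 43 := by norm_num
        have := (show 43 ∣ 344 * (344 + 8) by norm_num).trans e3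
        rcases (Nat.Prime.dvd_mul h43).1 this with h | h
        · norm_num at h
        · have := h43.dvd_of_dvd_pow h
          norm_num at this
      clear e1 e2 e3 e4 pp hq hν ht' h1
      interval_cases t <;> interval_cases s <;> omega
    · have h3 : (2 : ℤ) ≤ r := by exact_mod_cast h2
      have h4 : (4 : ℤ) ≤ r ^ 2 := by nlinarith
      have : (d : ℤ) + 6 + 25 ≤ 25 * r ^ 4 := by nlinarith
      exact_mod_cast this
  · exfalso
    have h1 : (t : ℤ) = 5 * r := by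
      have h2 : ((t : ℤ) - 5 * r) * (t + 5 * r) = 0 := by linear_combination hμ
      have h3 : (0 : ℤ) < t + 5 * r := by positivity
      linarith [(mul_eq_zero.1 h2).resolve_right h3.ne']
    have h2 : (d : ℤ) = 5 * s := by
      have h3 : (r : ℤ) * (d - 5 * s) = 0 := by rw [h1] at ht'; linear_combination ht'
      linarith [(mul_eq_zero.1 h3).resolve_left (by linarith)]
    exact five hs (by omega) e1 e3
  · have h1 : ((r : ℤ) ^ 2 - ν * μ) * (d + 5) = 25 * r ^ 2 * ν + μ + 10 * r ^ 2 := by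
      have h2 : ((d : ℤ) + 5) * (((r : ℤ) ^ 2 - ν * μ) * (d + 5) -
          (25 * r ^ 2 * ν + μ + 10 * r ^ 2)) = 0 := by
        linear_combination ((r : ℤ) * d + s * t) * ht' + (t : ℤ) ^ 2 * hν +
          (ν * (d + 5) + 1) * hμ
      linarith [(mul_eq_zero.1 h2).resolve_left (by linarith)]
    generalize hR : (r : ℤ) ^ 2 = R at h1
    have hR1 : 1 ≤ R := by nlinarith
    have h2 : 0 < 25 * R * ν + μ + 10 * R := by positivity
    have h3 : 1 ≤ R - ν * μ := by
      by_contra h3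
      nlinarith [mul_nonneg (by linarith : (0 : ℤ) ≤ ν * μ - R) (by linarith : (0 : ℤ) ≤ d + 5)]
    have h4 : ν ≤ R - 1 := by nlinarith
    have h5 : μ ≤ R - 1 := by nlinarith
    have h6 : (d : ℤ) + 5 ≤ 25 * R * ν + μ + 10 * R := by nlinarith
    have h7 : 25 * R * ν ≤ 25 * R * (R - 1) := mul_le_mul_of_nonneg_left h4 (by positivity)
    have : (d : ℤ) + 6 + 25 ≤ 25 * r ^ 4 := by
      rw [show (r : ℤ) ^ 4 = R ^ 2 by rw [← hR]; ring]
      nlinarith
    exact_mod_cast this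

end Pool.Agent.Lib.MP_68c55c_lc.Tr
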