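import Pool.Agent.Lib.MP_68c55c_lc.TrD

/-!
Perfect 2-codes that fill a fixed share of the orbits of a group of isometries, part A:
Lloyd's equation and the counting of a box for weighted multiple coverings.
-/

set_option autoImplicit false

namespace Pool.Agent.Lib.MP_68c55c_lc.Tr

open Finset Polynomial

variable {q n : ℕ}

lemma lloydW (ω : (Fin n → Fin q) → ℕ) (l : ℕ)
    (hω : ∀ x : Fin n → Fin q, ∑ z, (if hammingDist x z ≤ 2 then ω z else 0) = l)
    (h : Fin n → Fin q → ℤ) (h0 : ∀ t, ∑ a, h t a = 0) (S : Finset (Fin n)) (hS : S ≠ ∅) :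
    LL q n S.card * ∑ z, (ω z : ℤ) * ch h S z = 0 := by
  have h1 : ∀ z, LL q n S.card * ((ω z : ℤ) * ch h S z) =
      2 * ∑ x : Fin n → Fin q, ((if hammingDist x z ≤ 2 then ω z else 0 : ℕ) : ℤ) * ch h S x := by
    intro z
    rw [mul_left_comm, ← ball h h0, mul_left_comm, mul_sum]
    congr 1
    refine sum_congr rfl fun x _ => ?_
    split_ifs <;> simp
  rw [mul_sum]
  simp only [h1]
  rw [← mul_sum, sum_comm]
  have : ∀ x : Fin n → Fin q,
      ∑ z, ((if hammingDist x z ≤ 2 then ω z else 0 : ℕ) : ℤ) * ch h S x = l * ch h S x := by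
    intro x
    rw [← sum_mul, ← Nat.cast_sum, hω]
  simp only [this, ← mul_sum, sum_ch h h0 S hS, mul_zero]

/-- The core divisibility for a box that is far from the support of the weight. -/
lemma coreW (ω : (Fin n → Fin q) → ℕ) (l : ℕ)
    (hω : ∀ x : Fin n → Fin q, ∑ z, (if hammingDist x z ≤ 2 then ω z else 0) = l)
    (m Q : ℕ) (hq : q = Q * m) (O : Fin n → Finset (Fin q)) (hO : ∀ t, (O t).card = Q)
    (s x D : ℕ) (hs : 1 ≤ s) (hx : 1 ≤ x)
    (hr : ∀ i : ℕ, LL q n i = 0 → i = x ∨ i = x + s)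
    (hD : ∀ j, D ∣ ∑ z ∈ univ.filter (fun z => out O z = j), ω z)
    (hfar : ∀ z, ω z ≠ 0 → 2 ≤ out O z) : s * D ∣ x * ∑ z, ω z := by
  let β : Finset (Fin n) → ℤ := fun S => ∑ z, (ω z : ℤ) * ch (hb m O) S z
  let g : ℕ → ℤ[X] := fun j => (1 + C ((m : ℤ) - 1) * X) ^ (n - j) * (1 - X) ^ j
  have hG : ∑ S : Finset (Fin n), C (β S) * (X : ℤ[X]) ^ S.card =
      ∑ z, C (ω z : ℤ) * g (out O z) := by
    simp only [β, map_sum, sum_mul]
    rw [sum_comm]
    refine sum_congr rfl fun c _ => ?_
    simp only [g]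
    rw [← gen_poly m O c, mul_sum]
    exact sum_congr rfl fun S _ => by rw [map_mul, mul_assoc]
  have hdv : (1 - X : ℤ[X]) ^ 2 ∣ ∑ S : Finset (Fin n), C (β S) * (X : ℤ[X]) ^ S.card := by
    rw [hG]
    refine dvd_sum fun c _ => ?_
    by_cases hc : ω c = 0
    · simp [hc]
    · exact Dvd.dvd.mul_left (Dvd.dvd.mul_left (pow_dvd_pow _ (hfar c hc)) _) _
  obtain ⟨H, hH⟩ := hdv
  have e0 : ∑ S, β S = 0 := by
    have := congrArg (eval 1) hH
    simpa [eval_finsetSum] using this
  have e1 : ∑ S : Finset (Fin n), (S.card : ℤ) * β S = 0 := by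
    have := congrArg (fun P => eval 1 (derivative P)) hH
    simp only [derivative_sum, eval_finsetSum, eval_mul,
      eval_C, eval_pow, eval_X, one_pow, mul_one, derivative_mul, derivative_pow, eval_add,
      eval_sub, eval_one, sub_self] at this
    simp only [mul_comm (β _)] at this
    simpa using this
  have e2 : (D : ℤ) ∣ ∑ S : Finset (Fin n), if S.card = x + s then β S else 0 := by
    have h1 := congrArg (fun P => coeff P (x + s)) hG
    simp only [finsetSum_coeff, coeff_C_mul, coeff_X_pow, mul_ite, mul_one, mul_zero] at h1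
    simp only [eq_comm (a := x + s)] at h1
    rw [h1, ← sum_fiberwise_of_maps_to (s := univ) (t := univ.image (out O)) (g := out O)
      (fun z hz => mem_image_of_mem _ hz)]
    refine dvd_sum fun j _ => ?_
    have h2 : ∑ z ∈ univ.filter (fun z => out O z = j), (ω z : ℤ) * (g (out O z)).coeff (x + s) =
        ((∑ z ∈ univ.filter (fun z => out O z = j), ω z : ℕ) : ℤ) * (g j).coeff (x + s) := by
      rw [Nat.cast_sum, sum_mul]
      exact sum_congr rfl fun z hz => by rw [(mem_filter.1 hz).2]
    rw [h2]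
    exact Dvd.dvd.mul_right (by exact_mod_cast hD j) _
  have hβ0 : β ∅ = ((∑ z, ω z : ℕ) : ℤ) := by simp [β, ch]
  generalize ∑ z, ω z = M at hβ0 ⊢
  have e3 : ∑ S : Finset (Fin n), ((S.card : ℤ) - x) * β S = 0 := by
    simp only [sub_mul, sum_sub_distrib, ← mul_sum, e0, e1]; simp
  have e4 : ∀ S : Finset (Fin n), ((S.card : ℤ) - x) * β S =
      s * (if S.card = x + s then β S else 0) - if S = ∅ then (x : ℤ) * M else 0 := by
    intro S
    by_cases hS : S = ∅
    · subst hS
      rw [if_pos rfl, if_neg (by simp; omega), hβ0]; simp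
    · rw [if_neg hS]
      rcases mul_eq_zero.1 (lloydW ω l hω (hb m O) (sum_hb m Q hq O hO) S hS) with h7 | h7
      · rcases hr _ h7 with h | h
        · rw [if_neg (by omega), h]; simp
        · rw [if_pos h, h]; push_cast; ring
      · change β S = 0 at h7
        rw [h7]; simp
  simp only [e4, sum_sub_distrib, ← mul_sum, sum_ite_eq', mem_univ, if_true] at e3
  obtain ⟨w, hw⟩ := e2
  rw [hw] at e3
  have : ((s * D : ℕ) : ℤ) ∣ ((x * M : ℕ) : ℤ) := ⟨w, by push_cast; linear_combination -e3⟩
  exact_mod_cast this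

/-- A word at distance at most one from a box has many points of the box in its ball. -/
lemma near (Q : ℕ) (hn : 1 ≤ n) (O : Fin n → Finset (Fin q)) (hO : ∀ t, (O t).card = Q)
    (c : Fin n → Fin q) (hc1 : out O c ≤ 1) :
    Q * ((n - 1) * (Q - 1)) ≤
      ((Fintype.piFinset O).filter fun z => hammingDist z c ≤ 2).card := by
  obtain ⟨i, hi⟩ : ∃ i : Fin n, ∀ t, t ≠ i → c t ∈ O t := by
    haveI : Nonempty (Fin n) := ⟨⟨0, by omega⟩⟩
    obtain ⟨i, hi⟩ := (card_le_one_iff_subset_singleton
      (s := univ.filter fun t => c t ∉ O t)).1 hc1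
    refine ⟨i, fun t ht => ?_⟩
    by_contra h
    exact ht (mem_singleton.1 (hi (by simp [h])))
  have hcard : (O i ×ˢ ((univ.erase i).sigma fun j => (O j).erase (c j))).card =
      Q * ((n - 1) * (Q - 1)) := by
    rw [card_product, hO, card_sigma, sum_congr rfl (g := fun _ => Q - 1) (fun j hj => by
      rw [card_erase_of_mem (hi j (ne_of_mem_erase hj)), hO]), sum_const,
      card_erase_of_mem (mem_univ _), card_univ, Fintype.card_fin, smul_eq_mul]
  rw [← hcard]
  refine card_le_card_of_injOn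
    (fun w => Function.update (Function.update c w.2.1 w.2.2) i w.1) ?_ ?_
  · rintro ⟨a, j, b⟩ hw
    obtain ⟨ha, hj⟩ := mem_product.1 (mem_coe.1 hw)
    obtain ⟨hj1, hb1⟩ := mem_sigma.1 hj
    have hj' : j ≠ i := ne_of_mem_erase hj1
    refine mem_coe.2 (mem_filter.2 ⟨Fintype.mem_piFinset.2 fun t => ?_, ?_⟩)
    · by_cases h1 : t = i
      · subst h1; simpa using ha
      · by_cases h2 : t = j
        · subst h2; simpa [Function.update_of_ne h1] using mem_of_mem_erase hb1
        · simpa [Function.update_of_ne h1, Function.update_of_ne h2] using hi t h1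
    · refine le_trans (card_le_card (t := {i, j}) fun t ht => ?_) card_le_two
      simp only [mem_filter, mem_univ, true_and] at ht
      by_contra h
      simp only [mem_insert, mem_singleton, not_or] at h
      exact ht (by rw [Function.update_of_ne h.1, Function.update_of_ne h.2])
  · rintro ⟨a, j, b⟩ hw ⟨a', j', b'⟩ hw' he
    obtain ⟨hj1, hb1⟩ := mem_sigma.1 (mem_product.1 (mem_coe.1 hw)).2
    have hj : j ≠ i := ne_of_mem_erase hj1
    have h1 := congrFun he i
    have h2 := congrFun he j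
    simp only [Function.update_self, Function.update_of_ne hj] at h1 h2
    by_cases h3 : j = j'
    · subst h3
      rw [Function.update_self] at h2
      rw [h1, h2]
    · rw [Function.update_of_ne h3] at h2
      exact absurd h2 (ne_of_mem_erase hb1)

/-- Counting the points of a box with weights. -/
lemma countW (ω : (Fin n → Fin q) → ℕ) (l : ℕ)
    (hω : ∀ x : Fin n → Fin q, ∑ z, (if hammingDist x z ≤ 2 then ω z else 0) = l)
    (Q : ℕ) (hn : 1 ≤ n) (O : Fin n → Finset (Fin q)) (hO : ∀ t, (O t).card = Q) :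
    (∑ z ∈ univ.filter (fun z => out O z ≤ 1), ω z) * (Q * ((n - 1) * (Q - 1))) ≤ l * Q ^ n := by
  have hB : (Fintype.piFinset O).card = Q ^ n := by
    rw [Fintype.card_piFinset]; simp [hO]
  have h1 : l * Q ^ n =
      ∑ z, ω z * ((Fintype.piFinset O).filter fun w => hammingDist w z ≤ 2).card := by
    rw [← hB, mul_comm, ← smul_eq_mul, ← sum_const,
      sum_congr rfl (fun w _ => (hω w).symm), sum_comm]
    refine sum_congr rfl fun z _ => ?_
    rw [← sum_filter, sum_const, smul_eq_mul, mul_comm]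
  rw [h1, sum_mul]
  refine le_trans (sum_le_sum fun z hz => ?_) (sum_le_sum_of_subset (filter_subset _ _))
  exact Nat.mul_le_mul_left _ (near Q hn O hO z (mem_filter.1 hz).2)

end Pool.Agent.Lib.MP_68c55c_lc.Tr
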