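import Pool.Agent.Lib.MP_68c55c_lc.TrWA

/-!
Perfect 2-codes that fill a fixed share of the orbits of a group of isometries, part B:
a Sylow subgroup fixes a box, and the averaged weight.
-/

set_option autoImplicit false

namespace Pool.Agent.Lib.MP_68c55c_lc.Tr

open Finset MulAction

lemma sylow_fixW {G α β : Type} [Group G] [Finite G] [MulAction G α] [MulAction G β]
    (p : ℕ) [hp : Fact p.Prime] (hβ : ¬ p ∣ Nat.card β) (ω : α → ℕ)
    (hω : ∀ (g : G) (a : α), ω (g • a) = ω a) (k : ℕ)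
    (hk : ∀ c, p ^ k ∣ ω c * (orbit G c).ncard) :
    ∃ b : β, ∀ A : Finset α, (∀ g : G, g • b = b → ∀ a ∈ A, g • a ∈ A) →
      p ^ k ∣ ∑ a ∈ A, ω a := by
  classical
  obtain ⟨P⟩ : Nonempty (Sylow p G) := inferInstance
  obtain ⟨b, hb⟩ := P.isPGroup'.nonempty_fixed_point_of_prime_not_dvd_card β hβ
  have horb : ∀ c, p ^ k ∣ ω c * (orbit (P : Subgroup G) c).ncard := by
    intro c
    have h1 := hk c
    rw [← index_stabilizer] at h1 ⊢
    have h2 : (stabilizer (P : Subgroup G) c) = (stabilizer G c).subgroupOf P := by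
      ext g; simp [Subgroup.mem_subgroupOf, Subgroup.smul_def]
    rw [h2]
    change _ ∣ ω c * (stabilizer G c).relIndex P
    have h3 := Subgroup.relIndex_mul_index (inf_le_right : stabilizer G c ⊓ P ≤ P)
    rw [Subgroup.inf_relIndex_right] at h3
    have h4 := h1.trans (Nat.mul_dvd_mul_left (ω c)
      (Subgroup.index_dvd_of_le (inf_le_left : stabilizer G c ⊓ P ≤ _)))
    rw [← h3, ← mul_assoc] at h4
    exact (((Nat.Prime.coprime_iff_not_dvd hp.out).2 P.not_dvd_index).pow_left k).dvd_of_dvd_mul_right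
      h4
  have main : ∀ A : Finset α, (∀ g : (P : Subgroup G), ∀ a ∈ A, g • a ∈ A) →
      p ^ k ∣ ∑ a ∈ A, ω a := by
    intro A
    induction A using Finset.strongInduction with
    | H A ih =>
      intro hinv
      rcases A.eq_empty_or_nonempty with rfl | ⟨a, ha⟩
      · simp
      have hfin : (orbit (P : Subgroup G) a).Finite := Set.finite_range _
      have hsub : hfin.toFinset ⊆ A := by
        intro z hz
        obtain ⟨g, rfl⟩ := hfin.mem_toFinset.1 hz
        exact hinv g a ha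
      have h1 := horb a
      rw [Set.ncard_eq_toFinset_card _ hfin] at h1
      have h2 : ∑ z ∈ hfin.toFinset, ω z = ω a * hfin.toFinset.card := by
        rw [mul_comm, ← smul_eq_mul, ← sum_const]
        refine sum_congr rfl fun z hz => ?_
        obtain ⟨g, rfl⟩ := hfin.mem_toFinset.1 hz
        exact hω (g : G) a
      rw [← sum_sdiff hsub, h2]
      refine dvd_add (ih _ ?_ ?_) h1
      · exact sdiff_ssubset hsub ⟨a, hfin.mem_toFinset.2 (mem_orbit_self a)⟩
      · intro g z hz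
        obtain ⟨hz1, hz2⟩ := mem_sdiff.1 hz
        refine mem_sdiff.2 ⟨hinv g z hz1, fun h => hz2 ?_⟩
        obtain ⟨g', hg'⟩ := hfin.mem_toFinset.1 h
        refine hfin.mem_toFinset.2 ⟨g⁻¹ * g', ?_⟩
        simp only at hg' ⊢
        rw [mul_smul, hg', inv_smul_smul]
  exact ⟨b, fun A hinv => main A fun g a ha => hinv g (hb g) a ha⟩

variable {q n : ℕ}

/-- A group of isometries, acting on words and on boxes. -/
def Lift (G : Subgroup (Equiv.Perm (Fin n → Fin q))) (Q : ℕ) :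
    Subgroup (Equiv.Perm (Fin n → Fin q) × Equiv.Perm (Box q n Q)) where
  carrier := {g | g.1 ∈ G ∧ ∃ (σ : Equiv.Perm (Fin n)) (π : Fin n → Equiv.Perm (Fin q)),
    (∀ z i, g.1 z i = π i (z (σ i))) ∧ (∀ O i a, π i a ∈ (g.2 O i).1 ↔ a ∈ (O (σ i)).1)}
  one_mem' := ⟨G.one_mem, 1, fun _ => 1, fun _ _ => rfl, fun _ _ _ => Iff.rfl⟩
  mul_mem' := by
    rintro g g' ⟨h3, σ, π, h1, h2⟩ ⟨h3', σ', π', h1', h2'⟩
    refine ⟨G.mul_mem h3 h3', σ' * σ, fun i => π i * π' (σ i), fun z i => ?_, fun O i a => ?_⟩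
    · change g.1 (g'.1 z) i = _
      rw [h1, h1']; rfl
    · change π i (π' (σ i) a) ∈ (g.2 (g'.2 O) i).1 ↔ _
      rw [h2, h2']; rfl
  inv_mem' := by
    rintro g ⟨h3, σ, π, h1, h2⟩
    refine ⟨G.inv_mem h3, σ⁻¹, fun i => (π (σ⁻¹ i))⁻¹, fun z i => ?_, fun O i a => ?_⟩
    · have := h1 (g.1⁻¹ z) (σ⁻¹ i)
      simp only [Equiv.Perm.coe_inv, Equiv.apply_symm_apply] at this
      change g.1⁻¹ z i = (π (σ⁻¹ i))⁻¹ (z (σ⁻¹ i))
      simp only [Equiv.Perm.coe_inv]
      rw [this, Equiv.symm_apply_apply]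
    · have := h2 (g.2⁻¹ O) (σ⁻¹ i) ((π (σ⁻¹ i))⁻¹ a)
      simp only [Equiv.Perm.coe_inv, Equiv.apply_symm_apply] at this
      exact this.symm

lemma exists_lift (G : Subgroup (Equiv.Perm (Fin n → Fin q))) (Q : ℕ)
    (φ : Equiv.Perm (Fin n → Fin q)) (hφ : φ ∈ G) (σ : Equiv.Perm (Fin n))
    (π : Fin n → Equiv.Perm (Fin q)) (h : ∀ z i, φ z i = π i (z (σ i))) :
    ∃ g ∈ Lift G Q, g.1 = φ := by
  let ψ : Equiv.Perm (Box q n Q) :=
    ⟨fun O i => ⟨(O (σ i)).1.map (π i).toEmbedding, by rw [card_map]; exact (O _).2⟩,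
      fun O i => ⟨(O (σ.symm i)).1.map (π (σ.symm i)).symm.toEmbedding,
        by rw [card_map]; exact (O _).2⟩,
      fun O => by funext i; ext a; simp, fun O => by funext i; ext a; simp⟩
  refine ⟨(φ, ψ), ⟨hφ, σ, π, h, fun O i a => ?_⟩, rfl⟩
  simp [ψ]

/-- A box on which all the weighted counts are as divisible as the weighted orbits. -/
lemma exists_boxW (G : Subgroup (Equiv.Perm (Fin n → Fin q)))
    (hG : ∀ g ∈ G, ∃ (σ : Equiv.Perm (Fin n)) (π : Fin n → Equiv.Perm (Fin q)),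
      ∀ z i, g z i = π i (z (σ i)))
    (ω : (Fin n → Fin q) → ℕ) (hω : ∀ g ∈ G, ∀ z, ω (g z) = ω z)
    (p : ℕ) (hp : p.Prime) (a m k : ℕ) (hq : q = p ^ a * m) (hm : ¬ p ∣ m)
    (hk : ∀ c, p ^ k ∣ ω c * (orbit G c).ncard) :
    ∃ O : Fin n → Finset (Fin q), (∀ t, (O t).card = p ^ a) ∧
      ∀ W : ℕ → Prop, ∀ [DecidablePred W],
        p ^ k ∣ ∑ z ∈ univ.filter (fun c => W (out O c)), ω z := by
  have := Fact.mk hp
  letI : MulAction (Lift G (p ^ a)) (Fin n → Fin q) :=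
    MulAction.compHom _ ((MonoidHom.fst _ _).comp (Lift G (p ^ a)).subtype)
  letI : MulAction (Lift G (p ^ a)) (Box q n (p ^ a)) :=
    MulAction.compHom _ ((MonoidHom.snd _ _).comp (Lift G (p ^ a)).subtype)
  have hβ : ¬ p ∣ Nat.card (Box q n (p ^ a)) := by
    rw [Nat.card_eq_fintype_card, Fintype.card_pi]
    simp only [Fintype.card_finset_len, Fintype.card_fin, prod_const, card_univ]
    intro h
    have h1 := hp.dvd_of_dvd_pow h
    rw [hq] at h1
    exact not_dvd_choose p m hm a h1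
  obtain ⟨b, hb⟩ := sylow_fixW (G := Lift G (p ^ a)) p hβ ω (fun g z => hω g.1.1 g.2.1 z) k (by
    intro c
    convert hk c using 3
    ext c'
    constructor
    · rintro ⟨⟨g, h3, h1⟩, rfl⟩
      exact ⟨⟨g.1, h3⟩, rfl⟩
    · rintro ⟨⟨φ, hφ⟩, rfl⟩
      obtain ⟨σ, π, h1⟩ := hG φ hφ
      obtain ⟨g, hg, h2⟩ := exists_lift G (p ^ a) φ hφ σ π h1
      exact ⟨⟨g, hg⟩, by change g.1 c = φ c; rw [h2]⟩)
  refine ⟨fun t => (b t).1, fun t => (b t).2, fun W _ => hb _ ?_⟩
  rintro ⟨g, h3, σ, π, h1, h2⟩ hg c hc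
  obtain ⟨hc1, hc2⟩ := mem_filter.1 hc
  change g.2 b = b at hg
  change g.1 c ∈ _
  refine mem_filter.2 ⟨mem_univ _, ?_⟩
  have : out (fun t => (b t).1) (g.1 c) = out (fun t => (b t).1) c := by
    unfold out
    refine card_equiv σ fun i => ?_
    simp only [mem_filter, mem_univ, true_and]
    rw [h1, ← h2 b i, hg]
  rwa [this]

lemma dist_map (σ : Equiv.Perm (Fin n)) (π : Fin n → Equiv.Perm (Fin q))
    (φ : Equiv.Perm (Fin n → Fin q)) (h : ∀ z i, φ z i = π i (z (σ i))) (z w : Fin n → Fin q) :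
    hammingDist (φ z) (φ w) = hammingDist z w := by
  unfold hammingDist
  refine card_equiv σ fun i => ?_
  simp only [mem_filter, mem_univ, true_and, h, ne_eq, EmbeddingLike.apply_eq_iff_eq]

/-- The averaged weight of a code over a group of isometries. -/
lemma exists_weight (K : Finset (Fin n → Fin q))
    (hK : ∀ x : Fin n → Fin q, ∃! c : Fin n → Fin q, c ∈ K ∧ hammingDist x c ≤ 2)
    (G : Subgroup (Equiv.Perm (Fin n → Fin q)))
    (hG : ∀ g ∈ G, ∃ (σ : Equiv.Perm (Fin n)) (π : Fin n → Equiv.Perm (Fin q)),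
      ∀ z i, g z i = π i (z (σ i))) (l : ℕ)
    (hl : ∀ c ∈ K, (orbit G c).ncard ∣ l * ((K : Set (Fin n → Fin q)) ∩ orbit G c).ncard) :
    ∃ ω : (Fin n → Fin q) → ℕ, (∀ g ∈ G, ∀ z, ω (g z) = ω z) ∧
      (∀ z, ω z * (orbit G z).ncard = l * ((K : Set (Fin n → Fin q)) ∩ orbit G z).ncard) ∧
      (∀ x : Fin n → Fin q, ∑ z, (if hammingDist x z ≤ 2 then ω z else 0) = l) ∧
      ∑ z, ω z = l * K.card := by
  classical
  have hex : ∀ z, (orbit G z).ncard ∣ l * ((K : Set (Fin n → Fin q)) ∩ orbit G z).ncard := by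
    intro z
    rcases ((K : Set (Fin n → Fin q)) ∩ orbit G z).eq_empty_or_nonempty with h | ⟨c, hc, hc'⟩
    · rw [h]; simp
    · have := hl c hc
      rwa [orbit_eq_iff.2 hc'] at this
  have hpos : ∀ z : Fin n → Fin q, 0 < (orbit G z).ncard := fun z =>
    (Set.ncard_pos (Set.toFinite _)).2 ⟨z, mem_orbit_self z⟩
  choose ω hω using hex
  let T : (Fin n → Fin q) → ℕ := fun z => ∑ g : G, if g • z ∈ K then 1 else 0
  have hT : ∀ (g : G) z, T (g • z) = T z := by
    intro g z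
    simp only [T, ← mul_smul]
    exact Fintype.sum_equiv (Equiv.mulRight g) _ _ fun _ => rfl
  have hcount : ∀ (g : G) (A : Finset (Fin n → Fin q)) (B : Finset (Fin n → Fin q)),
      (∀ z, z ∈ A ↔ g • z ∈ B) →
      ∑ z ∈ A, (if g • z ∈ K then 1 else 0) = (B.filter fun z => z ∈ K).card := by
    intro g A B h
    rw [card_filter]
    exact sum_equiv (MulAction.toPerm g) h fun _ _ => rfl
  have hTo : ∀ z, (orbit G z).ncard * T z =
      Fintype.card G * ((K : Set (Fin n → Fin q)) ∩ orbit G z).ncard := by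
    intro z
    have h1 : ∑ w ∈ (orbit G z).toFinset, T w = (orbit G z).ncard * T z := by
      rw [Set.ncard_eq_toFinset_card', ← smul_eq_mul, ← sum_const]
      refine sum_congr rfl fun w hw => ?_
      obtain ⟨g, rfl⟩ := Set.mem_toFinset.1 hw
      exact hT g z
    rw [← h1]
    simp only [T]
    rw [sum_comm, sum_congr rfl fun g _ => hcount g (orbit G z).toFinset (orbit G z).toFinset
      (fun w => by
        simp only [Set.mem_toFinset]
        rw [← orbit_eq_iff, ← orbit_eq_iff, orbit_smul]), sum_const,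
      card_univ, smul_eq_mul]
    congr 1
    rw [← Set.ncard_coe_finset]
    congr 1
    ext w
    simp [and_comm]
  have hGω : ∀ z, Fintype.card G * ω z = l * T z := by
    intro z
    refine Nat.eq_of_mul_eq_mul_left (hpos z) ?_
    rw [mul_left_comm, ← hω, mul_left_comm (orbit G z).ncard l, hTo]; ring
  have hG0 : 0 < Fintype.card G := Fintype.card_pos
  refine ⟨ω, fun g hg z => ?_, fun z => by rw [hω, mul_comm], fun x => ?_, ?_⟩
  · refine Nat.eq_of_mul_eq_mul_left hG0 ?_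
    rw [hGω, hGω]
    exact congrArg _ (hT ⟨g, hg⟩ z)
  · refine Nat.eq_of_mul_eq_mul_left hG0 ?_
    rw [← sum_filter, mul_sum, sum_congr rfl fun z _ => hGω z, ← mul_sum, mul_comm]
    congr 1
    simp only [T]
    rw [sum_comm, ← card_univ, card_eq_sum_ones]
    refine sum_congr rfl fun g _ => ?_
    obtain ⟨σ, π, h1⟩ := hG g.1 g.2
    rw [hcount g _ (univ.filter fun z => hammingDist (g • x) z ≤ 2) (fun z => by
      simp only [mem_filter, mem_univ, true_and]
      rw [← dist_map σ π g.1 h1 x z]; rfl)]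
    obtain ⟨c, hc, hu⟩ := hK (g • x)
    refine card_eq_one.2 ⟨c, ?_⟩
    ext w
    simp only [mem_filter, mem_univ, true_and, mem_singleton]
    exact ⟨fun h => hu w ⟨h.2, h.1⟩, fun h => h ▸ ⟨hc.2, hc.1⟩⟩
  · refine Nat.eq_of_mul_eq_mul_left hG0 ?_
    rw [mul_sum, sum_congr rfl fun z _ => hGω z, ← mul_sum, mul_left_comm]
    congr 1
    simp only [T]
    rw [sum_comm, sum_congr rfl fun g _ => hcount g univ univ (fun w => by simp), sum_const,
      card_univ, smul_eq_mul]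
    simp

end Pool.Agent.Lib.MP_68c55c_lc.Tr
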