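import Pool.Agent.Lib.MP_68c55c_lc.TrWB

/-!
Perfect 2-codes that fill a fixed share of the orbits of a group of isometries, part C:
the root difference divides `r * x` unless the share is small.
-/

set_option autoImplicit false

namespace Pool.Agent.Lib.MP_68c55c_lc.Tr

open Finset MulAction

variable {q n : ℕ}

lemma sizeW {q n s l r c Q u v w P : ℕ} (hq2 : 2 ≤ q) (hs : 2 ≤ s) (hQ : 2 ≤ Q)
    (e2 : 4 * ((q : ℤ) - 1) * ((n : ℤ) - 2) = (q : ℤ) ^ 2 * ((s : ℤ) ^ 2 - 1))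
    (hsw : s = v * w) (hu : u ≤ r) (hPw : P * u ≤ w ^ 2) (hf : q + 25 ≤ 25 * w ^ 4)
    (hc1 : 2 * Q ≤ 3 * (c * (Q - 1))) (hc2 : 4 * Q ≤ P * (c * (Q - 1)))
    (h : c * (Q - 1) * (n - 1) ≤ l * u * Q * v ^ 2) :
    q < l ∧ q ^ 3 < 900 * (l * r) ^ 2 := by
  have hs' : (2 : ℤ) ≤ s := by exact_mod_cast hs
  have hq' : (2 : ℤ) ≤ q := by exact_mod_cast hq2
  obtain ⟨ν, hν⟩ : ((q : ℤ) - 1) ∣ (s : ℤ) ^ 2 - 1 := by
    have h1 : ((q : ℤ) - 1) ∣ (q : ℤ) ^ 2 * ((s : ℤ) ^ 2 - 1) :=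
      ⟨4 * ((n : ℤ) - 2), by linear_combination -e2⟩
    have h2 : IsCoprime ((q : ℤ) - 1) (q : ℤ) := ⟨-1, 1, by ring⟩
    exact (h2.pow_right (n := 2)).dvd_of_dvd_mul_left h1
  have hν1 : 1 ≤ ν := by
    by_contra h
    nlinarith [mul_nonneg (by linarith : (0 : ℤ) ≤ q - 1) (by linarith : 0 ≤ -ν)]
  have h1 : 4 * ((n : ℤ) - 2) = q ^ 2 * ν := by
    have h2 : ((q : ℤ) - 1) * (4 * ((n : ℤ) - 2) - q ^ 2 * ν) = 0 := by
      linear_combination e2 + (q : ℤ) ^ 2 * hν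
    linarith [(mul_eq_zero.1 h2).resolve_left (by linarith)]
  have h2 : (q : ℤ) * s ^ 2 ≤ 4 * ((n : ℤ) - 2) := by
    rw [h1]
    have : (s : ℤ) ^ 2 ≤ q * ν := by nlinarith
    nlinarith
  have h3 : q * s ^ 2 < 4 * (n - 1) := by
    have h4 : (0 : ℤ) ≤ (q : ℤ) * s ^ 2 := by positivity
    obtain ⟨n', rfl⟩ : ∃ n', n = n' + 1 := ⟨n - 1, by omega⟩
    rw [Nat.add_sub_cancel]
    push_cast at h2
    have : (q : ℤ) * s ^ 2 < 4 * n' := by linarith
    exact_mod_cast this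
  generalize c * (Q - 1) = E at hc1 hc2 h
  generalize n - 1 = N at h h3
  have hE : 0 < E := by omega
  have hv : 0 < v := by
    rcases Nat.eq_zero_or_pos v with rfl | h
    · omega
    · exact h
  have h4 : q * w ^ 2 * E < 4 * (l * u * Q) := by
    refine Nat.lt_of_mul_lt_mul_right (a := v ^ 2) ?_
    calc q * w ^ 2 * E * v ^ 2 = q * s ^ 2 * E := by rw [hsw]; ring
      _ < 4 * N * E := Nat.mul_lt_mul_of_pos_right h3 hE
      _ = 4 * (E * N) := by ring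
      _ ≤ 4 * (l * u * Q * v ^ 2) := Nat.mul_le_mul_left _ h
      _ = _ := by ring
  constructor
  · refine Nat.lt_of_mul_lt_mul_right (a := 4 * (u * Q)) ?_
    calc q * (4 * (u * Q)) = q * u * (4 * Q) := by ring
      _ ≤ q * u * (P * E) := Nat.mul_le_mul_left _ hc2
      _ = q * (P * u) * E := by ring
      _ ≤ q * w ^ 2 * E := Nat.mul_le_mul_right _ (Nat.mul_le_mul_left _ hPw)
      _ < _ := h4
      _ = _ := by ring
  · have h5 : q * w ^ 2 < 6 * (l * r) := by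
      refine Nat.lt_of_mul_lt_mul_right (a := 2 * Q) ?_
      calc q * w ^ 2 * (2 * Q) ≤ q * w ^ 2 * (3 * E) := Nat.mul_le_mul_left _ hc1
        _ = 3 * (q * w ^ 2 * E) := by ring
        _ < 3 * (4 * (l * u * Q)) := by omega
        _ = 12 * Q * l * u := by ring
        _ ≤ 12 * Q * l * r := Nat.mul_le_mul_left _ hu
        _ = _ := by ring
    calc q ^ 3 = q ^ 2 * q := by ring
      _ ≤ q ^ 2 * (25 * w ^ 4) := Nat.mul_le_mul_left _ (by omega)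
      _ = 25 * (q * w ^ 2) ^ 2 := by ring
      _ < 25 * (6 * (l * r)) ^ 2 := by
        have := Nat.pow_lt_pow_left h5 two_ne_zero
        omega
      _ = _ := by ring

theorem mainW (K : Finset (Fin n → Fin q))
    (hK : ∀ x : Fin n → Fin q, ∃! c : Fin n → Fin q, c ∈ K ∧ hammingDist x c ≤ 2)
    (hq : ¬ IsPrimePow q) (hq2 : 2 ≤ q) (h2 : 2 ≤ K.card) (r l : ℕ) (hr : 1 ≤ r) (hl : 1 ≤ l)
    (G : Subgroup (Equiv.Perm (Fin n → Fin q)))
    (hG : ∀ g ∈ G, ∃ (σ : Equiv.Perm (Fin n)) (π : Fin n → Equiv.Perm (Fin q)),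
      ∀ z i, g z i = π i (z (σ i)))
    (horb : ∀ c ∈ K, K.card ∣ r * ((K : Set (Fin n → Fin q)) ∩ orbit G c).ncard)
    (hshare : ∀ c ∈ K,
      (orbit G c).ncard ∣ l * ((K : Set (Fin n → Fin q)) ∩ orbit G c).ncard) :
    q + 25 ≤ 25 * r ^ 4 ∨ (q < l ∧ q ^ 3 < 900 * (l * r) ^ 2) := by
  have hn := three_le K hK h2
  obtain ⟨s, x, hs, hx, e1, e2, e3, e4, e5⟩ := params_rad K hK hq2 h2
  by_cases hsr : s ∣ r * x
  · exact Or.inl (finish hq hq2 hr hs e1 e2 e3 hsr)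
  right
  obtain ⟨ω, hω1, hω2, hω3, hω4⟩ := exists_weight K hK G hG l hshare
  have e1' : 4 * (x : ℤ) + 2 * s + q = q * s ^ 2 + 6 := by exact_mod_cast e1
  have hq0 : (q : ℤ) ≠ 0 := by exact_mod_cast (by omega : q ≠ 0)
  have hLL : ∀ i : ℤ, 16 * LL q n i = 16 * (q ^ 2 * ((i - x) * (i - x - s))) := by
    intro i
    unfold LL
    have f1 : 2 * ((q : ℤ) * (2 * x + s)) = 2 * (2 * n * (q - 1) + 4 - q) := by
      linear_combination (q : ℤ) * e1' - e2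
    linear_combination 8 * q * i * f1 - 4 * e2 -
      2 * ((q : ℤ) * (2 * x + s) + (2 * n * (q - 1) + 4 - q)) * f1
  have hroot : ∀ i : ℕ, LL q n i = 0 → i = x ∨ i = x + s := by
    intro i hi
    have h8 := hLL i
    rw [hi, mul_zero] at h8
    have := (mul_eq_zero.1 h8.symm).resolve_left (by norm_num)
    rcases mul_eq_zero.1 ((mul_eq_zero.1 this).resolve_left (pow_ne_zero 2 hq0)) with h | h
    · left; omega
    · right; omega
  have hpack : K.card * (q ^ 2 * (x * (x + s))) = 2 * q ^ n := by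
    obtain ⟨w, hw⟩ := Int.even_mul_pred_self (n : ℤ)
    have hV : LL q n 0 = 2 * (1 + n * (q - 1) + w * (q - 1) ^ 2) := by
      unfold LL; linear_combination ((q : ℤ) - 1) ^ 2 * hw
    have hM := (lloyd K hK hq2 (by omega) _ hV).1
    have h0 := hLL 0
    have : (K.card : ℤ) * (q ^ 2 * (x * (x + s))) = 2 * q ^ n := by
      rw [← hM]
      have : (q : ℤ) ^ 2 * (x * (x + s)) = 2 * (1 + n * (q - 1) + w * (q - 1) ^ 2) := by
        rw [← hV]; linarith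
      rw [this]; ring
    exact_mod_cast this
  obtain ⟨p, k, hp, hk, hnd⟩ : ∃ p k : ℕ, p.Prime ∧ p ^ k ∣ s ∧ ¬ p ^ k ∣ r * x := by
    by_contra hcon
    push Not at hcon
    exact hsr ((Nat.dvd_iff_prime_pow_dvd_dvd _ _).2 hcon)
  obtain ⟨t, x', hx', rfl⟩ := Nat.exists_eq_pow_mul_and_not_dvd (by omega : x ≠ 0) p hp.ne_one
  obtain ⟨ρ, r', hr', rfl⟩ := Nat.exists_eq_pow_mul_and_not_dvd (by omega : r ≠ 0) p hp.ne_one
  have hle : ¬ k ≤ ρ + t := fun hle => hnd ((pow_dvd_pow p hle).trans ⟨r' * x', by ring⟩)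
  obtain ⟨s', rfl⟩ : p ^ (ρ + t + 1) ∣ s := (pow_dvd_pow p (by omega)).trans hk
  have hps : p ∣ p ^ (ρ + t + 1) * s' := ⟨p ^ (ρ + t) * s', by ring⟩
  have hpq : p ∣ q := by
    rcases (Nat.Prime.dvd_mul hp).1 (hps.trans e4) with h | h
    · rcases (Nat.Prime.dvd_mul hp).1 ((h.mul_right _).trans e3) with h' | h'
      · obtain rfl := (Nat.prime_dvd_prime_iff_eq hp Nat.prime_two).1 h'
        obtain ⟨u, hu⟩ := hps
        rw [hu] at e1
        have : q * (2 * u) ^ 2 = 2 * (2 * q * u ^ 2) := by ring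
        omega
      · exact hp.dvd_of_dvd_pow h'
    · exact hp.dvd_of_dvd_pow (h.trans e5)
  obtain ⟨a, m, hm, hqm⟩ := Nat.exists_eq_pow_mul_and_not_dvd (by omega : q ≠ 0) p hp.ne_one
  have ha : a ≠ 0 := by
    rintro rfl
    rw [pow_zero, one_mul] at hqm
    exact hm (hqm ▸ hpq)
  have hpQ : p ≤ p ^ a := Nat.le_self_pow ha p
  have hQ : 2 ≤ p ^ a := hp.two_le.trans hpQ
  obtain ⟨κ, u, hu, hKu⟩ := Nat.exists_eq_pow_mul_and_not_dvd (by omega : K.card ≠ 0) p hp.ne_one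
  obtain ⟨v, l', hl', hlv⟩ := Nat.exists_eq_pow_mul_and_not_dvd (by omega : l ≠ 0) p hp.ne_one
  have hcop : ∀ v e, ¬ p ∣ v → Nat.Coprime (p ^ e) v := fun v e hv =>
    ((Nat.Prime.coprime_iff_not_dvd hp).2 hv).pow_left e
  obtain ⟨O, hO, hW⟩ := exists_boxW G hG ω hω1 p hp a m (v + κ - ρ) hqm hm (by
    intro z
    rw [hω2]
    rcases ((K : Set (Fin n → Fin q)) ∩ orbit G z).eq_empty_or_nonempty with h | ⟨c, hc, hc'⟩
    · rw [h]; simp
    have h1 := horb c hc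
    rw [orbit_eq_iff.2 hc', hKu] at h1
    generalize ((K : Set (Fin n → Fin q)) ∩ orbit G z).ncard = I at h1
    rcases le_total (v + κ) ρ with h | h
    · rw [Nat.sub_eq_zero_of_le h]; simp
    · obtain ⟨d, hd⟩ := Nat.exists_eq_add_of_le h
      rw [hd, Nat.add_sub_cancel_left]
      have h3 : p ^ ρ * p ^ d ∣ p ^ ρ * (r' * (l * I)) := by
        rw [← pow_add, ← hd, pow_add, hlv]
        calc p ^ v * p ^ κ ∣ p ^ v * (p ^ ρ * r' * I) :=
              Nat.mul_dvd_mul_left _ ((Dvd.intro _ rfl).trans h1)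
          _ ∣ _ := ⟨l', by ring⟩
      exact (hcop r' d hr').dvd_of_dvd_mul_left
        (Nat.dvd_of_mul_dvd_mul_left (pow_pos hp.pos ρ) h3))
  have hκ : p ^ (v + κ) ∣ p ^ (v + κ - ρ) * p ^ ρ := by
    rw [← pow_add]; exact pow_dvd_pow p (by omega)
  generalize v + κ - ρ = e at hW hκ
  have hs' : 1 ≤ s' := by
    rcases Nat.eq_zero_or_pos s' with rfl | h
    · simp at hs
    · exact h
  by_cases hfar : ∀ z, ω z ≠ 0 → 2 ≤ out O z
  · exfalso
    have h1 := coreW ω l hω3 m (p ^ a) hqm O hO _ _ (p ^ e) (by omega) hx hroot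
      (fun j => hW fun i => i = j) hfar
    rw [hω4, hKu, hlv] at h1
    have h3 : p ^ (t + (v + κ)) * p ∣ p ^ (t + (v + κ)) * (x' * (l' * u)) := by
      calc p ^ (t + (v + κ)) * p = p ^ (t + 1) * p ^ (v + κ) := by ring
        _ ∣ p ^ (t + 1) * (p ^ e * p ^ ρ) := Nat.mul_dvd_mul_left _ hκ
        _ ∣ p ^ (ρ + t + 1) * s' * p ^ e := ⟨s', by ring⟩
        _ ∣ _ := h1
        _ = _ := by ring
    have h4 := Nat.dvd_of_mul_dvd_mul_left (pow_pos hp.pos _) h3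
    simp only [hp.dvd_mul] at h4
    rcases h4 with h | h | h
    · exact hx' h
    · exact hl' h
    · exact hu h
  push Not at hfar
  obtain ⟨z, hz0, hz1⟩ := hfar
  have h1 := countW ω l hω3 (p ^ a) (by omega) O hO
  have h3 : p ^ e ≤ ∑ z ∈ univ.filter (fun z => out O z ≤ 1), ω z := by
    refine Nat.le_of_dvd ?_ (hW fun j => j ≤ 1)
    exact lt_of_lt_of_le (Nat.pos_of_ne_zero hz0)
      (single_le_sum (f := ω) (fun _ _ => Nat.zero_le _)
        (mem_filter.2 ⟨mem_univ z, by omega⟩))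
  have hy : ¬ p ∣ x' + p ^ (ρ + 1) * s' := by
    intro h
    exact hx' ((Nat.dvd_add_left ⟨p ^ ρ * s', by ring⟩).1 h)
  obtain ⟨c, ε, hcε, hc2, hc3, hc4⟩ : ∃ c ε : ℕ, c = p ^ ε ∧ c ∣ 2 ∧
      2 * p ^ a ≤ 3 * (c * (p ^ a - 1)) ∧ 4 * p ^ a ≤ p ^ 2 * (c * (p ^ a - 1)) := by
    rcases hp.eq_two_or_odd' with rfl | hodd
    · exact ⟨2, 1, by norm_num, dvd_rfl, by omega, by omega⟩
    · have h5 : 3 ≤ p := by
        have := hp.two_le
        obtain ⟨u, hu⟩ := hodd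
        omega
      have h6 : 9 ≤ p ^ 2 := by nlinarith
      refine ⟨1, 0, by norm_num, one_dvd _, by omega, ?_⟩
      calc 4 * p ^ a ≤ 9 * (1 * (p ^ a - 1)) := by omega
        _ ≤ _ := Nat.mul_le_mul_right _ h6
  have h4 : c * (p ^ a) ^ n ∣ p ^ κ * (p ^ a) ^ 2 * p ^ (2 * t) := by
    have h5 : c * (p ^ a) ^ n ∣ p ^ κ * (p ^ a) ^ 2 * p ^ (2 * t) *
        (u * (m ^ 2 * (x' * (x' + p ^ (ρ + 1) * s')))) := by
      obtain ⟨c', hc'⟩ := hc2
      refine ⟨c' * m ^ n, ?_⟩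
      have h6 : 2 * q ^ n = c * (p ^ a) ^ n * (c' * m ^ n) := by rw [hqm, mul_pow, hc']; ring
      rw [← h6, ← hpack, hKu]
      nth_rewrite 1 [hqm]
      ring
    rw [hcε, ← pow_mul, ← pow_add] at h5 ⊢
    refine (hcop _ _ ?_).dvd_of_dvd_mul_right h5
    simp only [hp.dvd_mul, not_or]
    exact ⟨hu, fun h => hm (hp.dvd_of_dvd_pow h), hx', hy⟩
  have hκ' : p ^ κ ∣ p ^ e * p ^ ρ := (pow_dvd_pow p (by omega)).trans hκ
  have h5 := Nat.le_of_dvd (by have := hp.pos; positivity)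
    (h4.trans (Nat.mul_dvd_mul_right (Nat.mul_dvd_mul_right hκ' _) _))
  have h6 : p ^ e * p ^ a * (c * (p ^ a - 1) * (n - 1)) ≤
      p ^ e * p ^ a * (l * p ^ ρ * p ^ a * (p ^ t) ^ 2) := by
    calc _ = c * (p ^ e * (p ^ a * ((n - 1) * (p ^ a - 1)))) := by ring
      _ ≤ c * (l * (p ^ a) ^ n) :=
        Nat.mul_le_mul_left _ ((Nat.mul_le_mul_right _ h3).trans h1)
      _ = l * (c * (p ^ a) ^ n) := by ring
      _ ≤ _ := Nat.mul_le_mul_left _ h5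
      _ = _ := by ring
  have h7 := Nat.le_of_mul_le_mul_left h6 (by have := hp.pos; positivity)
  have hw1 : 1 ≤ p ^ (ρ + 1) * s' := Nat.mul_pos (pow_pos hp.pos _) hs'
  have hf := finish (r := p ^ (ρ + 1) * s') hq hq2 hw1 hs e1 e2 e3 ⟨x', by ring⟩
  have hr1 : 1 ≤ r' := by
    rcases Nat.eq_zero_or_pos r' with rfl | h
    · simp at hr
    · exact h
  refine sizeW (v := p ^ t) (w := p ^ (ρ + 1) * s') (u := p ^ ρ) (P := p ^ 2) hq2 hs hQ e2
    (by ring) (Nat.le_mul_of_pos_right _ hr1) ?_ hf hc3 hc4 h7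
  calc p ^ 2 * p ^ ρ = p ^ 2 * p ^ ρ * 1 := by ring
    _ ≤ p ^ 2 * p ^ ρ * (p ^ ρ * s' ^ 2) :=
      Nat.mul_le_mul_left _ (by have := hp.pos; exact Nat.one_le_iff_ne_zero.2 (by positivity))
    _ = _ := by ring

end Pool.Agent.Lib.MP_68c55c_lc.Tr
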