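import Pool.Agent.Lib.MP_68c55c_lc.Even
import Pool.Agent.Lib.MP_68c55c_lc.Params

/-!
The arithmetic conditions have no solution when the alphabet size has two prime factors.
-/

set_option autoImplicit false

namespace Pool.Agent.Lib.MP_68c55c_lc

lemma one_prime {pA pB a b n y : ℕ} (hA : pA.Prime) (hB : pB.Prime) (hy : 2 < y)
    (h : y ∣ 2 * (pA ^ a * pB ^ b) ^ n) (hn : ¬ pB ∣ y) :
    ∃ α, 1 ≤ α ∧ pA ^ α ∣ y ∧ y ∣ 2 * pA ^ α := by
  obtain ⟨α, y', h1, h2⟩ := Nat.exists_eq_pow_mul_and_not_dvd (n := y) (by omega) pA hA.ne_one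
  have c1 : Nat.Coprime y' pA := ((Nat.Prime.coprime_iff_not_dvd hA).2 h1).symm
  have c2 : Nat.Coprime y' pB :=
    ((Nat.Prime.coprime_iff_not_dvd hB).2 fun h' => hn (h2 ▸ h'.mul_left _)).symm
  have c3 : Nat.Coprime y' ((pA ^ a * pB ^ b) ^ n) :=
    ((c1.pow_right a).mul_right (c2.pow_right b)).pow_right n
  have h3 : y' ∣ 2 := c3.dvd_of_dvd_mul_right ((Dvd.intro_left _ h2.symm).trans h)
  have h4 : y ∣ 2 * pA ^ α := by
    rw [h2, mul_comm]; exact Nat.mul_dvd_mul_right h3 _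
  refine ⟨α, ?_, Dvd.intro _ h2.symm, h4⟩
  by_contra h5
  have : α = 0 := by omega
  rw [this, pow_zero] at h4
  have := Nat.le_of_dvd (by norm_num) h4
  omega

lemma split_primes {p1 p2 a b n y z : ℕ} (h1 : p1.Prime) (h2 : p2.Prime) (hne : p1 ≠ p2)
    (ha : 1 ≤ a) (hb : 1 ≤ b) (hy : 2 < y) (hz : 2 < z) (hc : Nat.Coprime y z)
    (h : y * z ∣ 2 * (p1 ^ a * p2 ^ b) ^ n) :
    ∃ pA pB a' b' α β : ℕ, pA.Prime ∧ pB.Prime ∧ pA ≠ pB ∧ 1 ≤ a' ∧ 1 ≤ b' ∧
      p1 ^ a * p2 ^ b = pA ^ a' * pB ^ b' ∧ 1 ≤ α ∧ 1 ≤ β ∧ pA ^ α ∣ y ∧ y ∣ 2 * pA ^ α ∧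
      pB ^ β ∣ z ∧ z ∣ 2 * pB ^ β := by
  have hy1 : y ∣ 2 * (p1 ^ a * p2 ^ b) ^ n := (Dvd.intro _ rfl).trans h
  have hz1 : z ∣ 2 * (p1 ^ a * p2 ^ b) ^ n := (Dvd.intro_left _ rfl).trans h
  have hy2 : y ∣ 2 * (p2 ^ b * p1 ^ a) ^ n := by rwa [mul_comm (p2 ^ b)]
  have hz2 : z ∣ 2 * (p2 ^ b * p1 ^ a) ^ n := by rwa [mul_comm (p2 ^ b)]
  have hnot : ∀ p : ℕ, p.Prime → p ∣ y → ¬ p ∣ z := fun p hp h3 h4 => by
    have := Nat.dvd_gcd h3 h4
    rw [hc] at this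
    exact hp.one_lt.ne' (Nat.dvd_one.1 this)
  by_cases h3 : p2 ∣ y
  · obtain ⟨β, hβ, h4, h5⟩ := one_prime h1 h2 hz hz1 (hnot p2 h2 h3)
    have h6 : ¬ p1 ∣ y := fun h6 => hnot p1 h1 h6 ((dvd_pow_self p1 (by omega)).trans h4)
    obtain ⟨α, hα, h7, h8⟩ := one_prime h2 h1 hy hy2 h6
    exact ⟨p2, p1, b, a, α, β, h2, h1, hne.symm, hb, ha, mul_comm _ _, hα, hβ, h7, h8, h4, h5⟩
  · obtain ⟨α, hα, h4, h5⟩ := one_prime h1 h2 hy hy1 h3
    have h6 : ¬ p1 ∣ z := hnot p1 h1 ((dvd_pow_self p1 (by omega)).trans h4)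
    obtain ⟨β, hβ, h7, h8⟩ := one_prime h2 h1 hz hz2 h6
    exact ⟨p1, p2, a, b, α, β, h1, h2, hne, ha, hb, rfl, hα, hβ, h4, h5, h7, h8⟩

lemma exp_le {pA pB a b α M K : ℕ} (hA : pA.Prime) (hB : pB.Prime)
    (h1 : (pA ^ a * pB ^ b) ^ M ≤ K) (h2 : K < 2 * pA ^ α) : a * M ≤ α := by
  by_contra h
  have h3 : pA ^ (α + 1) ≤ pA ^ (a * M) := Nat.pow_le_pow_right hA.pos (by omega)
  have h4 : pA ^ (a * M) ≤ (pA ^ a * pB ^ b) ^ M := by
    rw [mul_pow, ← pow_mul]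
    exact Nat.le_mul_of_pos_right _ (by have := hB.pos; positivity)
  have h5 : 2 * pA ^ α ≤ pA ^ (α + 1) := by
    rw [pow_succ']; exact Nat.mul_le_mul_right _ hA.two_le
  omega

lemma odd_case {pA pB a b α β q K s X Y : ℕ} (hA : pA.Prime) (hB : pB.Prime)
    (ha : 1 ≤ a) (hb : 1 ≤ b) (hq : q = pA ^ a * pB ^ b) (hq10 : 10 ≤ q) (hα : 1 ≤ α)
    (hβ : 1 ≤ β) (hX : pA ^ α ∣ X) (hY : pB ^ β ∣ Y) (hXY : X * Y = ff q K)
    (h1 : K < 2 * pA ^ α) (h2 : K < 2 * pB ^ β) (hK0 : K ≠ 0) (hK : K < q ^ 8)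
    (h3 : q - 1 ∣ K) (hs : s ^ 2 = 4 * K + 1) : False := by
  have hl1 : q ^ Nat.log q K ≤ K := Nat.pow_log_le_self q hK0
  have hl2 : K < q ^ (Nat.log q K + 1) := Nat.lt_pow_succ_log_self (by omega) K
  generalize Nat.log q K = M at hl1 hl2
  have hM : M ≤ 7 := by
    by_contra h
    have : q ^ 8 ≤ q ^ M := Nat.pow_le_pow_right (by omega) (by omega)
    omega
  have e1 : a * M ≤ α := exp_le hA hB (hq ▸ hl1) h1
  have e2 : b * M ≤ β := exp_le hB hA (by rw [mul_comm (pB ^ b), ← hq]; exact hl1) h2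
  refine digits_odd hq10 hM hl1 hl2 h3 hs ?_ ?_
  · rw [← hXY, hq, mul_pow, ← pow_mul, ← pow_mul]
    exact Nat.mul_dvd_mul ((pow_dvd_pow _ e1).trans hX) ((pow_dvd_pow _ e2).trans hY)
  · have hG : pA ^ min α (a * (M + 1)) * pB ^ min β (b * (M + 1)) ∣
        Nat.gcd (ff q K) (q ^ (M + 1)) := by
      refine Nat.dvd_gcd ?_ ?_
      · rw [← hXY]
        exact Nat.mul_dvd_mul ((pow_dvd_pow _ (min_le_left _ _)).trans hX)
          ((pow_dvd_pow _ (min_le_left _ _)).trans hY)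
      · rw [hq, mul_pow, ← pow_mul, ← pow_mul]
        exact Nat.mul_dvd_mul (pow_dvd_pow _ (min_le_right _ _))
          (pow_dvd_pow _ (min_le_right _ _))
    refine lt_of_lt_of_le ?_ (Nat.le_of_dvd (Nat.gcd_pos_of_pos_right _ (by positivity)) hG)
    have pa : 1 ≤ a * (M + 1) := Nat.mul_pos ha (by omega)
    have pb : 1 ≤ b * (M + 1) := Nat.mul_pos hb (by omega)
    have gA : 2 ≤ pA ^ min α (a * (M + 1)) :=
      hA.two_le.trans (Nat.le_self_pow (by omega) pA)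
    have gB : 2 ≤ pB ^ min β (b * (M + 1)) :=
      hB.two_le.trans (Nat.le_self_pow (by omega) pB)
    rcases le_total α (a * (M + 1)) with c1 | c1
    · rw [min_eq_left c1]
      calc K < 2 * pA ^ α := h1
        _ = pA ^ α * 2 := mul_comm _ _
        _ ≤ _ := Nat.mul_le_mul_left _ gB
    · rcases le_total β (b * (M + 1)) with c2 | c2
      · rw [min_eq_left c2]
        exact h2.trans_le (Nat.mul_le_mul_right _ gA)
      · rw [min_eq_right c1, min_eq_right c2, pow_mul, pow_mul, ← mul_pow, ← hq]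
        exact hl2

lemma even_case {p b β m s : ℕ} (hp : p.Prime) (hb : 1 ≤ b) (hm : m = p ^ b) (hm5 : 5 ≤ m)
    (hmo : m % 2 = 1) (hs2 : 2 ≤ s) (hse : s % 2 = 0) (hd : 2 * m - 1 ∣ s ^ 2 - 1)
    (h1 : s ^ 2 < 2 * p ^ β) (h4 : s < m ^ 4) (hex : ¬ (m = 11 ∧ s = 8)) {η : ℤ}
    (hη : η = 1 ∨ η = -1) (h : (p : ℤ) ^ β ∣ m * s ^ 2 + η * s - m + 3) : False := by
  have hp3 : 3 ≤ p := by
    have := hp.two_le
    by_contra h3
    have h2 : p = 2 := by omega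
    have : 2 ∣ m := by rw [hm, h2]; exact dvd_pow_self 2 (by omega)
    omega
  have hL1 : b * (β / b) ≤ β := Nat.mul_div_le β b
  have hL2 : β + 1 ≤ b * (β / b + 1) := Nat.lt_mul_div_succ β hb
  generalize β / b = L at hL1 hL2
  have h5 : 3 * s ^ 2 < 2 * m ^ (L + 1) := by
    have h6 : p ^ (β + 1) ≤ m ^ (L + 1) := by
      rw [hm, ← pow_mul]; exact Nat.pow_le_pow_right hp.pos hL2
    have h7 : 3 * p ^ β ≤ p ^ (β + 1) := by rw [pow_succ']; exact Nat.mul_le_mul_right _ hp3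
    omega
  have h6 : 2 * m - 1 ≤ s ^ 2 - 1 := Nat.le_of_dvd (by
    have : 4 ≤ s ^ 2 := by nlinarith
    omega) hd
  have hL0 : 1 ≤ L := by
    by_contra h0
    have : L = 0 := by omega
    rw [this] at h5
    simp only [zero_add, pow_one] at h5
    omega
  refine digits_even (L := min L 5) hm5 hmo (by omega) (by omega) hs2 hse hd ?_ hη ?_
  · unfold sizeE
    split_ifs with c1 c2
    · have : L = 1 := by omega
      rw [this] at h5
      exact ⟨h5, hex⟩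
    · have : L = 2 := by omega
      rw [this, show 2 + 1 = 3 by norm_num] at h5
      omega
    · rcases le_total 5 L with c3 | c3
      · rw [min_eq_right c3]; exact h4
      · rw [min_eq_left c3] at c1 c2 ⊢
        have h7 : m ^ (L + 1) ≤ (m ^ (L - 1)) ^ 2 := by
          rw [← pow_mul]; exact Nat.pow_le_pow_right (by omega) (by omega)
        exact lt_of_pow_lt_pow_left₀ 2 (Nat.zero_le _) (by omega)
  · refine Dvd.dvd.trans ?_ h
    rw [hm]; push_cast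
    rw [← pow_mul]
    exact pow_dvd_pow _ ((Nat.mul_le_mul_left b (min_le_left _ _)).trans hL1)

lemma six_case {n s x : ℕ} (hs : 2 ≤ s) (h1 : 4 * x + 2 * s + 6 = 6 * s ^ 2 + 6)
    (h2 : x * (x + s) ∣ 2 * 6 ^ n) : False := by
  obtain ⟨u, rfl⟩ : ∃ u, s = u + 1 := ⟨s - 1, by omega⟩
  have e : 4 * (x * (x + (u + 1))) = (u + 1) ^ 2 * ((3 * u + 2) * (3 * u + 4)) := by
    have e1 : 2 * x = (u + 1) * (3 * u + 2) := by nlinarith
    calc 4 * (x * (x + (u + 1))) = 2 * x * (2 * x + 2 * (u + 1)) := by ring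
      _ = _ := by rw [e1]; ring
  have h3 : (3 * u + 2) * (3 * u + 4) ∣ 2 ^ (n + 3) * 3 ^ n := by
    have : 2 ^ (n + 3) * 3 ^ n = 4 * (2 * 6 ^ n) := by
      rw [show (6 : ℕ) = 2 * 3 by norm_num, mul_pow]; ring
    rw [this]
    exact (Dvd.intro_left _ e.symm).trans (Nat.mul_dvd_mul_left 4 h2)
  have c1 : Nat.Coprime (3 * u + 2) 3 :=
    ((Nat.Prime.coprime_iff_not_dvd Nat.prime_three).2 (by omega)).symm
  have c2 : Nat.Coprime (3 * u + 4) 3 :=
    ((Nat.Prime.coprime_iff_not_dvd Nat.prime_three).2 (by omega)).symm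
  have h4 := ((c1.mul_left c2).pow_right n).dvd_of_dvd_mul_right h3
  obtain ⟨i, -, hi⟩ := (Nat.dvd_prime_pow Nat.prime_two).1 ((Dvd.intro _ rfl).trans h4)
  obtain ⟨j, -, hj⟩ := (Nat.dvd_prime_pow Nat.prime_two).1 ((Dvd.intro_left _ rfl).trans h4)
  have four : ∀ k : ℕ, 4 < 2 ^ k → 4 ∣ 2 ^ k := by
    intro k hk
    rcases k with _ | _ | k
    · omega
    · omega
    · exact ⟨2 ^ k, by ring⟩
  have h5 := four i (by omega)
  have h6 := four j (by omega)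
  omega

lemma cube1 {q t : ℤ} (hq : 10 ≤ q) (h : t ∣ (q - 2) * (q ^ 2 - 8 * q + 8)) : t < q ^ 3 := by
  have h2 : t ≤ (q - 2) * (q ^ 2 - 8 * q + 8) :=
    Int.le_of_dvd (mul_pos (by linarith) (by nlinarith)) h
  nlinarith

lemma cube2 {m t : ℤ} (hm : 5 ≤ m) (h : t ∣ (m - 1) * (m ^ 2 - 4 * m + 2)) : t < m ^ 3 := by
  have h2 : t ≤ (m - 1) * (m ^ 2 - 4 * m + 2) :=
    Int.le_of_dvd (mul_pos (by linarith) (by nlinarith)) h
  nlinarith

lemma big1 {q s y d : ℕ} (hq : 10 ≤ q) (hs4 : 4 ≤ s ^ 2) (hdle : d ≤ q - 6)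
    (e1 : 4 * (y * d) + 2 * s + q = q * s ^ 2 + 6) : s ^ 2 - 1 < 4 * y := by
  by_contra hcon
  have h1 : 4 * y * d ≤ (s ^ 2 - 1) * (q - 6) := Nat.mul_le_mul (by omega) hdle
  obtain ⟨u, hu⟩ : ∃ u, s ^ 2 = u + 1 := ⟨s ^ 2 - 1, by omega⟩
  obtain ⟨v, rfl⟩ : ∃ v, q = v + 6 := ⟨q - 6, by omega⟩
  have h2 : s ≤ s ^ 2 := Nat.le_self_pow (by norm_num) s
  rw [hu] at h1 e1 h2
  simp only [Nat.add_sub_cancel] at h1
  nlinarith

lemma big2 {m s y d : ℕ} (hm : 5 ≤ m) (hsq : 2 * m ≤ s ^ 2) (hdle : d ≤ m - 3)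
    (e5 : 2 * (y * d) + s + m = m * s ^ 2 + 3) : s ^ 2 < 2 * y := by
  by_contra hcon
  have h1 : 2 * y * d ≤ s ^ 2 * (m - 3) := Nat.mul_le_mul (by omega) hdle
  obtain ⟨v, rfl⟩ : ∃ v, m = v + 3 := ⟨m - 3, by omega⟩
  have h2 : s ≤ s ^ 2 := Nat.le_self_pow (by norm_num) s
  simp only [Nat.add_sub_cancel] at h1
  nlinarith

theorem two_primes {p1 p2 a b q n s x : ℕ} (hp1 : p1.Prime) (hp2 : p2.Prime) (hne : p1 ≠ p2)
    (ha : 1 ≤ a) (hb : 1 ≤ b) (hq : q = p1 ^ a * p2 ^ b) (hs : 2 ≤ s)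
    (e1 : 4 * x + 2 * s + q = q * s ^ 2 + 6)
    (e2 : 4 * ((q : ℤ) - 1) * ((n : ℤ) - 2) = (q : ℤ) ^ 2 * ((s : ℤ) ^ 2 - 1))
    (e3 : x * (x + s) ∣ 2 * q ^ n)
    (e4 : ∀ e : ℕ, e ∣ s → Nat.Coprime e q →
      (e : ℤ) ∣ ((q : ℤ) - 2) * ((q : ℤ) ^ 2 - 8 * q + 8)) : False := by
  by_cases h6 : q = 6
  · subst h6
    exact six_case hs e1 e3
  have hq10 : 10 ≤ q := by
    have d1 : p1 ∣ q := hq ▸ (dvd_pow_self p1 (by omega)).mul_right _
    have d2 : p2 ∣ q := hq ▸ (dvd_pow_self p2 (by omega)).mul_left _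
    have d3 : p1 * p2 ∣ q :=
      Nat.Coprime.mul_dvd_of_dvd_of_dvd ((Nat.coprime_primes hp1 hp2).2 hne) d1 d2
    have hq0 : 0 < q := by have := hp1.pos; have := hp2.pos; rw [hq]; positivity
    have d4 := Nat.le_of_dvd hq0 d3
    by_contra hlt
    have t1 := hp1.two_le
    have t2 := hp2.two_le
    have u1 : p1 < 5 := by nlinarith
    have u2 : p2 < 5 := by nlinarith
    have n4 : ¬ Nat.Prime 4 := by norm_num
    interval_cases p1 <;> interval_cases p2 <;>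
      first | omega | exact n4 hp1 | exact n4 hp2
  have hqz : (10 : ℤ) ≤ q := by exact_mod_cast hq10
  have hcq : IsCoprime ((q : ℤ) - 1) ((q : ℤ) ^ 2) :=
    IsCoprime.pow_right ⟨-1, 1, by ring⟩
  have hs4 : 4 ≤ s ^ 2 := by nlinarith
  have hd1 : q - 1 ∣ s ^ 2 - 1 := by
    have : ((q : ℤ) - 1) ∣ (s : ℤ) ^ 2 - 1 :=
      hcq.dvd_of_dvd_mul_left ⟨4 * ((n : ℤ) - 2), by linear_combination -e2⟩
    have h' : ((q - 1 : ℕ) : ℤ) ∣ ((s ^ 2 - 1 : ℕ) : ℤ) := by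
      push_cast [show 1 ≤ q by omega, show 1 ≤ s ^ 2 by omega]; exact this
    exact_mod_cast h'
  have hsq : q ≤ s ^ 2 := by
    have := Nat.le_of_dvd (by omega) hd1
    omega
  obtain ⟨y, t, hco, hx, ht⟩ := Nat.exists_coprime x s
  have hd0 : 0 < Nat.gcd x s := Nat.gcd_pos_of_pos_right _ (by omega)
  generalize Nat.gcd x s = d at hx ht hd0
  have hdq : d ∣ q - 6 := by
    have h1 : d ∣ q * s ^ 2 := by rw [ht]; exact ⟨q * t ^ 2 * d, by ring⟩
    have h2 : d ∣ 4 * x + 2 * s := by rw [hx, ht]; exact ⟨4 * y + 2 * t, by ring⟩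
    have h3 : q * s ^ 2 = 4 * x + 2 * s + (q - 6) := by omega
    rw [h3] at h1
    exact (Nat.dvd_add_right h2).1 h1
  have hdle : d ≤ q - 6 := Nat.le_of_dvd (by omega) hdq
  have hy : s ^ 2 - 1 < 4 * y := big1 hq10 hs4 hdle (hx ▸ e1)
  have hxs : x + s = (y + t) * d := by rw [hx, ht]; ring
  have hco2 : Nat.Coprime y (y + t) := by simpa using hco
  have hco3 : Nat.Coprime (y + t) t := by simpa using hco
  have hdv : y * (y + t) ∣ 2 * (p1 ^ a * p2 ^ b) ^ n := by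
    rw [← hq]
    refine Dvd.dvd.trans ?_ e3
    rw [hxs, hx]
    exact Nat.mul_dvd_mul (Dvd.intro _ rfl) (Dvd.intro _ rfl)
  obtain ⟨pA, pB, a', b', α, β, hA, hB, hAB, ha', hb', hq', hα, hβ, hA1, hA2, hB1, hB2⟩ :=
    split_primes hp1 hp2 hne ha hb (by omega) (by omega) hco2 hdv
  rw [← hq] at hq'
  have htq : Nat.Coprime t q := by
    rw [hq']
    exact ((hco.symm.coprime_dvd_right ((dvd_pow_self pA (by omega)).trans hA1)).pow_right _).mul_right
      ((hco3.symm.coprime_dvd_right ((dvd_pow_self pB (by omega)).trans hB1)).pow_right _)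
  have ht1 := e4 t (Dvd.intro _ ht.symm) htq
  have hyA : y ≤ 2 * pA ^ α := Nat.le_of_dvd (by have := hA.pos; positivity) hA2
  have hyB : y + t ≤ 2 * pB ^ β := Nat.le_of_dvd (by have := hB.pos; positivity) hB2
  have hXA : pA ^ α ∣ x := hx ▸ hA1.mul_right d
  have hXB : pB ^ β ∣ x + s := hxs ▸ hB1.mul_right d
  rcases Nat.even_or_odd' s with ⟨k, hk | hk⟩
  · -- even case
    have hq2 : 2 ∣ q := by
      have : q * s ^ 2 = 2 * (2 * q * k ^ 2) := by rw [hk]; ring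
      omega
    obtain ⟨m, rfl⟩ := hq2
    have hms : 2 * m * s ^ 2 = 2 * (m * s ^ 2) := by ring
    have hmo : m % 2 = 1 := by
      have : m * s ^ 2 = 2 * (2 * m * k ^ 2) := by rw [hk]; ring
      omega
    have e5 : 2 * x + s + m = m * s ^ 2 + 3 := by omega
    have hdm : d ∣ m - 3 := by
      have h1 : d ∣ m * s ^ 2 := by rw [ht]; exact ⟨m * t ^ 2 * d, by ring⟩
      have h2 : d ∣ 2 * x + s := by rw [hx, ht]; exact ⟨2 * y + t, by ring⟩
      have h3 : m * s ^ 2 = 2 * x + s + (m - 3) := by omega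
      rw [h3] at h1
      exact (Nat.dvd_add_right h2).1 h1
    have hdle' : d ≤ m - 3 := Nat.le_of_dvd (by omega) hdm
    have hy' : s ^ 2 < 2 * y := big2 (by omega) hsq hdle' (hx ▸ e5)
    have hsm : s < m ^ 4 := by
      have c2 : IsCoprime (t : ℤ) 8 := by
        have : Nat.Coprime t (2 ^ 3) := (htq.coprime_dvd_right (Dvd.intro m rfl)).pow_right 3
        exact_mod_cast Nat.isCoprime_iff_coprime.2 this
      have h1 : (t : ℤ) ∣ ((m : ℤ) - 1) * ((m : ℤ) ^ 2 - 4 * m + 2) := by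
        refine c2.dvd_of_dvd_mul_left ?_
        push_cast at ht1
        have : (2 * (m : ℤ) - 2) * ((2 * m) ^ 2 - 8 * (2 * m) + 8) =
          8 * (((m : ℤ) - 1) * ((m : ℤ) ^ 2 - 4 * m + 2)) := by ring
        rwa [this] at ht1
      have hmz : (5 : ℤ) ≤ m := by push_cast at hqz; linarith
      have h3 : (t : ℤ) < (m : ℤ) ^ 3 := cube2 hmz h1
      have h4 : t < m ^ 3 := by exact_mod_cast h3
      rw [ht, pow_succ m 3]
      exact Nat.mul_lt_mul'' h4 (by omega)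
    have hex : ¬ (m = 11 ∧ s = 8) := by
      rintro ⟨rfl, rfl⟩
      have : x = 344 := by omega
      subst this
      have h1 : 43 ∣ 2 * (2 * 11) ^ n := (by norm_num : 43 ∣ 344 * (344 + 8)).trans e3
      have h43 : Nat.Prime 43 := by norm_num
      rcases (Nat.Prime.dvd_mul h43).1 h1 with h | h
      · omega
      · have := h43.dvd_of_dvd_pow h
        omega
    have key : ∀ u v pp : ℕ, 2 * m = 2 ^ u * pp ^ v → 1 ≤ u → pp.Prime → pp ≠ 2 → m = pp ^ v := by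
      intro u v pp h1 hu _ _
      rcases u with _ | _ | u
      · omega
      · simp at h1; omega
      · exfalso
        have : 2 ^ (u + 1 + 1) * pp ^ v = 4 * (2 ^ u * pp ^ v) := by ring
        omega
    have h2q : 2 ∣ pA ^ a' * pB ^ b' := hq' ▸ Dvd.intro m rfl
    rcases (Nat.Prime.dvd_mul Nat.prime_two).1 h2q with h | h
    · have hA2' : pA = 2 :=
        ((Nat.prime_dvd_prime_iff_eq Nat.prime_two hA).1 (Nat.prime_two.dvd_of_dvd_pow h)).symm
      subst hA2'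
      have hm := key a' b' pB hq' ha' hB hAB.symm
      have c2 : Nat.Coprime (y + t) 2 :=
        hco2.symm.coprime_dvd_right ((dvd_pow_self 2 (by omega)).trans hA1)
      have h3 : y + t ≤ pB ^ β :=
        Nat.le_of_dvd (by have := hB.pos; positivity) (c2.dvd_of_dvd_mul_left hB2)
      refine even_case (β := β) hB hb' hm (by omega) hmo hs (by omega) hd1 (by omega) hsm hex
        (Or.inl rfl) ?_
      have h4 : ((pB ^ β : ℕ) : ℤ) ∣ ((x + s : ℕ) : ℤ) := by exact_mod_cast hXB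
      have e6 : 2 * (x : ℤ) + s + m = m * s ^ 2 + 3 := by exact_mod_cast e5
      have e7 : (m : ℤ) * s ^ 2 + 1 * s - m + 3 = 2 * (x + s) := by linarith
      rw [e7]
      push_cast at h4
      exact h4.mul_left 2
    · have hB2' : pB = 2 :=
        ((Nat.prime_dvd_prime_iff_eq Nat.prime_two hB).1 (Nat.prime_two.dvd_of_dvd_pow h)).symm
      subst hB2'
      have hm := key b' a' pA (by rw [hq', mul_comm]) hb' hA hAB
      have c2 : Nat.Coprime y 2 :=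
        hco2.coprime_dvd_right ((dvd_pow_self 2 (by omega)).trans hB1)
      have h3 : y ≤ pA ^ α :=
        Nat.le_of_dvd (by have := hA.pos; positivity) (c2.dvd_of_dvd_mul_left hA2)
      refine even_case (β := α) hA ha' hm (by omega) hmo hs (by omega) hd1 (by omega) hsm hex
        (Or.inr rfl) ?_
      have h4 : ((pA ^ α : ℕ) : ℤ) ∣ ((x : ℕ) : ℤ) := by exact_mod_cast hXA
      have e6 : 2 * (x : ℤ) + s + m = m * s ^ 2 + 3 := by exact_mod_cast e5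
      have e7 : (m : ℤ) * s ^ 2 + -1 * s - m + 3 = 2 * x := by linarith
      rw [e7]
      push_cast at h4
      exact h4.mul_left 2
  · -- odd case
    have hsK : s ^ 2 = 4 * (k ^ 2 + k) + 1 := by rw [hk]; ring
    have hk1 : 1 ≤ k := by omega
    have hKq : q - 1 ∣ k ^ 2 + k := by
      have : ((q : ℤ) - 1) ∣ (k : ℤ) ^ 2 + k := by
        refine hcq.dvd_of_dvd_mul_left ⟨(n : ℤ) - 2, ?_⟩
        have : (s : ℤ) = 2 * k + 1 := by exact_mod_cast hk
        rw [this] at e2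
        linarith
      have h' : ((q - 1 : ℕ) : ℤ) ∣ ((k ^ 2 + k : ℕ) : ℤ) := by
        push_cast [show 1 ≤ q by omega]; exact this
      exact_mod_cast h'
    have hff : x * (x + s) = ff q (k ^ 2 + k) := by
      have h1 : (x : ℤ) * (x + s) = (ff q (k ^ 2 + k) : ℤ) := by
        rw [ff_cast (by omega)]
        have e6 : 4 * (x : ℤ) + 2 * s + q = q * s ^ 2 + 6 := by exact_mod_cast e1
        have e7 : (s : ℤ) = 2 * k + 1 := by exact_mod_cast hk
        rw [e7] at e6 ⊢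
        have e8 : (x : ℤ) = q * (k ^ 2 + k) + 1 - k := by linarith
        rw [e8]; push_cast; ring
      exact_mod_cast h1
    have hs4' : s < q ^ 4 := by
      have h3 : (t : ℤ) < (q : ℤ) ^ 3 := cube1 hqz ht1
      have h4 : t < q ^ 3 := by exact_mod_cast h3
      rw [ht, pow_succ q 3]
      exact Nat.mul_lt_mul'' h4 (by omega)
    have hK8 : k ^ 2 + k < q ^ 8 := by
      have : s ^ 2 < (q ^ 4) ^ 2 := Nat.pow_lt_pow_left hs4' (by norm_num)
      rw [← pow_mul, show 4 * 2 = 8 by norm_num] at this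
      omega
    exact odd_case hA hB ha' hb' hq' hq10 hα hβ hXA hXB hff (by omega) (by omega)
      (by positivity) hK8 hKq hsK

end Pool.Agent.Lib.MP_68c55c_lc
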